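import Pool.Agent.L0h44.AS.Core3

set_option autoImplicit false

/-! The solutions `x` in an arbitrary set: the lower bound is sharp. -/

namespace Pool.Agent.L0h44.AS

open Finset Filter
open Pool.Agent.H373R2.T7 (pz Vz mem_pz Vz_pos)

lemma cube_le (w : ℕ) : w ^ 3 ≤ 4 ^ w := by
  induction w with
  | zero => norm_num
  | succ w ih =>
    rcases Nat.lt_or_ge w 2 with h | h
    · interval_cases w <;> norm_num
    · have h1 : (w + 1) ^ 3 ≤ 4 * w ^ 3 := by
        have h2 : w + 1 ≤ w + w / 2 + 1 := by omega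
        nlinarith [sq_nonneg (w : ℤ), mul_le_mul h h (by omega) (by omega), pow_pos (show 0 < w by omega) 2,
          mul_le_mul_of_nonneg_left h (show 0 ≤ w ^ 2 by positivity), mul_le_mul_of_nonneg_left h (show 0 ≤ w by positivity)]
      calc (w + 1) ^ 3 ≤ 4 * w ^ 3 := h1
        _ ≤ 4 * 4 ^ w := Nat.mul_le_mul_left _ ih
        _ = 4 ^ (w + 1) := by rw [pow_succ]; ring

theorem arb_sharp : ∃ C : ℝ, 0 < C ∧ ∀ B : ℕ, ∃ N0 : ℕ, ∀ N : ℕ, N0 ≤ N → ∀ α : ℝ, 1 / Real.log N ^ B ≤ α → α ≤ 1 →
    ∃ U : Finset ℕ, U ⊆ Icc 1 N ∧ α * N ≤ U.card ∧ ∀ V : Finset ℕ, V ⊆ Ioc N (2 * N) → (∀ n ∈ V, ∃ x ∈ U, pr x n) →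
      (V.card : ℝ) ≤ C * (N / Real.log (Real.log (16 / α)) ^ 2) := by
  classical
  obtain ⟨C2, hC21, hC2⟩ := class_count
  refine ⟨4 * (3 * C2 + 1) + 9, by linarith, fun B => ?_⟩
  obtain ⟨N0, hN0⟩ := ev_ineq B
  refine ⟨N0, fun N hN α hα hα1 => ?_⟩
  obtain ⟨hN3, hL1, _, hlogB⟩ := hN0 N hN
  have hNr : (3 : ℝ) ≤ N := by exact_mod_cast hN3
  have hNpos : (0 : ℝ) < N := by linarith
  have hα0 : 0 < α := lt_of_lt_of_le (by positivity) hα
  have hαN : 1 / α ≤ N := by
    rw [one_div_le hα0 hNpos]
    refine le_trans ?_ hα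
    apply div_le_div_of_nonneg_left (by norm_num) (by positivity)
    refine hlogB.trans ?_
    calc (N : ℝ) ^ (3 / 5 : ℝ) ≤ (N : ℝ) ^ (1 : ℝ) := Real.rpow_le_rpow_of_exponent_le (by linarith) (by norm_num)
      _ = N := Real.rpow_one _
  set a := Real.log (1 / α) with ha
  have hlog16 : Real.log 16 = 4 * Real.log 2 := by
    rw [show (16 : ℝ) = 2 ^ 4 by norm_num, Real.log_pow]; push_cast; rfl
  have hlog4 : Real.log 4 = 2 * Real.log 2 := by
    rw [show (4 : ℝ) = 2 ^ 2 by norm_num, Real.log_pow]; push_cast; rfl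
  have hl2 := Real.log_two_lt_d9
  have hl2' := Real.log_two_gt_d9
  have hta : Real.log (16 / α) = 4 * Real.log 2 + a := by
    rw [ha, ← hlog16, ← Real.log_mul (by norm_num) (by positivity)]
    congr 1
    ring
  have ha0 : 0 ≤ a := Real.log_nonneg (by rw [one_le_div hα0]; exact hα1)
  set t := Real.log (16 / α) with ht
  have ht1 : 2.77 ≤ t := by rw [hta]; linarith
  have hlt1 : 1 ≤ Real.log t := by
    rw [Real.le_log_iff_exp_le (by linarith)]
    have := Real.exp_one_lt_d9
    linarith
  have hNq : 0 ≤ (N : ℝ) / Real.log t ^ 2 := by positivity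
  by_cases hcase : a < 8 * Real.log 2
  · -- trivial case
    refine ⟨Icc 1 N, subset_rfl, ?_, ?_⟩
    · rw [Nat.card_Icc, Nat.add_sub_cancel]
      nlinarith
    · intro V hV _
      have h1 : (V.card : ℝ) ≤ N := by
        have := card_le_card hV
        rw [Nat.card_Ioc] at this
        exact_mod_cast (by omega : V.card ≤ N)
      have h2 : Real.log t ≤ 3 := by
        rw [Real.log_le_iff_le_exp (by linarith)]
        have h3 : t ≤ 9 := by rw [hta]; linarith
        have h4 : (9 : ℝ) ≤ Real.exp 3 := by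
          have h5 := Real.exp_one_gt_d9
          have h6 : Real.exp 3 = Real.exp 1 ^ 3 := by rw [← Real.exp_nat_mul]; norm_num
          rw [h6]
          calc (9 : ℝ) ≤ 2.7182818283 ^ 3 := by norm_num
            _ ≤ Real.exp 1 ^ 3 := pow_le_pow_left₀ (by norm_num) h5.le 3
        linarith
      have h3 : (N : ℝ) ≤ 9 * (N / Real.log t ^ 2) := by
        rw [← mul_div_assoc, le_div_iff₀ (by positivity)]
        have : Real.log t ^ 2 ≤ 9 := by nlinarith
        nlinarith
      calc (V.card : ℝ) ≤ N := h1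
        _ ≤ 9 * (N / Real.log t ^ 2) := h3
        _ ≤ _ := by
            apply mul_le_mul_of_nonneg_right _ hNq
            linarith
  · push Not at hcase
    obtain ⟨w, hw⟩ : ∃ w : ℕ, w = ⌊a / Real.log 4⌋₊ := ⟨_, rfl⟩
    have hl40 : 0 < Real.log 4 := by rw [hlog4]; linarith
    have hw1 : (w : ℝ) ≤ a / Real.log 4 := by rw [hw]; exact Nat.floor_le (by positivity)
    have hw2 : a / Real.log 4 < w + 1 := by rw [hw]; exact Nat.lt_floor_add_one _
    have hw4 : 4 ≤ w := by
      rw [hw]
      apply Nat.le_floor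
      rw [le_div_iff₀ hl40, hlog4]
      push_cast
      linarith
    have hw4r : (4 : ℝ) ≤ w := by exact_mod_cast hw4
    have h4w : (4 : ℝ) ^ w ≤ 1 / α := by
      rw [← Real.log_le_log_iff (by positivity) (by positivity), Real.log_pow]
      rw [le_div_iff₀ hl40] at hw1
      exact hw1
    set W := PW w with hW
    have hWpos : 0 < W := PW_pos w
    have hWr : (0 : ℝ) < W := by exact_mod_cast hWpos
    have hW4 : (W : ℝ) ≤ 4 ^ w := by
      refine (PW_le w).trans (le_of_eq ?_)
      rw [mul_comm, Real.exp_mul, Real.exp_log (by norm_num), Real.rpow_natCast]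
    have hWα : (W : ℝ) ≤ 1 / α := hW4.trans h4w
    have hWN : (W : ℝ) ≤ N := hWα.trans hαN
    have hαW : α ≤ 1 / W := by
      rwa [le_div_iff₀ hWr, mul_comm, ← le_div_iff₀ hα0]
    refine ⟨(range ((N - 1) / W + 1)).image (fun k => 1 + W * k), ?_, ?_, ?_⟩
    · intro x hx
      rw [mem_image] at hx
      obtain ⟨k, hk, rfl⟩ := hx
      rw [mem_range] at hk
      rw [mem_Icc]
      have h1 : W * k ≤ N - 1 := by
        calc W * k ≤ W * ((N - 1) / W) := Nat.mul_le_mul_left _ (by omega)
          _ ≤ N - 1 := Nat.mul_div_le _ _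
      omega
    · rw [card_image_of_injective _ (by
        intro x y h
        simp only at h
        have h2 : W * x = W * y := by omega
        exact Nat.eq_of_mul_eq_mul_left hWpos h2), card_range]
      have h1 : N ≤ W * ((N - 1) / W + 1) := by
        have := Nat.lt_mul_div_succ (N - 1) hWpos
        have h2 : W * ((N - 1) / W + 1) = W * ((N - 1) / W).succ := rfl
        omega
      have h2 : (N : ℝ) ≤ W * (((N - 1) / W + 1 : ℕ) : ℝ) := by exact_mod_cast h1
      calc α * N ≤ 1 / W * N := mul_le_mul_of_nonneg_right hαW hNpos.le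
        _ ≤ 1 / W * (W * (((N - 1) / W + 1 : ℕ) : ℝ)) := mul_le_mul_of_nonneg_left h2 (by positivity)
        _ = _ := by field_simp
    · intro V hV hsol
      set S := (range W).filter (fun b => Cop w 1 b) with hS
      have hSc := hC2 w 1 (by omega) (by norm_num) S (filter_subset _ _) (fun b hb => (mem_filter.1 hb).2)
      have hFF1 : FF 1 = 1 := by unfold FF; simp
      rw [hFF1, mul_one] at hSc
      have hsub : V ⊆ Ioc N (N + w) ∪ S.biUnion (fun b => (Icc 1 (2 * N)).filter (fun v => v % W = b)) := by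
        intro n hn
        have hnI := mem_Ioc.1 (hV hn)
        rw [mem_union]
        by_cases hnw : n ≤ N + w
        · left; rw [mem_Ioc]; exact ⟨hnI.1, hnw⟩
        · right
          rw [mem_biUnion]
          refine ⟨n % W, ?_, ?_⟩
          · rw [hS, mem_filter, mem_range]
            refine ⟨Nat.mod_lt _ hWpos, ?_⟩
            intro p hp
            have hpp := mem_pz.1 hp
            have hpW : p ∣ W := dvd_PW hpp.2 hpp.1
            have hcast : ((n % W : ℕ) : ZMod p) = (n : ZMod p) := by
              rw [ZMod.natCast_eq_natCast_iff', Nat.mod_mod_of_dvd _ hpW]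
            rw [hcast]
            obtain ⟨x, hx, hpr1, hpr2⟩ := hsol n hn
            rw [mem_image] at hx
            obtain ⟨k, hk, rfl⟩ := hx
            rw [mem_range] at hk
            have hxN : W * k ≤ N - 1 := by
              calc W * k ≤ W * ((N - 1) / W) := Nat.mul_le_mul_left _ (by omega)
                _ ≤ N - 1 := Nat.mul_div_le _ _
            have hxc : ((1 + W * k : ℕ) : ZMod p) = ((1 : ℕ) : ZMod p) := by
              push_cast
              have : (W : ZMod p) = 0 := by rw [ZMod.natCast_eq_zero_iff]; exact hpW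
              rw [this, zero_mul, add_zero]
            constructor
            · intro h
              have h2 := cast_sub_eq (1 + W * k) n p (h.trans hxc.symm)
              have h3 := (Nat.prime_dvd_prime_iff_eq hpp.2 hpr2).1 h2
              rw [Nat.dist] at h3
              omega
            · intro h
              have h2 : p ∣ (1 + W * k) + n := by
                rw [← ZMod.natCast_eq_zero_iff, Nat.cast_add, hxc, h]
                ring
              have h3 := (Nat.prime_dvd_prime_iff_eq hpp.2 hpr1).1 h2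
              omega
          · rw [mem_filter, mem_Icc]
            exact ⟨⟨by omega, hnI.2⟩, rfl⟩
      have hcard : (V.card : ℝ) ≤ w + S.card * (((2 * N : ℕ) : ℝ) / W + 1) := by
        have h1 : V.card ≤ w + ∑ b ∈ S, ((Icc 1 (2 * N)).filter (fun v => v % W = b)).card := by
          refine (card_le_card hsub).trans ((card_union_le _ _).trans (add_le_add ?_ card_biUnion_le))
          rw [Nat.card_Ioc]; omega
        have h2 : (V.card : ℝ) ≤ w + ∑ b ∈ S, (((Icc 1 (2 * N)).filter (fun v => v % W = b)).card : ℝ) := by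
          exact_mod_cast h1
        refine h2.trans (add_le_add le_rfl ?_)
        calc ∑ b ∈ S, (((Icc 1 (2 * N)).filter (fun v => v % W = b)).card : ℝ) ≤ ∑ b ∈ S, (((2 * N : ℕ) : ℝ) / W + 1) :=
              sum_le_sum (fun b _ => class_size w (2 * N) b)
          _ = _ := by rw [sum_const, nsmul_eq_mul]
      have hlw0 : 0 < Real.log w := Real.log_pos (by linarith)
      have hwt : Real.log t ≤ 2 * Real.log w := by
        have h1 : t ≤ (w : ℝ) ^ 2 := by
          rw [div_lt_iff₀ hl40, hlog4] at hw2
          rw [hta]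
          nlinarith
        calc Real.log t ≤ Real.log ((w : ℝ) ^ 2) := Real.log_le_log (by linarith) h1
          _ = 2 * Real.log w := by rw [Real.log_pow]; push_cast; rfl
      have hbig : (N : ℝ) / Real.log w ^ 2 ≤ 4 * (N / Real.log t ^ 2) := by
        rw [← mul_div_assoc, div_le_div_iff₀ (by positivity) (by positivity)]
        have h1 : Real.log t ^ 2 ≤ (2 * Real.log w) ^ 2 := pow_le_pow_left₀ (by linarith) hwt 2
        nlinarith
      have hwN : (w : ℝ) ≤ N / Real.log w ^ 2 := by
        rw [le_div_iff₀ (by positivity)]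
        have h1 : Real.log w ≤ w := by
          have := Real.log_le_sub_one_of_pos (show (0 : ℝ) < w by linarith)
          linarith
        have h2 : (w : ℝ) ^ 3 ≤ 4 ^ w := by exact_mod_cast cube_le w
        calc (w : ℝ) * Real.log w ^ 2 ≤ w * (w : ℝ) ^ 2 := by
              apply mul_le_mul_of_nonneg_left _ (by linarith)
              exact pow_le_pow_left₀ hlw0.le h1 2
          _ = (w : ℝ) ^ 3 := by ring
          _ ≤ N := h2.trans (h4w.trans hαN)
      have hS2 : S.card * (((2 * N : ℕ) : ℝ) / W + 1) ≤ 3 * C2 * (N / Real.log w ^ 2) := by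
        calc S.card * (((2 * N : ℕ) : ℝ) / W + 1) ≤ (C2 * W / Real.log w ^ 2) * (((2 * N : ℕ) : ℝ) / W + 1) :=
              mul_le_mul_of_nonneg_right hSc (by positivity)
          _ = C2 / Real.log w ^ 2 * (2 * N + W) := by push_cast; field_simp
          _ ≤ C2 / Real.log w ^ 2 * (2 * N + N) := by
              apply mul_le_mul_of_nonneg_left _ (by positivity)
              linarith
          _ = _ := by ring
      calc (V.card : ℝ) ≤ N / Real.log w ^ 2 + 3 * C2 * (N / Real.log w ^ 2) := hcard.trans (add_le_add hwN hS2)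
        _ = (3 * C2 + 1) * (N / Real.log w ^ 2) := by ring
        _ ≤ (3 * C2 + 1) * (4 * (N / Real.log t ^ 2)) := mul_le_mul_of_nonneg_left hbig (by linarith)
        _ ≤ _ := by nlinarith

end Pool.Agent.L0h44.AS
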