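import Pool.Agent.L0h44.AS.Core2

set_option autoImplicit false

/-! The bilinear upper bound, final form. -/

namespace Pool.Agent.L0h44.AS

open Finset Filter
open Pool.Agent.H373R2.T7 (pz Vz mem_pz Vz_pos)

lemma PW_le (w : ℕ) : (PW w : ℝ) ≤ Real.exp (w * Real.log 4) := by
  have h1 : PW w = primorial w := by
    unfold PW primorial pz
    apply prod_congr _ (fun _ _ => rfl)
    ext p
    simp only [mem_filter, mem_Icc, mem_range]
    constructor
    · rintro ⟨⟨_, h2⟩, h3⟩; exact ⟨by omega, h3⟩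
    · rintro ⟨h1, h2⟩; exact ⟨⟨h2.one_lt.le, by omega⟩, h2⟩
  have h2 : (PW w : ℝ) ≤ (4 : ℝ) ^ w := by
    rw [h1]
    exact_mod_cast primorial_le_four_pow w
  refine h2.trans (le_of_eq ?_)
  rw [mul_comm, Real.exp_mul, Real.exp_log (by norm_num), Real.rpow_natCast]

/-- the asymptotic inequalities -/
lemma ev_ineq (B : ℕ) : ∃ M0 : ℕ, ∀ M : ℕ, M0 ≤ M → 3 ≤ M ∧ 1 ≤ Real.log M ∧
    800 * ((4 + B * Real.log (Real.log M)) + 1) * 2 ≤ Real.log M ∧
    Real.log M ^ B ≤ (M : ℝ) ^ (3 / 5 : ℝ) := by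
  have h1 : ∀ᶠ x : ℝ in atTop, 800 * ((4 + B * Real.log x) + 1) * 2 ≤ x := by
    have h2 := (Real.isLittleO_log_id_atTop).bound (c := 1 / (1600 * (B + 1) * 2)) (by positivity)
    filter_upwards [h2, eventually_ge_atTop (16000 : ℝ)] with x hx hx2
    have hl : 0 ≤ Real.log x := Real.log_nonneg (by linarith)
    rw [Real.norm_of_nonneg hl, id, Real.norm_of_nonneg (by linarith), one_div, ← div_eq_inv_mul, le_div_iff₀ (by positivity)] at hx
    nlinarith
  have h3 : ∀ᶠ x : ℝ in atTop, Real.log x ^ B ≤ x ^ (3 / 5 : ℝ) := by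
    have h4 := (isLittleO_log_rpow_rpow_atTop (B : ℝ) (show (0 : ℝ) < 3 / 5 by norm_num)).bound (c := 1) (by norm_num)
    filter_upwards [h4, eventually_ge_atTop (3 : ℝ)] with x hx hx2
    have hl : 0 ≤ Real.log x := Real.log_nonneg (by linarith)
    rw [Real.norm_of_nonneg (by positivity), Real.norm_of_nonneg (by positivity), one_mul, Real.rpow_natCast] at hx
    exact hx
  have h5 : ∀ᶠ M : ℕ in atTop, 3 ≤ M ∧ 1 ≤ Real.log M ∧
    800 * ((4 + B * Real.log (Real.log M)) + 1) * 2 ≤ Real.log M ∧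
    Real.log M ^ B ≤ (M : ℝ) ^ (3 / 5 : ℝ) := by
    filter_upwards [tendsto_natCast_atTop_atTop.eventually h3, eventually_ge_atTop 3,
      (Real.tendsto_log_atTop.comp tendsto_natCast_atTop_atTop).eventually h1,
      (Real.tendsto_log_atTop.comp tendsto_natCast_atTop_atTop).eventually_ge_atTop 1] with M a1 a2 a3 a4
    exact ⟨a2, a4, a3, a1⟩
  exact eventually_atTop.1 h5

lemma rp1 (M : ℝ) (hM0 : 0 < M) : M ^ (1 / 2 : ℝ) * (M ^ (1 / 10 : ℝ) * M) = (M ^ (4 / 5 : ℝ)) ^ 2 := by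
  have h1 : (M ^ (4 / 5 : ℝ)) ^ 2 = M ^ (1 / 2 + (1 / 10 + 1) : ℝ) := by
    rw [← Real.rpow_natCast, ← Real.rpow_mul hM0.le]
    norm_num
  rw [h1, Real.rpow_add hM0, Real.rpow_add hM0, Real.rpow_one]

lemma rp2 (M : ℝ) (hM0 : 0 < M) : M ^ 2 = M ^ (2 / 5 : ℝ) * (M ^ (4 / 5 : ℝ)) ^ 2 := by
  have h1 : (M ^ (4 / 5 : ℝ)) ^ 2 = M ^ (8 / 5 : ℝ) := by
    rw [← Real.rpow_natCast, ← Real.rpow_mul hM0.le]
    norm_num
  rw [h1, ← Real.rpow_add hM0, ← Real.rpow_natCast]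
  norm_num

/-- **the core inequality** -/
theorem core : ∃ C : ℝ, 1 ≤ C ∧ ∀ B : ℕ, ∃ M0 : ℕ, ∀ M : ℕ, M0 ≤ M → ∀ U V : Finset ℕ, U ⊆ Icc 1 M → V ⊆ Icc 1 M →
    (M : ℝ) / Real.log M ^ B ≤ U.card →
    (ee U V : ℝ) ≤ C * (√((V.card : ℝ) / M) * Real.log (Real.log (16 * M / U.card)) * (M / Real.log M ^ 2) * ∑ u ∈ U, √(FF u)) +
      C * (U.card * (M : ℝ) ^ (4 / 5 : ℝ)) := by
  classical
  obtain ⟨C, hC1, M1, hC⟩ := all_classes
  refine ⟨791 * C + 11, by linarith, fun B => ?_⟩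
  obtain ⟨M2, hM2⟩ := ev_ineq B
  refine ⟨max M1 M2, fun M hM U V hU hV hUc => ?_⟩
  obtain ⟨hM3, hL1, hev, hlogB⟩ := hM2 M (le_trans (le_max_right _ _) hM)
  have hMr : (3 : ℝ) ≤ M := by exact_mod_cast hM3
  have hM0 : (0 : ℝ) < M := by linarith
  have hL0 : 0 < Real.log M := by linarith
  have hUpos : (0 : ℝ) < U.card := lt_of_lt_of_le (by positivity) hUc
  have hUM : (U.card : ℝ) ≤ M := by
    have := card_le_card hU
    rw [Nat.card_Icc] at this
    exact_mod_cast (by omega : U.card ≤ M)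
  have hVM : (V.card : ℝ) ≤ M := by
    have := card_le_card hV
    rw [Nat.card_Icc] at this
    exact_mod_cast (by omega : V.card ≤ M)
  set t : ℝ := Real.log (16 * M / U.card) with ht
  have hratio : 16 ≤ 16 * M / (U.card : ℝ) := by
    rw [le_div_iff₀ hUpos]
    linarith
  have hlog16 : (2.77 : ℝ) ≤ Real.log 16 := by
    rw [show (16 : ℝ) = 2 ^ 4 by norm_num, Real.log_pow]
    have := Real.log_two_gt_d9
    push_cast
    linarith
  have hlog16' : Real.log 16 ≤ 2.78 := by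
    rw [show (16 : ℝ) = 2 ^ 4 by norm_num, Real.log_pow]
    have := Real.log_two_lt_d9
    push_cast
    linarith
  have ht1 : 2.77 ≤ t := hlog16.trans (Real.log_le_log (by norm_num) hratio)
  have hte : Real.exp t = 16 * M / U.card := Real.exp_log (by positivity)
  have htup : t ≤ 4 + B * Real.log (Real.log M) := by
    have h1 : 16 * M / (U.card : ℝ) ≤ 16 * Real.log M ^ B := by
      rw [div_le_iff₀ hUpos]
      have := mul_le_mul_of_nonneg_left hUc (show 0 ≤ 16 * Real.log M ^ B by positivity)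
      calc 16 * (M : ℝ) = 16 * Real.log M ^ B * (M / Real.log M ^ B) := by field_simp
        _ ≤ _ := this
    have h2 : t ≤ Real.log (16 * Real.log M ^ B) := Real.log_le_log (by positivity) h1
    rw [Real.log_mul (by norm_num) (by positivity), Real.log_pow] at h2
    linarith
  obtain ⟨k, hk⟩ : ∃ k : ℕ, k = ⌈t⌉₊ := ⟨_, rfl⟩
  have hkt : t ≤ k := by rw [hk]; exact Nat.le_ceil t
  have hkt2 : (k : ℝ) ≤ t + 1 := by rw [hk]; exact (Nat.ceil_lt_add_one (by linarith)).le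
  have hk1 : 1 ≤ k := by
    have : (1 : ℝ) ≤ k := by linarith
    exact_mod_cast this
  obtain ⟨w, hw⟩ : ∃ w : ℕ, w = 80 * k := ⟨_, rfl⟩
  have hwr : (w : ℝ) = 80 * k := by rw [hw]; push_cast; rfl
  have hwt : (w : ℝ) ≤ 160 * t := by rw [hwr]; linarith
  have hw10 : (w : ℝ) * 20 ≤ Real.log M := by
    rw [hwr]
    linarith
  have hwM : (w : ℝ) ≤ Real.log M := by
    have : (0 : ℝ) ≤ w := by positivity
    linarith
  set α : ℝ := U.card / M with hα
  have hα0 : 0 < α := by positivity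
  have hkα : 1 / α ≤ Real.exp k := by
    refine le_trans ?_ (Real.exp_le_exp.2 hkt)
    rw [hte, hα, one_div_div]
    apply div_le_div_of_nonneg_right _ hUpos.le
    linarith
  have hmain := hC M (le_trans (le_max_left _ _) hM) w k hk1 (by omega) hwM U V hU hV α hα0 hkα
  -- `log w`
  set l : ℝ := Real.log t with hl
  have hl1 : 1 ≤ l := by
    rw [hl, Real.le_log_iff_exp_le (by linarith)]
    have := Real.exp_one_lt_d9
    linarith
  have hlt : l ≤ t := by
    have := Real.log_le_sub_one_of_pos (show 0 < t by linarith)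
    linarith
  have hw1 : (1 : ℝ) ≤ w := by exact_mod_cast (by omega : 1 ≤ w)
  have hlw0 : 0 ≤ Real.log w := Real.log_nonneg hw1
  have hlw : Real.log w ≤ 7 * l := by
    have h1 : Real.log w ≤ Real.log (160 * t) := Real.log_le_log (by linarith) hwt
    rw [Real.log_mul (by norm_num) (by linarith)] at h1
    have h2 : Real.log 160 ≤ 6 := by
      have h3 : (160 : ℝ) ≤ 2 ^ 8 := by norm_num
      have h4 : Real.log 160 ≤ Real.log (2 ^ 8) := Real.log_le_log (by norm_num) h3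
      rw [Real.log_pow] at h4
      have := Real.log_two_lt_d9
      push_cast at h4
      linarith
    linarith
  have hFF1 : (U.card : ℝ) ≤ ∑ u ∈ U, √(FF u) := by
    calc (U.card : ℝ) = ∑ u ∈ U, (1 : ℝ) := by simp
      _ ≤ _ := by
          apply sum_le_sum
          intro u hu
          exact Real.one_le_sqrt.2 (one_le_FF u (by have := mem_Icc.1 (hU hu); omega))
  set F : ℝ := ∑ u ∈ U, √(FF u) with hF
  have hF0 : 0 ≤ F := hUpos.le.trans hFF1
  have hsq : √(M : ℝ) * √(V.card : ℝ) = M * √((V.card : ℝ) / M) := by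
    rw [Real.sqrt_div (by positivity)]
    have h1 : √(M : ℝ) ≠ 0 := (Real.sqrt_pos.2 hM0).ne'
    rw [mul_div_assoc', eq_div_iff h1]
    calc √(M : ℝ) * √(V.card : ℝ) * √(M : ℝ) = (√(M : ℝ) * √(M : ℝ)) * √(V.card : ℝ) := by ring
      _ = _ := by rw [Real.mul_self_sqrt hM0.le]
  set s : ℝ := √((V.card : ℝ) / M) with hs
  have hs0 : 0 ≤ s := Real.sqrt_nonneg _
  -- the first main term
  have hT2 : C * (√(M : ℝ) * √(V.card : ℝ) * (Real.log w / Real.log M ^ 2) * F) ≤ 7 * C * (s * l * (M / Real.log M ^ 2) * F) := by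
    rw [hsq]
    calc C * (M * s * (Real.log w / Real.log M ^ 2) * F) ≤ C * (M * s * (7 * l / Real.log M ^ 2) * F) := by
          apply mul_le_mul_of_nonneg_left _ (by linarith)
          apply mul_le_mul_of_nonneg_right _ hF0
          apply mul_le_mul_of_nonneg_left _ (by positivity)
          exact div_le_div_of_nonneg_right hlw (by positivity)
      _ = _ := by ring
  -- the second main term
  have hαl : α * Real.log w ≤ 112 := by
    have h1 : α = 16 * Real.exp (-t) := by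
      rw [Real.exp_neg, hte, hα]
      field_simp
    have h2 : t * Real.exp (-t) ≤ 1 := by
      rw [Real.exp_neg, ← div_eq_mul_inv, div_le_one (Real.exp_pos _)]
      have := Real.add_one_le_exp t
      linarith
    calc α * Real.log w ≤ α * (7 * t) := mul_le_mul_of_nonneg_left (hlw.trans (by linarith)) hα0.le
      _ = 112 * (t * Real.exp (-t)) := by rw [h1]; ring
      _ ≤ 112 := by linarith
  have hT3 : C * (√(M : ℝ) * √(V.card : ℝ) * (Real.log w ^ 2 / Real.log M ^ 2) * (α ^ 2 * M)) ≤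
      784 * C * (s * l * (M / Real.log M ^ 2) * F) := by
    rw [hsq]
    have e1 : α ^ 2 * M = α * U.card := by rw [hα]; field_simp
    rw [e1]
    calc C * (M * s * (Real.log w ^ 2 / Real.log M ^ 2) * (α * U.card)) =
          C * (M * s * (Real.log w * (α * Real.log w) / Real.log M ^ 2) * U.card) := by ring
      _ ≤ C * (M * s * ((7 * l) * 112 / Real.log M ^ 2) * F) := by
          apply mul_le_mul_of_nonneg_left _ (by linarith)
          apply mul_le_mul _ hFF1 hUpos.le (by positivity)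
          apply mul_le_mul_of_nonneg_left _ (by positivity)
          apply div_le_div_of_nonneg_right _ (by positivity)
          apply mul_le_mul hlw hαl (by positivity) (by linarith)
      _ = _ := by ring
  -- the errors
  have hM45 : (1 : ℝ) ≤ (M : ℝ) ^ (4 / 5 : ℝ) := Real.one_le_rpow (by linarith) (by norm_num)
  have hE1 : 4 * (w : ℝ) * U.card ≤ 5 * (U.card * (M : ℝ) ^ (4 / 5 : ℝ)) := by
    have h1 : Real.log M ≤ (M : ℝ) ^ (4 / 5 : ℝ) / (4 / 5) := Real.log_le_rpow_div (by linarith) (by norm_num)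
    have h2 : (w : ℝ) ≤ (M : ℝ) ^ (4 / 5 : ℝ) := by
      have h3 : (M : ℝ) ^ (4 / 5 : ℝ) / (4 / 5) = 5 / 4 * (M : ℝ) ^ (4 / 5 : ℝ) := by ring
      rw [h3] at h1
      nlinarith
    nlinarith
  have hW : (PW w : ℝ) ≤ (M : ℝ) ^ (1 / 10 : ℝ) := by
    refine (PW_le w).trans ?_
    rw [Real.rpow_def_of_pos hM0]
    apply Real.exp_le_exp.2
    have h1 : Real.log 4 ≤ 2 := by
      rw [show (4 : ℝ) = 2 ^ 2 by norm_num, Real.log_pow]
      have := Real.log_two_lt_d9
      push_cast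
      linarith
    have h2 : (w : ℝ) * Real.log 4 ≤ w * 2 := mul_le_mul_of_nonneg_left h1 (by linarith)
    linarith
  have hWM : (PW w : ℝ) ≤ M := hW.trans (by
    calc (M : ℝ) ^ (1 / 10 : ℝ) ≤ (M : ℝ) ^ (1 : ℝ) := Real.rpow_le_rpow_of_exponent_le (by linarith) (by norm_num)
      _ = M := Real.rpow_one _)
  have hU25 : (M : ℝ) ^ (2 / 5 : ℝ) ≤ U.card := by
    refine le_trans ?_ hUc
    rw [le_div_iff₀ (by positivity)]
    calc (M : ℝ) ^ (2 / 5 : ℝ) * Real.log M ^ B ≤ (M : ℝ) ^ (2 / 5 : ℝ) * (M : ℝ) ^ (3 / 5 : ℝ) :=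
          mul_le_mul_of_nonneg_left hlogB (by positivity)
      _ = M := by rw [← Real.rpow_add hM0]; norm_num
  have hE4 : √(V.card : ℝ) * √(U.card * ((M : ℝ) + PW w)) ≤ 2 * (U.card * (M : ℝ) ^ (4 / 5 : ℝ)) := by
    have h1 : √(V.card : ℝ) * √(U.card * ((M : ℝ) + PW w)) ≤ √(M : ℝ) * √(U.card * (2 * M)) := by
      apply mul_le_mul (Real.sqrt_le_sqrt hVM) _ (Real.sqrt_nonneg _) (Real.sqrt_nonneg _)
      apply Real.sqrt_le_sqrt
      apply mul_le_mul_of_nonneg_left _ hUpos.le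
      linarith
    refine h1.trans ?_
    rw [← Real.sqrt_mul hM0.le, Real.sqrt_le_iff]
    refine ⟨by positivity, ?_⟩
    have h2 := rp2 (M : ℝ) hM0
    calc (M : ℝ) * (U.card * (2 * M)) = 2 * (U.card * (M : ℝ) ^ 2) := by ring
      _ = 2 * (U.card * (M ^ (2 / 5 : ℝ) * ((M : ℝ) ^ (4 / 5 : ℝ)) ^ 2)) := by rw [h2]
      _ ≤ 2 * (U.card * (U.card * ((M : ℝ) ^ (4 / 5 : ℝ)) ^ 2)) := by
          apply mul_le_mul_of_nonneg_left _ (by norm_num)
          apply mul_le_mul_of_nonneg_left _ hUpos.le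
          exact mul_le_mul_of_nonneg_right hU25 (by positivity)
      _ ≤ (2 * (U.card * (M : ℝ) ^ (4 / 5 : ℝ))) ^ 2 := by nlinarith [show 0 ≤ (U.card * (M : ℝ) ^ (4 / 5 : ℝ)) ^ 2 by positivity]
  have hE5 : √(10 * √(M : ℝ)) * (U.card * (√(PW w : ℝ) * √(V.card : ℝ))) ≤ 4 * (U.card * (M : ℝ) ^ (4 / 5 : ℝ)) := by
    have h1 : √(10 * √(M : ℝ)) * (√(PW w : ℝ) * √(V.card : ℝ)) ≤ 4 * (M : ℝ) ^ (4 / 5 : ℝ) := by
      rw [← Real.sqrt_mul (by positivity), ← Real.sqrt_mul (by positivity), Real.sqrt_le_iff]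
      refine ⟨by positivity, ?_⟩
      have h2 : √(M : ℝ) = (M : ℝ) ^ (1 / 2 : ℝ) := Real.sqrt_eq_rpow _
      have h3 : (4 * (M : ℝ) ^ (4 / 5 : ℝ)) ^ 2 = 16 * ((M : ℝ) ^ (1 / 2 : ℝ) * ((M : ℝ) ^ (1 / 10 : ℝ) * M)) := by
        rw [rp1 (M : ℝ) hM0]; ring
      rw [h3, h2]
      calc 10 * (M : ℝ) ^ (1 / 2 : ℝ) * (PW w * V.card) ≤ 10 * (M : ℝ) ^ (1 / 2 : ℝ) * ((M : ℝ) ^ (1 / 10 : ℝ) * M) := by
            apply mul_le_mul_of_nonneg_left _ (by positivity)
            exact mul_le_mul hW hVM (by positivity) (by positivity)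
        _ ≤ _ := by nlinarith [show 0 ≤ (M : ℝ) ^ (1 / 2 : ℝ) * ((M : ℝ) ^ (1 / 10 : ℝ) * M) by positivity]
    calc √(10 * √(M : ℝ)) * (U.card * (√(PW w : ℝ) * √(V.card : ℝ))) = U.card * (√(10 * √(M : ℝ)) * (√(PW w : ℝ) * √(V.card : ℝ))) := by ring
      _ ≤ U.card * (4 * (M : ℝ) ^ (4 / 5 : ℝ)) := mul_le_mul_of_nonneg_left h1 hUpos.le
      _ = _ := by ring
  have hmain0 : 0 ≤ s * l * (M / Real.log M ^ 2) * F := by positivity
  have herr0 : 0 ≤ U.card * (M : ℝ) ^ (4 / 5 : ℝ) := by positivity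
  calc (ee U V : ℝ) ≤ _ := hmain
    _ ≤ 5 * (U.card * (M : ℝ) ^ (4 / 5 : ℝ)) + 7 * C * (s * l * (M / Real.log M ^ 2) * F) +
        784 * C * (s * l * (M / Real.log M ^ 2) * F) + 2 * (U.card * (M : ℝ) ^ (4 / 5 : ℝ)) + 4 * (U.card * (M : ℝ) ^ (4 / 5 : ℝ)) := by
        linarith
    _ = 791 * C * (s * l * (M / Real.log M ^ 2) * F) + 11 * (U.card * (M : ℝ) ^ (4 / 5 : ℝ)) := by ring
    _ ≤ _ := by
        apply add_le_add
        · exact mul_le_mul_of_nonneg_right (by linarith) hmain0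
        · exact mul_le_mul_of_nonneg_right (by linarith) herr0

end Pool.Agent.L0h44.AS
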