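import Pool.Agent.L0h44.AS.Pairs
import Pool.Agent.L0h44.AS.Core3

set_option autoImplicit false

/-! The solutions `x` in an arbitrary set: the lower bound. -/

namespace Pool.Agent.L0h44.AS

open Finset Filter

lemma FF_moment : ∃ C : ℝ, 1 ≤ C ∧ ∀ N : ℕ, ∑ n ∈ Icc 1 N, FF n ^ 2 ≤ C * N := by
  obtain ⟨C, hC⟩ := Pool.Agent.Erdos456.Mert.totRatio_moment
  refine ⟨max 1 C, le_max_left _ _, fun N => ?_⟩
  have h1 : ∑ n ∈ Icc 1 N, FF n ^ 2 ≤ ∑ n ∈ Icc 1 N, ((n : ℝ) / (Nat.totient n : ℝ)) ^ 6 := by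
    apply sum_le_sum
    intro n hn
    have h2 := one_le_FF n (by have := mem_Icc.1 hn; omega)
    exact pow_le_pow_right₀ h2 (by norm_num)
  refine h1.trans ((hC N).trans ?_)
  exact mul_le_mul_of_nonneg_right (le_max_right _ _) (by positivity)

lemma sum_FF_exc (N : ℕ) (C : ℝ) (hC1 : 1 ≤ C) (hC : ∑ n ∈ Icc 1 N, FF n ^ 2 ≤ C * N) (S : Finset ℕ) (hS : S ⊆ Icc 1 N) :
    ∑ n ∈ S, FF n ≤ C * √(N * S.card : ℝ) := by
  have h1 : (∑ n ∈ S, FF n) ^ 2 ≤ S.card * ∑ n ∈ S, FF n ^ 2 := sq_sum_le_card_mul_sum_sq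
  have h2 : ∑ n ∈ S, FF n ^ 2 ≤ C * N :=
    (sum_le_sum_of_subset_of_nonneg hS (fun n _ _ => by positivity)).trans hC
  have h3 : (∑ n ∈ S, FF n) ^ 2 ≤ (C * √(N * S.card : ℝ)) ^ 2 := by
    rw [mul_pow, Real.sq_sqrt (by positivity)]
    calc (∑ n ∈ S, FF n) ^ 2 ≤ S.card * (C * N) := h1.trans (mul_le_mul_of_nonneg_left h2 (by positivity))
      _ = C * (N * S.card : ℝ) := by ring
      _ ≤ C ^ 2 * (N * S.card : ℝ) := by
          apply mul_le_mul_of_nonneg_right _ (by positivity)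
          nlinarith
  exact (abs_le_of_sq_le_sq' h3 (by positivity)).2

lemma ev3 (c K : ℝ) (hc : 0 < c) (_hK : 0 < K) : ∃ N0 : ℕ, ∀ N : ℕ, N0 ≤ N → 3 ≤ N ∧ K ≤ Real.log N ∧
    K * ((2 * N : ℕ) : ℝ) ^ (4 / 5 : ℝ) ≤ c * (N / Real.log N ^ 2) := by
  have h1 : ∀ᶠ x : ℝ in atTop, K * 2 * Real.log x ^ 2 ≤ c * x ^ (1 / 5 : ℝ) := by
    have h4 := (isLittleO_log_rpow_rpow_atTop (2 : ℝ) (show (0 : ℝ) < 1 / 5 by norm_num)).bound (c := c / (|K| * 2 + 1)) (by positivity)
    filter_upwards [h4, eventually_ge_atTop (3 : ℝ)] with x hx hx2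
    have hl : 0 ≤ Real.log x := Real.log_nonneg (by linarith)
    rw [Real.norm_of_nonneg (by positivity), Real.norm_of_nonneg (by positivity), Real.rpow_two, div_mul_eq_mul_div,
      le_div_iff₀ (by positivity)] at hx
    have hK2 : K ≤ |K| := le_abs_self K
    nlinarith [sq_nonneg (Real.log x)]
  have h5 : ∀ᶠ N : ℕ in atTop, 3 ≤ N ∧ K ≤ Real.log N ∧
    K * ((2 * N : ℕ) : ℝ) ^ (4 / 5 : ℝ) ≤ c * (N / Real.log N ^ 2) := by
    filter_upwards [tendsto_natCast_atTop_atTop.eventually h1, eventually_ge_atTop 3,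
      (Real.tendsto_log_atTop.comp tendsto_natCast_atTop_atTop).eventually_ge_atTop K] with N a1 a2 a3
    refine ⟨a2, a3, ?_⟩
    have hN : (3 : ℝ) ≤ N := by exact_mod_cast a2
    have hN0 : (0 : ℝ) < N := by linarith
    have hL : 0 < Real.log N := Real.log_pos (by linarith)
    have h6 : ((2 * N : ℕ) : ℝ) ^ (4 / 5 : ℝ) ≤ 2 * (N : ℝ) ^ (4 / 5 : ℝ) := by
      push_cast
      rw [Real.mul_rpow (by norm_num) hN0.le]
      apply mul_le_mul_of_nonneg_right _ (by positivity)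
      calc (2 : ℝ) ^ (4 / 5 : ℝ) ≤ (2 : ℝ) ^ (1 : ℝ) := Real.rpow_le_rpow_of_exponent_le (by norm_num) (by norm_num)
        _ = 2 := Real.rpow_one _
    have h7 : (N : ℝ) = (N : ℝ) ^ (1 / 5 : ℝ) * (N : ℝ) ^ (4 / 5 : ℝ) := by
      rw [← Real.rpow_add hN0]; norm_num
    have h8 : (0 : ℝ) ≤ (N : ℝ) ^ (4 / 5 : ℝ) := by positivity
    rw [← mul_div_assoc, le_div_iff₀ (by positivity)]
    calc K * ((2 * N : ℕ) : ℝ) ^ (4 / 5 : ℝ) * Real.log N ^ 2 ≤ K * (2 * (N : ℝ) ^ (4 / 5 : ℝ)) * Real.log N ^ 2 := by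
          apply mul_le_mul_of_nonneg_right _ (by positivity)
          exact mul_le_mul_of_nonneg_left h6 (by linarith)
      _ = (K * 2 * Real.log N ^ 2) * (N : ℝ) ^ (4 / 5 : ℝ) := by ring
      _ ≤ (c * (N : ℝ) ^ (1 / 5 : ℝ)) * (N : ℝ) ^ (4 / 5 : ℝ) := mul_le_mul_of_nonneg_right a1 h8
      _ = c * ((N : ℝ) ^ (1 / 5 : ℝ) * (N : ℝ) ^ (4 / 5 : ℝ)) := by ring
      _ = c * N := by rw [← h7]
  exact eventually_atTop.1 h5

/-- the number of edges is a sum over `V` -/
lemma ee_sum_right (U V : Finset ℕ) : ee U V = ∑ v ∈ V, (U.filter (fun u => pr u v)).card := by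
  unfold ee
  rw [card_filter, sum_product_right]
  apply sum_congr rfl
  intro v _
  rw [card_filter]

lemma ee_sum_left (U V : Finset ℕ) : ee U V = ∑ u ∈ U, (V.filter (fun v => pr u v)).card := by
  unfold ee
  rw [card_filter, sum_product]
  apply sum_congr rfl
  intro v _
  rw [card_filter]

theorem arb_lower : ∃ c : ℝ, 0 < c ∧ ∀ B : ℕ, ∃ N0 : ℕ, ∀ N : ℕ, N0 ≤ N → ∀ U : Finset ℕ, U ⊆ Icc 1 N →
    (N : ℝ) / Real.log N ^ B ≤ U.card →
    c * (N / Real.log (Real.log (16 * N / U.card)) ^ 2) ≤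
      ((Ioc N (2 * N)).filter (fun n => c * ((∑ x ∈ U, FF x) / Real.log N ^ 2) ≤ (U.filter (fun x => pr x n)).card)).card := by
  classical
  obtain ⟨c1, hc1, hpl⟩ := pairs_lower
  obtain ⟨C, hC1, hcore⟩ := core
  obtain ⟨CF, hCF1, hCF⟩ := FF_moment
  refine ⟨min (c1 / 8) (2 * (c1 / (16 * C)) ^ 2), by positivity, fun B => ?_⟩
  obtain ⟨N1, hN1⟩ := hpl (2 * B + 2)
  obtain ⟨M1, hM1⟩ := hcore (B + 1)
  obtain ⟨N2, hN2⟩ := ev3 (c1 / 8) (C + 2 * CF + 2) (by positivity) (by linarith)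
  refine ⟨max (max N1 M1) N2, fun N hN U hU hUc => ?_⟩
  obtain ⟨Ex, hEx, hpairs⟩ := hN1 N (le_trans (le_trans (le_max_left _ _) (le_max_left _ _)) hN)
  obtain ⟨hN3, hLK, herr⟩ := hN2 N (le_trans (le_max_right _ _) hN)
  have hNM1 : M1 ≤ 2 * N := le_trans (le_trans (le_trans (le_max_right _ _) (le_max_left _ _)) hN) (by omega)
  have hNr : (3 : ℝ) ≤ N := by exact_mod_cast hN3
  have hN0 : (0 : ℝ) < N := by linarith
  set L := Real.log N with hL
  have hL1 : 2 ≤ L := by linarith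
  have hUpos : (0 : ℝ) < U.card := lt_of_lt_of_le (by positivity) hUc
  have hUN : (U.card : ℝ) ≤ N := by
    have := card_le_card hU
    rw [Nat.card_Icc] at this
    exact_mod_cast (by omega : U.card ≤ N)
  set F : ℝ := ∑ x ∈ U, FF x with hF
  have hFU : (U.card : ℝ) ≤ F := by
    calc (U.card : ℝ) = ∑ u ∈ U, (1 : ℝ) := by simp
      _ ≤ _ := sum_le_sum (fun u hu => one_le_FF u (by have := mem_Icc.1 (hU hu); omega))
  have hF0 : 0 < F := lt_of_lt_of_le hUpos hFU
  set I := Ioc N (2 * N) with hI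
  -- the lower bound for all the edges
  have hlow : c1 * (F / 2 * (N / L ^ 2)) ≤ (ee U I : ℝ) := by
    have hexc : ∑ x ∈ U.filter (fun x => x ∈ Ex), FF x ≤ F / 2 := by
      have h1 := sum_FF_exc N CF hCF1 (hCF N) (U.filter (fun x => x ∈ Ex)) ((filter_subset _ _).trans hU)
      refine h1.trans ?_
      have h2 : ((U.filter (fun x => x ∈ Ex)).card : ℝ) ≤ N / L ^ (2 * B + 2) := by
        refine le_trans ?_ hEx
        have : U.filter (fun x => x ∈ Ex) ⊆ Ex := fun x hx => (mem_filter.1 hx).2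
        exact_mod_cast card_le_card this
      have h3 : √(N * (U.filter (fun x => x ∈ Ex)).card : ℝ) ≤ N / L ^ (B + 1) := by
        rw [Real.sqrt_le_iff]
        refine ⟨by positivity, ?_⟩
        calc (N : ℝ) * (U.filter (fun x => x ∈ Ex)).card ≤ N * (N / L ^ (2 * B + 2)) :=
              mul_le_mul_of_nonneg_left h2 hN0.le
          _ = (N / L ^ (B + 1)) ^ 2 := by
              rw [div_pow, ← pow_mul, show (B + 1) * 2 = 2 * B + 2 by ring]
              ring
      calc CF * √(N * (U.filter (fun x => x ∈ Ex)).card : ℝ) ≤ CF * (N / L ^ (B + 1)) :=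
            mul_le_mul_of_nonneg_left h3 (by linarith)
        _ = (CF / L) * (N / L ^ B) := by rw [pow_succ]; field_simp
        _ ≤ (1 / 2) * (N / L ^ B) := by
            apply mul_le_mul_of_nonneg_right _ (by positivity)
            rw [div_le_div_iff₀ (by linarith) (by norm_num)]
            linarith
        _ ≤ (1 / 2) * F := by
            apply mul_le_mul_of_nonneg_left (hUc.trans hFU) (by norm_num)
        _ = F / 2 := by ring
    have hsplit : ∑ x ∈ U.filter (fun x => x ∈ Ex), FF x + ∑ x ∈ U.filter (fun x => ¬ x ∈ Ex), FF x = F :=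
      sum_filter_add_sum_filter_not _ _ _
    have hge : F / 2 ≤ ∑ x ∈ U.filter (fun x => ¬ x ∈ Ex), FF x := by linarith
    rw [ee_sum_left]
    push_cast
    calc c1 * (F / 2 * (N / L ^ 2)) ≤ c1 * ((∑ x ∈ U.filter (fun x => ¬ x ∈ Ex), FF x) * (N / L ^ 2)) := by
          apply mul_le_mul_of_nonneg_left _ hc1.le
          exact mul_le_mul_of_nonneg_right hge (by positivity)
      _ = ∑ x ∈ U.filter (fun x => ¬ x ∈ Ex), c1 * (FF x * (N / L ^ 2)) := by
          rw [sum_mul, mul_sum]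
      _ ≤ ∑ x ∈ U.filter (fun x => ¬ x ∈ Ex), ((I.filter (fun v => pr x v)).card : ℝ) := by
          apply sum_le_sum
          intro x hx
          rw [mem_filter] at hx
          exact hpairs x (hU hx.1) hx.2
      _ ≤ _ := by
          apply sum_le_sum_of_subset_of_nonneg (filter_subset _ _)
          intro x _ _
          positivity
  -- the two parts
  set c := min (c1 / 8) (2 * (c1 / (16 * C)) ^ 2) with hc
  have hcc1 : c ≤ c1 / 8 := min_le_left _ _
  have hc0 : 0 < c := by positivity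
  set V := I.filter (fun n => c * (F / L ^ 2) ≤ (U.filter (fun x => pr x n)).card) with hV
  have hfew : ∑ v ∈ I.filter (fun n => ¬ c * (F / L ^ 2) ≤ ((U.filter (fun x => pr x n)).card : ℝ)), ((U.filter (fun u => pr u v)).card : ℝ) ≤
      c1 / 8 * (F * (N / L ^ 2)) := by
    have h1 : ∀ v ∈ I.filter (fun n => ¬ c * (F / L ^ 2) ≤ ((U.filter (fun x => pr x n)).card : ℝ)),
        ((U.filter (fun u => pr u v)).card : ℝ) ≤ c1 / 8 * (F / L ^ 2) := by
      intro v hv
      rw [mem_filter] at hv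
      have := hv.2
      push Not at this
      refine this.le.trans ?_
      exact mul_le_mul_of_nonneg_right hcc1 (by positivity)
    refine (sum_le_sum h1).trans ?_
    rw [sum_const, nsmul_eq_mul]
    have h2 : ((I.filter (fun n => ¬ c * (F / L ^ 2) ≤ ((U.filter (fun x => pr x n)).card : ℝ))).card : ℝ) ≤ N := by
      have h3 : (I.filter (fun n => ¬ c * (F / L ^ 2) ≤ ((U.filter (fun x => pr x n)).card : ℝ))).card ≤ I.card := card_filter_le _ _
      have hIc : I.card = N := by rw [hI, Nat.card_Ioc]; omega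
      rw [hIc] at h3
      exact_mod_cast h3
    calc _ ≤ (N : ℝ) * (c1 / 8 * (F / L ^ 2)) := mul_le_mul_of_nonneg_right h2 (by positivity)
      _ = _ := by ring
  have hsum : (ee U I : ℝ) = ee U V + ∑ v ∈ I.filter (fun n => ¬ c * (F / L ^ 2) ≤ ((U.filter (fun x => pr x n)).card : ℝ)), ((U.filter (fun u => pr u v)).card : ℝ) := by
    rw [ee_sum_right, ee_sum_right, ← sum_filter_add_sum_filter_not I (fun n => c * (F / L ^ 2) ≤ ((U.filter (fun x => pr x n)).card : ℝ))]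
    push_cast
    rfl
  -- the upper bound for the edges at `V`
  have hU2 : U ⊆ Icc 1 (2 * N) := by
    intro x hx
    have := mem_Icc.1 (hU hx)
    rw [mem_Icc]; omega
  have hV2 : V ⊆ Icc 1 (2 * N) := by
    intro x hx
    have := mem_Ioc.1 (mem_filter.1 hx).1
    rw [mem_Icc]; omega
  have hl2 : Real.log 2 ≤ 0.7 := by have := Real.log_two_lt_d9; linarith
  have hl20 : 0 ≤ Real.log 2 := Real.log_nonneg (by norm_num)
  have hLM : Real.log ((2 * N : ℕ) : ℝ) = Real.log 2 + L := by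
    push_cast
    rw [Real.log_mul (by norm_num) hN0.ne']
  have hUc2 : ((2 * N : ℕ) : ℝ) / Real.log ((2 * N : ℕ) : ℝ) ^ (B + 1) ≤ U.card := by
    refine le_trans ?_ hUc
    rw [hLM]
    push_cast
    rw [div_le_div_iff₀ (by positivity) (by positivity), pow_succ]
    have h1 : L ^ B ≤ (Real.log 2 + L) ^ B := pow_le_pow_left₀ (by linarith) (by linarith) _
    have h2 : (0 : ℝ) ≤ L ^ B := by positivity
    calc 2 * (N : ℝ) * L ^ B ≤ N * (L ^ B * 2) := by linarith
      _ ≤ N * ((Real.log 2 + L) ^ B * (Real.log 2 + L)) := by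
          apply mul_le_mul_of_nonneg_left _ hN0.le
          apply mul_le_mul h1 (by linarith) (by norm_num) (by positivity)
  have hup := hM1 (2 * N) hNM1 U V hU2 hV2 hUc2
  -- `loglog`
  set ℓ := Real.log (Real.log (16 * N / U.card)) with hℓ
  have hratio : 16 ≤ 16 * N / (U.card : ℝ) := by
    rw [le_div_iff₀ hUpos]
    linarith
  have hlog16 : (2.77 : ℝ) ≤ Real.log 16 := by
    rw [show (16 : ℝ) = 2 ^ 4 by norm_num, Real.log_pow]
    have := Real.log_two_gt_d9
    push_cast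
    linarith
  have ht1 : 2.77 ≤ Real.log (16 * N / U.card) := hlog16.trans (Real.log_le_log (by norm_num) hratio)
  have hℓ1 : 1 ≤ ℓ := by
    rw [hℓ, Real.le_log_iff_exp_le (by linarith)]
    have := Real.exp_one_lt_d9
    linarith
  have hℓ2 : Real.log (Real.log (16 * ((2 * N : ℕ) : ℝ) / U.card)) ≤ 2 * ℓ := by
    have h1 : 16 * ((2 * N : ℕ) : ℝ) / (U.card : ℝ) = 2 * (16 * N / U.card) := by push_cast; ring
    rw [h1, Real.log_mul (by norm_num) (by positivity)]
    have h2 : Real.log 2 + Real.log (16 * N / U.card) ≤ Real.log (16 * N / U.card) ^ 2 := by nlinarith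
    calc Real.log (Real.log 2 + Real.log (16 * N / U.card)) ≤ Real.log (Real.log (16 * N / U.card) ^ 2) :=
          Real.log_le_log (by linarith) h2
      _ = 2 * ℓ := by rw [Real.log_pow]; push_cast; rfl
  have hsqF : ∑ u ∈ U, √(FF u) ≤ F := by
    apply sum_le_sum
    intro u hu
    have h1 := one_le_FF u (by have := mem_Icc.1 (hU hu); omega)
    rw [Real.sqrt_le_iff]
    exact ⟨by linarith, by nlinarith⟩
  set s := √((V.card : ℝ) / ((2 * N : ℕ) : ℝ)) with hs
  have hs0 : 0 ≤ s := Real.sqrt_nonneg _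
  have hup2 : (ee U V : ℝ) ≤ 4 * C * (s * ℓ) * (F * (N / L ^ 2)) + c1 / 8 * (F * (N / L ^ 2)) := by
    refine hup.trans (add_le_add ?_ ?_)
    · have hMM : ((2 * N : ℕ) : ℝ) / Real.log ((2 * N : ℕ) : ℝ) ^ 2 ≤ 2 * (N / L ^ 2) := by
        rw [hLM]
        push_cast
        rw [mul_div_assoc]
        apply mul_le_mul_of_nonneg_left _ (by norm_num)
        apply div_le_div_of_nonneg_left (by positivity) (by positivity)
        exact pow_le_pow_left₀ (by linarith) (by linarith) _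
      have hll0 : 0 ≤ Real.log (Real.log (16 * ((2 * N : ℕ) : ℝ) / U.card)) := by
        apply Real.log_nonneg
        have h1 : 16 * ((2 * N : ℕ) : ℝ) / (U.card : ℝ) = 2 * (16 * N / U.card) := by push_cast; ring
        rw [h1, Real.log_mul (by norm_num) (by positivity)]
        linarith
      calc C * (s * Real.log (Real.log (16 * ((2 * N : ℕ) : ℝ) / U.card)) * (((2 * N : ℕ) : ℝ) / Real.log ((2 * N : ℕ) : ℝ) ^ 2) *
            ∑ u ∈ U, √(FF u)) ≤ C * (s * (2 * ℓ) * (2 * (N / L ^ 2)) * F) := by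
            apply mul_le_mul_of_nonneg_left _ (by linarith)
            apply mul_le_mul _ hsqF (sum_nonneg (fun _ _ => Real.sqrt_nonneg _)) (by positivity)
            apply mul_le_mul _ hMM (by positivity) (by positivity)
            exact mul_le_mul_of_nonneg_left hℓ2 hs0
        _ = _ := by ring
    · have h1 : C * ((2 * N : ℕ) : ℝ) ^ (4 / 5 : ℝ) ≤ c1 / 8 * (N / L ^ 2) := by
        refine le_trans ?_ herr
        exact mul_le_mul_of_nonneg_right (by linarith) (by positivity)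
      calc C * (U.card * ((2 * N : ℕ) : ℝ) ^ (4 / 5 : ℝ)) = U.card * (C * ((2 * N : ℕ) : ℝ) ^ (4 / 5 : ℝ)) := by ring
        _ ≤ U.card * (c1 / 8 * (N / L ^ 2)) := mul_le_mul_of_nonneg_left h1 hUpos.le
        _ ≤ F * (c1 / 8 * (N / L ^ 2)) := mul_le_mul_of_nonneg_right hFU (by positivity)
        _ = _ := by ring
  have hY : 0 < F * (N / L ^ 2) := by positivity
  have hkey : c1 / 4 ≤ 4 * C * (s * ℓ) := by
    have h1 : c1 / 2 * (F * (N / L ^ 2)) ≤ (4 * C * (s * ℓ) + c1 / 8 + c1 / 8) * (F * (N / L ^ 2)) := by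
      calc c1 / 2 * (F * (N / L ^ 2)) = c1 * (F / 2 * (N / L ^ 2)) := by ring
        _ ≤ (ee U I : ℝ) := hlow
        _ ≤ _ := by rw [hsum]; linarith
    have h2 := le_of_mul_le_mul_right h1 hY
    linarith
  have hs2 : c1 / (16 * C * ℓ) ≤ s := by
    rw [div_le_iff₀ (by positivity)]
    linarith
  have hV3 : (c1 / (16 * C * ℓ)) ^ 2 ≤ (V.card : ℝ) / ((2 * N : ℕ) : ℝ) := by
    have h1 : s ^ 2 = (V.card : ℝ) / ((2 * N : ℕ) : ℝ) := Real.sq_sqrt (by positivity)
    rw [← h1]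
    exact pow_le_pow_left₀ (by positivity) hs2 2
  calc c * (N / ℓ ^ 2) ≤ (2 * (c1 / (16 * C)) ^ 2) * (N / ℓ ^ 2) := mul_le_mul_of_nonneg_right (min_le_right _ _) (by positivity)
    _ = (c1 / (16 * C * ℓ)) ^ 2 * ((2 * N : ℕ) : ℝ) := by
        push_cast
        field_simp
    _ ≤ (V.card : ℝ) := by
        rwa [le_div_iff₀ (by positivity)] at hV3

end Pool.Agent.L0h44.AS
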