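import Pool.Agent.L0h44.AS.Sv2
import Pool.Agent.H373R2.T7.Crt

set_option autoImplicit false

/-! The number of the classes `b` for which `b + u` and `b - u` are units. -/

namespace Pool.Agent.L0h44.AS

open Finset Filter
open Pool.Agent.H373R2.T7 (pz Vz mem_pz Vz_pos crt_card)

/-- `b + u` and `b - u` are units modulo all the primes `≤ w` -/
def Cop (w u b : ℕ) : Prop := ∀ p ∈ pz w, (b : ZMod p) ≠ u ∧ (b : ZMod p) ≠ -u

/-- `u / φ(u)` -/
noncomputable def FF (u : ℕ) : ℝ := (u : ℝ) / Nat.totient u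

lemma FF_eq (u : ℕ) (hu : 0 < u) : FF u = ∏ p ∈ u.primeFactors, (1 - 1 / (p : ℝ))⁻¹ := by
  have h1 : (Nat.totient u : ℝ) = u * ∏ p ∈ u.primeFactors, (1 - 1 / (p : ℝ)) := by
    have := Nat.totient_eq_mul_prod_factors u
    have h2 : ((Nat.totient u : ℚ) : ℝ) = ((u * ∏ p ∈ u.primeFactors, (1 - (p : ℚ)⁻¹) : ℚ) : ℝ) := by rw [this]
    push_cast at h2
    rw [h2]
    congr 1
    apply prod_congr rfl
    intro p _
    rw [one_div]
  unfold FF
  rw [h1, prod_inv_distrib]
  have hu0 : (u : ℝ) ≠ 0 := by exact_mod_cast hu.ne'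
  have hP : ∏ p ∈ u.primeFactors, (1 - 1 / (p : ℝ)) ≠ 0 := by
    rw [prod_ne_zero_iff]
    intro p hp
    have hp1 : (1 : ℝ) < p := by exact_mod_cast (Nat.prime_of_mem_primeFactors hp).one_lt
    have : 1 / (p : ℝ) < 1 := by rw [div_lt_one (by linarith)]; exact hp1
    linarith
  field_simp

lemma one_le_FF (u : ℕ) (hu : 0 < u) : 1 ≤ FF u := by
  unfold FF
  rw [one_le_div (by exact_mod_cast Nat.totient_pos.2 hu)]
  exact_mod_cast Nat.totient_le u

lemma FF_nonneg (u : ℕ) : 0 ≤ FF u := by unfold FF; positivity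

theorem class_count : ∃ C : ℝ, 1 ≤ C ∧ ∀ w u : ℕ, 2 ≤ w → 0 < u → ∀ S : Finset ℕ, S ⊆ range (PW w) → (∀ b ∈ S, Cop w u b) →
    (S.card : ℝ) ≤ C * PW w / Real.log w ^ 2 * FF u := by
  classical
  obtain ⟨c, C, hc, hC, hV⟩ := Vz_bounds
  refine ⟨max 1 (2 * C ^ 2), le_max_left _ _, ?_⟩
  intro w u hw hu S hS hS2
  have hLw : 0 < Real.log w := Real.log_pos (by exact_mod_cast (by omega : 1 < w))
  set A : ℕ → ℕ → Prop := fun p a => (a : ZMod p) ≠ u ∧ (a : ZMod p) ≠ -u with hA
  have h0 : S ⊆ (range (∏ p ∈ pz w, p)).filter (fun n => ∀ p ∈ pz w, A p (n % p)) := by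
    intro b hb
    rw [mem_filter]
    refine ⟨hS hb, ?_⟩
    intro p hp
    have h1 := hS2 b hb p hp
    simp only [hA]
    rw [ZMod.natCast_mod]
    exact h1
  have h1 : (S.card : ℝ) ≤ ∏ p ∈ pz w, (((range p).filter (fun a => A p a)).card : ℝ) := by
    have h2 := card_le_card h0
    rw [crt_card A (pz w) (fun p hp => (mem_pz.1 hp).2)] at h2
    exact_mod_cast h2
  -- the local factors
  have hloc : ∀ p ∈ pz w, (((range p).filter (fun a => A p a)).card : ℝ) ≤
      (p : ℝ) * (1 - 1 / (p : ℝ)) ^ 2 * (if p ∣ 2 * u then (1 - 1 / (p : ℝ))⁻¹ else 1) := by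
    intro p hp
    have hpp := (mem_pz.1 hp).2
    have : Fact p.Prime := ⟨hpp⟩
    have : NeZero p := ⟨hpp.pos.ne'⟩
    have hp2 : (2 : ℝ) ≤ p := by exact_mod_cast hpp.two_le
    have hp0 : (0 : ℝ) < p := by linarith
    have hcardA : ((range p).filter (fun a => A p a)).card = p - ({(u : ZMod p), -(u : ZMod p)} : Finset (ZMod p)).card := by
      have e1 : ((range p).filter (fun a => A p a)).card = (({(u : ZMod p), -(u : ZMod p)} : Finset (ZMod p))ᶜ).card := by
        apply card_nbij' (fun a : ℕ => (a : ZMod p)) (fun t : ZMod p => t.val)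
        · intro a ha
          rw [mem_coe, mem_filter] at ha
          rw [mem_coe, mem_compl, mem_insert, mem_singleton]
          rintro (h | h)
          · exact ha.2.1 h
          · exact ha.2.2 h
        · intro t ht
          rw [mem_coe, mem_compl, mem_insert, mem_singleton] at ht
          rw [mem_coe, mem_filter, mem_range]
          refine ⟨ZMod.val_lt t, ?_, ?_⟩
          · rw [ZMod.natCast_zmod_val]; exact fun h => ht (Or.inl h)
          · rw [ZMod.natCast_zmod_val]; exact fun h => ht (Or.inr h)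
        · intro a ha
          rw [mem_coe, mem_filter, mem_range] at ha
          simp only
          rw [ZMod.val_natCast, Nat.mod_eq_of_lt ha.1]
        · intro t _
          simp only
          rw [ZMod.natCast_zmod_val]
      rw [e1, card_compl, ZMod.card]
    rw [hcardA]
    have hx1 : 1 / (p : ℝ) ≤ 1 / 2 := by rw [div_le_div_iff₀ hp0 (by norm_num)]; linarith
    have hx0 : 0 < 1 - 1 / (p : ℝ) := by linarith
    by_cases hd : p ∣ 2 * u
    · rw [if_pos hd]
      have hge : 1 ≤ ({(u : ZMod p), -(u : ZMod p)} : Finset (ZMod p)).card := by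
        rw [Nat.one_le_iff_ne_zero, Ne, card_eq_zero]
        exact insert_ne_empty _ _
      have h2 : ((p - ({(u : ZMod p), -(u : ZMod p)} : Finset (ZMod p)).card : ℕ) : ℝ) ≤ (p : ℝ) - 1 := by
        have h3 : p - ({(u : ZMod p), -(u : ZMod p)} : Finset (ZMod p)).card ≤ p - 1 := by omega
        have h4 : ((p - 1 : ℕ) : ℝ) = (p : ℝ) - 1 := by
          rw [Nat.cast_sub hpp.one_lt.le, Nat.cast_one]
        rw [← h4]
        exact_mod_cast h3
      refine h2.trans (le_of_eq ?_)
      have h5 : (p : ℝ) - 1 ≠ 0 := by linarith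
      field_simp
    · rw [if_neg hd, mul_one]
      have hne : (u : ZMod p) ≠ -(u : ZMod p) := by
        intro h
        apply hd
        rw [← ZMod.natCast_eq_zero_iff]
        push_cast
        linear_combination h
      rw [card_pair hne]
      have h4 : ((p - 2 : ℕ) : ℝ) = (p : ℝ) - 2 := by
        rw [Nat.cast_sub hpp.two_le]; norm_num
      rw [h4]
      have h5 : (p : ℝ) * (1 - 1 / (p : ℝ)) ^ 2 = p - 2 + 1 / p := by field_simp; ring
      rw [h5]
      have : 0 < 1 / (p : ℝ) := by positivity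
      linarith
  refine h1.trans ((prod_le_prod (fun p _ => by positivity) hloc).trans ?_)
  rw [prod_mul_distrib, prod_mul_distrib, prod_pow]
  have hPW : ∏ p ∈ pz w, (p : ℝ) = PW w := by unfold PW; push_cast; rfl
  have hVz : ∏ p ∈ pz w, (1 - 1 / (p : ℝ)) = Vz w := rfl
  rw [hPW, hVz]
  have hmain : ∏ p ∈ pz w, (if p ∣ 2 * u then (1 - 1 / (p : ℝ))⁻¹ else 1) ≤ 2 * FF u := by
    rw [← prod_filter]
    have hinv : ∀ p : ℕ, p.Prime → 1 ≤ (1 - 1 / (p : ℝ))⁻¹ := by
      intro p hp
      have hp2 : (2 : ℝ) ≤ p := by exact_mod_cast hp.two_le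
      have hx1 : 1 / (p : ℝ) ≤ 1 / 2 := by rw [div_le_div_iff₀ (by linarith) (by norm_num)]; linarith
      have hx0 : 0 < 1 / (p : ℝ) := by positivity
      rw [one_le_inv₀ (by linarith)]
      linarith
    have hsub : (pz w).filter (fun p => p ∣ 2 * u) ⊆ (2 * u).primeFactors := by
      intro p hp
      rw [mem_filter, mem_pz] at hp
      rw [Nat.mem_primeFactors]
      exact ⟨hp.1.2, hp.2, by omega⟩
    have h2 : ∏ p ∈ (pz w).filter (fun p => p ∣ 2 * u), (1 - 1 / (p : ℝ))⁻¹ ≤ FF (2 * u) := by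
      rw [FF_eq (2 * u) (by omega)]
      apply prod_le_prod_of_subset_of_one_le hsub
      · intro p hp
        rw [mem_filter, mem_pz] at hp
        exact zero_le_one.trans (hinv p hp.1.2)
      · intro p hp _
        exact hinv p (Nat.prime_of_mem_primeFactors hp)
    refine h2.trans ?_
    unfold FF
    have h3 : Nat.totient u ≤ Nat.totient (2 * u) := by
      rcases Nat.even_or_odd u with he | ho
      · rw [Nat.totient_mul_of_prime_of_dvd Nat.prime_two he.two_dvd]
        omega
      · rw [Nat.totient_mul_of_prime_of_not_dvd Nat.prime_two (by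
          intro h; exact (Nat.not_even_iff_odd.2 ho) (even_iff_two_dvd.2 h))]
        simp
    have h4 : (0 : ℝ) < Nat.totient u := by exact_mod_cast Nat.totient_pos.2 hu
    have h5 : (Nat.totient u : ℝ) ≤ Nat.totient (2 * u) := by exact_mod_cast h3
    push_cast
    rw [mul_div_assoc']
    apply div_le_div_of_nonneg_left (by positivity) h4 h5
  have hV2 := (hV w hw).2
  have hV0 := Vz_pos w
  have hVsq : Vz w ^ 2 ≤ C ^ 2 / Real.log w ^ 2 := by
    rw [← div_pow]
    exact pow_le_pow_left₀ hV0.le hV2 2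
  have hpw : (0 : ℝ) < PW w := by exact_mod_cast PW_pos w
  have hFF := FF_nonneg u
  calc (PW w : ℝ) * Vz w ^ 2 * ∏ p ∈ pz w, (if p ∣ 2 * u then (1 - 1 / (p : ℝ))⁻¹ else 1) ≤
        (PW w : ℝ) * (C ^ 2 / Real.log w ^ 2) * (2 * FF u) := by
        apply mul_le_mul _ hmain
        · apply prod_nonneg
          intro p hp
          have hp2 : (2 : ℝ) ≤ p := by exact_mod_cast (mem_pz.1 hp).2.two_le
          have hx1 : 1 / (p : ℝ) ≤ 1 / 2 := by rw [div_le_div_iff₀ (by linarith) (by norm_num)]; linarith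
          split_ifs
          · apply inv_nonneg.2; linarith
          · norm_num
        · positivity
        · exact mul_le_mul_of_nonneg_left hVsq hpw.le
    _ = (2 * C ^ 2) * PW w / Real.log w ^ 2 * FF u := by ring
    _ ≤ _ := by
        apply mul_le_mul_of_nonneg_right _ hFF
        apply div_le_div_of_nonneg_right _ (by positivity)
        exact mul_le_mul_of_nonneg_right (le_max_right _ _) hpw.le

end Pool.Agent.L0h44.AS
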