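import Pool.Agent.L0h44.AS.Cls

set_option autoImplicit false

/-! The bilinear upper bound for prime pairs `u + v`, `|u - v|` with `u ∈ U`, `v ∈ V`. -/

namespace Pool.Agent.L0h44.AS

open Finset Filter
open Pool.Agent.H373R2.T7 (pz Vz mem_pz Vz_pos)

/-- the number of the pairs `(u, v)` for which `u + v` and `|u - v|` are primes -/
def ee (U V : Finset ℕ) : ℕ := ((U ×ˢ V).filter (fun x => pr x.1 x.2)).card

open Classical in
/-- the elements of `U` which are compatible with the class `b` -/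
noncomputable def Ub (w : ℕ) (U : Finset ℕ) (b : ℕ) : Finset ℕ := U.filter (fun u => Cop w u b)

/-- the elements of `V` in the class `b` -/
def Vb (w : ℕ) (V : Finset ℕ) (b : ℕ) : Finset ℕ := V.filter (fun v => v % PW w = b)

/-- the number of the `u` for one `v` -/
noncomputable def RR (w : ℕ) (U : Finset ℕ) (b v : ℕ) : ℕ := ((Ub w U b).filter (fun u => pr u v)).card

lemma sum_RR (w M : ℕ) (hw : 1 ≤ w) (U V : Finset ℕ) (hV : V ⊆ Icc 1 M) :
    (ee U V : ℝ) ≤ 4 * w * U.card + ∑ b ∈ range (PW w), ∑ v ∈ Vb w V b, (RR w U b v : ℝ) := by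
  classical
  have hsub : (U ×ˢ V).filter (fun x => pr x.1 x.2) ⊆
      (U ×ˢ V).filter (fun x => x.2 ≤ w ∨ Nat.dist x.1 x.2 ≤ w) ∪
      (U ×ˢ V).filter (fun x => pr x.1 x.2 ∧ Cop w x.1 (x.2 % PW w)) := by
    rintro ⟨u, v⟩ h
    rw [mem_filter] at h
    obtain ⟨h1, h2⟩ := h
    rw [mem_union, mem_filter, mem_filter]
    by_cases hc : Cop w u (v % PW w)
    · exact Or.inr ⟨h1, h2, hc⟩
    · left
      refine ⟨h1, ?_⟩
      unfold Cop at hc
      push Not at hc
      obtain ⟨p, hp, hne⟩ := hc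
      have hpp := mem_pz.1 hp
      have hpW : p ∣ PW w := dvd_PW hpp.2 hpp.1
      have hcast : ((v % PW w : ℕ) : ZMod p) = (v : ZMod p) := by
        rw [ZMod.natCast_eq_natCast_iff', Nat.mod_mod_of_dvd _ hpW]
      rw [hcast] at hne
      simp only at h2 ⊢
      by_cases he : (v : ZMod p) = u
      · right
        have h3 := cast_sub_eq u v p he
        rw [(Nat.prime_dvd_prime_iff_eq hpp.2 h2.2).1 h3] at hpp
        exact hpp.1
      · left
        have h4 := hne he
        have h3 : p ∣ u + v := by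
          rw [← ZMod.natCast_eq_zero_iff]
          push_cast
          rw [h4]
          ring
        have h5 := (Nat.prime_dvd_prime_iff_eq hpp.2 h2.1).1 h3
        omega
  have hbad : ((U ×ˢ V).filter (fun x => x.2 ≤ w ∨ Nat.dist x.1 x.2 ≤ w)).card ≤ U.card * (4 * w) := by
    have h1 : ((U ×ˢ V).filter (fun x => x.2 ≤ w ∨ Nat.dist x.1 x.2 ≤ w)).card =
        ∑ u ∈ U, (V.filter (fun v => v ≤ w ∨ Nat.dist u v ≤ w)).card := by
      rw [card_filter, sum_product]
      apply sum_congr rfl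
      intro u _
      rw [card_filter]
    rw [h1]
    refine sum_le_card_nsmul _ _ _ ?_
    intro u _
    have h2 : V.filter (fun v => v ≤ w ∨ Nat.dist u v ≤ w) ⊆ Icc 1 w ∪ Icc (u - w) (u + w) := by
      intro v hv
      rw [mem_filter] at hv
      have h3 := mem_Icc.1 (hV hv.1)
      rw [mem_union, mem_Icc, mem_Icc]
      rcases hv.2 with h | h
      · left; exact ⟨h3.1, h⟩
      · right; rw [Nat.dist] at h; omega
    refine (card_le_card h2).trans ((card_union_le _ _).trans ?_)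
    rw [Nat.card_Icc, Nat.card_Icc]
    omega
  have hgood : ((U ×ˢ V).filter (fun x => pr x.1 x.2 ∧ Cop w x.1 (x.2 % PW w))).card =
      ∑ b ∈ range (PW w), ∑ v ∈ Vb w V b, RR w U b v := by
    have h1 : ((U ×ˢ V).filter (fun x => pr x.1 x.2 ∧ Cop w x.1 (x.2 % PW w))).card =
        ∑ v ∈ V, RR w U (v % PW w) v := by
      rw [card_filter, sum_product_right]
      apply sum_congr rfl
      intro v _
      unfold RR Ub
      rw [filter_filter, card_filter]
      apply sum_congr rfl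
      intro u _
      simp only [and_comm]
    rw [h1, ← sum_fiberwise_of_maps_to (g := fun v => v % PW w) (t := range (PW w))]
    · apply sum_congr rfl
      intro b _
      unfold Vb
      apply sum_congr rfl
      intro v hv
      rw [mem_filter] at hv
      rw [hv.2]
    · intro v _
      rw [mem_range]
      exact Nat.mod_lt _ (PW_pos w)
  have h2 := (card_le_card hsub).trans (card_union_le _ _)
  have h3 : ee U V ≤ U.card * (4 * w) + ∑ b ∈ range (PW w), ∑ v ∈ Vb w V b, RR w U b v := by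
    unfold ee
    rw [← hgood]
    exact h2.trans (Nat.add_le_add_right hbad _)
  have h4 : (ee U V : ℝ) ≤ ((U.card * (4 * w) + ∑ b ∈ range (PW w), ∑ v ∈ Vb w V b, RR w U b v : ℕ) : ℝ) := by
    exact_mod_cast h3
  push_cast at h4
  linarith

/-- the second moment in a class -/
lemma sum_sq (w M b : ℕ) (U V : Finset ℕ) (hV : V ⊆ Icc 1 M) :
    ∑ v ∈ Vb w V b, (RR w U b v : ℝ) ^ 2 ≤
      ∑ x ∈ Ub w U b ×ˢ Ub w U b, (({v ∈ Icc 1 M | v % PW w = b ∧ pr x.1 v ∧ pr x.2 v} : Finset ℕ).card : ℝ) := by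
  classical
  have h1 : ∀ v, (RR w U b v : ℝ) ^ 2 = ∑ x ∈ Ub w U b ×ˢ Ub w U b, (if pr x.1 v ∧ pr x.2 v then (1 : ℝ) else 0) := by
    intro v
    have e : (RR w U b v : ℝ) = ∑ u ∈ Ub w U b, (if pr u v then (1 : ℝ) else 0) := by
      unfold RR
      rw [card_filter]
      push_cast
      rfl
    rw [e, sq, sum_mul_sum, sum_product]
    apply sum_congr rfl
    intro u _
    apply sum_congr rfl
    intro u' _
    by_cases c1 : pr u v <;> by_cases c2 : pr u' v <;> simp [c1, c2]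
  have h2 : ∑ v ∈ Vb w V b, (RR w U b v : ℝ) ^ 2 ≤ ∑ v ∈ (Icc 1 M).filter (fun v => v % PW w = b), (RR w U b v : ℝ) ^ 2 := by
    apply sum_le_sum_of_subset_of_nonneg
    · intro v hv
      unfold Vb at hv
      rw [mem_filter] at hv ⊢
      exact ⟨hV hv.1, hv.2⟩
    · intro v _ _
      positivity
  refine h2.trans (le_of_eq ?_)
  rw [sum_congr rfl (fun v _ => h1 v), sum_comm]
  apply sum_congr rfl
  intro x _
  rw [← filter_filter, card_filter]
  push_cast
  rfl

lemma class_size (w M b : ℕ) : (({v ∈ Icc 1 M | v % PW w = b} : Finset ℕ).card : ℝ) ≤ (M : ℝ) / PW w + 1 := by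
  classical
  have hW := PW_pos w
  have h1 : ({v ∈ Icc 1 M | v % PW w = b} : Finset ℕ).card ≤ M / PW w + 1 := by
    have h2 : ({v ∈ Icc 1 M | v % PW w = b} : Finset ℕ).card ≤ (range (M / PW w + 1)).card := by
      apply card_le_card_of_injOn (fun v => v / PW w)
      · intro v hv
        rw [mem_coe, mem_filter, mem_Icc] at hv
        rw [mem_coe, mem_range]
        exact Nat.lt_succ_of_le (Nat.div_le_div_right hv.1.2)
      · intro v hv v' hv' h
        rw [mem_coe, mem_filter] at hv hv'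
        simp only at h
        have e1 := Nat.mod_add_div v (PW w)
        have e2 := Nat.mod_add_div v' (PW w)
        rw [hv.2, h] at e1
        rw [hv'.2] at e2
        omega
    rwa [card_range] at h2
  have h3 : (({v ∈ Icc 1 M | v % PW w = b} : Finset ℕ).card : ℝ) ≤ ((M / PW w + 1 : ℕ) : ℝ) := by exact_mod_cast h1
  refine h3.trans ?_
  push_cast
  have : ((M / PW w : ℕ) : ℝ) ≤ (M : ℝ) / PW w := Nat.cast_div_le
  linarith

/-- the sum of the weights over the pairs of a set -/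
lemma sum_GG (k w M : ℕ) (hk : 1 ≤ k) (hw : 80 * k ≤ w) (S : Finset ℕ) (hS : S ⊆ Icc 1 M) (m α : ℝ) (hα : 0 < α)
    (hm : (S.card : ℝ) ≤ m) (hm2 : α ^ 2 * M ≤ m) (hk2 : 1 / α ≤ Real.exp k) :
    ∑ x ∈ (S ×ˢ S).filter (fun x => x.1 ≠ x.2), GG w x.1 x.2 ≤ 18 * Real.exp 4 * m ^ 2 := by
  classical
  obtain ⟨n, rfl⟩ : ∃ n, k = n + 1 := ⟨k - 1, by omega⟩
  have hm0 : 0 ≤ m := (Nat.cast_nonneg _).trans hm
  set A := (S ×ˢ S).filter (fun x => x.1 ≠ x.2) with hA
  have hAcard : (A.card : ℝ) ≤ m ^ 2 := by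
    have h1 : A.card ≤ S.card * S.card := by
      rw [← card_product]
      exact card_filter_le _ _
    have h2 : (A.card : ℝ) ≤ (S.card : ℝ) * S.card := by exact_mod_cast h1
    nlinarith [Nat.cast_nonneg (α := ℝ) S.card]
  have hmom : ∑ x ∈ A, GG w x.1 x.2 ^ (n + 1) ≤ 18 * (M : ℝ) ^ 2 := by
    refine le_trans ?_ (moment_pair (n + 1) w M hk hw)
    apply sum_le_sum_of_subset_of_nonneg
    · intro x hx
      rw [hA, mem_filter, mem_product] at hx
      rw [mem_filter, mem_product]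
      exact ⟨⟨hS hx.1.1, hS hx.1.2⟩, hx.2⟩
    · intro x _ _
      exact pow_nonneg (GG_nonneg _ _ _) _
  rcases Nat.eq_zero_or_pos A.card with hA0 | hA0
  · rw [card_eq_zero] at hA0
    rw [hA0]
    simp
    positivity
  have hpm := pow_sum_div_card_le_sum_pow (s := A) (f := fun x => GG w x.1 x.2) (fun x _ => GG_nonneg _ _ _) n
  have hApos : (0 : ℝ) < A.card := by exact_mod_cast hA0
  rw [div_le_iff₀ (by positivity)] at hpm
  -- `M ^ 2 ≤ e ^ (4 k) m ^ 2`
  have hM2 : (M : ℝ) ^ 2 ≤ Real.exp 4 ^ (n + 1) * m ^ 2 := by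
    have h1 : (M : ℝ) ≤ (1 / α) ^ 2 * m := by
      rw [div_pow, one_pow, one_div, ← div_eq_inv_mul, le_div_iff₀ (by positivity)]
      linarith
    have h2 : (1 / α) ^ 2 ≤ Real.exp 2 ^ (n + 1) := by
      rw [← Real.exp_nat_mul]
      calc (1 / α) ^ 2 ≤ Real.exp ((n + 1 : ℕ)) ^ 2 := pow_le_pow_left₀ (by positivity) hk2 2
        _ = Real.exp (((n + 1 : ℕ) : ℝ) * 2) := by rw [← Real.exp_nat_mul]; congr 1; push_cast; ring
    have h3 : (M : ℝ) ≤ Real.exp 2 ^ (n + 1) * m := h1.trans (mul_le_mul_of_nonneg_right h2 hm0)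
    calc (M : ℝ) ^ 2 ≤ (Real.exp 2 ^ (n + 1) * m) ^ 2 := pow_le_pow_left₀ (by positivity) h3 2
      _ = (Real.exp 2 ^ 2) ^ (n + 1) * m ^ 2 := by ring
      _ = Real.exp 4 ^ (n + 1) * m ^ 2 := by
          rw [← Real.exp_nat_mul 2 2]
          norm_num
  have hpow : (∑ x ∈ A, GG w x.1 x.2) ^ (n + 1) ≤ (18 * Real.exp 4 * m ^ 2) ^ (n + 1) := by
    refine hpm.trans ?_
    calc (∑ x ∈ A, GG w x.1 x.2 ^ (n + 1)) * (A.card : ℝ) ^ n ≤
          (18 * (Real.exp 4 ^ (n + 1) * m ^ 2)) * (m ^ 2) ^ n := by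
          apply mul_le_mul (hmom.trans (by linarith)) (pow_le_pow_left₀ hApos.le hAcard n) (by positivity) (by positivity)
      _ = 18 * (Real.exp 4 ^ (n + 1) * (m ^ 2) ^ (n + 1)) := by rw [pow_succ (m ^ 2)]; ring
      _ ≤ 18 ^ (n + 1) * (Real.exp 4 ^ (n + 1) * (m ^ 2) ^ (n + 1)) := by
          apply mul_le_mul_of_nonneg_right _ (by positivity)
          calc (18 : ℝ) = 18 ^ 1 := by norm_num
            _ ≤ 18 ^ (n + 1) := pow_le_pow_right₀ (by norm_num) (by omega)
      _ = (18 * Real.exp 4 * m ^ 2) ^ (n + 1) := by rw [mul_pow, mul_pow]; ring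
  exact le_of_pow_le_pow_left₀ (by omega) (by positivity) hpow

end Pool.Agent.L0h44.AS
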