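import Pool.Agent.L0h44.AS.DelX
import Pool.Agent.L0h44.AS.ArbS

set_option autoImplicit false

/-! Deleting a proportion of the `x`: the bound is sharp. -/

namespace Pool.Agent.L0h44.AS

open Finset Filter
open Pool.Agent.H373R2.T7 (pz Vz mem_pz Vz_pos)

/-- the progression `1 mod m` in `(N, 2 N]` -/
def EE (N m : ℕ) : Finset ℕ := (Icc ((N + m - 1) / m) ((2 * N - 1) / m)).image (fun k => 1 + m * k)

lemma mem_EE (N m n : ℕ) (hm : 0 < m) (hN : 0 < N) (h : n ∈ EE N m) : n ∈ Ioc N (2 * N) ∧ ∃ k, n = 1 + m * k := by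
  unfold EE at h
  rw [mem_image] at h
  obtain ⟨k, hk, rfl⟩ := h
  rw [mem_Icc] at hk
  refine ⟨?_, k, rfl⟩
  rw [mem_Ioc]
  have h1 : N ≤ m * k := by
    have h2 := Nat.lt_mul_div_succ (N + m - 1) hm
    have h3 : m * ((N + m - 1) / m) ≤ m * k := Nat.mul_le_mul_left _ hk.1
    rw [mul_add, mul_one] at h2
    omega
  have h4 : m * k ≤ 2 * N - 1 := by
    calc m * k ≤ m * ((2 * N - 1) / m) := Nat.mul_le_mul_left _ hk.2
      _ ≤ 2 * N - 1 := Nat.mul_div_le _ _
  omega

lemma card_EE (N m : ℕ) (hm : 0 < m) (hN : 0 < N) : (N : ℝ) / m - 1 ≤ (EE N m).card ∧ ((EE N m).card : ℝ) ≤ N / m + 1 := by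
  have hm0 : (0 : ℝ) < m := by exact_mod_cast hm
  have hc : (EE N m).card = (2 * N - 1) / m + 1 - (N + m - 1) / m := by
    unfold EE
    rw [card_image_of_injective _ (by
      intro x y h
      simp only at h
      have h2 : m * x = m * y := by omega
      exact Nat.eq_of_mul_eq_mul_left hm h2), Nat.card_Icc]
  set a := (2 * N - 1) / m with ha
  set b := (N + m - 1) / m with hb
  have a1 : m * a ≤ 2 * N - 1 := Nat.mul_div_le _ _
  have a2 : 2 * N - 1 < m * a + m := by
    have h := Nat.lt_mul_div_succ (2 * N - 1) hm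
    rw [mul_add, mul_one] at h
    exact h
  have b1 : m * b ≤ N + m - 1 := Nat.mul_div_le _ _
  have b2 : N + m - 1 < m * b + m := by
    have h := Nat.lt_mul_div_succ (N + m - 1) hm
    rw [mul_add, mul_one] at h
    exact h
  have a1' : (m : ℝ) * a ≤ 2 * N - 1 := by
    have : m * a + 1 ≤ 2 * N := by omega
    have h : ((m * a + 1 : ℕ) : ℝ) ≤ ((2 * N : ℕ) : ℝ) := by exact_mod_cast this
    push_cast at h
    linarith
  have a2' : (2 : ℝ) * N ≤ m * a + m := by
    have : 2 * N ≤ m * a + m := by omega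
    exact_mod_cast this
  have b1' : (m : ℝ) * b ≤ N + m - 1 := by
    have : m * b + 1 ≤ N + m := by omega
    have h : ((m * b + 1 : ℕ) : ℝ) ≤ ((N + m : ℕ) : ℝ) := by exact_mod_cast this
    push_cast at h
    linarith
  have b2' : (N : ℝ) ≤ m * b := by
    have : N ≤ m * b := by omega
    exact_mod_cast this
  rw [hc]
  constructor
  · have h1 : ((a + 1 : ℕ) : ℝ) - b ≤ ((a + 1 - b : ℕ) : ℝ) := by
      have := Nat.le_sub_of_add_le' (le_refl (b + (a + 1 - b)))
      rcases Nat.le_total b (a + 1) with h | h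
      · rw [Nat.cast_sub h]
      · have h3 : ((a + 1 : ℕ) : ℝ) ≤ b := by exact_mod_cast h
        have h4 : (0 : ℝ) ≤ ((a + 1 - b : ℕ) : ℝ) := by positivity
        linarith
    refine le_trans ?_ h1
    push_cast
    have h5 : (N : ℝ) / m ≤ a + 2 - b := by
      rw [div_le_iff₀ hm0]
      nlinarith
    linarith
  · rcases Nat.le_total b (a + 1) with h | h
    · rw [Nat.cast_sub h]
      push_cast
      have h5 : (a : ℝ) - b ≤ N / m := by
        rw [le_div_iff₀ hm0]
        nlinarith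
      linarith
    · have h3 : a + 1 - b = 0 := by omega
      rw [h3]
      push_cast
      positivity

theorem del_sharp : ∃ C : ℝ, 0 < C ∧ ∀ B : ℕ, ∃ N0 : ℕ, ∀ N : ℕ, N0 ≤ N → ∀ η : ℝ, 0 < η → η ≤ 1 →
    Real.exp (Real.exp (C / √η)) ≤ Real.log N ^ B →
    ∃ Y : Finset ℕ, Y ⊆ Icc 1 (2 * N) ∧ (Y.card : ℝ) ≤ η * N ∧ ∃ E : Finset ℕ, E ⊆ Ioc N (2 * N) ∧
      Real.exp (-Real.exp (C / √η)) * N ≤ E.card ∧ ∀ n ∈ E, so Y n = 0 := by
  classical
  obtain ⟨C2, hC21, hC2⟩ := class_count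
  obtain ⟨K, hK⟩ : ∃ K : ℝ, K = √(3 * C2 + 3) := ⟨_, rfl⟩
  have hK2 : K ^ 2 = 3 * C2 + 3 := by rw [hK]; exact Real.sq_sqrt (by linarith)
  have hK0 : 0 < K := by rw [hK]; exact Real.sqrt_pos.2 (by linarith)
  have hK1 : 2 ≤ K := by nlinarith
  refine ⟨K + 3, by linarith, fun B => ?_⟩
  obtain ⟨N0, hN0⟩ := ev_ineq B
  refine ⟨N0, fun N hN η hη hη1 hexp => ?_⟩
  obtain ⟨hN3, hL1, _, hlogB⟩ := hN0 N hN
  have hNr : (3 : ℝ) ≤ N := by exact_mod_cast hN3
  have hNpos : (0 : ℝ) < N := by linarith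
  have hη0 : 0 < √η := Real.sqrt_pos.2 hη
  have hηs : √η ≤ 1 := Real.sqrt_le_one.2 hη1
  have hexpN : Real.exp (Real.exp ((K + 3) / √η)) ≤ N := by
    refine hexp.trans (hlogB.trans ?_)
    calc (N : ℝ) ^ (3 / 5 : ℝ) ≤ (N : ℝ) ^ (1 : ℝ) := Real.rpow_le_rpow_of_exponent_le (by linarith) (by norm_num)
      _ = N := Real.rpow_one _
  obtain ⟨w, hw⟩ : ∃ w : ℕ, w = ⌈Real.exp (K / √η)⌉₊ := ⟨_, rfl⟩
  have hw1 : Real.exp (K / √η) ≤ w := by rw [hw]; exact Nat.le_ceil _
  have hw2 : (w : ℝ) ≤ Real.exp (K / √η) + 1 := by rw [hw]; exact (Nat.ceil_lt_add_one (Real.exp_pos _).le).le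
  have hKη : K ≤ K / √η := by rw [le_div_iff₀ hη0]; nlinarith
  have hKη0 : 0 < K / √η := by positivity
  have hexpK : 7 ≤ Real.exp (K / √η) := by
    have h1 : Real.exp 2 ≤ Real.exp (K / √η) := Real.exp_le_exp.2 (by linarith)
    have h2 : Real.exp 2 = Real.exp 1 ^ 2 := by rw [← Real.exp_nat_mul]; norm_num
    have h3 := Real.exp_one_gt_d9
    nlinarith
  have hw7 : (7 : ℝ) ≤ w := by linarith
  have hw7n : 7 ≤ w := by exact_mod_cast hw7
  have hw0 : (0 : ℝ) < w := by linarith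
  set W := PW w with hW
  have hWpos : 0 < W := PW_pos w
  have hWr : (0 : ℝ) < W := by exact_mod_cast hWpos
  have hW1 : (1 : ℝ) ≤ W := by exact_mod_cast hWpos
  have hW4 : (W : ℝ) ≤ 4 ^ w := by
    refine (PW_le w).trans (le_of_eq ?_)
    rw [mul_comm, Real.exp_mul, Real.exp_log (by norm_num), Real.rpow_natCast]
  set m := W * w ^ 3 with hm
  have hm0 : 0 < m := by positivity
  have hmr : (m : ℝ) = W * (w : ℝ) ^ 3 := by rw [hm]; push_cast; rfl
  have hmr0 : (0 : ℝ) < m := by exact_mod_cast hm0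
  have hw3 : (w : ℝ) ^ 3 ≤ 4 ^ w := by exact_mod_cast cube_le w
  have h2m : 2 * (m : ℝ) ≤ Real.exp (Real.exp ((K + 3) / √η)) := by
    have h1 : (m : ℝ) ≤ 16 ^ w := by
      rw [hmr]
      calc (W : ℝ) * (w : ℝ) ^ 3 ≤ 4 ^ w * 4 ^ w := mul_le_mul hW4 hw3 (by positivity) (by positivity)
        _ = 16 ^ w := by rw [← mul_pow]; norm_num
    have h2 : (2 : ℝ) * 16 ^ w ≤ Real.exp (4 * w) := by
      have h3 : (16 : ℝ) ^ w = Real.exp (w * (4 * Real.log 2)) := by
        have h4 : (4 : ℝ) * Real.log 2 = Real.log 16 := by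
          rw [show (16 : ℝ) = 2 ^ 4 by norm_num, Real.log_pow]; push_cast; rfl
        rw [h4, mul_comm, Real.exp_mul, Real.exp_log (by norm_num), Real.rpow_natCast]
      rw [h3]
      nth_rewrite 1 [← Real.exp_log (show (0 : ℝ) < 2 by norm_num)]
      rw [← Real.exp_add]
      apply Real.exp_le_exp.2
      have := Real.log_two_lt_d9
      nlinarith
    refine (mul_le_mul_of_nonneg_left h1 (by norm_num)).trans (h2.trans ?_)
    apply Real.exp_le_exp.2
    have h5 : 4 * (w : ℝ) ≤ 8 * Real.exp (K / √η) := by linarith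
    have h6 : (8 : ℝ) ≤ Real.exp 3 := by
      have h7 : Real.exp 3 = Real.exp 1 ^ 3 := by rw [← Real.exp_nat_mul]; norm_num
      have h8 := Real.exp_one_gt_d9
      rw [h7]
      calc (8 : ℝ) = 2 ^ 3 := by norm_num
        _ ≤ Real.exp 1 ^ 3 := pow_le_pow_left₀ (by norm_num) (by linarith) 3
    calc 4 * (w : ℝ) ≤ 8 * Real.exp (K / √η) := h5
      _ ≤ Real.exp 3 * Real.exp (K / √η) := mul_le_mul_of_nonneg_right h6 (Real.exp_pos _).le
      _ = Real.exp (3 + K / √η) := (Real.exp_add _ _).symm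
      _ ≤ Real.exp ((K + 3) / √η) := by
          apply Real.exp_le_exp.2
          rw [add_div]
          have : 3 ≤ 3 / √η := by rw [le_div_iff₀ hη0]; nlinarith
          linarith
  have h2mN : 2 * (m : ℝ) ≤ N := h2m.trans hexpN
  have hw3m : (w : ℝ) ^ 3 ≤ m := by rw [hmr]; nlinarith [pow_pos hw0 3]
  have hWm : (W : ℝ) ≤ m := by
    rw [hmr]
    have : (1 : ℝ) ≤ (w : ℝ) ^ 3 := one_le_pow₀ (by linarith)
    nlinarith
  have hwN : w < N := by
    have h1 : (w : ℝ) ≤ (w : ℝ) ^ 3 := by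
      have : (w : ℝ) ^ 3 = w * (w * w) := by ring
      rw [this]
      nlinarith
    have : (w : ℝ) < N := by linarith
    exact_mod_cast this
  have hlw0 : 0 < Real.log w := Real.log_pos (by linarith)
  have hlw : K / √η ≤ Real.log w := by
    rw [Real.le_log_iff_exp_le hw0]; exact hw1
  have hlwsq : K ^ 2 / η ≤ Real.log w ^ 2 := by
    have h1 : (K / √η) ^ 2 ≤ Real.log w ^ 2 := pow_le_pow_left₀ hKη0.le hlw 2
    rwa [div_pow, Real.sq_sqrt hη.le] at h1
  have hlww : Real.log w ≤ w := by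
    have := Real.log_le_sub_one_of_pos hw0
    linarith
  set E := EE N m with hE
  have hEI : E ⊆ Ioc N (2 * N) := fun n hn => (mem_EE N m n hm0 (by omega) hn).1
  obtain ⟨hE1, hE2⟩ := card_EE N m hm0 (by omega)
  set Y1 := (Icc 1 (2 * N)).filter (fun x => Cop w 1 (x % W)) with hY1
  set Y2 := ((E ×ˢ range (w + 1)).image (fun q : ℕ × ℕ => q.1 - q.2)).filter (fun x => x ∈ Icc 1 (2 * N)) with hY2
  have hY1c : (Y1.card : ℝ) ≤ 3 * C2 * (N / Real.log w ^ 2) := by
    set S := (range W).filter (fun b => Cop w 1 b) with hS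
    have hSc := hC2 w 1 (by omega) (by norm_num) S (filter_subset _ _) (fun b hb => (mem_filter.1 hb).2)
    have hFF1 : FF 1 = 1 := by unfold FF; simp
    rw [hFF1, mul_one] at hSc
    have hsub : Y1 ⊆ S.biUnion (fun b => (Icc 1 (2 * N)).filter (fun v => v % W = b)) := by
      intro n hn
      rw [hY1, mem_filter] at hn
      rw [mem_biUnion]
      refine ⟨n % W, ?_, ?_⟩
      · rw [hS, mem_filter, mem_range]
        exact ⟨Nat.mod_lt _ hWpos, hn.2⟩
      · rw [mem_filter]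
        exact ⟨hn.1, rfl⟩
    have hcard : (Y1.card : ℝ) ≤ S.card * (((2 * N : ℕ) : ℝ) / W + 1) := by
      have h1 : Y1.card ≤ ∑ b ∈ S, ((Icc 1 (2 * N)).filter (fun v => v % W = b)).card :=
        (card_le_card hsub).trans card_biUnion_le
      have h2 : (Y1.card : ℝ) ≤ ∑ b ∈ S, (((Icc 1 (2 * N)).filter (fun v => v % W = b)).card : ℝ) := by
        exact_mod_cast h1
      refine h2.trans ?_
      calc ∑ b ∈ S, (((Icc 1 (2 * N)).filter (fun v => v % W = b)).card : ℝ) ≤ ∑ b ∈ S, (((2 * N : ℕ) : ℝ) / W + 1) :=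
            sum_le_sum (fun b _ => class_size w (2 * N) b)
        _ = _ := by rw [sum_const, nsmul_eq_mul]
    calc (Y1.card : ℝ) ≤ S.card * (((2 * N : ℕ) : ℝ) / W + 1) := hcard
      _ ≤ (C2 * W / Real.log w ^ 2) * (((2 * N : ℕ) : ℝ) / W + 1) := mul_le_mul_of_nonneg_right hSc (by positivity)
      _ = C2 / Real.log w ^ 2 * (2 * N + W) := by push_cast; field_simp
      _ ≤ C2 / Real.log w ^ 2 * (2 * N + N) := by
          apply mul_le_mul_of_nonneg_left _ (by positivity)
          linarith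
      _ = _ := by ring
  have hY2c : (Y2.card : ℝ) ≤ 3 * (N / Real.log w ^ 2) := by
    have h1 : Y2.card ≤ E.card * (w + 1) := by
      rw [hY2]
      refine (card_filter_le _ _).trans (card_image_le.trans ?_)
      rw [card_product, card_range]
    have h2 : (Y2.card : ℝ) ≤ E.card * (w + 1) := by exact_mod_cast h1
    have h3 : (E.card : ℝ) ≤ 3 / 2 * (N / (w : ℝ) ^ 3) := by
      refine hE2.trans ?_
      have h4 : (N : ℝ) / m ≤ N / (w : ℝ) ^ 3 := div_le_div_of_nonneg_left hNpos.le (by positivity) hw3m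
      have h5 : (2 : ℝ) ≤ N / (w : ℝ) ^ 3 := by
        rw [le_div_iff₀ (by positivity)]
        linarith
      linarith
    calc (Y2.card : ℝ) ≤ E.card * (w + 1) := h2
      _ ≤ (3 / 2 * (N / (w : ℝ) ^ 3)) * (2 * w) := by
          apply mul_le_mul h3 (by linarith) (by linarith) (by positivity)
      _ = 3 * (N / (w : ℝ) ^ 2) := by field_simp
      _ ≤ 3 * (N / Real.log w ^ 2) := by
          apply mul_le_mul_of_nonneg_left _ (by norm_num)
          apply div_le_div_of_nonneg_left hNpos.le (by positivity)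
          exact pow_le_pow_left₀ hlw0.le hlww 2
  refine ⟨Y1 ∪ Y2, ?_, ?_, E, hEI, ?_, ?_⟩
  · intro x hx
    rw [mem_union] at hx
    rcases hx with h | h
    · exact (mem_filter.1 h).1
    · exact (mem_filter.1 h).2
  · have h1 : ((Y1 ∪ Y2).card : ℝ) ≤ Y1.card + Y2.card := by exact_mod_cast card_union_le _ _
    refine h1.trans ((add_le_add hY1c hY2c).trans ?_)
    have h2 : 3 * C2 * (N / Real.log w ^ 2) + 3 * (N / Real.log w ^ 2) = K ^ 2 * N / Real.log w ^ 2 := by
      rw [hK2]; ring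
    rw [h2, div_le_iff₀ (by positivity)]
    rw [div_le_iff₀ hη] at hlwsq
    nlinarith
  · have h1 : (N : ℝ) / (2 * m) ≤ N / m - 1 := by
      have h2 : (1 : ℝ) ≤ N / (2 * m) := by rw [le_div_iff₀ (by positivity)]; linarith
      have h3 : (N : ℝ) / m = N / (2 * m) + N / (2 * m) := by field_simp; ring
      linarith
    refine le_trans ?_ (h1.trans hE1)
    rw [Real.exp_neg, ← div_eq_inv_mul]
    apply div_le_div_of_nonneg_left hNpos.le (by positivity) h2m
  · intro n hn
    obtain ⟨hnI, k, hk⟩ := mem_EE N m n hm0 (by omega) hn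
    rw [mem_Ioc] at hnI
    unfold so
    rw [card_eq_zero, filter_eq_empty_iff]
    rintro x hx ⟨⟨hp1, hp2⟩, hxY⟩
    rw [mem_Icc] at hx
    apply hxY
    rw [mem_union]
    by_cases hxw : n - x ≤ w
    · right
      rw [hY2, mem_filter, mem_image]
      refine ⟨⟨(n, n - x), ?_, ?_⟩, ?_⟩
      · rw [mem_product, mem_range]
        exact ⟨hn, by simp only; omega⟩
      · simp only; omega
      · rw [mem_Icc]; omega
    · left
      rw [hY1, mem_filter, mem_Icc]
      refine ⟨by omega, ?_⟩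
      intro p hp
      have hpp := mem_pz.1 hp
      have hpW : p ∣ W := dvd_PW hpp.2 hpp.1
      have hcast : ((x % W : ℕ) : ZMod p) = (x : ZMod p) := by
        rw [ZMod.natCast_eq_natCast_iff', Nat.mod_mod_of_dvd _ hpW]
      rw [hcast]
      have hnc : (n : ZMod p) = ((1 : ℕ) : ZMod p) := by
        have hpm : p ∣ m := hpW.mul_right _
        rw [hk]
        push_cast
        have : (m : ZMod p) = 0 := by rw [ZMod.natCast_eq_zero_iff]; exact hpm
        rw [this, zero_mul, add_zero]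
      constructor
      · intro h
        have h2 := cast_sub_eq x n p (hnc.trans h.symm)
        have h3 := (Nat.prime_dvd_prime_iff_eq hpp.2 hp2).1 h2
        rw [Nat.dist] at h3
        omega
      · intro h
        have h2 : p ∣ x + n := by
          rw [← ZMod.natCast_eq_zero_iff, Nat.cast_add, hnc, h]
          ring
        have h3 := (Nat.prime_dvd_prime_iff_eq hpp.2 hp1).1 h2
        omega

end Pool.Agent.L0h44.AS
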