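import Pool.Agent.L0h44.AS.ArbX
import Pool.Agent.W276.Link

set_option autoImplicit false

/-! Deleting a proportion of the `x`: the upper bound. -/

namespace Pool.Agent.L0h44.AS

open Finset Filter
open Pool.Agent.H560R3.GB (g HL sing C₂)

/-- the number of the `x < n`, `x ∉ Y`, for which `n + x` and `n - x` are primes -/
def so (Y : Finset ℕ) (n : ℕ) : ℕ := ((Icc 1 (n - 1)).filter (fun x => pr x n ∧ x ∉ Y)).card

lemma g_le (n : ℕ) : g (2 * n) ≤ 1 + 2 * ((Icc 1 (n - 1)).filter (fun x => pr x n)).card := by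
  classical
  unfold g
  set T := (Icc 1 (n - 1)).filter (fun x => pr x n) with hT
  have hsub : (antidiagonal (2 * n)).filter (fun q : ℕ × ℕ => q.1.Prime ∧ q.2.Prime) ⊆
      {(n, n)} ∪ (T.image (fun x => (n - x, n + x)) ∪ T.image (fun x => (n + x, n - x))) := by
    rintro ⟨p, q⟩ h
    rw [mem_filter, HasAntidiagonal.mem_antidiagonal] at h
    obtain ⟨h1, h2, h3⟩ := h
    simp only at h1 h2 h3
    have hp0 := h2.pos
    have hq0 := h3.pos
    simp only [mem_union, mem_singleton, mem_image, Prod.mk.injEq]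
    rcases Nat.lt_trichotomy p n with h | h | h
    · right; left
      refine ⟨n - p, ?_, by omega, by omega⟩
      rw [hT, mem_filter, mem_Icc]
      refine ⟨by omega, ?_, ?_⟩
      · have : n - p + n = q := by omega
        rw [this]; exact h3
      · have : Nat.dist (n - p) n = p := by rw [Nat.dist]; omega
        rw [this]; exact h2
    · left; omega
    · right; right
      refine ⟨p - n, ?_, by omega, by omega⟩
      rw [hT, mem_filter, mem_Icc]
      refine ⟨by omega, ?_, ?_⟩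
      · have : p - n + n = p := by omega
        rw [this]; exact h2
      · have : Nat.dist (p - n) n = q := by rw [Nat.dist]; omega
        rw [this]; exact h3
  refine (card_le_card hsub).trans ((card_union_le _ _).trans ?_)
  rw [card_singleton]
  have h4 := card_union_le (T.image (fun x => (n - x, n + x))) (T.image (fun x => (n + x, n - x)))
  have h5 : (T.image (fun x => (n - x, n + x))).card ≤ T.card := card_image_le
  have h6 : (T.image (fun x => (n + x, n - x))).card ≤ T.card := card_image_le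
  omega

lemma sing_ge (n : ℕ) (hn : 0 < n) : FF n / 2 ≤ sing (2 * n) := by
  classical
  unfold sing
  have hC := Pool.Agent.W93.GB.C2_half
  have h1 : (2 * n).primeFactors.filter (fun p => 2 < p) = n.primeFactors.filter (fun p => 2 < p) := by
    ext p
    simp only [mem_filter, Nat.mem_primeFactors]
    constructor
    · rintro ⟨⟨hp, hd, _⟩, h2⟩
      refine ⟨⟨hp, ?_, by omega⟩, h2⟩
      rcases (Nat.Prime.dvd_mul hp).1 hd with h | h
      · have := Nat.le_of_dvd (by norm_num) h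
        omega
      · exact h
    · rintro ⟨⟨hp, hd, _⟩, h2⟩
      exact ⟨⟨hp, hd.mul_left 2, by omega⟩, h2⟩
  rw [h1]
  have h2 : ∏ p ∈ n.primeFactors.filter (fun p => 2 < p), (1 - 1 / (p : ℝ))⁻¹ ≤
      ∏ p ∈ n.primeFactors.filter (fun p => 2 < p), ((p : ℝ) - 1) / ((p : ℝ) - 2) := by
    apply Finset.prod_le_prod
    · intro p hp
      have hp3 : (3 : ℝ) ≤ p := by exact_mod_cast (mem_filter.1 hp).2
      have : 1 / (p : ℝ) ≤ 1 := by rw [div_le_one (by linarith)]; linarith
      apply inv_nonneg.2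
      linarith
    · intro p hp
      have hp3 : (3 : ℝ) ≤ p := by exact_mod_cast (mem_filter.1 hp).2
      have e1 : (1 - 1 / (p : ℝ))⁻¹ = p / (p - 1) := by
        have : (p : ℝ) ≠ 0 := by linarith
        rw [show 1 - 1 / (p : ℝ) = (p - 1) / p by field_simp, inv_div]
      rw [e1, div_le_div_iff₀ (by linarith) (by linarith)]
      nlinarith
  have h3 : FF n ≤ 2 * ∏ p ∈ n.primeFactors.filter (fun p => 2 < p), (1 - 1 / (p : ℝ))⁻¹ := by
    rw [FF_eq n hn, ← prod_filter_mul_prod_filter_not n.primeFactors (fun p => 2 < p), mul_comm]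
    apply mul_le_mul_of_nonneg_right
    · have h4 : n.primeFactors.filter (fun p => ¬ 2 < p) ⊆ {2} := by
        intro p hp
        rw [mem_filter] at hp
        rw [mem_singleton]
        have := (Nat.prime_of_mem_primeFactors hp.1).two_le
        omega
      calc ∏ p ∈ n.primeFactors.filter (fun p => ¬ 2 < p), (1 - 1 / (p : ℝ))⁻¹ ≤ ∏ p ∈ ({2} : Finset ℕ), (1 - 1 / (p : ℝ))⁻¹ := by
            apply prod_le_prod_of_subset_of_one_le h4
            · intro p hp
              have := h4 hp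
              rw [mem_singleton] at this
              subst this
              norm_num
            · intro p hp _
              rw [mem_singleton] at hp
              subst hp
              norm_num
        _ = 2 := by rw [prod_singleton]; norm_num
    · apply prod_nonneg
      intro p hp
      have hp3 : (3 : ℝ) ≤ p := by exact_mod_cast (mem_filter.1 hp).2
      have : 1 / (p : ℝ) ≤ 1 := by rw [div_le_one (by linarith)]; linarith
      apply inv_nonneg.2
      linarith
  have h5 : 0 ≤ FF n := FF_nonneg n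
  nlinarith

theorem del_upper : ∃ c : ℝ, 0 < c ∧ ∀ κ : ℝ, 0 ≤ κ → κ < 1 → ∀ B : ℕ, ∃ N0 : ℕ, ∀ N : ℕ, N0 ≤ N →
    ∀ Y : Finset ℕ, Y ⊆ Icc 1 (2 * N) → ∀ η : ℝ, 0 < η → (Y.card : ℝ) ≤ η * N → ∀ E : Finset ℕ, E ⊆ Ioc N (2 * N) →
    (∀ n ∈ E, (so Y n : ℝ) ≤ κ * (HL (2 * n) / 2)) →
    (E.card : ℝ) ≤ 32 * Real.exp (-Real.exp (c * (1 - κ) / √η)) * N + N / Real.log N ^ B := by
  classical
  obtain ⟨C, hC1, hcore⟩ := core
  obtain ⟨CF, hCF1, hCF⟩ := FF_moment
  refine ⟨1 / (128 * C), by positivity, fun κ hκ0 hκ1 B => ?_⟩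
  have hκ' : 0 < 1 - κ := by linarith
  obtain ⟨M1, hM1⟩ := hcore (B + 1)
  obtain ⟨N1, hN1⟩ := Pool.Agent.W93.GB.fam 1 4 1 (2 * B + 4) le_rfl ((1 - κ) / 4) (by linarith)
  obtain ⟨N2, hN2⟩ := ev3 ((1 - κ) / 64) (C + 4 * CF + 64 / (1 - κ) + 3) (by linarith) (by positivity)
  refine ⟨max (max N1 M1) N2, fun N hN Y hY η hη hYc E hE hfew => ?_⟩
  have hNN1 : N1 ≤ N := le_trans (le_trans (le_max_left _ _) (le_max_left _ _)) hN
  have hNM1 : M1 ≤ 2 * N := le_trans (le_trans (le_trans (le_max_right _ _) (le_max_left _ _)) hN) (by omega)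
  obtain ⟨hN3, hLK, herr⟩ := hN2 N (le_trans (le_max_right _ _) hN)
  have hNr : (3 : ℝ) ≤ N := by exact_mod_cast hN3
  have hN0 : (0 : ℝ) < N := by linarith
  set L := Real.log N with hL
  have h64 : 0 < 64 / (1 - κ) := by positivity
  have hL1 : 3 ≤ L := by linarith
  by_cases hEc : (E.card : ℝ) < N / L ^ B
  · have h0 : 0 ≤ 32 * Real.exp (-Real.exp (1 / (128 * C) * (1 - κ) / √η)) * N := by positivity
    linarith
  push Not at hEc
  have hEpos : (0 : ℝ) < E.card := lt_of_lt_of_le (by positivity) hEc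
  have hEN : (E.card : ℝ) ≤ N := by
    have := card_le_card hE
    rw [Nat.card_Ioc] at this
    exact_mod_cast (by omega : E.card ≤ N)
  have hE2 : E ⊆ Icc 1 (2 * N) := by
    intro x hx
    have := mem_Ioc.1 (hE hx)
    rw [mem_Icc]; omega
  set F : ℝ := ∑ n ∈ E, FF n with hF
  have hFE : (E.card : ℝ) ≤ F := by
    calc (E.card : ℝ) = ∑ u ∈ E, (1 : ℝ) := by simp
      _ ≤ _ := sum_le_sum (fun u hu => one_le_FF u (by have := mem_Icc.1 (hE2 hu); omega))
  have hF0 : 0 < F := lt_of_lt_of_le hEpos hFE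
  have hl2 : Real.log 2 ≤ 0.7 := by have := Real.log_two_lt_d9; linarith
  have hl20 : 0 ≤ Real.log 2 := Real.log_nonneg (by norm_num)
  have hLM : Real.log ((2 * N : ℕ) : ℝ) = Real.log 2 + L := by
    push_cast
    rw [Real.log_mul (by norm_num) hN0.ne']
  -- the exceptional set
  set Ex := E.filter (fun n => ¬ Pool.Agent.W93.GB.Good ((1 - κ) / 4) (2 * n)) with hEx
  have hExc : (Ex.card : ℝ) ≤ ((2 * N : ℕ) : ℝ) / L ^ (2 * B + 4) := by
    apply hN1 N hNN1 (2 * N) (fun m => 2 * m)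
    · intro m hm
      have := mem_Icc.1 hm
      exact ⟨by omega, Dvd.intro m rfl⟩
    · have h2 := Pool.Agent.W276.Link.energy_le (2 * N)
      have h3 : (Pool.Agent.H560R3.GB.energy 1 (2 * N) (fun m => 2 * m) : ℝ) ≤ ((2 * N : ℕ) : ℝ) := by exact_mod_cast h2
      rw [pow_one]
      calc (Pool.Agent.H560R3.GB.energy 1 (2 * N) (fun m => 2 * m) : ℝ) * N ≤ ((2 * N : ℕ) : ℝ) * N :=
            mul_le_mul_of_nonneg_right h3 hN0.le
        _ ≤ 1 * ((2 * N : ℕ) : ℝ) ^ (2 * 1) := by push_cast; nlinarith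
        _ ≤ _ := by
            apply mul_le_mul_of_nonneg_right _ (by positivity)
            linarith
    · exact (filter_subset _ _).trans hE2
    · intro m hm
      exact (mem_filter.1 hm).2
  have hexc : ∑ x ∈ Ex, FF x ≤ F / 2 := by
    have h1 := sum_FF_exc (2 * N) CF hCF1 (hCF (2 * N)) Ex ((filter_subset _ _).trans hE2)
    refine h1.trans ?_
    have h3 : √(((2 * N : ℕ) : ℝ) * Ex.card : ℝ) ≤ 2 * N / L ^ (B + 2) := by
      rw [Real.sqrt_le_iff]
      refine ⟨by positivity, ?_⟩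
      calc ((2 * N : ℕ) : ℝ) * Ex.card ≤ ((2 * N : ℕ) : ℝ) * (((2 * N : ℕ) : ℝ) / L ^ (2 * B + 4)) :=
            mul_le_mul_of_nonneg_left hExc (by positivity)
        _ = (2 * N / L ^ (B + 2)) ^ 2 := by
            rw [div_pow, ← pow_mul, show (B + 2) * 2 = 2 * B + 4 by ring]
            push_cast
            ring
    calc CF * √(((2 * N : ℕ) : ℝ) * Ex.card : ℝ) ≤ CF * (2 * N / L ^ (B + 2)) :=
          mul_le_mul_of_nonneg_left h3 (by linarith)
      _ = (2 * CF / L ^ 2) * (N / L ^ B) := by rw [pow_add]; field_simp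
      _ ≤ (1 / 2) * (N / L ^ B) := by
          apply mul_le_mul_of_nonneg_right _ (by positivity)
          rw [div_le_div_iff₀ (by positivity) (by norm_num)]
          nlinarith
      _ ≤ (1 / 2) * F := by
          apply mul_le_mul_of_nonneg_left (hEc.trans hFE) (by norm_num)
      _ = F / 2 := by ring
  have hge : F / 2 ≤ ∑ x ∈ E.filter (fun n => ¬ ¬ Pool.Agent.W93.GB.Good ((1 - κ) / 4) (2 * n)), FF x := by
    have hsplit : ∑ x ∈ Ex, FF x + ∑ x ∈ E.filter (fun n => ¬ ¬ Pool.Agent.W93.GB.Good ((1 - κ) / 4) (2 * n)), FF x = F :=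
      sum_filter_add_sum_filter_not _ _ _
    linarith
  -- one good `n`
  have hone : ∀ n ∈ E.filter (fun n => ¬ ¬ Pool.Agent.W93.GB.Good ((1 - κ) / 4) (2 * n)),
      (1 - κ) / 16 * (FF n * (N / L ^ 2)) ≤ ((Y.filter (fun x => pr n x)).card : ℝ) := by
    intro n hn
    rw [mem_filter, not_not] at hn
    obtain ⟨hnE, hgood⟩ := hn
    have hnI := mem_Ioc.1 (hE hnE)
    have hnr : (N : ℝ) < n := by exact_mod_cast hnI.1
    have hnr2 : (n : ℝ) ≤ 2 * N := by exact_mod_cast hnI.2
    have hsg := sing_ge n (by omega)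
    have hFFn := one_le_FF n (by omega)
    have hlogn : Real.log ((2 * n : ℕ) : ℝ) ≤ 2 * L := by
      have h1 : Real.log ((2 * n : ℕ) : ℝ) ≤ Real.log (4 * N) := by
        apply Real.log_le_log
        · push_cast; linarith
        · push_cast; linarith
      rw [Real.log_mul (by norm_num) hN0.ne', show (4 : ℝ) = 2 ^ 2 by norm_num, Real.log_pow] at h1
      push_cast at h1 ⊢
      linarith
    have hlogn0 : 0 < Real.log ((2 * n : ℕ) : ℝ) := by
      apply Real.log_pos
      push_cast; linarith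
    have hHL : FF n * (N / L ^ 2) / 4 ≤ HL (2 * n) := by
      unfold HL
      have h1 : (N / L ^ 2) / 2 ≤ (((2 * n : ℕ) : ℝ)) / Real.log ((2 * n : ℕ) : ℝ) ^ 2 := by
        have h2 : (2 * (N : ℝ)) / (2 * L) ^ 2 ≤ (((2 * n : ℕ) : ℝ)) / Real.log ((2 * n : ℕ) : ℝ) ^ 2 := by
          apply div_le_div₀ (by positivity) (by push_cast; linarith) (by positivity)
          exact pow_le_pow_left₀ hlogn0.le hlogn 2
        refine le_trans (le_of_eq ?_) h2
        field_simp
      calc FF n * (N / L ^ 2) / 4 = (FF n / 2) * ((N / L ^ 2) / 2) := by ring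
        _ ≤ _ := mul_le_mul hsg h1 (by positivity) (le_trans (by linarith) hsg)
    have hHLbig : 4 ≤ (1 - κ) * HL (2 * n) := by
      have h1 : 64 * L ^ 2 ≤ (1 - κ) * N := by
        have h2 : (64 / (1 - κ)) ≤ L := by linarith
        have h3 : (64 / (1 - κ)) * ((2 * N : ℕ) : ℝ) ^ (4 / 5 : ℝ) ≤ (1 - κ) / 64 * (N / L ^ 2) := by
          refine le_trans ?_ herr
          apply mul_le_mul_of_nonneg_right _ (by positivity)
          linarith
        have h4 : (1 : ℝ) ≤ ((2 * N : ℕ) : ℝ) ^ (4 / 5 : ℝ) := by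
          apply Real.one_le_rpow _ (by norm_num)
          push_cast; linarith
        have h5 : 64 / (1 - κ) ≤ (1 - κ) / 64 * (N / L ^ 2) := by nlinarith
        have h6 : (64 : ℝ) ≤ 64 / (1 - κ) := by
          rw [le_div_iff₀ hκ']
          nlinarith
        have h7 : (1 : ℝ) ≤ (1 - κ) / 64 * (N / L ^ 2) := by linarith
        have h8 : (1 - κ) / 64 * (N / L ^ 2) = (1 - κ) * N / (64 * L ^ 2) := by field_simp
        rw [h8, le_div_iff₀ (by positivity)] at h7
        linarith
      have h9 : (16 : ℝ) / (1 - κ) ≤ FF n * (N / L ^ 2) := by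
        have h10 : (64 : ℝ) / (1 - κ) ≤ N / L ^ 2 := by
          rw [div_le_div_iff₀ hκ' (by positivity)]
          linarith
        have h11 : (16 : ℝ) / (1 - κ) ≤ 64 / (1 - κ) := div_le_div_of_nonneg_right (by norm_num) hκ'.le
        have h12 : 0 ≤ (N : ℝ) / L ^ 2 := by positivity
        nlinarith
      rw [div_le_iff₀ hκ'] at h9
      nlinarith
    have hg1 := (abs_le.1 hgood.1).1
    have hg2 : (g (2 * n) : ℝ) ≤ 1 + 2 * (((Icc 1 (n - 1)).filter (fun x => pr x n)).card : ℝ) := by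
      exact_mod_cast g_le n
    have hso := hfew n hnE
    have hTle : (((Icc 1 (n - 1)).filter (fun x => pr x n)).card : ℝ) ≤ (so Y n : ℝ) + ((Y.filter (fun x => pr n x)).card : ℝ) := by
      have h1 : ((Icc 1 (n - 1)).filter (fun x => pr x n)).card ≤ so Y n + (Y.filter (fun x => pr n x)).card := by
        unfold so
        refine le_trans (card_le_card ?_) (card_union_le _ _)
        intro x hx
        rw [mem_filter] at hx
        rw [mem_union, mem_filter, mem_filter]
        by_cases hxY : x ∈ Y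
        · right; exact ⟨hxY, (pr_comm x n).1 hx.2⟩
        · left; exact ⟨hx.1, hx.2, hxY⟩
      exact_mod_cast h1
    have hfin : (1 - κ) / 4 * HL (2 * n) ≤ ((Y.filter (fun x => pr n x)).card : ℝ) := by
      nlinarith
    calc (1 - κ) / 16 * (FF n * (N / L ^ 2)) = (1 - κ) / 4 * (FF n * (N / L ^ 2) / 4) := by ring
      _ ≤ (1 - κ) / 4 * HL (2 * n) := mul_le_mul_of_nonneg_left hHL (by linarith)
      _ ≤ _ := hfin
  have hlow : (1 - κ) / 32 * (F * (N / L ^ 2)) ≤ (ee E Y : ℝ) := by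
    rw [ee_sum_left]
    push_cast
    calc (1 - κ) / 32 * (F * (N / L ^ 2)) = (1 - κ) / 16 * ((F / 2) * (N / L ^ 2)) := by ring
      _ ≤ (1 - κ) / 16 * ((∑ x ∈ E.filter (fun n => ¬ ¬ Pool.Agent.W93.GB.Good ((1 - κ) / 4) (2 * n)), FF x) * (N / L ^ 2)) := by
          apply mul_le_mul_of_nonneg_left _ (by linarith)
          exact mul_le_mul_of_nonneg_right hge (by positivity)
      _ = ∑ n ∈ E.filter (fun n => ¬ ¬ Pool.Agent.W93.GB.Good ((1 - κ) / 4) (2 * n)), (1 - κ) / 16 * (FF n * (N / L ^ 2)) := by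
          rw [sum_mul, mul_sum]
      _ ≤ ∑ n ∈ E.filter (fun n => ¬ ¬ Pool.Agent.W93.GB.Good ((1 - κ) / 4) (2 * n)), ((Y.filter (fun x => pr n x)).card : ℝ) :=
          sum_le_sum hone
      _ ≤ _ := by
          apply sum_le_sum_of_subset_of_nonneg (filter_subset _ _)
          intro x _ _
          positivity
  -- the upper bound
  have hEc2 : ((2 * N : ℕ) : ℝ) / Real.log ((2 * N : ℕ) : ℝ) ^ (B + 1) ≤ E.card := by
    refine le_trans ?_ hEc
    rw [hLM]
    push_cast
    rw [div_le_div_iff₀ (by positivity) (by positivity), pow_succ]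
    have h1 : L ^ B ≤ (Real.log 2 + L) ^ B := pow_le_pow_left₀ (by linarith) (by linarith) _
    have h2 : (0 : ℝ) ≤ L ^ B := by positivity
    calc 2 * (N : ℝ) * L ^ B = N * (L ^ B * 2) := by ring
      _ ≤ N * ((Real.log 2 + L) ^ B * (Real.log 2 + L)) := by
          apply mul_le_mul_of_nonneg_left _ hN0.le
          apply mul_le_mul h1 (by linarith) (by norm_num) (by positivity)
  have hup := hM1 (2 * N) hNM1 E Y hE2 hY hEc2
  have hratio : 16 ≤ 16 * ((2 * N : ℕ) : ℝ) / (E.card : ℝ) := by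
    rw [le_div_iff₀ hEpos]
    push_cast
    linarith
  have hlog16 : (2.77 : ℝ) ≤ Real.log 16 := by
    rw [show (16 : ℝ) = 2 ^ 4 by norm_num, Real.log_pow]
    have := Real.log_two_gt_d9
    push_cast
    linarith
  have ht1 : 2.77 ≤ Real.log (16 * ((2 * N : ℕ) : ℝ) / E.card) := hlog16.trans (Real.log_le_log (by norm_num) hratio)
  set ℓ := Real.log (Real.log (16 * ((2 * N : ℕ) : ℝ) / E.card)) with hℓ
  have hℓ1 : 0 ≤ ℓ := Real.log_nonneg (by linarith)
  have hsqF : ∑ u ∈ E, √(FF u) ≤ F := by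
    apply sum_le_sum
    intro u hu
    have h1 := one_le_FF u (by have := mem_Icc.1 (hE2 hu); omega)
    rw [Real.sqrt_le_iff]
    exact ⟨by linarith, by nlinarith⟩
  have hs : √((Y.card : ℝ) / ((2 * N : ℕ) : ℝ)) ≤ √η := by
    apply Real.sqrt_le_sqrt
    rw [div_le_iff₀ (by positivity)]
    push_cast
    nlinarith
  have hη0 : 0 < √η := Real.sqrt_pos.2 hη
  have hup2 : (ee E Y : ℝ) ≤ 2 * C * (√η * ℓ) * (F * (N / L ^ 2)) + (1 - κ) / 64 * (F * (N / L ^ 2)) := by
    refine hup.trans (add_le_add ?_ ?_)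
    · have hMM : ((2 * N : ℕ) : ℝ) / Real.log ((2 * N : ℕ) : ℝ) ^ 2 ≤ 2 * (N / L ^ 2) := by
        rw [hLM]
        push_cast
        rw [mul_div_assoc]
        apply mul_le_mul_of_nonneg_left _ (by norm_num)
        apply div_le_div_of_nonneg_left (by positivity) (by positivity)
        exact pow_le_pow_left₀ (by linarith) (by linarith) _
      calc C * (√((Y.card : ℝ) / ((2 * N : ℕ) : ℝ)) * ℓ * (((2 * N : ℕ) : ℝ) / Real.log ((2 * N : ℕ) : ℝ) ^ 2) *
            ∑ u ∈ E, √(FF u)) ≤ C * (√η * ℓ * (2 * (N / L ^ 2)) * F) := by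
            apply mul_le_mul_of_nonneg_left _ (by linarith)
            apply mul_le_mul _ hsqF (sum_nonneg (fun _ _ => Real.sqrt_nonneg _)) (by positivity)
            apply mul_le_mul _ hMM (by positivity) (by positivity)
            exact mul_le_mul_of_nonneg_right hs hℓ1
        _ = _ := by ring
    · have h1 : C * ((2 * N : ℕ) : ℝ) ^ (4 / 5 : ℝ) ≤ (1 - κ) / 64 * (N / L ^ 2) := by
        refine le_trans ?_ herr
        exact mul_le_mul_of_nonneg_right (by linarith) (by positivity)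
      calc C * (E.card * ((2 * N : ℕ) : ℝ) ^ (4 / 5 : ℝ)) = E.card * (C * ((2 * N : ℕ) : ℝ) ^ (4 / 5 : ℝ)) := by ring
        _ ≤ E.card * ((1 - κ) / 64 * (N / L ^ 2)) := mul_le_mul_of_nonneg_left h1 hEpos.le
        _ ≤ F * ((1 - κ) / 64 * (N / L ^ 2)) := mul_le_mul_of_nonneg_right hFE (by positivity)
        _ = _ := by ring
  have hYp : 0 < F * (N / L ^ 2) := by positivity
  have hkey : (1 - κ) / 64 ≤ 2 * C * (√η * ℓ) := by
    have h1 : (1 - κ) / 32 * (F * (N / L ^ 2)) ≤ (2 * C * (√η * ℓ) + (1 - κ) / 64) * (F * (N / L ^ 2)) := by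
      rw [add_mul]
      exact hlow.trans hup2
    have h2 := le_of_mul_le_mul_right h1 hYp
    linarith
  have hℓy : 1 / (128 * C) * (1 - κ) / √η ≤ ℓ := by
    rw [div_le_iff₀ hη0, one_div, inv_mul_le_iff₀ (by positivity)]
    linarith
  have h1 : Real.exp (1 / (128 * C) * (1 - κ) / √η) ≤ Real.log (16 * ((2 * N : ℕ) : ℝ) / E.card) := by
    rw [← Real.le_log_iff_exp_le (by linarith)]
    exact hℓy
  have h2 : Real.exp (Real.exp (1 / (128 * C) * (1 - κ) / √η)) ≤ 16 * ((2 * N : ℕ) : ℝ) / E.card := by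
    rw [← Real.le_log_iff_exp_le (by linarith)]
    exact h1
  have h3 : (E.card : ℝ) ≤ 32 * Real.exp (-Real.exp (1 / (128 * C) * (1 - κ) / √η)) * N := by
    rw [le_div_iff₀ hEpos] at h2
    rw [Real.exp_neg]
    have h4 := Real.exp_pos (Real.exp (1 / (128 * C) * (1 - κ) / √η))
    rw [mul_assoc, ← div_eq_inv_mul, mul_div_assoc', le_div_iff₀ h4]
    push_cast at h2
    linarith
  have h5 : (0 : ℝ) ≤ N / L ^ B := by positivity
  linarith

end Pool.Agent.L0h44.AS
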