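import Pool.Agent.H352R3.FK.MainT
import Pool.Agent.H352R3.FK.Exc
import Pool.Agent.L0h44.AS.Cls

set_option autoImplicit false

/-! The main term for prime pairs with a given difference. -/

namespace Pool.Agent.L0h44.AS

open Finset
open Pool.Agent.H373R2.T7
open Pool.Agent.H352R3.FK
open ArithmeticFunction (vonMangoldt)

/-- the local factor -/
noncomputable def gk (k : ℤ) (p : ℕ) : ℝ := 1 - (rhoA (fun (p n : ℕ) => (p : ℤ) ∣ 1 * n + k) p : ℝ) / (p - 1 : ℝ)

noncomputable def SK (z : ℕ) (k : ℤ) : ℝ := (Vz z)⁻¹ * ∏ p ∈ pz z, gk k p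

theorem mainT2 (E U : ℕ) : ∃ X0 : ℕ, ∀ X : ℕ, X0 ≤ X → ∀ z : ℕ, 2 ≤ z → (z : ℝ) ≤ Real.log X ^ E →
    ∀ k : ℤ, ∀ A B : ℕ, A ≤ B → B ≤ X → X ≤ 8 * A →
    |(Vz z)⁻¹ * ∑ n ∈ (Ioc A B).filter (fun n : ℕ => ∀ p ∈ pz z, ¬ (p : ℤ) ∣ 1 * n + k), vonMangoldt n -
      SK z k * ((B : ℝ) - A)| ≤ X / Real.log X ^ U := by
  obtain ⟨N0, h0⟩ := sys_main 2 (E + 1) (U + E + 1) (by norm_num)
  obtain ⟨n1, h1⟩ := ev_L' (2 ^ (U + E + 2) + 10)
  refine ⟨max (8 * N0) (max n1 8), fun X hX z hz hzE k A B hAB hBX hXA => ?_⟩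
  have hXN : 8 * N0 ≤ X := le_trans (le_max_left _ _) hX
  have hL1 := h1 X (le_trans (le_trans (le_max_left _ _) (le_max_right _ _)) hX)
  have hX8 : 8 ≤ X := le_trans (le_trans (le_max_right _ _) (le_max_right _ _)) hX
  have hX0 : (0 : ℝ) < X := by exact_mod_cast (by omega : 0 < X)
  set L := Real.log X with hL
  have hpow0 : (0 : ℝ) < 2 ^ (U + E + 2) := by positivity
  have hL0 : 0 < L := by linarith
  have hA0 : (0 : ℝ) < A := by exact_mod_cast (by omega : 0 < A)
  -- log A ≥ L / 2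
  have hlogA : ∀ N : ℕ, A ≤ N → L / 2 ≤ Real.log N := by
    intro N hN
    have h2 : Real.log (X / 8) ≤ Real.log N := by
      apply Real.log_le_log (by positivity)
      rw [div_le_iff₀ (by norm_num)]
      have : X ≤ N * 8 := by omega
      exact_mod_cast this
    rw [Real.log_div hX0.ne' (by norm_num)] at h2
    have h3 : Real.log 8 ≤ 4 := by
      have : (8 : ℝ) = 2 ^ 3 := by norm_num
      rw [this, Real.log_pow]
      have := Real.log_two_lt_d9
      push_cast
      linarith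
    linarith
  have hzA : ∀ N : ℕ, A ≤ N → (z : ℝ) ≤ Real.log N ^ (E + 1) := by
    intro N hN
    have h2 := hlogA N hN
    have h3 : 0 < Real.log N := by linarith
    calc (z : ℝ) ≤ L ^ E := hzE
      _ ≤ (2 * Real.log N) ^ E := pow_le_pow_left₀ hL0.le (by linarith) _
      _ = 2 ^ E * Real.log N ^ E := mul_pow _ _ _
      _ ≤ Real.log N * Real.log N ^ E := by
          apply mul_le_mul_of_nonneg_right _ (by positivity)
          have h4 : (2 : ℝ) ^ E * 2 ≤ 2 ^ (U + E + 2) := by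
            rw [← pow_succ]
            exact pow_le_pow_right₀ (by norm_num) (by omega)
          linarith
      _ = Real.log N ^ (E + 1) := by rw [pow_succ]; ring
  have hper := perQ 1 k (Or.inl rfl)
  have hm : ∀ N : ℕ, A ≤ N → N ≤ X →
      |∑ n ∈ (Icc 1 N).filter (fun n : ℕ => ∀ p ∈ pz z, ¬ (p : ℤ) ∣ 1 * n + k), vonMangoldt n -
      N * ∏ p ∈ pz z, gk k p| ≤ 2 ^ (U + E + 1) * (X / L ^ (U + E + 1)) := by
    intro N hN hNX
    have h2 := h0 N (by omega) z (by omega) (hzA N hN) _ hper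
    have h2' : |∑ n ∈ (Icc 1 N).filter (fun n : ℕ => ∀ p ∈ pz z, ¬ (p : ℤ) ∣ 1 * n + k), vonMangoldt n -
      N * ∏ p ∈ pz z, gk k p| ≤ N / Real.log N ^ (U + E + 1) := by
      convert h2
      rfl
    refine h2'.trans ?_
    have h3 := hlogA N hN
    have h4 : (L / 2) ^ (U + E + 1) ≤ Real.log N ^ (U + E + 1) := pow_le_pow_left₀ (by positivity) h3 _
    calc (N : ℝ) / Real.log N ^ (U + E + 1) ≤ X / (L / 2) ^ (U + E + 1) := by
          apply div_le_div₀ hX0.le (by exact_mod_cast hNX) (by positivity) h4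
      _ = 2 ^ (U + E + 1) * (X / L ^ (U + E + 1)) := by
          rw [div_pow]; field_simp
  have hA := hm A le_rfl (by omega)
  have hB := hm B hAB hBX
  have hsplit : ∑ n ∈ (Icc 1 B).filter (fun n : ℕ => ∀ p ∈ pz z, ¬ (p : ℤ) ∣ 1 * n + k), vonMangoldt n =
      ∑ n ∈ (Icc 1 A).filter (fun n : ℕ => ∀ p ∈ pz z, ¬ (p : ℤ) ∣ 1 * n + k), vonMangoldt n +
      ∑ n ∈ (Ioc A B).filter (fun n : ℕ => ∀ p ∈ pz z, ¬ (p : ℤ) ∣ 1 * n + k), vonMangoldt n := by
    rw [← sum_union]
    · congr 1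
      rw [← filter_union]
      congr 1
      ext n
      rw [mem_union, mem_Icc, mem_Icc, mem_Ioc]
      omega
    · apply disjoint_filter_filter
      rw [disjoint_left]
      intro n h2 h3
      rw [mem_Icc] at h2
      rw [mem_Ioc] at h3
      omega
  set SA := ∑ n ∈ (Icc 1 A).filter (fun n : ℕ => ∀ p ∈ pz z, ¬ (p : ℤ) ∣ 1 * n + k), vonMangoldt n with hSA
  set SB := ∑ n ∈ (Icc 1 B).filter (fun n : ℕ => ∀ p ∈ pz z, ¬ (p : ℤ) ∣ 1 * n + k), vonMangoldt n with hSB
  set SC := ∑ n ∈ (Ioc A B).filter (fun n : ℕ => ∀ p ∈ pz z, ¬ (p : ℤ) ∣ 1 * n + k), vonMangoldt n with hSC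
  set G := ∏ p ∈ pz z, gk k p with hG
  have h2 : |SC - ((B : ℝ) - A) * G| ≤ 2 * (2 ^ (U + E + 1) * (X / L ^ (U + E + 1))) := by
    have e1 := abs_le.1 hA
    have e2 := abs_le.1 hB
    rw [abs_le]
    constructor <;> nlinarith [e1.1, e1.2, e2.1, e2.2]
  have hV := Vz_inv_le z (by omega)
  have hV0 : 0 < (Vz z)⁻¹ := inv_pos.2 (Vz_pos z)
  have h3 : (Vz z)⁻¹ * SC - SK z k * ((B : ℝ) - A) = (Vz z)⁻¹ * (SC - ((B : ℝ) - A) * G) := by
    unfold SK
    ring
  rw [h3, abs_mul, abs_of_pos hV0]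
  calc (Vz z)⁻¹ * |SC - ((B : ℝ) - A) * G| ≤ L ^ E * (2 * (2 ^ (U + E + 1) * (X / L ^ (U + E + 1)))) :=
        mul_le_mul (hV.trans hzE) h2 (abs_nonneg _) (by positivity)
    _ = 2 ^ (U + E + 2) / L * (X / L ^ U) := by
        have e1 : L ^ (U + E + 1) = L ^ U * L ^ E * L := by rw [pow_succ, pow_add]
        have e2 : (2 : ℝ) ^ (U + E + 2) = 2 * 2 ^ (U + E + 1) := by rw [pow_succ]; ring
        rw [e1, e2]
        field_simp
    _ ≤ 1 * (X / L ^ U) := by
        apply mul_le_mul_of_nonneg_right _ (by positivity)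
        rw [div_le_one hL0]
        linarith
    _ = _ := one_mul _


lemma gk_two (x : ℕ) : gk (2 * x : ℕ) 2 = 1 := by
  unfold gk
  have h3 : rhoA (fun (p n : ℕ) => (p : ℤ) ∣ 1 * n + (2 * x : ℕ)) 2 = 0 := by
    unfold rhoA
    rw [card_eq_zero, eq_empty_iff_forall_notMem]
    intro r hr
    simp only [mem_filter, mem_range] at hr
    obtain ⟨h4, h5, h6⟩ := hr
    push_cast at h6
    omega
  rw [h3]
  simp

lemma gk_dvd (x p : ℕ) (hp : p.Prime) (hd : p ∣ x) : gk (2 * x : ℕ) p = 1 := by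
  unfold gk
  have h3 : rhoA (fun (p n : ℕ) => (p : ℤ) ∣ 1 * n + (2 * x : ℕ)) p = 0 := by
    unfold rhoA
    rw [card_eq_zero, eq_empty_iff_forall_notMem]
    intro r hr
    simp only [mem_filter, mem_range] at hr
    obtain ⟨h4, h5, h6⟩ := hr
    apply h5
    have h7 : (p : ℤ) ∣ ((2 * x : ℕ) : ℤ) := by exact_mod_cast (hd.mul_left 2)
    rw [one_mul] at h6
    have := (dvd_add_left h7).1 h6
    exact_mod_cast this
  rw [h3]
  simp

lemma gk_ge (x p : ℕ) (hp : p.Prime) (h3 : 3 ≤ p) : gf p ≤ gk (2 * x : ℕ) p := by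
  unfold gk gf
  rw [if_neg (by omega)]
  have h := (rho_odd 1 ((2 * x : ℕ) : ℤ) p hp h3 (Or.inl rfl)).1
  have hp3 : (3 : ℝ) ≤ p := by exact_mod_cast h3
  have h4 : (rhoA (fun (p n : ℕ) => (p : ℤ) ∣ 1 * n + ((2 * x : ℕ) : ℤ)) p : ℝ) ≤ 1 := by exact_mod_cast h
  have h5 : (rhoA (fun (p n : ℕ) => (p : ℤ) ∣ 1 * n + ((2 * x : ℕ) : ℤ)) p : ℝ) / (p - 1 : ℝ) ≤ 1 / (p - 1 : ℝ) :=
    div_le_div_of_nonneg_right h4 (by linarith)
  linarith

/-- the lower bound for the singular series -/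
theorem SK_low (z x : ℕ) (hz : 2 ≤ z) (hx : 0 < x) (hzx : 8 * Real.log x ≤ z) : FF x / 4 ≤ SK z (2 * x : ℕ) := by
  classical
  have hfac : ∀ p ∈ pz z, gf p * (if p ∣ x then (if p = 2 then 1 else (1 - 1 / (p : ℝ))⁻¹) else 1) ≤ gk (2 * x : ℕ) p := by
    intro p hp
    have hpp := (mem_pz.1 hp).2
    by_cases h2 : p = 2
    · subst h2
      rw [gk_two]
      unfold gf
      simp
    · have h3 : 3 ≤ p := by have := hpp.two_le; omega
      have hp3 : (3 : ℝ) ≤ p := by exact_mod_cast h3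
      by_cases hd : p ∣ x
      · rw [if_pos hd, if_neg h2, gk_dvd x p hpp hd]
        unfold gf
        rw [if_neg h2]
        have hx1 : 0 < 1 - 1 / (p : ℝ) := by
          rw [sub_pos, div_lt_one (by linarith)]; linarith
        rw [← div_eq_mul_inv, div_le_one hx1]
        have : 1 / (p : ℝ) ≤ 1 / (p - 1 : ℝ) := by
          apply div_le_div_of_nonneg_left (by norm_num) (by linarith) (by linarith)
        linarith
      · rw [if_neg hd, mul_one]
        exact gk_ge x p hpp h3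
  have hgf : ∀ p ∈ pz z, 0 ≤ gf p := by
    intro p hp
    unfold gf
    split_ifs with h
    · norm_num
    · have h3 : 3 ≤ p := by have := (mem_pz.1 hp).2.two_le; omega
      have hp3 : (3 : ℝ) ≤ p := by exact_mod_cast h3
      rw [sub_nonneg, div_le_one (by linarith)]
      linarith
  have hinv1 : ∀ p : ℕ, p.Prime → 1 ≤ (1 - 1 / (p : ℝ))⁻¹ ∧ (1 - 1 / (p : ℝ))⁻¹ ≤ Real.exp (2 * (1 / (p : ℝ))) := by
    intro p hp
    have hp2 : (2 : ℝ) ≤ p := by exact_mod_cast hp.two_le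
    have hx1 : 1 / (p : ℝ) ≤ 1 / 2 := by rw [div_le_div_iff₀ (by linarith) (by norm_num)]; linarith
    have hx0 : 0 < 1 / (p : ℝ) := by positivity
    constructor
    · rw [one_le_inv₀ (by linarith)]
      linarith
    · have h1 := Real.add_one_le_exp (2 * (1 / (p : ℝ)))
      refine le_trans ?_ h1
      rw [inv_le_iff_one_le_mul₀ (by linarith)]
      nlinarith
  have h1 := prod_le_prod (s := pz z) (fun p hp => mul_nonneg (hgf p hp) (by
    have := (hinv1 p (mem_pz.1 hp).2).1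
    split_ifs <;> linarith)) hfac
  rw [prod_mul_distrib] at h1
  have hV0 : 0 < (Vz z)⁻¹ := inv_pos.2 (Vz_pos z)
  have h2 : Sz z * ∏ p ∈ pz z, (if p ∣ x then (if p = 2 then 1 else (1 - 1 / (p : ℝ))⁻¹) else 1) ≤ SK z (2 * x : ℕ) := by
    unfold Sz SK
    rw [mul_assoc]
    exact mul_le_mul_of_nonneg_left h1 hV0.le
  refine le_trans ?_ h2
  have hS1 := Sz_ge_one z hz
  have hP1 : FF x / 4 ≤ ∏ p ∈ pz z, (if p ∣ x then (if p = 2 then 1 else (1 - 1 / (p : ℝ))⁻¹) else 1) := by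
    rw [FF_eq x hx]
    -- split the primes of `x`
    rw [← prod_filter_mul_prod_filter_not x.primeFactors (fun p => p ≤ z)]
    have hlarge : ∏ p ∈ x.primeFactors.filter (fun p => ¬ p ≤ z), (1 - 1 / (p : ℝ))⁻¹ ≤ 2 := by
      have e1 : ∏ p ∈ x.primeFactors.filter (fun p => ¬ p ≤ z), (1 - 1 / (p : ℝ))⁻¹ ≤
          ∏ p ∈ x.primeFactors.filter (fun p => ¬ p ≤ z), Real.exp (2 * (1 / (z : ℝ))) := by
        apply prod_le_prod
        · intro p hp
          exact zero_le_one.trans (hinv1 p (Nat.prime_of_mem_primeFactors (mem_filter.1 hp).1)).1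
        · intro p hp
          rw [mem_filter] at hp
          refine (hinv1 p (Nat.prime_of_mem_primeFactors hp.1)).2.trans ?_
          apply Real.exp_le_exp.2
          apply mul_le_mul_of_nonneg_left _ (by norm_num)
          apply div_le_div_of_nonneg_left (by norm_num)
          · exact_mod_cast (by omega : 0 < z)
          · exact_mod_cast (by omega : z ≤ p)
      refine e1.trans ?_
      rw [prod_const, ← Real.exp_nat_mul]
      have hcard : ((x.primeFactors.filter (fun p => ¬ p ≤ z)).card : ℝ) ≤ 2 * Real.log x := by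
        have e2 : 2 ^ x.primeFactors.card ≤ x := by
          calc 2 ^ x.primeFactors.card ≤ ∏ p ∈ x.primeFactors, p :=
                pow_card_le_prod _ _ _ (fun p hp => (Nat.prime_of_mem_primeFactors hp).two_le)
            _ ≤ x := Nat.le_of_dvd hx (Nat.prod_primeFactors_dvd x)
        have e3 : (x.primeFactors.card : ℝ) * Real.log 2 ≤ Real.log x := by
          rw [← Real.log_pow]
          apply Real.log_le_log (by positivity)
          exact_mod_cast e2
        have e4 : ((x.primeFactors.filter (fun p => ¬ p ≤ z)).card : ℝ) ≤ x.primeFactors.card := by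
          exact_mod_cast card_filter_le _ _
        have := Real.log_two_gt_d9
        nlinarith [Nat.cast_nonneg (α := ℝ) x.primeFactors.card]
      have hz0 : (0 : ℝ) < z := by exact_mod_cast (by omega : 0 < z)
      have hlx : 0 ≤ Real.log x := Real.log_natCast_nonneg x
      have e5 : ((x.primeFactors.filter (fun p => ¬ p ≤ z)).card : ℝ) * (2 * (1 / (z : ℝ))) ≤ 1 / 2 := by
        calc ((x.primeFactors.filter (fun p => ¬ p ≤ z)).card : ℝ) * (2 * (1 / (z : ℝ))) ≤ (2 * Real.log x) * (2 * (1 / (z : ℝ))) := by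
              apply mul_le_mul_of_nonneg_right hcard (by positivity)
          _ = 4 * Real.log x / z := by ring
          _ ≤ 1 / 2 := by
              rw [div_le_div_iff₀ hz0 (by norm_num)]
              linarith
      calc Real.exp (((x.primeFactors.filter (fun p => ¬ p ≤ z)).card : ℝ) * (2 * (1 / (z : ℝ)))) ≤ Real.exp (1 / 2) := Real.exp_le_exp.2 e5
        _ ≤ 2 := by
            have h6 : Real.exp (1 / 2) ^ 2 ≤ 2 ^ 2 := by
              rw [← Real.exp_nat_mul]
              have := Real.exp_one_lt_d9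
              norm_num
              linarith
            exact le_of_pow_le_pow_left₀ (by norm_num) (by norm_num) h6
    have hsmall : ∏ p ∈ x.primeFactors.filter (fun p => p ≤ z), (1 - 1 / (p : ℝ))⁻¹ ≤
        2 * ∏ p ∈ pz z, (if p ∣ x then (if p = 2 then 1 else (1 - 1 / (p : ℝ))⁻¹) else 1) := by
      have e1 : x.primeFactors.filter (fun p => p ≤ z) = (pz z).filter (fun p => p ∣ x) := by
        ext p
        rw [mem_filter, mem_filter, Nat.mem_primeFactors, mem_pz]
        constructor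
        · rintro ⟨⟨a1, a2, _⟩, a4⟩; exact ⟨⟨a4, a1⟩, a2⟩
        · rintro ⟨⟨a1, a2⟩, a3⟩; exact ⟨⟨a2, a3, by omega⟩, a1⟩
      rw [e1, prod_filter]
      have e2 : ∀ p ∈ pz z, (if p ∣ x then (1 - 1 / (p : ℝ))⁻¹ else 1) ≤
          (if p = 2 then (2 : ℝ) else 1) * (if p ∣ x then (if p = 2 then 1 else (1 - 1 / (p : ℝ))⁻¹) else 1) := by
        intro p hp
        by_cases a1 : p = 2
        · subst a1
          split_ifs <;> norm_num
        · rw [if_neg a1, if_neg a1, one_mul]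
      refine (prod_le_prod (fun p hp => ?_) e2).trans ?_
      · have := (hinv1 p (mem_pz.1 hp).2).1
        split_ifs <;> linarith
      · rw [prod_mul_distrib]
        have e3 : ∏ p ∈ pz z, (if p = 2 then (2 : ℝ) else 1) = 2 := by
          rw [prod_ite_eq' (pz z) 2 (fun _ => (2 : ℝ)), if_pos]
          exact mem_pz.2 ⟨hz, Nat.prime_two⟩
        rw [e3]
    have hs0 : 0 ≤ ∏ p ∈ x.primeFactors.filter (fun p => p ≤ z), (1 - 1 / (p : ℝ))⁻¹ := by
      apply prod_nonneg
      intro p hp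
      exact zero_le_one.trans (hinv1 p (Nat.prime_of_mem_primeFactors (mem_filter.1 hp).1)).1
    have h5 := mul_le_mul hsmall hlarge (by
      apply prod_nonneg
      intro p hp
      exact zero_le_one.trans (hinv1 p (Nat.prime_of_mem_primeFactors (mem_filter.1 hp).1)).1) (hs0.trans hsmall)
    linarith
  have hP0 : 0 ≤ ∏ p ∈ pz z, (if p ∣ x then (if p = 2 then 1 else (1 - 1 / (p : ℝ))⁻¹) else 1) :=
    le_trans (by have := FF_nonneg x; positivity) hP1
  nlinarith

end Pool.Agent.L0h44.AS
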