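import Pool.Agent.H373R2.T7.LamZ
import Pool.Agent.Erdos456.Mertens

set_option autoImplicit false

/-! Mertens: the product of `1 - 1/p` over the primes `≤ y`. -/

namespace Pool.Agent.L0h44.AS

open Finset
open Pool.Agent.H373R2.T7 (pz Vz mem_pz Vz_pos Vz_ge Vz_le_one)

lemma one_sub_ge_exp (x : ℝ) (h0 : 0 ≤ x) (h1 : x ≤ 1 / 2) : Real.exp (-(x + x ^ 2)) ≤ 1 - x := by
  have ht : 0 ≤ x + x ^ 2 := by positivity
  have h := Real.quadratic_le_exp_of_nonneg ht
  rw [Real.exp_neg, inv_le_comm₀ (Real.exp_pos _) (by linarith)]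
  refine le_trans ?_ h
  rw [inv_le_iff_one_le_mul₀ (by linarith)]
  nlinarith [mul_nonneg (mul_nonneg h0 h0) (sub_nonneg.2 h1), mul_nonneg h0 h0,
    mul_nonneg (mul_nonneg (mul_nonneg h0 h0) h0) (sub_nonneg.2 h1),
    mul_nonneg (mul_nonneg (mul_nonneg (mul_nonneg h0 h0) h0) h0) (sub_nonneg.2 h1)]

lemma sum_inv_sq (w : ℕ) (hw : 1 ≤ w) (S : Finset ℕ) (hS : ∀ p ∈ S, w < p) :
    ∑ p ∈ S, 1 / (p : ℝ) ^ 2 ≤ 1 / (w : ℝ) := by
  obtain ⟨Y, hY⟩ : ∃ Y : ℕ, Y = S.sup id + w := ⟨_, rfl⟩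
  have hsub : S ⊆ Ioc w Y := by
    intro p hp
    rw [mem_Ioc]
    refine ⟨hS p hp, ?_⟩
    have : p ≤ S.sup id := le_sup (f := id) hp
    omega
  have h1 : ∑ p ∈ S, 1 / (p : ℝ) ^ 2 ≤ ∑ p ∈ Ioc w Y, 1 / (p : ℝ) ^ 2 :=
    sum_le_sum_of_subset_of_nonneg hsub (fun p _ _ => by positivity)
  have h2 := sum_Ioc_inv_sq_le_sub (α := ℝ) (k := w) (n := Y) (by omega) (by omega)
  have h3 : ∑ p ∈ Ioc w Y, 1 / (p : ℝ) ^ 2 = ∑ p ∈ Ioc w Y, ((p : ℝ) ^ 2)⁻¹ :=
    sum_congr rfl (fun p _ => one_div _)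
  rw [h3] at h1
  have h4 : (0 : ℝ) ≤ (Y : ℝ)⁻¹ := by positivity
  have h5 : 1 / (w : ℝ) = (w : ℝ)⁻¹ := one_div _
  rw [h5]
  linarith

theorem Vz_bounds : ∃ c C : ℝ, 0 < c ∧ 0 < C ∧ ∀ y : ℕ, 2 ≤ y → c / Real.log y ≤ Vz y ∧ Vz y ≤ C / Real.log y := by
  obtain ⟨C0, hC0⟩ := Pool.Agent.Erdos456.Mert.mertens_inv
  have hC0' : 0 ≤ C0 := (abs_nonneg _).trans (hC0 3 le_rfl)
  have hl2 : 0 < Real.log 2 := Real.log_pos (by norm_num)
  have hl2' : Real.log 2 < 1 := by have := Real.log_two_lt_d9; linarith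
  have hl2'' : 1 / 2 < Real.log 2 := by have := Real.log_two_gt_d9; linarith
  have he : Real.exp (-(C0 + 1)) ≤ 1 := Real.exp_le_one_iff.2 (by linarith)
  refine ⟨Real.exp (-(C0 + 1)) / 4, Real.exp C0, by positivity, by positivity, ?_⟩
  intro y hy
  rcases Nat.lt_or_ge y 3 with h3 | h3
  · have hy2 : y = 2 := by omega
    subst hy2
    constructor
    · refine le_trans ?_ (Vz_ge 2 (by norm_num))
      rw [div_le_div_iff₀ (by exact_mod_cast hl2) (by norm_num)]
      push_cast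
      nlinarith
    · refine (Vz_le_one 2).trans ?_
      rw [le_div_iff₀ (by exact_mod_cast hl2)]
      push_cast
      have : 1 ≤ Real.exp C0 := Real.one_le_exp hC0'
      linarith
  · have h := abs_le.1 (hC0 y h3)
    have hpz : (Icc 1 y).filter Nat.Prime = pz y := rfl
    rw [hpz] at h
    have hL : 0 < Real.log y := Real.log_pos (by exact_mod_cast (by omega : 1 < y))
    have hexp : Real.exp (-Real.log (Real.log y)) = 1 / Real.log y := by
      rw [Real.exp_neg, Real.exp_log hL, one_div]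
    constructor
    · have h1 : ∏ p ∈ pz y, Real.exp (-((1 / (p : ℝ)) + (1 / (p : ℝ)) ^ 2)) ≤ Vz y := by
        unfold Vz
        apply prod_le_prod
        · intro p _; positivity
        · intro p hp
          apply one_sub_ge_exp _ (by positivity)
          have : (2 : ℝ) ≤ p := by exact_mod_cast (mem_pz.1 hp).2.two_le
          rw [div_le_div_iff₀ (by linarith) (by norm_num)]
          linarith
      rw [← Real.exp_sum] at h1
      refine le_trans ?_ h1
      have h2 : ∑ p ∈ pz y, (1 / (p : ℝ)) ^ 2 ≤ 1 := by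
        have := sum_inv_sq 1 le_rfl (pz y) (fun p hp => (mem_pz.1 hp).2.one_lt)
        simpa using this
      have h3 : ∑ p ∈ pz y, -((1 / (p : ℝ)) + (1 / (p : ℝ)) ^ 2) =
          -(∑ p ∈ pz y, (1 / (p : ℝ)) + ∑ p ∈ pz y, (1 / (p : ℝ)) ^ 2) := by
        rw [sum_neg_distrib, sum_add_distrib]
      rw [h3]
      calc Real.exp (-(C0 + 1)) / 4 / Real.log y ≤ Real.exp (-(C0 + 1)) * (1 / Real.log y) := by
            rw [div_div, mul_one_div]
            apply div_le_div_of_nonneg_left (by positivity) hL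
            linarith
        _ = Real.exp (-(C0 + 1) + -Real.log (Real.log y)) := by rw [Real.exp_add, hexp]
        _ ≤ _ := by
            apply Real.exp_le_exp.2
            linarith [h.2]
    · have h1 : Vz y ≤ ∏ p ∈ pz y, Real.exp (-(1 / (p : ℝ))) := by
        unfold Vz
        apply prod_le_prod
        · intro p hp
          have : (2 : ℝ) ≤ p := by exact_mod_cast (mem_pz.1 hp).2.two_le
          rw [sub_nonneg, div_le_one (by linarith)]
          linarith
        · intro p _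
          have := Real.add_one_le_exp (-(1 / (p : ℝ)))
          linarith
      rw [← Real.exp_sum, sum_neg_distrib] at h1
      refine h1.trans ?_
      calc Real.exp (-∑ p ∈ pz y, 1 / (p : ℝ)) ≤ Real.exp (C0 + -Real.log (Real.log y)) := by
            apply Real.exp_le_exp.2
            linarith [h.1]
        _ = Real.exp C0 / Real.log y := by rw [Real.exp_add, hexp, mul_one_div]

/-- the primes in `(w, y]` -/
theorem Vz_ratio : ∃ C : ℝ, 1 ≤ C ∧ ∀ w y : ℕ, 2 ≤ w → w ≤ y →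
    ∏ p ∈ (pz y).filter (fun p => w < p), (1 - 1 / (p : ℝ)) ≤ C * (Real.log w / Real.log y) := by
  obtain ⟨c, C, hc, hC, h⟩ := Vz_bounds
  refine ⟨max 1 (C / c), le_max_left _ _, ?_⟩
  intro w y hw hwy
  have hsplit : Vz y = Vz w * ∏ p ∈ (pz y).filter (fun p => w < p), (1 - 1 / (p : ℝ)) := by
    unfold Vz
    rw [← prod_filter_mul_prod_filter_not (pz y) (fun p => w < p), mul_comm]
    congr 1
    apply prod_congr _ (fun _ _ => rfl)
    ext p
    simp only [mem_filter, mem_pz, not_lt]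
    constructor
    · rintro ⟨⟨_, h2⟩, h3⟩; exact ⟨h3, h2⟩
    · rintro ⟨h1, h2⟩; exact ⟨⟨h1.trans hwy, h2⟩, h1⟩
  have h1 := (h w hw).1
  have h2 := (h y (hw.trans hwy)).2
  have hLw : 0 < Real.log w := Real.log_pos (by exact_mod_cast (by omega : 1 < w))
  have hLy : 0 < Real.log y := Real.log_pos (by exact_mod_cast (by omega : 1 < y))
  have hP : ∏ p ∈ (pz y).filter (fun p => w < p), (1 - 1 / (p : ℝ)) = Vz y / Vz w := by
    rw [hsplit, mul_comm, mul_div_assoc, div_self (Vz_pos w).ne', mul_one]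
  rw [hP, div_le_iff₀ (Vz_pos w)]
  have h3 : C / Real.log y = (C / c) * (Real.log w / Real.log y) * (c / Real.log w) := by
    field_simp
  refine h2.trans ?_
  rw [h3]
  apply mul_le_mul _ h1 (by positivity) (by positivity)
  apply mul_le_mul_of_nonneg_right (le_max_right _ _) (by positivity)

end Pool.Agent.L0h44.AS
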