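import Pool.Agent.L0h44.AS.Mert

set_option autoImplicit false

/-! Moments of the local factors at the primes `> w`. -/

namespace Pool.Agent.L0h44.AS

open Finset

/-- the local factors at the primes `> w` -/
noncomputable def HH (w m : ℕ) : ℝ := ∏ p ∈ m.primeFactors.filter (fun p => w < p), (1 + 10 / (p : ℝ))

lemma one_le_HH (w m : ℕ) : 1 ≤ HH w m := by
  unfold HH
  apply Finset.one_le_prod
  intro p _
  have : (0 : ℝ) ≤ 10 / (p : ℝ) := by positivity
  linarith

lemma HH_nonneg (w m : ℕ) : 0 ≤ HH w m := zero_le_one.trans (one_le_HH w m)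

/-- the auxiliary weight -/
noncomputable def wt (j p : ℕ) : ℝ := (1 + 10 / (p : ℝ)) ^ j - 1

lemma wt_nonneg (j p : ℕ) : 0 ≤ wt j p := by
  unfold wt
  have : (0 : ℝ) ≤ 10 / (p : ℝ) := by positivity
  have h : (1 : ℝ) ≤ (1 + 10 / (p : ℝ)) ^ j := one_le_pow₀ (by linarith)
  linarith

lemma wt_le (j w p : ℕ) (hw : 20 * j ≤ w) (hp : w < p) : wt j p ≤ 20 * j / p := by
  have hp0 : (0 : ℝ) < p := by exact_mod_cast (by omega : 0 < p)
  have hwp : (20 : ℝ) * j ≤ p := by exact_mod_cast (by omega : 20 * j ≤ p)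
  have ht : j * (10 / (p : ℝ)) ≤ 1 / 2 := by
    rw [mul_div_assoc', div_le_div_iff₀ hp0 (by norm_num)]
    linarith
  have ht0 : 0 ≤ j * (10 / (p : ℝ)) := by positivity
  have h1 : (1 + 10 / (p : ℝ)) ^ j ≤ Real.exp (j * (10 / (p : ℝ))) := by
    rw [Real.exp_nat_mul]
    apply pow_le_pow_left₀ (by positivity)
    have := Real.add_one_le_exp (10 / (p : ℝ))
    linarith
  have h2 : Real.exp (j * (10 / (p : ℝ))) ≤ 1 + 2 * (j * (10 / (p : ℝ))) := by
    set t := j * (10 / (p : ℝ)) with htd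
    have h3 : 1 - t ≤ Real.exp (-t) := by
      have := Real.add_one_le_exp (-t)
      linarith
    rw [Real.exp_neg] at h3
    have h4 : Real.exp t ≤ (1 - t)⁻¹ := by
      rw [le_inv_comm₀ (Real.exp_pos _) (by linarith)]
      exact h3
    refine h4.trans ?_
    rw [inv_le_iff_one_le_mul₀ (by linarith)]
    nlinarith
  unfold wt
  have h5 : 20 * (j : ℝ) / p = 2 * (j * (10 / (p : ℝ))) := by ring
  rw [h5]
  linarith

theorem moment (j w Y : ℕ) (hj : 1 ≤ j) (hw : 20 * j ≤ w) : ∑ m ∈ Icc 1 Y, HH w m ^ j ≤ 3 * Y := by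
  classical
  set P : Finset ℕ := ((Icc 1 Y).filter Nat.Prime).filter (fun p => w < p) with hP
  have hPp : ∀ p ∈ P, p.Prime := fun p hp => (mem_filter.mp (mem_filter.mp hp).1).2
  have hPw : ∀ p ∈ P, w < p := fun p hp => (mem_filter.mp hp).2
  have h1 : ∀ h ∈ Icc 1 Y, HH w h ^ j = ∑ T ∈ P.powerset,
      if T ⊆ h.primeFactors then ∏ p ∈ T, wt j p else 0 := by
    intro h hh
    rw [mem_Icc] at hh
    have e1 : HH w h ^ j = ∏ p ∈ h.primeFactors.filter (fun p => w < p), (1 + wt j p) := by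
      unfold HH
      rw [← Finset.prod_pow]
      apply Finset.prod_congr rfl
      intro p _
      unfold wt
      ring
    rw [e1, Finset.prod_one_add, ← Finset.sum_filter]
    apply Finset.sum_congr _ (fun _ _ => rfl)
    ext T
    rw [mem_filter, mem_powerset, mem_powerset]
    constructor
    · intro hT
      constructor
      · intro p hp
        have hpp := hT hp
        rw [mem_filter, Nat.mem_primeFactors] at hpp
        rw [hP, mem_filter, mem_filter, mem_Icc]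
        exact ⟨⟨⟨hpp.1.1.one_lt.le, (Nat.le_of_dvd (by omega) hpp.1.2.1).trans hh.2⟩, hpp.1.1⟩, hpp.2⟩
      · exact hT.trans (filter_subset _ _)
    · intro hT p hp
      rw [mem_filter]
      exact ⟨hT.2 hp, hPw p (hT.1 hp)⟩
  have hmain : ∑ m ∈ Icc 1 Y, HH w m ^ j ≤ Y * ∏ p ∈ P, (1 + wt j p / p) := by
    rw [Finset.sum_congr rfl h1, Finset.sum_comm, Finset.prod_one_add, Finset.mul_sum]
    apply Finset.sum_le_sum
    intro T hT
    rw [mem_powerset] at hT
    rw [← Finset.sum_filter, Finset.sum_const, nsmul_eq_mul]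
    have hcard : ((Icc 1 Y).filter (fun h => T ⊆ h.primeFactors)).card ≤ Y / ∏ p ∈ T, p := by
      rw [← Nat.Ioc_filter_dvd_card_eq_div Y (∏ p ∈ T, p)]
      apply Finset.card_le_card
      intro h hh
      rw [mem_filter, mem_Icc] at hh
      rw [mem_filter, mem_Ioc]
      refine ⟨⟨by omega, hh.1.2⟩, ?_⟩
      apply Finset.prod_primes_dvd
      · intro p hp
        exact (hPp p (hT hp)).prime
      · intro p hp
        exact Nat.dvd_of_mem_primeFactors (hh.2 hp)
    have h2 : (((Icc 1 Y).filter (fun h => T ⊆ h.primeFactors)).card : ℝ) ≤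
        (Y : ℝ) / ∏ p ∈ T, (p : ℝ) := by
      calc (((Icc 1 Y).filter (fun h => T ⊆ h.primeFactors)).card : ℝ)
          ≤ ((Y / ∏ p ∈ T, p : ℕ) : ℝ) := by exact_mod_cast hcard
        _ ≤ (Y : ℝ) / ((∏ p ∈ T, p : ℕ) : ℝ) := Nat.cast_div_le
        _ = (Y : ℝ) / ∏ p ∈ T, (p : ℝ) := by push_cast; rfl
    calc (((Icc 1 Y).filter (fun h => T ⊆ h.primeFactors)).card : ℝ) * ∏ p ∈ T, wt j p
        ≤ (Y : ℝ) / (∏ p ∈ T, (p : ℝ)) * ∏ p ∈ T, wt j p := by
          apply mul_le_mul_of_nonneg_right h2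
          exact Finset.prod_nonneg (fun p _ => wt_nonneg j p)
      _ = Y * ∏ p ∈ T, (wt j p / p) := by
          rw [Finset.prod_div_distrib]
          ring
  refine hmain.trans ?_
  rw [mul_comm 3]
  apply mul_le_mul_of_nonneg_left _ (by positivity)
  have h3 : ∏ p ∈ P, (1 + wt j p / p) ≤ ∏ p ∈ P, Real.exp (20 * j * (1 / (p : ℝ) ^ 2)) := by
    apply prod_le_prod
    · intro p _
      have := wt_nonneg j p
      positivity
    · intro p hp
      have hp0 : (0 : ℝ) < p := by exact_mod_cast (hPp p hp).pos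
      have h4 := wt_le j w p hw (hPw p hp)
      have h5 : wt j p / p ≤ 20 * j * (1 / (p : ℝ) ^ 2) := by
        rw [div_le_iff₀ hp0]
        refine h4.trans (le_of_eq ?_)
        field_simp
      have := Real.add_one_le_exp (20 * j * (1 / (p : ℝ) ^ 2))
      linarith
  refine h3.trans ?_
  rw [← Real.exp_sum, ← mul_sum]
  have h6 := sum_inv_sq w (by omega) P hPw
  have hw0 : (0 : ℝ) < w := by exact_mod_cast (by omega : 0 < w)
  have h7 : 20 * (j : ℝ) * ∑ p ∈ P, 1 / (p : ℝ) ^ 2 ≤ 1 := by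
    calc 20 * (j : ℝ) * ∑ p ∈ P, 1 / (p : ℝ) ^ 2 ≤ 20 * (j : ℝ) * (1 / w) := by
          apply mul_le_mul_of_nonneg_left h6 (by positivity)
      _ ≤ 1 := by
          rw [mul_one_div, div_le_one hw0]
          exact_mod_cast hw
  calc Real.exp (20 * (j : ℝ) * ∑ p ∈ P, 1 / (p : ℝ) ^ 2) ≤ Real.exp 1 := Real.exp_le_exp.2 h7
    _ ≤ 3 := by have := Real.exp_one_lt_d9; linarith

lemma HH_mul (w m n : ℕ) (hm : m ≠ 0) (hn : n ≠ 0) : HH w (m * n) ≤ HH w m * HH w n := by
  classical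
  unfold HH
  rw [Nat.primeFactors_mul hm hn, filter_union]
  rw [← prod_union_inter]
  apply le_mul_of_one_le_right
  · apply prod_nonneg
    intro p _
    positivity
  · apply Finset.one_le_prod
    intro p _
    have : (0 : ℝ) ≤ 10 / (p : ℝ) := by positivity
    linarith

/-- the weight of a pair -/
noncomputable def GG (w u v : ℕ) : ℝ := HH w u * HH w v * HH w (Nat.dist u v) * HH w (u + v)

lemma GG_nonneg (w u v : ℕ) : 0 ≤ GG w u v := by
  unfold GG
  have := HH_nonneg w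
  exact mul_nonneg (mul_nonneg (mul_nonneg (this _) (this _)) (this _)) (this _)

lemma four_le (a b c d : ℝ) (_ha : 0 ≤ a) (_hb : 0 ≤ b) (_hc : 0 ≤ c) (_hd : 0 ≤ d) :
    a * b * c * d ≤ a ^ 4 + b ^ 4 + c ^ 4 + d ^ 4 := by
  nlinarith [sq_nonneg (a * b - c * d), sq_nonneg (a ^ 2 - b ^ 2), sq_nonneg (c ^ 2 - d ^ 2),
    sq_nonneg (a * b), sq_nonneg (c * d), sq_nonneg (a ^ 2), sq_nonneg (b ^ 2), sq_nonneg (c ^ 2), sq_nonneg (d ^ 2)]

lemma inj_sum (f : ℕ → ℝ) (hf : ∀ m, 0 ≤ f m) (S : Finset ℕ) (g : ℕ → ℕ) (hg : Set.InjOn g S) (T : Finset ℕ)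
    (hT : ∀ v ∈ S, g v ∈ T) : ∑ v ∈ S, f (g v) ≤ ∑ m ∈ T, f m := by
  rw [← sum_image (f := f) hg]
  apply sum_le_sum_of_subset_of_nonneg
  · intro m hm
    rw [mem_image] at hm
    obtain ⟨v, hv, rfl⟩ := hm
    exact hT v hv
  · intro m _ _
    exact hf m

theorem moment_pair (k w M : ℕ) (hk : 1 ≤ k) (hw : 80 * k ≤ w) :
    ∑ x ∈ (Icc 1 M ×ˢ Icc 1 M).filter (fun x => x.1 ≠ x.2), GG w x.1 x.2 ^ k ≤ 18 * (M : ℝ) ^ 2 := by
  classical
  have hm := moment (4 * k) w
  have h1 : ∀ x : ℕ × ℕ, GG w x.1 x.2 ^ k ≤ HH w x.1 ^ (4 * k) + HH w x.2 ^ (4 * k) + HH w (Nat.dist x.1 x.2) ^ (4 * k) +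
      HH w (x.1 + x.2) ^ (4 * k) := by
    intro x
    unfold GG
    rw [mul_pow, mul_pow, mul_pow]
    refine (four_le _ _ _ _ (pow_nonneg (HH_nonneg _ _) _) (pow_nonneg (HH_nonneg _ _) _) (pow_nonneg (HH_nonneg _ _) _)
      (pow_nonneg (HH_nonneg _ _) _)).trans ?_
    rw [← pow_mul, ← pow_mul, ← pow_mul, ← pow_mul, mul_comm k 4]
  refine (sum_le_sum (fun x _ => h1 x)).trans ?_
  rw [sum_add_distrib, sum_add_distrib, sum_add_distrib]
  have hnn : ∀ m, 0 ≤ HH w m ^ (4 * k) := fun m => pow_nonneg (HH_nonneg _ _) _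
  have hmM : ∑ m ∈ Icc 1 M, HH w m ^ (4 * k) ≤ 3 * M := hm M (by omega) (by omega)
  have hm2M : ∑ m ∈ Icc 1 (2 * M), HH w m ^ (4 * k) ≤ 3 * (2 * M) := by
    have := hm (2 * M) (by omega) (by omega)
    push_cast at this
    linarith
  have hM0 : (0 : ℝ) ≤ M := by positivity
  have a1 : ∑ x ∈ (Icc 1 M ×ˢ Icc 1 M).filter (fun x => x.1 ≠ x.2), HH w x.1 ^ (4 * k) ≤ 3 * (M : ℝ) ^ 2 := by
    refine (sum_le_sum_of_subset_of_nonneg (filter_subset _ _) (fun x _ _ => hnn _)).trans ?_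
    rw [sum_product]
    simp only [sum_const, Nat.card_Icc, add_tsub_cancel_right, nsmul_eq_mul]
    rw [← mul_sum]
    nlinarith
  have a2 : ∑ x ∈ (Icc 1 M ×ˢ Icc 1 M).filter (fun x => x.1 ≠ x.2), HH w x.2 ^ (4 * k) ≤ 3 * (M : ℝ) ^ 2 := by
    refine (sum_le_sum_of_subset_of_nonneg (filter_subset _ _) (fun x _ _ => hnn _)).trans ?_
    rw [sum_product]
    simp only [sum_const, Nat.card_Icc, add_tsub_cancel_right, nsmul_eq_mul]
    nlinarith
  have a3 : ∑ x ∈ (Icc 1 M ×ˢ Icc 1 M).filter (fun x => x.1 ≠ x.2), HH w (Nat.dist x.1 x.2) ^ (4 * k) ≤ 6 * (M : ℝ) ^ 2 := by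
    rw [sum_filter, sum_product]
    have h2 : ∀ u ∈ Icc 1 M, ∑ v ∈ Icc 1 M, (if u ≠ v then HH w (Nat.dist u v) ^ (4 * k) else 0) ≤ 6 * M := by
      intro u hu
      rw [mem_Icc] at hu
      rw [← sum_filter, ← sum_filter_add_sum_filter_not _ (fun v => v < u)]
      have b1 := inj_sum (fun m => HH w m ^ (4 * k)) hnn (((Icc 1 M).filter (fun v => u ≠ v)).filter (fun v => v < u))
        (fun v => Nat.dist u v) (by
          intro a ha b hb h
          rw [mem_coe, mem_filter] at ha hb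
          simp only [Nat.dist] at h
          omega) (Icc 1 M) (by
          intro v hv
          rw [mem_filter, mem_filter, mem_Icc] at hv
          rw [mem_Icc, Nat.dist]
          omega)
      have b2 := inj_sum (fun m => HH w m ^ (4 * k)) hnn (((Icc 1 M).filter (fun v => u ≠ v)).filter (fun v => ¬ v < u))
        (fun v => Nat.dist u v) (by
          intro a ha b hb h
          rw [mem_coe, mem_filter, mem_filter] at ha hb
          simp only [Nat.dist] at h
          omega) (Icc 1 M) (by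
          intro v hv
          rw [mem_filter, mem_filter, mem_Icc] at hv
          rw [mem_Icc, Nat.dist]
          omega)
      linarith
    refine (sum_le_sum h2).trans ?_
    rw [sum_const, Nat.card_Icc, nsmul_eq_mul, Nat.add_sub_cancel]
    nlinarith
  have a4 : ∑ x ∈ (Icc 1 M ×ˢ Icc 1 M).filter (fun x => x.1 ≠ x.2), HH w (x.1 + x.2) ^ (4 * k) ≤ 6 * (M : ℝ) ^ 2 := by
    refine (sum_le_sum_of_subset_of_nonneg (filter_subset _ _) (fun x _ _ => hnn _)).trans ?_
    rw [sum_product]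
    have h2 : ∀ u ∈ Icc 1 M, ∑ v ∈ Icc 1 M, HH w (u + v) ^ (4 * k) ≤ 6 * M := by
      intro u hu
      rw [mem_Icc] at hu
      have h3 : ∑ v ∈ Icc 1 M, HH w (u + v) ^ (4 * k) = ∑ m ∈ (Icc 1 M).image (fun v => u + v), HH w m ^ (4 * k) := by
        rw [sum_image]
        intro a _ b _ h
        simpa using h
      rw [h3]
      refine (sum_le_sum_of_subset_of_nonneg (t := Icc 1 (2 * M)) ?_ (fun x _ _ => hnn _)).trans (by linarith)
      intro m hm'
      rw [mem_image] at hm'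
      obtain ⟨v, hv, rfl⟩ := hm'
      rw [mem_Icc] at hv ⊢
      omega
    refine (sum_le_sum h2).trans ?_
    rw [sum_const, Nat.card_Icc, nsmul_eq_mul, Nat.add_sub_cancel]
    nlinarith
  linarith

end Pool.Agent.L0h44.AS
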