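import Pool.Agent.L0h44.AS.MainT2
import Pool.Agent.H352R3.FK.Cnt

set_option autoImplicit false

/-! Prime pairs `n - x`, `n + x`, `N < n ≤ 2 N`, for almost all `x ≤ N`: a lower bound. -/

namespace Pool.Agent.L0h44.AS

open Finset
open Pool.Agent.H373R2.T7
open Pool.Agent.H352R3.FK
open ArithmeticFunction (vonMangoldt)

lemma conv (N x : ℕ) (_hN : 1 ≤ N) (hx : x ≤ N) (I : Finset ℕ) (hI : I ⊆ Icc 1 (2 * N)) :
    ∑ n ∈ I, vonMangoldt n * vonMangoldt (n + 2 * x) ≤
      Real.log (4 * N : ℕ) ^ 2 * (I.filter (fun n => n.Prime ∧ (n + 2 * x).Prime)).card + 2 * Real.log (4 * N : ℕ) * NP (4 * N) := by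
  classical
  set L := Real.log (4 * N : ℕ) with hL
  have hL0 : 0 ≤ L := Real.log_natCast_nonneg _
  have hbd : ∀ m : ℕ, 1 ≤ m → m ≤ 4 * N → vonMangoldt m ≤ L := by
    intro m h1 h2
    refine ArithmeticFunction.vonMangoldt_le_log.trans ?_
    apply Real.log_le_log (by exact_mod_cast h1)
    exact_mod_cast h2
  have hnn : ∀ m : ℕ, 0 ≤ vonMangoldt m := fun m => ArithmeticFunction.vonMangoldt_nonneg
  have hpt : ∀ n ∈ I, vonMangoldt n * vonMangoldt (n + 2 * x) ≤
      (if n.Prime ∧ (n + 2 * x).Prime then L ^ 2 else 0) + (if n.Prime then 0 else L * vonMangoldt n) +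
      (if (n + 2 * x).Prime then 0 else L * vonMangoldt (n + 2 * x)) := by
    intro n hn
    have h1 := mem_Icc.1 (hI hn)
    have a1 := hbd n h1.1 (by omega)
    have a2 := hbd (n + 2 * x) (by omega) (by omega)
    have b1 := hnn n
    have b2 := hnn (n + 2 * x)
    by_cases c1 : n.Prime <;> by_cases c2 : (n + 2 * x).Prime
    · simp only [c1, c2, and_self, if_true]
      nlinarith
    · simp only [c1, c2, and_false, if_true, if_false]
      nlinarith
    · simp only [c1, c2, false_and, if_true, if_false]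
      nlinarith
    · simp only [c1, c2, and_self, if_false]
      nlinarith
  refine (sum_le_sum hpt).trans ?_
  rw [sum_add_distrib, sum_add_distrib]
  have e1 : ∑ n ∈ I, (if n.Prime ∧ (n + 2 * x).Prime then L ^ 2 else 0) =
      L ^ 2 * (I.filter (fun n => n.Prime ∧ (n + 2 * x).Prime)).card := by
    rw [← sum_filter, sum_const, nsmul_eq_mul, mul_comm]
  have hNP : ∀ S : Finset ℕ, S ⊆ Ioc 0 (4 * N) → (∀ n ∈ S, ¬ n.Prime) → ∑ n ∈ S, vonMangoldt n ≤ NP (4 * N) := by
    intro S h1 h2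
    unfold NP
    apply sum_le_sum_of_subset_of_nonneg
    · intro n hn
      rw [mem_filter]
      exact ⟨h1 hn, h2 n hn⟩
    · intro n _ _
      exact hnn n
  have e2 : ∑ n ∈ I, (if n.Prime then 0 else L * vonMangoldt n) ≤ L * NP (4 * N) := by
    have : ∑ n ∈ I, (if n.Prime then 0 else L * vonMangoldt n) = L * ∑ n ∈ I.filter (fun n => ¬ n.Prime), vonMangoldt n := by
      rw [mul_sum, sum_filter]
      apply sum_congr rfl
      intro n _
      split_ifs <;> simp_all
    rw [this]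
    apply mul_le_mul_of_nonneg_left _ hL0
    apply hNP
    · intro n hn
      have := mem_Icc.1 (hI (mem_filter.1 hn).1)
      rw [mem_Ioc]; omega
    · intro n hn
      exact (mem_filter.1 hn).2
  have e3 : ∑ n ∈ I, (if (n + 2 * x).Prime then 0 else L * vonMangoldt (n + 2 * x)) ≤ L * NP (4 * N) := by
    have : ∑ n ∈ I, (if (n + 2 * x).Prime then 0 else L * vonMangoldt (n + 2 * x)) =
        L * ∑ n ∈ (I.filter (fun n => ¬ (n + 2 * x).Prime)).image (fun n => n + 2 * x), vonMangoldt n := by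
      rw [sum_image (fun a _ b _ h => by simpa using h), mul_sum, sum_filter]
      apply sum_congr rfl
      intro n _
      split_ifs <;> simp_all
    rw [this]
    apply mul_le_mul_of_nonneg_left _ hL0
    apply hNP
    · intro m hm
      rw [mem_image] at hm
      obtain ⟨n, hn, rfl⟩ := hm
      have := mem_Icc.1 (hI (mem_filter.1 hn).1)
      rw [mem_Ioc]; omega
    · intro m hm
      rw [mem_image] at hm
      obtain ⟨n, hn, rfl⟩ := hm
      exact (mem_filter.1 hn).2
  rw [e1]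
  linarith

lemma cor_eq (z N x : ℕ) (hx : x ≤ N) (A B : ℕ) (hB : B ≤ 2 * N) :
    ∑ n ∈ Ioc A B, vonMangoldt n * vonMangoldt (n + 2 * x) = cor z (6 * (2 * N)) 1 (Ioc A B) ((2 * x : ℕ) : ℤ) +
      (Vz z)⁻¹ * ∑ n ∈ (Ioc A B).filter (fun n : ℕ => ∀ p ∈ pz z, ¬ (p : ℤ) ∣ 1 * n + ((2 * x : ℕ) : ℤ)), vonMangoldt n := by
  unfold cor
  rw [mul_sum, sum_filter, ← sum_add_distrib]
  apply sum_congr rfl
  intro n hn
  rw [mem_Ioc] at hn
  have h1 : 1 ≤ 1 * (n : ℤ) + ((2 * x : ℕ) : ℤ) ∧ 1 * (n : ℤ) + ((2 * x : ℕ) : ℤ) ≤ ((6 * (2 * N) : ℕ) : ℤ) := by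
    push_cast
    constructor
    · omega
    · omega
  have h2 : (1 * (n : ℤ) + ((2 * x : ℕ) : ℤ)).toNat = n + 2 * x := by
    push_cast
    omega
  unfold hh
  rw [if_pos h1, lamz_toNat z _ h1.1, h2]
  split_ifs <;> ring

/-- asymptotic inequalities -/
lemma ev2 (B : ℕ) : ∃ N0 : ℕ, ∀ N : ℕ, N0 ≤ N → 2 ≤ N ∧ 96 ≤ Real.log N ∧ 2 ^ (B + 4) ≤ Real.log N ∧
    768 * Real.log N * NP (4 * N) ≤ N := by
  obtain ⟨n1, h1⟩ := ev_L' 96
  obtain ⟨n2, h2⟩ := ev_L' (2 ^ (B + 4))
  obtain ⟨n3, h3⟩ := ev_log' 2 (768 * 16)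
  refine ⟨max (max n1 n2) (max n3 2), fun N hN => ?_⟩
  have a1 := h1 N (le_trans (le_trans (le_max_left _ _) (le_max_left _ _)) hN)
  have a2 := h2 N (le_trans (le_trans (le_max_right _ _) (le_max_left _ _)) hN)
  have a3 := h3 N (le_trans (le_trans (le_max_left _ _) (le_max_right _ _)) hN)
  have a4 : 2 ≤ N := le_trans (le_trans (le_max_right _ _) (le_max_right _ _)) hN
  refine ⟨a4, a1, a2, ?_⟩
  have hN0 : (0 : ℝ) < N := by exact_mod_cast (by omega : 0 < N)
  have b1 := NP_le (4 * N) (by omega)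
  have b2 : √((4 * N : ℕ) : ℝ) = 2 * √(N : ℝ) := by
    push_cast
    rw [Real.sqrt_mul (by norm_num), show (4 : ℝ) = 2 ^ 2 by norm_num, Real.sqrt_sq (by norm_num)]
  have b3 : Real.log ((4 * N : ℕ) : ℝ) ≤ 2 * Real.log N := by
    push_cast
    rw [Real.log_mul (by norm_num) hN0.ne', show (4 : ℝ) = 2 ^ 2 by norm_num, Real.log_pow]
    have := Real.log_two_lt_d9
    push_cast
    linarith
  rw [b2] at b1
  have hs : √(N : ℝ) * √(N : ℝ) = N := Real.mul_self_sqrt hN0.le
  have hs0 : 0 ≤ √(N : ℝ) := Real.sqrt_nonneg _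
  have hL0 : 0 ≤ Real.log N := by linarith
  calc 768 * Real.log N * NP (4 * N) ≤ 768 * Real.log N * (2 * (2 * √(N : ℝ)) * (2 * Real.log N)) := by
        apply mul_le_mul_of_nonneg_left _ (by positivity)
        refine b1.trans ?_
        apply mul_le_mul_of_nonneg_left b3 (by positivity)
    _ = √(N : ℝ) * (768 * 8 * Real.log N ^ 2) := by ring
    _ ≤ √(N : ℝ) * (768 * 16 * Real.log N ^ 2) := by
        apply mul_le_mul_of_nonneg_left _ hs0
        nlinarith [sq_nonneg (Real.log (N : ℝ))]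
    _ ≤ √(N : ℝ) * √(N : ℝ) := mul_le_mul_of_nonneg_left a3 hs0
    _ = N := hs

theorem pairs_lower : ∃ c : ℝ, 0 < c ∧ ∀ U : ℕ, ∃ N0 : ℕ, ∀ N : ℕ, N0 ≤ N → ∃ Ex : Finset ℕ,
    (Ex.card : ℝ) ≤ N / Real.log N ^ U ∧ ∀ x ∈ Icc 1 N, x ∉ Ex →
      c * (FF x * (N / Real.log N ^ 2)) ≤ ((Ioc N (2 * N)).filter (fun n => pr x n)).card := by
  classical
  refine ⟨1 / 192, by norm_num, fun U => ?_⟩
  obtain ⟨B, hB⟩ := exc (U + 2)
  obtain ⟨X1, hX1⟩ := hB (B + 3)
  obtain ⟨X2, hX2⟩ := mainT2 (B + 3) 1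
  obtain ⟨N1, hN1⟩ := ev2 B
  refine ⟨max (max X1 X2) N1, fun N hN => ?_⟩
  have hNX1 : X1 ≤ N := le_trans (le_trans (le_max_left _ _) (le_max_left _ _)) hN
  have hNX2 : X2 ≤ N := le_trans (le_trans (le_max_right _ _) (le_max_left _ _)) hN
  obtain ⟨hN2, hL96, hLB, hNP⟩ := hN1 N (le_trans (le_max_right _ _) hN)
  have hNr : (2 : ℝ) ≤ N := by exact_mod_cast hN2
  have hN0 : (0 : ℝ) < N := by linarith
  obtain ⟨X, hX⟩ : ∃ X : ℕ, X = 2 * N := ⟨_, rfl⟩
  have hXr : (X : ℝ) = 2 * N := by rw [hX]; push_cast; rfl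
  set L := Real.log N with hL
  have hl2 : Real.log 2 ≤ 1 := by have := Real.log_two_lt_d9; linarith
  have hl12 : Real.log 12 ≤ 4 := by
    have h1 : Real.log 12 ≤ Real.log (2 ^ 4) := Real.log_le_log (by norm_num) (by norm_num)
    rw [Real.log_pow] at h1
    push_cast at h1
    linarith
  have hLX : Real.log X = Real.log 2 + L := by rw [hXr, Real.log_mul (by norm_num) hN0.ne']
  have hL6X : Real.log ((6 * X : ℕ) : ℝ) = Real.log 12 + L := by
    push_cast
    rw [hXr, ← mul_assoc, Real.log_mul (by norm_num) hN0.ne', show (6 : ℝ) * 2 = 12 by norm_num]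
  have hl20 : 0 ≤ Real.log 2 := Real.log_nonneg (by norm_num)
  have hl120 : 0 ≤ Real.log 12 := Real.log_nonneg (by norm_num)
  set z : ℕ := ⌈Real.log ((6 * X : ℕ) : ℝ) ^ (B + 2)⌉₊ with hz
  have hzge : Real.log ((6 * X : ℕ) : ℝ) ^ (B + 2) ≤ z := Nat.le_ceil _
  have hzle : (z : ℝ) ≤ Real.log ((6 * X : ℕ) : ℝ) ^ (B + 2) + 1 := (Nat.ceil_lt_add_one (by positivity)).le
  have hT1 : 1 ≤ Real.log ((6 * X : ℕ) : ℝ) := by rw [hL6X]; linarith
  have hz1 : Real.log ((6 * X : ℕ) : ℝ) ^ B ≤ z := (pow_le_pow_right₀ hT1 (by omega)).trans hzge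
  have hzle2 : (z : ℝ) ≤ L ^ (B + 3) := by
    have h1 : Real.log ((6 * X : ℕ) : ℝ) ≤ 2 * L := by rw [hL6X]; linarith
    have h2 : Real.log ((6 * X : ℕ) : ℝ) ^ (B + 2) ≤ 2 ^ (B + 2) * L ^ (B + 2) := by
      rw [← mul_pow]
      exact pow_le_pow_left₀ (by linarith) h1 _
    have h3 : (1 : ℝ) ≤ 2 ^ (B + 2) * L ^ (B + 2) := by
      have a1 : (1 : ℝ) ≤ 2 ^ (B + 2) := one_le_pow₀ (by norm_num)
      have a2 : (1 : ℝ) ≤ L ^ (B + 2) := one_le_pow₀ (by linarith)
      nlinarith
    calc (z : ℝ) ≤ 2 ^ (B + 2) * L ^ (B + 2) + 1 := hzle.trans (by linarith)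
      _ ≤ 2 ^ (B + 4) * L ^ (B + 2) := by
          have : (2 : ℝ) ^ (B + 4) = 4 * 2 ^ (B + 2) := by rw [pow_add, pow_add]; ring
          rw [this]
          nlinarith
      _ ≤ L * L ^ (B + 2) := mul_le_mul_of_nonneg_right hLB (by positivity)
      _ = L ^ (B + 3) := by rw [pow_succ L (B + 2)]; ring
  have hz2 : (z : ℝ) ≤ Real.log ((6 * X : ℕ) : ℝ) ^ (B + 3) := hzle2.trans (pow_le_pow_left₀ (by linarith) (by rw [hL6X]; linarith) _)
  have hz3 : (z : ℝ) ≤ Real.log X ^ (B + 3) := hzle2.trans (pow_le_pow_left₀ (by linarith) (by rw [hLX]; linarith) _)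
  have hz4 : 8 * L ≤ z := by
    refine le_trans ?_ hzge
    calc 8 * L ≤ Real.log ((6 * X : ℕ) : ℝ) ^ 2 := by rw [hL6X]; nlinarith
      _ ≤ _ := pow_le_pow_right₀ hT1 (by omega)
  have hz5 : 2 ≤ z := by
    have : (2 : ℝ) ≤ z := by linarith
    exact_mod_cast this
  -- the two windows
  set I0 : Finset ℕ := Ioc N (N + N / 2) with hI0
  set I1 : Finset ℕ := Ioc (N / 2) N with hI1
  have hI0s : I0 ⊆ Icc 1 X := by intro n hn; rw [hI0, mem_Ioc] at hn; rw [mem_Icc]; omega
  have hI1s : I1 ⊆ Icc 1 X := by intro n hn; rw [hI1, mem_Ioc] at hn; rw [mem_Icc]; omega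
  have hE0 := hX1 X (by omega) z hz1 hz2 1 (by norm_num) I0 hI0s
  have hE1 := hX1 X (by omega) z hz1 hz2 1 (by norm_num) I1 hI1s
  set E0 := excS z X (U + 2) 1 I0 with hE0d
  set E1 := excS z X (U + 2) 1 I1 with hE1d
  refine ⟨(Icc 1 N).filter (fun x => ((2 * x : ℕ) : ℤ) ∈ E0 ∨ ((2 * x : ℕ) : ℤ) ∈ E1), ?_, ?_⟩
  · have h1 : ((Icc 1 N).filter (fun x => ((2 * x : ℕ) : ℤ) ∈ E0 ∨ ((2 * x : ℕ) : ℤ) ∈ E1)).card ≤ (E0 ∪ E1).card := by
      apply card_le_card_of_injOn (fun x => ((2 * x : ℕ) : ℤ))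
      · intro x hx
        rw [mem_coe, mem_filter] at hx
        rw [mem_coe, mem_union]
        exact hx.2
      · intro a _ b _ h
        simp only at h
        have : 2 * a = 2 * b := by exact_mod_cast h
        omega
    have h2 : (((Icc 1 N).filter (fun x => ((2 * x : ℕ) : ℤ) ∈ E0 ∨ ((2 * x : ℕ) : ℤ) ∈ E1)).card : ℝ) ≤ E0.card + E1.card := by
      exact_mod_cast h1.trans (card_union_le _ _)
    refine h2.trans ?_
    have h3 : (X : ℝ) / Real.log X ^ (U + 2) ≤ 2 * N / L ^ (U + 2) := by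
      rw [hXr]
      apply div_le_div_of_nonneg_left (by positivity) (by positivity)
      apply pow_le_pow_left₀ (by linarith)
      rw [← hXr, hLX]; linarith
    have h4 : 4 * (N : ℝ) / L ^ (U + 2) ≤ N / L ^ U := by
      rw [pow_add, div_le_div_iff₀ (by positivity) (by positivity)]
      have : (4 : ℝ) ≤ L ^ 2 := by nlinarith
      have h5 : 0 ≤ (N : ℝ) * L ^ U := by positivity
      nlinarith
    calc (E0.card : ℝ) + E1.card ≤ 2 * N / L ^ (U + 2) + 2 * N / L ^ (U + 2) := add_le_add (hE0.trans h3) (hE1.trans h3)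
      _ = 4 * (N : ℝ) / L ^ (U + 2) := by ring
      _ ≤ _ := h4
  · intro x hx hxE
    rw [mem_Icc] at hx
    rw [mem_filter, not_and] at hxE
    have hxE' := hxE (mem_Icc.2 hx)
    push Not at hxE'
    have hFF := one_le_FF x (by omega)
    -- a general window
    have key : ∀ A D : ℕ, A ≤ D → D ≤ X → X ≤ 8 * A → (N : ℝ) / 3 ≤ (D : ℝ) - A → ((2 * x : ℕ) : ℤ) ∉ excS z X (U + 2) 1 (Ioc A D) →
        (∀ n ∈ Ioc A D, n + x ∈ Ioc N (2 * N)) →
        1 / 192 * (FF x * (N / L ^ 2)) ≤ (((Ioc N (2 * N)).filter (fun n => pr x n)).card : ℝ) := by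
      intro A D hAD hDX hXA hlen hnE hwin
      have hcor : |cor z (6 * X) 1 (Ioc A D) ((2 * x : ℕ) : ℤ)| ≤ X / Real.log X ^ (U + 2) := by
        by_contra hc
        push Not at hc
        apply hnE
        unfold excS
        rw [mem_filter, mem_Icc]
        refine ⟨⟨?_, ?_⟩, hc⟩
        · push_cast; omega
        · push_cast; omega
      have hLX1 : 1 ≤ Real.log X := by rw [hLX]; linarith
      have hcor' : |cor z (6 * X) 1 (Ioc A D) ((2 * x : ℕ) : ℤ)| ≤ 2 * N / L := by
        refine hcor.trans ?_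
        rw [← hXr]
        apply div_le_div_of_nonneg_left (by positivity) (by linarith)
        calc L ≤ Real.log X := by rw [hLX]; linarith
          _ = Real.log X ^ 1 := (pow_one _).symm
          _ ≤ _ := pow_le_pow_right₀ hLX1 (by omega)
      have hmain := hX2 X (by omega) z hz5 hz3 ((2 * x : ℕ) : ℤ) A D hAD hDX hXA
      have hmain' : SK z ((2 * x : ℕ) : ℤ) * ((D : ℝ) - A) - 2 * N / L ≤
          (Vz z)⁻¹ * ∑ n ∈ (Ioc A D).filter (fun n : ℕ => ∀ p ∈ pz z, ¬ (p : ℤ) ∣ 1 * n + ((2 * x : ℕ) : ℤ)), vonMangoldt n := by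
        have h1 := (abs_le.1 hmain).1
        have h2 : (X : ℝ) / Real.log X ^ 1 ≤ 2 * N / L := by
          rw [pow_one, hXr]
          apply div_le_div_of_nonneg_left (by positivity) (by linarith)
          rw [← hXr, hLX]; linarith
        linarith
      have hlow := SK_low z x hz5 (by omega) (by
        have : Real.log x ≤ L := Real.log_le_log (by exact_mod_cast (by omega : 0 < x)) (by exact_mod_cast hx.2)
        linarith)
      have hce := cor_eq z N x hx.2 A D (by omega)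
      rw [← hX] at hce
      have hcv := conv N x (by omega) hx.2 (Ioc A D) (by
        intro n hn
        rw [mem_Ioc] at hn
        rw [mem_Icc]; omega)
      set S := ∑ n ∈ Ioc A D, vonMangoldt n * vonMangoldt (n + 2 * x) with hS
      set cnt := ((Ioc A D).filter (fun n => n.Prime ∧ (n + 2 * x).Prime)).card with hcnt
      have h4N : Real.log ((4 * N : ℕ) : ℝ) ≤ 2 * L := by
        push_cast
        rw [Real.log_mul (by norm_num) hN0.ne', show (4 : ℝ) = 2 ^ 2 by norm_num, Real.log_pow]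
        push_cast
        linarith
      have h4N0 : 0 ≤ Real.log ((4 * N : ℕ) : ℝ) := Real.log_natCast_nonneg _
      have hSlow : FF x * N / 24 ≤ S := by
        have h1 : FF x / 4 * (N / 3) ≤ SK z ((2 * x : ℕ) : ℤ) * ((D : ℝ) - A) :=
          mul_le_mul hlow hlen (by positivity) (le_trans (by positivity) hlow)
        have h2 := (abs_le.1 hcor').1
        have h3 : 4 * (N : ℝ) / L ≤ FF x * N / 24 := by
          rw [div_le_div_iff₀ (by linarith) (by norm_num)]
          have h0 : 96 ≤ FF x * L := by nlinarith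
          have h00 := mul_le_mul_of_nonneg_right h0 hN0.le
          linarith
        have h4 : 2 * (N : ℝ) / L + 2 * N / L = 4 * N / L := by ring
        have h5 : FF x / 4 * ((N : ℝ) / 3) = FF x * N / 24 + FF x * N / 24 := by ring
        rw [hce]
        linarith
      have hup : S ≤ (2 * L) ^ 2 * cnt + FF x * N / 48 := by
        refine hcv.trans ?_
        have h1 : Real.log ((4 * N : ℕ) : ℝ) ^ 2 * cnt ≤ (2 * L) ^ 2 * cnt :=
          mul_le_mul_of_nonneg_right (pow_le_pow_left₀ h4N0 h4N 2) (by positivity)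
        have h2 : 2 * Real.log ((4 * N : ℕ) : ℝ) * NP (4 * N) ≤ FF x * N / 48 := by
          have h3 := NP_nonneg (4 * N)
          calc 2 * Real.log ((4 * N : ℕ) : ℝ) * NP (4 * N) ≤ 2 * (2 * L) * NP (4 * N) := by
                apply mul_le_mul_of_nonneg_right _ h3
                linarith
            _ = (768 * L * NP (4 * N)) / 192 := by ring
            _ ≤ N / 192 := by linarith
            _ ≤ FF x * N / 48 := by nlinarith
        linarith
      have hc1 : FF x * N / 48 ≤ (2 * L) ^ 2 * cnt := by linarith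
      have hc2 : 1 / 192 * (FF x * (N / L ^ 2)) ≤ (cnt : ℝ) := by
        have h1 : 1 / 192 * (FF x * (N / L ^ 2)) = (FF x * N / 48) / (2 * L) ^ 2 := by
          field_simp
          norm_num
        rw [h1, div_le_iff₀ (by positivity)]
        linarith
      refine hc2.trans ?_
      have hinj : cnt ≤ ((Ioc N (2 * N)).filter (fun n => pr x n)).card := by
        rw [hcnt]
        apply card_le_card_of_injOn (fun n => n + x)
        · intro n hn
          rw [mem_coe, mem_filter] at hn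
          rw [mem_coe, mem_filter]
          refine ⟨hwin n hn.1, ?_, ?_⟩
          · have : x + (n + x) = n + 2 * x := by ring
            rw [this]
            exact hn.2.2
          · have : Nat.dist x (n + x) = n := by rw [Nat.dist]; omega
            rw [this]
            exact hn.2.1
        · intro a _ b _ h
          simpa using h
      exact_mod_cast hinj
    by_cases hcase : x ≤ N / 2
    · apply key N (N + N / 2) (by omega) (by omega) (by omega)
      · push_cast
        have h1 : (N : ℝ) ≤ 2 * ((N / 2 : ℕ) : ℝ) + 1 := by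
          have : N ≤ 2 * (N / 2) + 1 := by omega
          exact_mod_cast this
        have h2 : (3 : ℝ) ≤ N := by
          by_contra hcon
          push Not at hcon
          have : L ≤ Real.log 3 := Real.log_le_log hN0 hcon.le
          have h3 : Real.log 3 ≤ 3 - 1 := Real.log_le_sub_one_of_pos (by norm_num)
          linarith
        linarith
      · exact hxE'.1
      · intro n hn
        rw [mem_Ioc] at hn ⊢
        omega
    · apply key (N / 2) N (by omega) (by omega) (by omega)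
      · have h1 : 2 * ((N / 2 : ℕ) : ℝ) ≤ N := by
          have : 2 * (N / 2) ≤ N := by omega
          exact_mod_cast this
        linarith
      · exact hxE'.2
      · intro n hn
        rw [mem_Ioc] at hn ⊢
        omega

end Pool.Agent.L0h44.AS
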