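import Pool.Agent.H373R2.T7.Fund
import Pool.Agent.L0h44.AS.Mom

set_option autoImplicit false

/-! The sieve bound for four linear forms in a class. -/

namespace Pool.Agent.L0h44.AS

open Finset Filter
open Pool.Agent.H373R2.T7 (pz Vz nuB PerB sys_fund mem_pz)

/-- `u + v` and `|u - v|` are primes -/
def pr (u v : ℕ) : Prop := (u + v).Prime ∧ (Nat.dist u v).Prime

instance (u v : ℕ) : Decidable (pr u v) := by unfold pr; infer_instance

lemma pr_comm (u v : ℕ) : pr u v ↔ pr v u := by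
  unfold pr
  rw [add_comm, Nat.dist_comm]

/-- the product of the primes `≤ w` -/
def PW (w : ℕ) : ℕ := ∏ p ∈ pz w, p

lemma PW_pos (w : ℕ) : 0 < PW w := prod_pos (fun _ hp => (mem_pz.1 hp).2.pos)

lemma dvd_PW {p w : ℕ} (hp : p.Prime) (h : p ≤ w) : p ∣ PW w := dvd_prod_of_mem _ (mem_pz.2 ⟨h, hp⟩)

lemma not_dvd_PW {p w : ℕ} (hp : p.Prime) (h : w < p) : ¬ p ∣ PW w := by
  intro hd
  obtain ⟨q, hq, hpq⟩ := (hp.prime.dvd_finsetProd_iff _).1 hd
  have h1 := mem_pz.1 hq
  have h2 := (Nat.prime_dvd_prime_iff_eq hp h1.2).1 hpq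
  omega

/-- the set of the four classes -/
def TT (s s' p : ℕ) : Finset (ZMod p) := by
  classical
  exact {(s : ZMod p), -(s : ZMod p), (s' : ZMod p), -(s' : ZMod p)}

/-- the conditions of the sieve -/
def Qc (W b s s' p n : ℕ) : Prop := ¬ p ∣ W ∧ ((b + W * n : ℕ) : ZMod p) ∈ TT s s' p

lemma Qc_per (W b s s' p n : ℕ) : Qc W b s s' p n ↔ Qc W b s s' p (n % p) := by
  have h : ((b + W * (n % p) : ℕ) : ZMod p) = ((b + W * n : ℕ) : ZMod p) := by
    push_cast
    rw [ZMod.natCast_mod]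
  unfold Qc
  rw [h]

lemma TT_card (s s' p : ℕ) : (TT s s' p).card ≤ 4 := by
  classical
  unfold TT
  exact card_le_four

lemma inj_W (W b p : ℕ) (hp : p.Prime) (hW : ¬ p ∣ W) (r r' : ℕ) (hr : r < p) (hr' : r' < p)
    (h : ((b + W * r : ℕ) : ZMod p) = ((b + W * r' : ℕ) : ZMod p)) : r = r' := by
  have : Fact p.Prime := ⟨hp⟩
  have hW0 : (W : ZMod p) ≠ 0 := by
    rw [Ne, ZMod.natCast_eq_zero_iff]
    exact hW
  push_cast at h
  have h1 : (W : ZMod p) * r = W * r' := by linear_combination h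
  have h2 : (r : ZMod p) = r' := mul_left_cancel₀ hW0 h1
  rw [ZMod.natCast_eq_natCast_iff'] at h2
  rwa [Nat.mod_eq_of_lt hr, Nat.mod_eq_of_lt hr'] at h2

lemma nuB_le (W b s s' p : ℕ) (hp : p.Prime) : nuB (Qc W b s s') p ≤ 4 := by
  classical
  unfold nuB
  by_cases hW : p ∣ W
  · have : (range p).filter (fun r => Qc W b s s' p r) = ∅ := by
      rw [filter_eq_empty_iff]
      intro r _ h
      exact h.1 hW
    convert Nat.zero_le 4
    convert card_empty
  · refine le_trans ?_ (TT_card s s' p)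
    apply card_le_card_of_injOn (fun r => ((b + W * r : ℕ) : ZMod p))
    · intro r hr
      rw [mem_coe, mem_filter] at hr
      exact hr.2.2
    · intro r hr r' hr' h
      rw [mem_coe, mem_filter, mem_range] at hr hr'
      exact inj_W W b p hp hW r r' hr.1 hr'.1 h

lemma nuB_zero (W b s s' p : ℕ) (hW : p ∣ W) : nuB (Qc W b s s') p = 0 := by
  classical
  unfold nuB
  rw [card_eq_zero, filter_eq_empty_iff]
  intro r _ h
  exact h.1 hW

lemma nuB_ge (W b s s' p : ℕ) (hp : p.Prime) (hW : ¬ p ∣ W) : (TT s s' p).card ≤ nuB (Qc W b s s') p := by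
  classical
  have : Fact p.Prime := ⟨hp⟩
  have hW0 : (W : ZMod p) ≠ 0 := by
    rw [Ne, ZMod.natCast_eq_zero_iff]
    exact hW
  unfold nuB
  have hval : ∀ t : ZMod p, ((b + W * ((t - (b : ZMod p)) / (W : ZMod p)).val : ℕ) : ZMod p) = t := by
    intro t
    push_cast
    rw [ZMod.natCast_zmod_val]
    field_simp
    ring
  apply card_le_card_of_injOn (fun t : ZMod p => ((t - (b : ZMod p)) / (W : ZMod p)).val)
  · intro t ht
    rw [mem_coe] at ht
    rw [mem_coe, mem_filter, mem_range]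
    refine ⟨ZMod.val_lt _, hW, ?_⟩
    rw [hval t]
    exact ht
  · intro t _ t' _ h
    have h1 := hval t
    have h2 := hval t'
    simp only at h
    rw [h] at h1
    exact h1.symm.trans h2

lemma dist_cast (s s' p : ℕ) (h : (s : ZMod p) = s') : p ∣ Nat.dist s s' := by
  rw [← ZMod.natCast_eq_zero_iff]
  rcases Nat.le_total s s' with hs | hs
  · rw [Nat.dist_eq_sub_of_le hs, Nat.cast_sub hs, h, sub_self]
  · rw [Nat.dist_eq_sub_of_le_right hs, Nat.cast_sub hs, h, sub_self]

lemma TT_four (s s' p : ℕ) (hp : p.Prime) (h2 : 2 < p) (h : ¬ p ∣ s * s' * Nat.dist s s' * (s + s')) :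
    (TT s s' p).card = 4 := by
  classical
  have : Fact p.Prime := ⟨hp⟩
  have a1 : ¬ p ∣ s := fun h1 => h (((h1.mul_right _).mul_right _).mul_right _)
  have a2 : ¬ p ∣ s' := fun h1 => h (((h1.mul_left _).mul_right _).mul_right _)
  have a3 : ¬ p ∣ Nat.dist s s' := fun h1 => h ((h1.mul_left _).mul_right _)
  have a4 : ¬ p ∣ s + s' := fun h1 => h (h1.mul_left _)
  have two : ∀ t : ℕ, ¬ p ∣ t → (t : ZMod p) ≠ -(t : ZMod p) := by
    intro t ht h1
    have h3 : ((2 * t : ℕ) : ZMod p) = 0 := by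
      push_cast
      linear_combination h1
    rw [ZMod.natCast_eq_zero_iff] at h3
    rcases (Nat.Prime.dvd_mul hp).1 h3 with h4 | h4
    · have := Nat.le_of_dvd (by norm_num) h4
      omega
    · exact ht h4
  have b1 := two s a1
  have b2 := two s' a2
  have b3 : (s : ZMod p) ≠ s' := fun h1 => a3 (dist_cast s s' p h1)
  have b4 : (s : ZMod p) ≠ -(s' : ZMod p) := by
    intro h1
    apply a4
    rw [← ZMod.natCast_eq_zero_iff]
    push_cast
    linear_combination h1
  have b5 : -(s : ZMod p) ≠ (s' : ZMod p) := by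
    intro h1
    apply b4
    linear_combination -h1
  have b6 : -(s : ZMod p) ≠ -(s' : ZMod p) := fun h1 => b3 (neg_inj.1 h1)
  unfold TT
  rw [card_insert_of_notMem, card_insert_of_notMem, card_insert_of_notMem, card_singleton]
  · rw [mem_singleton]; exact b2
  · rw [mem_insert, mem_singleton]
    rintro (h1 | h1)
    · exact b5 h1
    · exact b6 h1
  · rw [mem_insert, mem_insert, mem_singleton]
    rintro (h1 | h1 | h1)
    · exact b1 h1
    · exact b3 h1
    · exact b4 h1

/-- the product of the local densities -/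
theorem prod_le : ∃ C : ℝ, 1 ≤ C ∧ ∀ w y b s s' : ℕ, 6 ≤ w → w ≤ y → 0 < s → 0 < s' → s ≠ s' →
    0 ≤ ∏ p ∈ pz y, (1 - (nuB (Qc (PW w) b s s') p : ℝ) / p) ∧
    ∏ p ∈ pz y, (1 - (nuB (Qc (PW w) b s s') p : ℝ) / p) ≤ C * (Real.log w / Real.log y) ^ 4 * GG w s s' := by
  classical
  obtain ⟨C, hC1, hC⟩ := Vz_ratio
  refine ⟨C ^ 4, one_le_pow₀ hC1, ?_⟩
  intro w y b s s' hw hwy hs hs' hss
  set f : ℕ → ℝ := fun p => (1 - (nuB (Qc (PW w) b s s') p : ℝ) / p) with hf
  have hsplit : ∏ p ∈ pz y, f p = ∏ p ∈ (pz y).filter (fun p => w < p), f p := by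
    rw [← prod_filter_mul_prod_filter_not (pz y) (fun p => w < p)]
    have : ∏ p ∈ (pz y).filter (fun p => ¬ w < p), f p = 1 := by
      apply prod_eq_one
      intro p hp
      rw [mem_filter, mem_pz] at hp
      simp only [hf]
      rw [nuB_zero _ _ _ _ _ (dvd_PW hp.1.2 (by omega))]
      simp
    rw [this, mul_one]
  have hpos : ∀ p ∈ (pz y).filter (fun p => w < p), 0 ≤ f p := by
    intro p hp
    rw [mem_filter, mem_pz] at hp
    simp only [hf]
    have h1 := nuB_le (PW w) b s s' p hp.1.2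
    have hp0 : (0 : ℝ) < p := by exact_mod_cast hp.1.2.pos
    rw [sub_nonneg, div_le_one hp0]
    have h2 : (nuB (Qc (PW w) b s s') p : ℝ) ≤ 4 := by exact_mod_cast h1
    have h3 : (6 : ℝ) < p := by exact_mod_cast (by omega : 6 < p)
    linarith
  set Z : ℕ := s * s' * Nat.dist s s' * (s + s') with hZ
  have hd0 : Nat.dist s s' ≠ 0 := by
    intro h
    exact hss (Nat.eq_of_dist_eq_zero h)
  have hle : ∀ p ∈ (pz y).filter (fun p => w < p), f p ≤
      (1 - 1 / (p : ℝ)) ^ 4 * (if p ∣ Z then (1 + 10 / (p : ℝ)) else 1) := by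
    intro p hp
    rw [mem_filter, mem_pz] at hp
    have hp7 : (7 : ℝ) ≤ p := by exact_mod_cast (by omega : 7 ≤ p)
    have hp0 : (0 : ℝ) < p := by linarith
    have hx : 1 / (p : ℝ) ≤ 1 / 7 := by
      rw [div_le_div_iff₀ hp0 (by norm_num)]; linarith
    have hx0 : 0 < 1 / (p : ℝ) := by positivity
    set x := 1 / (p : ℝ) with hxd
    by_cases hd : p ∣ Z
    · rw [if_pos hd]
      have h1 : f p ≤ 1 := by
        simp only [hf]
        have : (0 : ℝ) ≤ (nuB (Qc (PW w) b s s') p : ℝ) / p := by positivity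
        linarith
      refine h1.trans ?_
      have h2 : 10 / (p : ℝ) = 10 * x := by rw [hxd]; ring
      rw [h2]
      have h3 : 1 - 4 * x ≤ (1 - x) ^ 4 := by
        have := one_add_mul_le_pow (a := -x) (by linarith) 4
        push_cast at this
        calc 1 - 4 * x = 1 + 4 * -x := by ring
          _ ≤ (1 + -x) ^ 4 := this
          _ = (1 - x) ^ 4 := by ring
      calc (1 : ℝ) ≤ (1 - 4 * x) * (1 + 10 * x) := by nlinarith
        _ ≤ (1 - x) ^ 4 * (1 + 10 * x) := mul_le_mul_of_nonneg_right h3 (by linarith)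
    · rw [if_neg hd, mul_one]
      have h1 := nuB_ge (PW w) b s s' p hp.1.2 (not_dvd_PW hp.1.2 hp.2)
      rw [TT_four s s' p hp.1.2 (by omega) hd] at h1
      have h2 : (4 : ℝ) ≤ (nuB (Qc (PW w) b s s') p : ℝ) := by exact_mod_cast h1
      have h3 : f p ≤ 1 - 4 * x := by
        simp only [hf]
        have : 4 * x ≤ (nuB (Qc (PW w) b s s') p : ℝ) / p := by
          rw [hxd, mul_one_div]
          exact div_le_div_of_nonneg_right h2 hp0.le
        linarith
      refine h3.trans ?_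
      have := one_add_mul_le_pow (a := -x) (by linarith) 4
      push_cast at this
      calc 1 - 4 * x = 1 + 4 * -x := by ring
        _ ≤ (1 + -x) ^ 4 := this
        _ = (1 - x) ^ 4 := by ring
  rw [hsplit]
  refine ⟨prod_nonneg hpos, (prod_le_prod hpos hle).trans ?_⟩
  rw [prod_mul_distrib, prod_pow]
  have h1 := hC w y (by omega) hwy
  have h10 : 0 ≤ ∏ p ∈ (pz y).filter (fun p => w < p), (1 - 1 / (p : ℝ)) := by
    apply prod_nonneg
    intro p hp
    rw [mem_filter, mem_pz] at hp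
    have hp0 : (1 : ℝ) < p := by exact_mod_cast hp.1.2.one_lt
    rw [sub_nonneg, div_le_one (by linarith)]
    linarith
  have h2 : (∏ p ∈ (pz y).filter (fun p => w < p), (1 - 1 / (p : ℝ))) ^ 4 ≤ C ^ 4 * (Real.log w / Real.log y) ^ 4 := by
    rw [← mul_pow]
    exact pow_le_pow_left₀ h10 h1 4
  have h3 : ∏ p ∈ (pz y).filter (fun p => w < p), (if p ∣ Z then (1 + 10 / (p : ℝ)) else 1) ≤ GG w s s' := by
    rw [← prod_filter]
    have h4 : ∏ p ∈ ((pz y).filter (fun p => w < p)).filter (fun p => p ∣ Z), (1 + 10 / (p : ℝ)) ≤ HH w Z := by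
      unfold HH
      apply prod_le_prod_of_subset_of_one_le
      · intro p hp
        rw [mem_filter, mem_filter, mem_pz] at hp
        rw [mem_filter, Nat.mem_primeFactors]
        refine ⟨⟨hp.1.1.2, hp.2, ?_⟩, hp.1.2⟩
        rw [hZ]
        apply mul_ne_zero (mul_ne_zero (mul_ne_zero (by omega) (by omega)) hd0) (by omega)
      · intro p _; positivity
      · intro p _ _
        have : (0 : ℝ) ≤ 10 / (p : ℝ) := by positivity
        linarith
    refine h4.trans ?_
    rw [hZ]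
    unfold GG
    refine (HH_mul w _ _ (mul_ne_zero (mul_ne_zero (by omega) (by omega)) hd0) (by omega)).trans ?_
    apply mul_le_mul_of_nonneg_right _ (HH_nonneg _ _)
    refine (HH_mul w _ _ (mul_ne_zero (by omega) (by omega)) hd0).trans ?_
    apply mul_le_mul_of_nonneg_right _ (HH_nonneg _ _)
    exact HH_mul w _ _ (by omega) (by omega)
  have h5 : 0 ≤ ∏ p ∈ (pz y).filter (fun p => w < p), (if p ∣ Z then (1 + 10 / (p : ℝ)) else 1) := by
    apply prod_nonneg
    intro p _
    split_ifs <;> positivity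
  apply mul_le_mul h2 h3 h5 (by positivity)

end Pool.Agent.L0h44.AS
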