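import Pool.Agent.L0h44.AS.Sv

set_option autoImplicit false

/-! The sieve bound for four linear forms in a class. -/

namespace Pool.Agent.L0h44.AS

open Finset Filter
open Pool.Agent.H373R2.T7 (pz Vz nuB PerB sys_fund mem_pz)

/-- the sieving level -/
noncomputable def yy (K M : ℕ) : ℕ := ⌊(M : ℝ) ^ (1 / (2 * K : ℝ))⌋₊

lemma yy_pow (K M : ℕ) (hK : 1 ≤ K) : yy K M ^ K ≤ M := by
  have hK0 : (0 : ℝ) < K := by exact_mod_cast hK
  rcases Nat.eq_zero_or_pos M with h0 | h0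
  · subst h0
    have : yy K 0 = 0 := by
      unfold yy
      rw [Nat.cast_zero, Real.zero_rpow (by positivity)]
      simp
    rw [this]
    rw [zero_pow (by omega)]
  have hM : (1 : ℝ) ≤ M := by exact_mod_cast h0
  have h1 : (yy K M : ℝ) ≤ (M : ℝ) ^ (1 / (2 * K : ℝ)) := Nat.floor_le (by positivity)
  have h2 : ((yy K M : ℝ)) ^ K ≤ (M : ℝ) := by
    calc ((yy K M : ℝ)) ^ K ≤ ((M : ℝ) ^ (1 / (2 * K : ℝ))) ^ K := pow_le_pow_left₀ (by positivity) h1 K
      _ = (M : ℝ) ^ (1 / 2 : ℝ) := by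
          rw [← Real.rpow_natCast, ← Real.rpow_mul (by positivity)]
          congr 1
          field_simp
      _ ≤ (M : ℝ) ^ (1 : ℝ) := Real.rpow_le_rpow_of_exponent_le hM (by norm_num)
      _ = M := Real.rpow_one _
  exact_mod_cast h2

lemma yy_sqrt (K M : ℕ) (hK : 1 ≤ K) (hM : 1 ≤ M) : (yy K M : ℝ) ≤ √(M : ℝ) := by
  have hK0 : (1 : ℝ) ≤ K := by exact_mod_cast hK
  have hM : (1 : ℝ) ≤ M := by exact_mod_cast hM
  have h1 : (yy K M : ℝ) ≤ (M : ℝ) ^ (1 / (2 * K : ℝ)) := Nat.floor_le (by positivity)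
  refine h1.trans ?_
  rw [Real.sqrt_eq_rpow]
  apply Real.rpow_le_rpow_of_exponent_le hM
  rw [div_le_div_iff₀ (by positivity) (by norm_num)]
  linarith

lemma yy_large (K : ℕ) (hK : 1 ≤ K) (x0 : ℕ) : ∃ M0 : ℕ, ∀ M : ℕ, M0 ≤ M → x0 ≤ yy K M ∧ Real.log M ≤ yy K M ∧
    Real.log M / (4 * K) ≤ Real.log (yy K M) := by
  have hK0 : (0 : ℝ) < K := by exact_mod_cast hK
  set r : ℝ := 1 / (2 * K : ℝ) with hr
  have hr0 : 0 < r := by positivity
  have h1 : Tendsto (fun x : ℝ => x ^ r) atTop atTop := tendsto_rpow_atTop hr0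
  have h2 := (isLittleO_log_rpow_atTop hr0).bound (c := 1 / 2) (by norm_num)
  have h3 : ∀ᶠ x : ℝ in atTop, 4 * K * Real.log 2 ≤ Real.log x := Real.tendsto_log_atTop.eventually_ge_atTop _
  have h4 : ∀ᶠ M : ℕ in atTop, x0 ≤ yy K M ∧ Real.log M ≤ yy K M ∧ Real.log M / (4 * K) ≤ Real.log (yy K M) := by
    have h5 := tendsto_natCast_atTop_atTop (R := ℝ) |>.eventually
      (h2.and ((h1.eventually_ge_atTop (x0 + 2)).and (h3.and (eventually_ge_atTop 1))))
    filter_upwards [h5] with M hM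
    obtain ⟨a1, a2, a3, a4⟩ := hM
    have hlog : 0 ≤ Real.log M := Real.log_nonneg a4
    rw [Real.norm_of_nonneg hlog, Real.norm_of_nonneg (by positivity)] at a1
    have b1 : (M : ℝ) ^ r < yy K M + 1 := Nat.lt_floor_add_one _
    have hx0 : (0 : ℝ) ≤ x0 := by positivity
    refine ⟨?_, ?_, ?_⟩
    · have : (x0 : ℝ) ≤ yy K M := by linarith
      exact_mod_cast this
    · linarith
    · have c1 : (M : ℝ) ^ r / 2 ≤ yy K M := by linarith
      have c2 : Real.log ((M : ℝ) ^ r / 2) ≤ Real.log (yy K M) := Real.log_le_log (by positivity) c1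
      rw [Real.log_div (by positivity) (by norm_num), Real.log_rpow (by linarith)] at c2
      refine le_trans ?_ c2
      rw [hr]
      have c3 : Real.log 2 ≤ Real.log M / (4 * K) := by
        rw [le_div_iff₀ (by positivity)]
        linarith
      have c4 : 1 / (2 * K : ℝ) * Real.log M = Real.log M / (4 * K) + Real.log M / (4 * K) := by
        field_simp
        ring
      rw [c4]
      linarith
  exact eventually_atTop.1 h4

lemma not_dvd_of_prime_gt {y p q : ℕ} (hq : q.Prime) (hy : y < q) (hp : p ∈ pz y) : ¬ p ∣ q := by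
  intro h
  have h1 := mem_pz.1 hp
  have h2 := (Nat.prime_dvd_prime_iff_eq h1.2 hq).1 h
  omega

lemma cast_sub_eq (s v p : ℕ) (h : (v : ZMod p) = s) : p ∣ Nat.dist s v := dist_cast s v p h.symm

theorem sieve4 : ∃ C : ℝ, 1 ≤ C ∧ ∃ M0 : ℕ, ∀ M : ℕ, M0 ≤ M → ∀ w : ℕ, 6 ≤ w → (w : ℝ) ≤ Real.log M →
    ∀ b s s' : ℕ, 0 < s → 0 < s' → s ≠ s' →
    (({v ∈ Icc 1 M | v % PW w = b ∧ pr s v ∧ pr s' v} : Finset ℕ).card : ℝ) ≤
      C * ((M : ℝ) / PW w) * (Real.log w / Real.log M) ^ 4 * GG w s s' + 10 * √(M : ℝ) := by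
  classical
  obtain ⟨K, x0, hK, hsv⟩ := sys_fund 4 (by norm_num) 1 (by norm_num)
  obtain ⟨C, hC1, hC⟩ := prod_le
  obtain ⟨M0, hM0⟩ := yy_large K hK x0
  have hK0 : (1 : ℝ) ≤ K := by exact_mod_cast hK
  refine ⟨2 * C * (4 * K) ^ 4, ?_, max M0 3, ?_⟩
  · have : (1 : ℝ) ≤ (4 * K) ^ 4 := one_le_pow₀ (by linarith)
    nlinarith
  intro M hM w hw hwM b s s' hs hs' hss
  have hM3 : 3 ≤ M := le_trans (le_max_right _ _) hM
  obtain ⟨hy0, hy1, hy2⟩ := hM0 M (le_trans (le_max_left _ _) hM)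
  set y := yy K M with hy
  have hwy : w ≤ y := by exact_mod_cast hwM.trans hy1
  have hysq : (y : ℝ) ≤ √(M : ℝ) := yy_sqrt K M hK (by omega)
  obtain ⟨hP0, hP⟩ := hC w y b s s' hw hwy hs hs' hss
  set W := PW w with hW
  have hW0 : 0 < W := PW_pos w
  set Q := Qc W b s s' with hQ
  have hper : PerB Q 4 := ⟨fun p n => Qc_per W b s s' p n, fun p hp => nuB_le W b s s' p hp⟩
  have hsieve := hsv M y hy0 (yy_pow K M hK) Q hper (M / W)
  set P : ℝ := ∏ p ∈ pz y, (1 - (nuB Q p : ℝ) / p) with hPd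
  set Sf : Finset ℕ := (Icc 1 (M / W)).filter (fun n : ℕ => ∀ p ∈ pz y, ¬ Q p n) with hSf
  have hSf1 : (Sf.card : ℝ) ≤ 2 * ((M / W : ℕ) * P) + √(M : ℝ) := by
    have h1 := (abs_le.1 hsieve).2
    linarith
  have hsub : ({v ∈ Icc 1 M | v % W = b ∧ pr s v ∧ pr s' v} : Finset ℕ) ⊆
      Icc 1 y ∪ (Icc (s - y) (s + y) ∪ (Icc (s' - y) (s' + y) ∪ ({b} ∪ Sf.image (fun n => b + W * n)))) := by
    intro v hv
    rw [mem_filter, mem_Icc] at hv
    obtain ⟨⟨hv1, hv2⟩, hvb, ⟨hp1, hp2⟩, hp3, hp4⟩ := hv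
    simp only [mem_union, mem_Icc, mem_singleton, mem_image]
    by_cases c1 : s + v ≤ y
    · left; omega
    by_cases c2 : Nat.dist s v ≤ y
    · right; left
      rw [Nat.dist] at c2
      omega
    by_cases c3 : s' + v ≤ y
    · left; omega
    by_cases c4 : Nat.dist s' v ≤ y
    · right; right; left
      rw [Nat.dist] at c4
      omega
    right; right; right
    have hveq : b + W * (v / W) = v := by
      rw [← hvb]
      exact Nat.mod_add_div v W
    by_cases c5 : v / W = 0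
    · left
      rw [c5] at hveq
      omega
    right
    refine ⟨v / W, ?_, hveq⟩
    rw [hSf, mem_filter, mem_Icc]
    refine ⟨⟨Nat.one_le_iff_ne_zero.2 c5, Nat.div_le_div_right hv2⟩, ?_⟩
    intro p hp hq
    obtain ⟨_, hq2⟩ := hq
    rw [hveq] at hq2
    unfold TT at hq2
    rw [mem_insert, mem_insert, mem_insert, mem_singleton] at hq2
    rcases hq2 with h | h | h | h
    · exact not_dvd_of_prime_gt hp2 (by omega) hp (cast_sub_eq s v p h)
    · apply not_dvd_of_prime_gt hp1 (by omega) hp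
      rw [← ZMod.natCast_eq_zero_iff]
      push_cast
      rw [h]
      ring
    · exact not_dvd_of_prime_gt hp4 (by omega) hp (cast_sub_eq s' v p h)
    · apply not_dvd_of_prime_gt hp3 (by omega) hp
      rw [← ZMod.natCast_eq_zero_iff]
      push_cast
      rw [h]
      ring
  have hcard : (({v ∈ Icc 1 M | v % W = b ∧ pr s v ∧ pr s' v} : Finset ℕ).card) ≤
      y + ((2 * y + 1) + ((2 * y + 1) + (1 + Sf.card))) := by
    refine (card_le_card hsub).trans ?_
    refine (card_union_le _ _).trans (add_le_add (by rw [Nat.card_Icc]; omega) ?_)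
    refine (card_union_le _ _).trans (add_le_add (by rw [Nat.card_Icc]; omega) ?_)
    refine (card_union_le _ _).trans (add_le_add (by rw [Nat.card_Icc]; omega) ?_)
    refine (card_union_le _ _).trans (add_le_add (by rw [card_singleton]) card_image_le)
  have hcard' : ((({v ∈ Icc 1 M | v % W = b ∧ pr s v ∧ pr s' v} : Finset ℕ).card : ℕ) : ℝ) ≤
      5 * y + 3 + Sf.card := by
    have : ((({v ∈ Icc 1 M | v % W = b ∧ pr s v ∧ pr s' v} : Finset ℕ).card : ℕ) : ℝ) ≤
      ((y + ((2 * y + 1) + ((2 * y + 1) + (1 + Sf.card))) : ℕ) : ℝ) := by exact_mod_cast hcard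
    push_cast at this
    linarith
  have hsq1 : 1 ≤ √(M : ℝ) := by
    rw [Real.one_le_sqrt]
    exact_mod_cast (by omega : 1 ≤ M)
  have hMW : ((M / W : ℕ) : ℝ) ≤ (M : ℝ) / W := Nat.cast_div_le
  have hLM : 0 < Real.log M := Real.log_pos (by exact_mod_cast (by omega : 1 < M))
  have hLw : 0 ≤ Real.log w := Real.log_nonneg (by exact_mod_cast (by omega : 1 ≤ w))
  have hLy : 0 < Real.log y := lt_of_lt_of_le (by positivity) hy2
  have hratio : Real.log w / Real.log y ≤ (4 * K) * (Real.log w / Real.log M) := by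
    rw [div_le_iff₀ hLy]
    calc Real.log w = (4 * K) * (Real.log w / Real.log M) * (Real.log M / (4 * K)) := by field_simp
      _ ≤ _ := mul_le_mul_of_nonneg_left hy2 (by positivity)
  have hP' : P ≤ C * ((4 * K) ^ 4 * (Real.log w / Real.log M) ^ 4) * GG w s s' := by
    refine hP.trans ?_
    apply mul_le_mul_of_nonneg_right _ (GG_nonneg _ _ _)
    apply mul_le_mul_of_nonneg_left _ (by linarith)
    rw [← mul_pow]
    exact pow_le_pow_left₀ (div_nonneg hLw hLy.le) hratio 4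
  have hfin : ((M / W : ℕ) : ℝ) * P ≤ (M : ℝ) / W * (C * ((4 * K) ^ 4 * (Real.log w / Real.log M) ^ 4) * GG w s s') :=
    mul_le_mul hMW hP' hP0 (by positivity)
  calc ((({v ∈ Icc 1 M | v % W = b ∧ pr s v ∧ pr s' v} : Finset ℕ).card : ℕ) : ℝ) ≤ 5 * y + 3 + Sf.card := hcard'
    _ ≤ 5 * √(M : ℝ) + 3 * √(M : ℝ) + (2 * ((M : ℝ) / W * (C * ((4 * K) ^ 4 * (Real.log w / Real.log M) ^ 4) * GG w s s')) + √(M : ℝ)) := by
        linarith
    _ = 2 * C * (4 * K) ^ 4 * ((M : ℝ) / W) * (Real.log w / Real.log M) ^ 4 * GG w s s' + 9 * √(M : ℝ) := by ring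
    _ ≤ _ := by linarith

end Pool.Agent.L0h44.AS
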