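import Pool.Agent.L0h44.AS.Mom
import Pool.Agent.H373R2.T7.EnergyDef

set_option autoImplicit false

/-! A family of small additive energy in residue classes. -/

namespace Pool.Agent.L0h44.AS

open Finset
open Pool.Agent.H373R2.T7 (energy)

/-- the indices of the members of the family in `[1, N]` -/
def T0 (Q N : ℕ) (s : ℕ → ℤ) : Finset ℕ := (Icc 1 Q).filter (fun m => 1 ≤ s m ∧ s m ≤ N)

lemma V_card (P D : ℕ) (hD : 1 ≤ D) (e : ℤ) :
    ((Icc (0 : ℤ) P).filter (fun t => (D : ℤ) ∣ t + e)).card ≤ P / D + 1 := by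
  classical
  rw [← card_range (P / D + 1)]
  have hD0 : (0 : ℤ) < D := by exact_mod_cast hD
  apply card_le_card_of_injOn (fun t => (t / (D : ℤ)).toNat)
  · intro t ht
    rw [mem_coe, mem_filter, mem_Icc] at ht
    rw [mem_coe, mem_range]
    have h1 : t / (D : ℤ) ≤ (P : ℤ) / D := Int.ediv_le_ediv hD0 ht.1.2
    have h2 : ((P / D : ℕ) : ℤ) = (P : ℤ) / D := by push_cast; rfl
    have h3 : (t / (D : ℤ)).toNat ≤ P / D := by
      rw [Int.toNat_le, h2]
      exact h1
    exact Nat.lt_succ_of_le h3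
  · intro t ht t' ht' h
    rw [mem_coe, mem_filter, mem_Icc] at ht ht'
    simp only at h
    have h1 : 0 ≤ t / (D : ℤ) := Int.ediv_nonneg ht.1.1 hD0.le
    have h2 : 0 ≤ t' / (D : ℤ) := Int.ediv_nonneg ht'.1.1 hD0.le
    have h3 : t / (D : ℤ) = t' / (D : ℤ) := by omega
    have h4 : (D : ℤ) ∣ t - t' := by
      have := dvd_sub ht.2 ht'.2
      simpa using this
    have h5 : t % (D : ℤ) = t' % (D : ℤ) := Int.emod_eq_emod_iff_emod_sub_eq_zero.2 (Int.emod_eq_zero_of_dvd h4)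
    have e1 := Int.emod_add_mul_ediv t (D : ℤ)
    have e2 := Int.emod_add_mul_ediv t' (D : ℤ)
    rw [h3, h5] at e1
    linarith

theorem class_energy (p Q N D : ℕ) (s : ℕ → ℤ) (hD : 1 ≤ D) (c : ℤ) :
    ((T0 Q N s).filter (fun m => (D : ℤ) ∣ s m + c)).card ^ (2 * p) ≤ (p * N / D + 1) * energy p Q s := by
  classical
  set T := (T0 Q N s).filter (fun m => (D : ℤ) ∣ s m + c) with hT
  set F := Fintype.piFinset (fun _ : Fin p => T) with hF
  set V : Finset ℤ := (Icc (0 : ℤ) ((p * N : ℕ) : ℤ)).filter (fun t => (D : ℤ) ∣ t + p * c) with hV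
  have hTm : ∀ m ∈ T, (1 ≤ m ∧ m ≤ Q) ∧ (1 ≤ s m ∧ s m ≤ N) ∧ (D : ℤ) ∣ s m + c := by
    intro m hm
    rw [hT, mem_filter, T0, mem_filter, mem_Icc] at hm
    exact ⟨hm.1.1, hm.1.2, hm.2⟩
  have hmaps : ∀ v ∈ F, (∑ i, s (v i)) ∈ V := by
    intro v hv
    rw [hF, Fintype.mem_piFinset] at hv
    rw [hV, mem_filter, mem_Icc]
    refine ⟨⟨sum_nonneg (fun i _ => by have := (hTm _ (hv i)).2.1.1; omega), ?_⟩, ?_⟩
    · calc ∑ i, s (v i) ≤ ∑ _i : Fin p, (N : ℤ) := sum_le_sum (fun i _ => (hTm _ (hv i)).2.1.2)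
        _ = ((p * N : ℕ) : ℤ) := by rw [sum_const, card_univ, Fintype.card_fin]; push_cast; simp
    · have h1 : ∑ i, s (v i) + p * c = ∑ i, (s (v i) + c) := by
        rw [sum_add_distrib, sum_const, card_univ, Fintype.card_fin]
        simp
      rw [h1]
      exact dvd_sum (fun i _ => (hTm _ (hv i)).2.2)
  have hFc : F.card = T.card ^ p := by
    rw [hF, Fintype.card_piFinset, prod_const, card_univ, Fintype.card_fin]
  have h1 : F.card = ∑ t ∈ V, (F.filter (fun v => ∑ i, s (v i) = t)).card :=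
    card_eq_sum_card_fiberwise hmaps
  have h2 : ((F.card : ℕ) : ℝ) ^ 2 ≤ V.card * ∑ t ∈ V, ((F.filter (fun v => ∑ i, s (v i) = t)).card : ℝ) ^ 2 := by
    rw [h1]
    push_cast
    exact sq_sum_le_card_mul_sum_sq
  have h3 : ∑ t ∈ V, (F.filter (fun v => ∑ i, s (v i) = t)).card ^ 2 ≤ energy p Q s := by
    unfold energy
    have e1 : ∀ t ∈ V, (F.filter (fun v => ∑ i, s (v i) = t)).card ^ 2 =
        (((F ×ˢ F).filter (fun q => ∑ i, s (q.1 i) = ∑ i, s (q.2 i))).filter (fun q => ∑ i, s (q.1 i) = t)).card := by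
      intro t _
      rw [sq, ← card_product]
      congr 1
      ext ⟨v, v'⟩
      simp only [mem_product, mem_filter]
      constructor
      · rintro ⟨⟨a, b⟩, c', d⟩; exact ⟨⟨⟨a, c'⟩, b.trans d.symm⟩, b⟩
      · rintro ⟨⟨⟨a, c'⟩, d⟩, b⟩; exact ⟨⟨a, b⟩, c', d.symm.trans b⟩
    rw [sum_congr rfl e1, ← card_eq_sum_card_fiberwise]
    · apply card_le_card
      intro q hq
      rw [mem_filter, mem_product] at hq ⊢
      refine ⟨⟨?_, ?_⟩, hq.2⟩
      · rw [Fintype.mem_piFinset]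
        intro i
        have := hq.1.1
        rw [hF, Fintype.mem_piFinset] at this
        exact mem_Icc.2 (hTm _ (this i)).1
      · rw [Fintype.mem_piFinset]
        intro i
        have := hq.1.2
        rw [hF, Fintype.mem_piFinset] at this
        exact mem_Icc.2 (hTm _ (this i)).1
    · intro q hq
      rw [mem_coe, mem_filter, mem_product] at hq
      exact hmaps _ hq.1.1
  have h4 : V.card ≤ p * N / D + 1 := V_card (p * N) D hD (p * c)
  have h5 : F.card ^ 2 ≤ (p * N / D + 1) * energy p Q s := by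
    have h6 : ((F.card ^ 2 : ℕ) : ℝ) ≤ (((p * N / D + 1) * energy p Q s : ℕ) : ℝ) := by
      push_cast
      refine h2.trans ?_
      have h7 : (∑ t ∈ V, ((F.filter (fun v => ∑ i, s (v i) = t)).card : ℝ) ^ 2) ≤ (energy p Q s : ℝ) := by
        exact_mod_cast h3
      have h8 : (V.card : ℝ) ≤ ((p * N / D + 1 : ℕ) : ℝ) := by exact_mod_cast h4
      push_cast at h8
      exact mul_le_mul h8 h7 (sum_nonneg (fun _ _ => by positivity)) (by positivity)
    exact_mod_cast h6
  rw [hFc, ← pow_mul, mul_comm p 2] at h5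
  exact h5

end Pool.Agent.L0h44.AS
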