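import Pool.Agent.L0h44.AS.TF9

set_option autoImplicit false

/-! The values of a polynomial: the lower bound is sharp. -/

namespace Pool.Agent.L0h44.AS

open Finset Polynomial
open Pool.Agent.H373R2.T7 (pz Vz mem_pz Vz_pos crt_card)

/-- the allowed classes -/
def OK (P0 : ℕ) (v : ℤ) (p a : ℕ) : Prop := P0 ≤ p → ((a : ZMod p) ≠ (v : ZMod p) ∧ (a : ZMod p) ≠ -(v : ZMod p))

lemma OK_card (P0 : ℕ) (hP0 : 3 ≤ P0) : ∃ C : ℝ, 1 ≤ C ∧ ∀ (w : ℕ) (v : ℤ), 2 ≤ w → (∀ p ∈ pz w, P0 ≤ p → ¬ (p : ℤ) ∣ v) →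
    ∀ S : Finset ℕ, S ⊆ range (PW w) → (∀ n ∈ S, ∀ p ∈ pz w, OK P0 v p n) → (S.card : ℝ) ≤ C * PW w / Real.log w ^ 2 := by
  classical
  obtain ⟨c, C, hc, hC, hV⟩ := Vz_bounds
  refine ⟨max 1 (4 ^ P0 * C ^ 2), le_max_left _ _, ?_⟩
  intro w v hw hv S hS hS2
  have hLw : 0 < Real.log w := Real.log_pos (by exact_mod_cast (by omega : 1 < w))
  have h0 : S ⊆ (range (∏ p ∈ pz w, p)).filter (fun n => ∀ p ∈ pz w, OK P0 v p (n % p)) := by
    intro b hb
    rw [mem_filter]
    refine ⟨hS hb, ?_⟩
    intro p hp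
    have h1 := hS2 b hb p hp
    unfold OK at h1 ⊢
    rw [ZMod.natCast_mod]
    exact h1
  have h1 : (S.card : ℝ) ≤ ∏ p ∈ pz w, (((range p).filter (fun a => OK P0 v p a)).card : ℝ) := by
    have h2 := card_le_card h0
    rw [crt_card (OK P0 v) (pz w) (fun p hp => (mem_pz.1 hp).2)] at h2
    exact_mod_cast h2
  have hloc : ∀ p ∈ pz w, (((range p).filter (fun a => OK P0 v p a)).card : ℝ) ≤
      (p : ℝ) * (1 - 1 / (p : ℝ)) ^ 2 * (if p < P0 then 4 else 1) := by
    intro p hp
    have hpp := (mem_pz.1 hp).2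
    have : Fact p.Prime := ⟨hpp⟩
    have : NeZero p := ⟨hpp.pos.ne'⟩
    have hp2 : (2 : ℝ) ≤ p := by exact_mod_cast hpp.two_le
    have hp0 : (0 : ℝ) < p := by linarith
    have hx1 : 1 / (p : ℝ) ≤ 1 / 2 := by rw [div_le_div_iff₀ hp0 (by norm_num)]; linarith
    by_cases hP : p < P0
    · rw [if_pos hP]
      have h2 : ((range p).filter (fun a => OK P0 v p a)).card ≤ p := by
        refine (card_filter_le _ _).trans ?_
        rw [card_range]
      have h3 : (((range p).filter (fun a => OK P0 v p a)).card : ℝ) ≤ p := by exact_mod_cast h2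
      refine h3.trans ?_
      have h4 : 1 / 4 ≤ (1 - 1 / (p : ℝ)) ^ 2 := by nlinarith
      nlinarith
    · rw [if_neg hP, mul_one]
      have hcardA : ((range p).filter (fun a => OK P0 v p a)).card ≤ p - 2 := by
        have hne : (v : ZMod p) ≠ -(v : ZMod p) := by
          intro h
          have h3 : ((2 * v : ℤ) : ZMod p) = 0 := by
            push_cast
            linear_combination h
          rw [ZMod.intCast_zmod_eq_zero_iff_dvd] at h3
          rcases (Int.Prime.dvd_mul' hpp h3) with h4 | h4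
          · have h5 := Int.le_of_dvd (by norm_num) h4
            omega
          · exact hv p hp (by omega) h4
        have e1 : ((range p).filter (fun a => OK P0 v p a)).card ≤ (({(v : ZMod p), -(v : ZMod p)} : Finset (ZMod p))ᶜ).card := by
          apply card_le_card_of_injOn (fun a : ℕ => (a : ZMod p))
          · intro a ha
            rw [mem_coe, mem_filter] at ha
            rw [mem_coe, mem_compl, mem_insert, mem_singleton]
            have h5 := ha.2 (by omega)
            rintro (h | h)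
            · exact h5.1 h
            · exact h5.2 h
          · intro a ha a' ha' h
            rw [mem_coe, mem_filter, mem_range] at ha ha'
            simp only at h
            rw [ZMod.natCast_eq_natCast_iff', Nat.mod_eq_of_lt ha.1, Nat.mod_eq_of_lt ha'.1] at h
            exact h
        rw [card_compl, ZMod.card, card_pair hne] at e1
        exact e1
      have h4 : ((p - 2 : ℕ) : ℝ) = (p : ℝ) - 2 := by
        rw [Nat.cast_sub hpp.two_le]; norm_num
      have h5 : (p : ℝ) * (1 - 1 / (p : ℝ)) ^ 2 = p - 2 + 1 / p := by field_simp; ring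
      have h6 : (((range p).filter (fun a => OK P0 v p a)).card : ℝ) ≤ ((p - 2 : ℕ) : ℝ) := by exact_mod_cast hcardA
      rw [h5]
      rw [h4] at h6
      have : 0 < 1 / (p : ℝ) := by positivity
      linarith
  refine h1.trans ((prod_le_prod (fun p _ => by positivity) hloc).trans ?_)
  rw [prod_mul_distrib, prod_mul_distrib, prod_pow]
  have hPW : ∏ p ∈ pz w, (p : ℝ) = PW w := by unfold PW; push_cast; rfl
  have hVz : ∏ p ∈ pz w, (1 - 1 / (p : ℝ)) = Vz w := rfl
  rw [hPW, hVz]
  have hmain : ∏ p ∈ pz w, (if p < P0 then (4 : ℝ) else 1) ≤ 4 ^ P0 := by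
    rw [← prod_filter, prod_const]
    apply pow_le_pow_right₀ (by norm_num)
    have h2 : (pz w).filter (fun p => p < P0) ⊆ range P0 := by
      intro p hp
      rw [mem_filter] at hp
      exact mem_range.2 hp.2
    have h3 := card_le_card h2
    rwa [card_range] at h3
  have hV2 := (hV w hw).2
  have hV0 := Vz_pos w
  have hVsq : Vz w ^ 2 ≤ C ^ 2 / Real.log w ^ 2 := by
    rw [← div_pow]
    exact pow_le_pow_left₀ hV0.le hV2 2
  have hpw : (0 : ℝ) < PW w := by exact_mod_cast PW_pos w
  calc (PW w : ℝ) * Vz w ^ 2 * ∏ p ∈ pz w, (if p < P0 then (4 : ℝ) else 1) ≤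
        (PW w : ℝ) * (C ^ 2 / Real.log w ^ 2) * 4 ^ P0 := by
        apply mul_le_mul _ hmain
        · apply prod_nonneg
          intro p _
          split_ifs <;> norm_num
        · positivity
        · exact mul_le_mul_of_nonneg_left hVsq hpw.le
    _ = (4 ^ P0 * C ^ 2) * PW w / Real.log w ^ 2 := by ring
    _ ≤ _ := by
        apply div_le_div_of_nonneg_right _ (by positivity)
        exact mul_le_mul_of_nonneg_right (le_max_right _ _) hpw.le

lemma ev_sharp (d : ℕ) (hd : 1 ≤ d) (A B : ℕ) : ∃ N0 : ℕ, ∀ N : ℕ, N0 ≤ N → 3 ≤ N ∧ 1 ≤ Real.log N ∧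
    Real.log N ^ B ≤ N ∧ A * Real.log N ^ B ≤ (N : ℝ) ^ (1 / (d : ℝ)) := by
  have hd0 : (0 : ℝ) < d := by exact_mod_cast hd
  have h3 : ∀ᶠ x : ℝ in Filter.atTop, A * Real.log x ^ B ≤ x ^ (1 / (d : ℝ)) := by
    have h4 := (isLittleO_log_rpow_rpow_atTop (B : ℝ) (show (0 : ℝ) < 1 / (d : ℝ) by positivity)).bound (c := 1 / (A + 1)) (by positivity)
    filter_upwards [h4, Filter.eventually_ge_atTop (3 : ℝ)] with x hx hx2
    have hl : 0 ≤ Real.log x := Real.log_nonneg (by linarith)
    rw [Real.norm_of_nonneg (by positivity), Real.norm_of_nonneg (by positivity), Real.rpow_natCast, one_div, ← div_eq_inv_mul, le_div_iff₀ (by positivity)] at hx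
    have : 0 ≤ Real.log x ^ B := by positivity
    nlinarith
  have h4 : ∀ᶠ x : ℝ in Filter.atTop, Real.log x ^ B ≤ x := by
    have h4 := (Real.isLittleO_pow_log_id_atTop (n := B)).bound (c := 1) (by norm_num)
    filter_upwards [h4, Filter.eventually_ge_atTop (3 : ℝ)] with x hx hx2
    have hl : 0 ≤ Real.log x := Real.log_nonneg (by linarith)
    rwa [Real.norm_of_nonneg (by positivity), one_mul, id, Real.norm_of_nonneg (by linarith)] at hx
  have h5 : ∀ᶠ N : ℕ in Filter.atTop, 3 ≤ N ∧ 1 ≤ Real.log N ∧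
    Real.log N ^ B ≤ N ∧ A * Real.log N ^ B ≤ (N : ℝ) ^ (1 / (d : ℝ)) := by
    filter_upwards [tendsto_natCast_atTop_atTop.eventually h3, tendsto_natCast_atTop_atTop.eventually h4, Filter.eventually_ge_atTop 3,
      (Real.tendsto_log_atTop.comp tendsto_natCast_atTop_atTop).eventually_ge_atTop 1] with M a1 a2 a3 a4
    exact ⟨a3, a4, a2, a1⟩
  exact Filter.eventually_atTop.1 h5

theorem poly_sharp (f : ℤ[X]) (hd : 1 ≤ f.natDegree) (hl : 0 < f.leadingCoeff) :
    ∃ c C : ℝ, 0 < c ∧ 0 < C ∧ ∀ B : ℕ, ∃ N0 : ℕ, ∀ N : ℕ, N0 ≤ N → ∀ α : ℝ, 1 / Real.log N ^ B ≤ α → α ≤ 1 →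
    ∃ U : Finset ℕ, U ⊆ Icc 1 N ∧ (∀ x ∈ U, ∃ y : ℕ, f.eval (y : ℤ) = x) ∧
      c * (α * (N : ℝ) ^ (1 / (f.natDegree : ℝ))) ≤ U.card ∧
      ∀ V : Finset ℕ, V ⊆ Ioc N (2 * N) → (∀ n ∈ V, ∃ x ∈ U, pr x n) →
      (V.card : ℝ) ≤ C * (N / Real.log (Real.log (64 / α)) ^ 2) := by
  classical
  obtain ⟨d, hdd⟩ : ∃ d, d = f.natDegree := ⟨_, rfl⟩
  obtain ⟨P0, hP0⟩ : ∃ P0, P0 = f.natDegree + f.leadingCoeff.natAbs + 3 := ⟨_, rfl⟩
  obtain ⟨C2, hC21, hC2⟩ := OK_card P0 (by omega)
  obtain ⟨A, hA⟩ : ∃ A, A = cA f := ⟨_, rfl⟩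
  have hA1 : 1 ≤ A := by
    have h1 : (f.coeff f.natDegree).natAbs ≤ cA f := by
      unfold cA
      exact single_le_sum (f := fun i => (f.coeff i).natAbs) (fun _ _ => Nat.zero_le _) (mem_range.2 (Nat.lt_succ_self _))
    have h2 : f.coeff f.natDegree = f.leadingCoeff := rfl
    rw [h2] at h1
    omega
  have hAr : (1 : ℝ) ≤ A := by exact_mod_cast hA1
  have hd1 : 1 ≤ d := by omega
  have hdr : (1 : ℝ) ≤ d := by exact_mod_cast hd1
  set T1 : ℝ := 2 * P0 + 16 with hT1
  have hT10 : 0 ≤ (P0 : ℝ) := Nat.cast_nonneg _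
  refine ⟨1 / (4 * d * A), T1 ^ 2 + 4 * (3 * C2 + 1), by positivity, by positivity, fun B => ?_⟩
  obtain ⟨N0, hN0⟩ := ev_sharp d hd1 (8 * A * (A + 1)) B
  refine ⟨N0, fun N hN α hα hα1 => ?_⟩
  obtain ⟨hN3, hL1, hLB, hLA⟩ := hN0 N hN
  have hNr : (3 : ℝ) ≤ N := by exact_mod_cast hN3
  have hNpos : (0 : ℝ) < N := by linarith
  have hα0 : 0 < α := lt_of_lt_of_le (by positivity) hα
  have hαL : 1 / α ≤ Real.log N ^ B := by
    rw [one_div_le hα0 (by positivity)]
    exact hα
  have hαN : 1 / α ≤ N := hαL.trans hLB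
  rw [← hdd]
  set ρ : ℝ := (N : ℝ) ^ (1 / (d : ℝ)) with hρ
  have hρd : ρ ^ d = N := rpow_d d N hd1
  have hρ0 : 0 ≤ ρ := by positivity
  set a := Real.log (1 / α) with ha
  have hlog64 : Real.log 64 = 6 * Real.log 2 := by
    rw [show (64 : ℝ) = 2 ^ 6 by norm_num, Real.log_pow]; push_cast; rfl
  have hlog4 : Real.log 4 = 2 * Real.log 2 := by
    rw [show (4 : ℝ) = 2 ^ 2 by norm_num, Real.log_pow]; push_cast; rfl
  have hl2 := Real.log_two_lt_d9
  have hl2' := Real.log_two_gt_d9
  have hta : Real.log (64 / α) = 6 * Real.log 2 + a := by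
    rw [ha, ← hlog64, ← Real.log_mul (by norm_num) (by positivity)]
    congr 1
    ring
  have ha0 : 0 ≤ a := Real.log_nonneg (by rw [one_le_div hα0]; exact hα1)
  set t := Real.log (64 / α) with ht
  have ht1 : 4 ≤ t := by rw [hta]; linarith
  have hlt1 : 1 ≤ Real.log t := by
    rw [Real.le_log_iff_exp_le (by linarith)]
    have := Real.exp_one_lt_d9
    linarith
  have hNq : 0 ≤ (N : ℝ) / Real.log t ^ 2 := by positivity
  obtain ⟨w, hw⟩ : ∃ w : ℕ, w = ⌊a / Real.log 4⌋₊ := ⟨_, rfl⟩
  have hl40 : 0 < Real.log 4 := by rw [hlog4]; linarith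
  have hw1 : (w : ℝ) ≤ a / Real.log 4 := by rw [hw]; exact Nat.floor_le (by positivity)
  have hw2 : a / Real.log 4 < w + 1 := by rw [hw]; exact Nat.lt_floor_add_one _
  have h4w : (4 : ℝ) ^ w ≤ 1 / α := by
    rw [← Real.log_le_log_iff (by positivity) (by positivity), Real.log_pow]
    rw [le_div_iff₀ hl40] at hw1
    exact hw1
  set W := PW w with hW
  have hWpos : 0 < W := PW_pos w
  have hWr : (0 : ℝ) < W := by exact_mod_cast hWpos
  have hW4 : (W : ℝ) ≤ 4 ^ w := by
    refine (PW_le w).trans (le_of_eq ?_)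
    rw [mul_comm, Real.exp_mul, Real.exp_log (by norm_num), Real.rpow_natCast]
  have hWα : (W : ℝ) ≤ 1 / α := hW4.trans h4w
  have hWN : (W : ℝ) ≤ N := hWα.trans hαN
  have hαW : α ≤ 1 / W := by
    rwa [le_div_iff₀ hWr, mul_comm, ← le_div_iff₀ hα0]
  obtain ⟨b, hbW, hb⟩ := good_class f P0 w (by omega) (by omega) hl
  obtain ⟨Y, hY⟩ : ∃ Y : ℕ, Y = ⌊ρ / A⌋₊ := ⟨_, rfl⟩
  have hY1 : (Y : ℝ) ≤ ρ / A := by rw [hY]; exact Nat.floor_le (by positivity)
  have hY2 : ρ / A < Y + 1 := by rw [hY]; exact Nat.lt_floor_add_one _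
  -- `ρ` is large
  have hρW : 8 * A * (A + 1) * W ≤ ρ := by
    push_cast at hLA
    calc 8 * (A : ℝ) * (A + 1) * W ≤ 8 * A * (A + 1) * Real.log N ^ B := by
          apply mul_le_mul_of_nonneg_left (hWα.trans hαL) (by positivity)
      _ ≤ ρ := hLA
  have hYW : 8 * (A + 1) * (W : ℝ) ≤ ρ / A := by
    rw [le_div_iff₀ (by linarith)]
    linarith
  have hW1 : (1 : ℝ) ≤ W := by exact_mod_cast hWpos
  have hbY : b ≤ Y := by
    have h1 : (b : ℝ) < W := by exact_mod_cast hbW
    have h3 : (W : ℝ) ≤ (A + 1) * W := le_mul_of_one_le_left hWr.le (by linarith)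
    have h4 : 8 * ((A + 1) * (W : ℝ)) ≤ ρ / A := by linarith
    have h2 : (b : ℝ) ≤ Y := by linarith
    exact_mod_cast h2
  set J : Finset ℕ := (Icc (2 * A) ((Y - b) / W)).image (fun k => b + W * k) with hJ
  have hJm : ∀ y ∈ J, 2 * A ≤ y ∧ y ≤ Y ∧ (W : ℤ) ∣ (y : ℤ) - b := by
    intro y hy
    rw [hJ, mem_image] at hy
    obtain ⟨k, hk, rfl⟩ := hy
    rw [mem_Icc] at hk
    refine ⟨?_, ?_, ?_⟩
    · have : k ≤ W * k := Nat.le_mul_of_pos_left k hWpos
      omega
    · have h1 : W * k ≤ Y - b := by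
        calc W * k ≤ W * ((Y - b) / W) := Nat.mul_le_mul_left _ hk.2
          _ ≤ Y - b := Nat.mul_div_le _ _
      omega
    · refine ⟨k, ?_⟩
      push_cast
      ring
  have hJc : α * (ρ / A) / 2 ≤ J.card := by
    have h1 : J.card = (Y - b) / W + 1 - 2 * A := by
      rw [hJ, card_image_of_injective, Nat.card_Icc]
      intro x y h
      simp only at h
      have h2 : W * x = W * y := by omega
      exact Nat.eq_of_mul_eq_mul_left hWpos h2
    have h2 : (Y - b) < W * ((Y - b) / W + 1) := by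
      have := Nat.lt_mul_div_succ (Y - b) hWpos
      exact this
    have h3 : (Y : ℝ) - b < W * (((Y - b) / W : ℕ) + 1) := by
      have h4 : ((Y - b : ℕ) : ℝ) < ((W * ((Y - b) / W + 1) : ℕ) : ℝ) := by exact_mod_cast h2
      rw [Nat.cast_sub hbY] at h4
      push_cast at h4
      exact h4
    have h4 : (b : ℝ) < W := by exact_mod_cast hbW
    have h5 : (((Y - b) / W : ℕ) : ℝ) + 1 - 2 * A ≤ J.card := by
      rw [h1]
      have h6 : (Y - b) / W + 1 ≤ ((Y - b) / W + 1 - 2 * A) + 2 * A := by omega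
      have h7 : (((Y - b) / W + 1 : ℕ) : ℝ) ≤ ((((Y - b) / W + 1 - 2 * A) + 2 * A : ℕ) : ℝ) := by exact_mod_cast h6
      push_cast at h7 ⊢
      linarith
    have h8 : ρ / A / W - 2 - 2 * A ≤ J.card := by
      refine le_trans ?_ h5
      have h9 : ρ / A / W ≤ (((Y - b) / W : ℕ) : ℝ) + 1 + 2 := by
        rw [div_le_iff₀ hWr]
        have e1 : ((((Y - b) / W : ℕ) : ℝ) + 1 + 2) * W = W * (((Y - b) / W : ℕ) + 1) + 2 * W := by ring
        rw [e1]
        linarith
      linarith
    have h10 : 2 * (2 * A + 2) ≤ ρ / A / W := by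
      rw [le_div_iff₀ hWr]
      have e1 : 2 * (2 * (A : ℝ) + 2) * W = 4 * ((A + 1) * W) := by ring
      have e2 : 8 * ((A + 1) * (W : ℝ)) ≤ ρ / A := by linarith
      have e3 : 0 ≤ (A + 1) * (W : ℝ) := by positivity
      rw [e1]
      linarith
    calc α * (ρ / A) / 2 ≤ 1 / W * (ρ / A) / 2 := by
          apply div_le_div_of_nonneg_right _ (by norm_num)
          exact mul_le_mul_of_nonneg_right hαW (by positivity)
      _ = ρ / A / W / 2 := by ring
      _ ≤ ρ / A / W - 2 - 2 * A := by linarith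
      _ ≤ _ := h8
  have hval : ∀ y ∈ J, 1 ≤ f.eval (y : ℤ) ∧ f.eval (y : ℤ) ≤ N := by
    intro y hy
    obtain ⟨h1, h2, _⟩ := hJm y hy
    have hy1 : 1 ≤ y := by omega
    constructor
    · have h3 := eval_low f hd hl y (by rw [← hA]; exact h1)
      have h4 : (1 : ℤ) ≤ (y : ℤ) ^ f.natDegree := one_le_pow₀ (by exact_mod_cast hy1)
      omega
    · have h3 := (le_abs_self _).trans (eval_up f y hy1)
      rw [← hA, ← hdd] at h3
      have h4 : (A : ℝ) * (y : ℝ) ^ d ≤ N := by
        have h5 : (y : ℝ) ≤ ρ / A := le_trans (by exact_mod_cast h2) hY1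
        calc (A : ℝ) * (y : ℝ) ^ d ≤ A * (ρ / A) ^ d := by
              apply mul_le_mul_of_nonneg_left _ (by linarith)
              exact pow_le_pow_left₀ (by positivity) h5 _
          _ = N * (A / (A : ℝ) ^ d) := by rw [div_pow, hρd]; ring
          _ ≤ N * 1 := by
              apply mul_le_mul_of_nonneg_left _ hNpos.le
              rw [div_le_one (by positivity)]
              exact le_self_pow₀ hAr (by omega)
          _ = N := mul_one _
      have h5 : (A : ℤ) * (y : ℤ) ^ d ≤ N := by exact_mod_cast h4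
      exact h3.trans h5
  refine ⟨J.image (fun y : ℕ => (f.eval (y : ℤ)).toNat), ?_, ?_, ?_, ?_⟩
  · intro x hx
    rw [mem_image] at hx
    obtain ⟨y, hy, rfl⟩ := hx
    have := hval y hy
    rw [mem_Icc]
    omega
  · intro x hx
    rw [mem_image] at hx
    obtain ⟨y, hy, rfl⟩ := hx
    have := hval y hy
    exact ⟨y, by omega⟩
  · have h1 : J.card ≤ d * (J.image (fun y : ℕ => (f.eval (y : ℤ)).toNat)).card := by
      apply card_le_mul_card_image
      intro x hx
      rw [mem_image] at hx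
      obtain ⟨y0, hy0, hx0⟩ := hx
      have hv0 := hval y0 hy0
      set F : ℤ[X] := f - C (x : ℤ) with hF
      have hF1 : F.natDegree = f.natDegree := by rw [hF, natDegree_sub_C]
      have hF0 : F ≠ 0 := by
        intro h
        rw [h, natDegree_zero] at hF1
        omega
      have h2 : (J.filter (fun y : ℕ => (f.eval (y : ℤ)).toNat = x)).card ≤ F.roots.toFinset.card := by
        apply card_le_card_of_injOn (fun y : ℕ => (y : ℤ))
        · intro y hy
          rw [mem_coe, mem_filter] at hy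
          rw [mem_coe, Multiset.mem_toFinset, mem_roots hF0, IsRoot.def, hF, eval_sub, eval_C]
          have h3 := hval y hy.1
          change f.eval (y : ℤ) - (x : ℤ) = 0
          omega
        · intro y _ y' _ h
          simpa using h
      refine h2.trans ((Multiset.toFinset_card_le _).trans ((card_roots' F).trans ?_))
      omega
    have h2 : (J.card : ℝ) ≤ d * ((J.image (fun y : ℕ => (f.eval (y : ℤ)).toNat)).card : ℝ) := by exact_mod_cast h1
    calc 1 / (4 * (d : ℝ) * A) * (α * ρ) = (α * (ρ / A) / 2) / d / 2 := by field_simp; ring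
      _ ≤ (J.card : ℝ) / d / 2 := by
          apply div_le_div_of_nonneg_right _ (by norm_num)
          exact div_le_div_of_nonneg_right hJc (by linarith)
      _ ≤ (J.card : ℝ) / d := by
          have : 0 ≤ (J.card : ℝ) / d := by positivity
          linarith
      _ ≤ _ := by
          rw [div_le_iff₀ (by linarith)]
          linarith
  · intro V hV hsol
    have hVN : (V.card : ℝ) ≤ N := by
      have := card_le_card hV
      rw [Nat.card_Ioc] at this
      exact_mod_cast (by omega : V.card ≤ N)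
    have htw : t ≤ 2 * w + 8 := by
      rw [div_lt_iff₀ hl40, hlog4] at hw2
      rw [hta]
      have : (0 : ℝ) ≤ w := Nat.cast_nonneg _
      nlinarith
    by_cases hcase : w < P0 + 4
    · -- trivial case
      have hw' : (w : ℝ) < P0 + 4 := by exact_mod_cast hcase
      have h2 : Real.log t ≤ T1 := by
        have h3 := Real.log_le_sub_one_of_pos (show 0 < t by linarith)
        rw [hT1]
        linarith
      have h3 : (N : ℝ) ≤ T1 ^ 2 * (N / Real.log t ^ 2) := by
        rw [← mul_div_assoc, le_div_iff₀ (by positivity)]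
        have h4 : Real.log t ^ 2 ≤ T1 ^ 2 := pow_le_pow_left₀ (by linarith) h2 2
        nlinarith
      calc (V.card : ℝ) ≤ N := hVN
        _ ≤ T1 ^ 2 * (N / Real.log t ^ 2) := h3
        _ ≤ _ := by
            apply mul_le_mul_of_nonneg_right _ hNq
            linarith
    · push Not at hcase
      have hw4 : 4 ≤ w := by omega
      have hw4r : (4 : ℝ) ≤ w := by exact_mod_cast hw4
      set v : ℤ := f.eval (b : ℤ) with hv
      set S := (range W).filter (fun r => ∀ p ∈ pz w, OK P0 v p r) with hS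
      have hSc := hC2 w v (by omega) hb S (filter_subset _ _) (fun r hr => (mem_filter.1 hr).2)
      have hsub : V ⊆ Ioc N (N + w) ∪ S.biUnion (fun r => (Icc 1 (2 * N)).filter (fun n => n % W = r)) := by
        intro n hn
        have hnI := mem_Ioc.1 (hV hn)
        rw [mem_union]
        by_cases hnw : n ≤ N + w
        · left; rw [mem_Ioc]; exact ⟨hnI.1, hnw⟩
        · right
          rw [mem_biUnion]
          refine ⟨n % W, ?_, ?_⟩
          · rw [hS, mem_filter, mem_range]
            refine ⟨Nat.mod_lt _ hWpos, ?_⟩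
            intro p hp _
            have hpp := mem_pz.1 hp
            have : NeZero p := ⟨hpp.2.pos.ne'⟩
            have hpW : p ∣ W := dvd_PW hpp.2 hpp.1
            have hcast : ((n % W : ℕ) : ZMod p) = (n : ZMod p) := by
              rw [ZMod.natCast_eq_natCast_iff', Nat.mod_mod_of_dvd _ hpW]
            rw [hcast]
            obtain ⟨x, hx, hpr1, hpr2⟩ := hsol n hn
            rw [mem_image] at hx
            obtain ⟨y, hy, rfl⟩ := hx
            have hvy := hval y hy
            obtain ⟨_, _, hyb⟩ := hJm y hy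
            have hxc : (((f.eval (y : ℤ)).toNat : ℕ) : ZMod p) = (v : ZMod p) := by
              have h1 : (p : ℤ) ∣ f.eval (y : ℤ) - v :=
                ((Int.natCast_dvd_natCast.2 hpW).trans hyb).trans (sub_dvd_eval_sub _ _ _)
              have h2 : ((f.eval (y : ℤ) : ℤ) : ZMod p) = (v : ZMod p) := by
                rw [← sub_eq_zero, ← Int.cast_sub, ZMod.intCast_zmod_eq_zero_iff_dvd]
                exact h1
              rw [← h2]
              have h3 : (((f.eval (y : ℤ)).toNat : ℕ) : ℤ) = f.eval (y : ℤ) := Int.toNat_of_nonneg (by omega)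
              rw [← Int.cast_natCast, h3]
            set x := (f.eval (y : ℤ)).toNat with hxd
            have hxN : x ≤ N := by omega
            constructor
            · intro h
              have h2 := cast_sub_eq x n p (h.trans hxc.symm)
              have h3 := (Nat.prime_dvd_prime_iff_eq hpp.2 hpr2).1 h2
              rw [Nat.dist] at h3
              omega
            · intro h
              have h2 : p ∣ x + n := by
                rw [← ZMod.natCast_eq_zero_iff, Nat.cast_add, hxc, h]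
                ring
              have h3 := (Nat.prime_dvd_prime_iff_eq hpp.2 hpr1).1 h2
              omega
          · rw [mem_filter, mem_Icc]
            exact ⟨⟨by omega, hnI.2⟩, rfl⟩
      have hcard : (V.card : ℝ) ≤ w + S.card * (((2 * N : ℕ) : ℝ) / W + 1) := by
        have h1 : V.card ≤ w + ∑ b ∈ S, ((Icc 1 (2 * N)).filter (fun v => v % W = b)).card := by
          refine (card_le_card hsub).trans ((card_union_le _ _).trans (add_le_add ?_ card_biUnion_le))
          rw [Nat.card_Ioc]; omega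
        have h2 : (V.card : ℝ) ≤ w + ∑ b ∈ S, (((Icc 1 (2 * N)).filter (fun v => v % W = b)).card : ℝ) := by
          exact_mod_cast h1
        refine h2.trans (add_le_add le_rfl ?_)
        calc ∑ b ∈ S, (((Icc 1 (2 * N)).filter (fun v => v % W = b)).card : ℝ) ≤ ∑ b ∈ S, (((2 * N : ℕ) : ℝ) / W + 1) :=
              sum_le_sum (fun b _ => class_size w (2 * N) b)
          _ = _ := by rw [sum_const, nsmul_eq_mul]
      have hlw0 : 0 < Real.log w := Real.log_pos (by linarith)
      have hwt : Real.log t ≤ 2 * Real.log w := by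
        have h1 : t ≤ (w : ℝ) ^ 2 := by nlinarith
        calc Real.log t ≤ Real.log ((w : ℝ) ^ 2) := Real.log_le_log (by linarith) h1
          _ = 2 * Real.log w := by rw [Real.log_pow]; push_cast; rfl
      have hbig : (N : ℝ) / Real.log w ^ 2 ≤ 4 * (N / Real.log t ^ 2) := by
        rw [← mul_div_assoc, div_le_div_iff₀ (by positivity) (by positivity)]
        have h1 : Real.log t ^ 2 ≤ (2 * Real.log w) ^ 2 := pow_le_pow_left₀ (by linarith) hwt 2
        nlinarith
      have hwN : (w : ℝ) ≤ N / Real.log w ^ 2 := by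
        rw [le_div_iff₀ (by positivity)]
        have h1 : Real.log w ≤ w := by
          have := Real.log_le_sub_one_of_pos (show (0 : ℝ) < w by linarith)
          linarith
        have h2 : (w : ℝ) ^ 3 ≤ 4 ^ w := by exact_mod_cast cube_le w
        calc (w : ℝ) * Real.log w ^ 2 ≤ w * (w : ℝ) ^ 2 := by
              apply mul_le_mul_of_nonneg_left _ (by linarith)
              exact pow_le_pow_left₀ hlw0.le h1 2
          _ = (w : ℝ) ^ 3 := by ring
          _ ≤ N := h2.trans (h4w.trans hαN)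
      have hS2 : S.card * (((2 * N : ℕ) : ℝ) / W + 1) ≤ 3 * C2 * (N / Real.log w ^ 2) := by
        calc S.card * (((2 * N : ℕ) : ℝ) / W + 1) ≤ (C2 * W / Real.log w ^ 2) * (((2 * N : ℕ) : ℝ) / W + 1) :=
              mul_le_mul_of_nonneg_right hSc (by positivity)
          _ = C2 / Real.log w ^ 2 * (2 * N + W) := by push_cast; field_simp
          _ ≤ C2 / Real.log w ^ 2 * (2 * N + N) := by
              apply mul_le_mul_of_nonneg_left _ (by positivity)
              linarith
          _ = _ := by ring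
      calc (V.card : ℝ) ≤ N / Real.log w ^ 2 + 3 * C2 * (N / Real.log w ^ 2) := hcard.trans (add_le_add hwN hS2)
        _ = (3 * C2 + 1) * (N / Real.log w ^ 2) := by ring
        _ ≤ (3 * C2 + 1) * (4 * (N / Real.log t ^ 2)) := mul_le_mul_of_nonneg_left hbig (by linarith)
        _ = 4 * (3 * C2 + 1) * (N / Real.log t ^ 2) := by ring
        _ ≤ _ := by
            apply mul_le_mul_of_nonneg_right _ hNq
            have : 0 ≤ T1 ^ 2 := sq_nonneg _
            linarith

end Pool.Agent.L0h44.AS
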