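import Pool.Agent.L0h44.AS.TF1

set_option autoImplicit false

/-! Moments of the local factors along a family of small additive energy. -/

namespace Pool.Agent.L0h44.AS

open Finset
open Pool.Agent.H373R2.T7 (energy)

lemma tel (θ : ℝ) (hθ : 0 < θ) (n : ℕ) (hn : 1 ≤ n) :
    θ * ((n + 1 : ℕ) : ℝ) ^ (-(1 + θ)) ≤ (n : ℝ) ^ (-θ) - ((n + 1 : ℕ) : ℝ) ^ (-θ) := by
  have ha : (0 : ℝ) < n := by exact_mod_cast hn
  have hb : (0 : ℝ) < ((n + 1 : ℕ) : ℝ) := by positivity
  set a : ℝ := (n : ℝ) with had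
  set b : ℝ := ((n + 1 : ℕ) : ℝ) with hbd
  have hba : b = a + 1 := by rw [hbd, had]; push_cast; rfl
  have h1 : a ^ (-θ) = b ^ (-θ) * (b / a) ^ θ := by
    rw [Real.div_rpow hb.le ha.le, Real.rpow_neg hb.le, Real.rpow_neg ha.le]
    have := (Real.rpow_pos_of_pos hb θ).ne'
    field_simp
  have h2 : 1 + θ * (1 / b) ≤ (b / a) ^ θ := by
    rw [Real.rpow_def_of_pos (by positivity)]
    have h3 : 1 / b ≤ Real.log (b / a) := by
      have h4 := Real.log_le_sub_one_of_pos (show 0 < a / b by positivity)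
      have h5 : Real.log (b / a) = - Real.log (a / b) := by
        rw [← Real.log_inv, inv_div]
      rw [h5]
      have h6 : a / b - 1 = - (1 / b) := by
        field_simp
        rw [hba]; ring
      linarith
    have h7 := Real.add_one_le_exp (Real.log (b / a) * θ)
    nlinarith
  have h8 : b ^ (-(1 + θ)) = b ^ (-θ) * (1 / b) := by
    rw [show -(1 + θ) = -θ + (-1) by ring, Real.rpow_add hb, Real.rpow_neg_one, one_div]
  rw [h1, h8]
  have h9 : 0 < b ^ (-θ) := Real.rpow_pos_of_pos hb _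
  nlinarith

lemma sum_rp (θ : ℝ) (hθ : 0 < θ) (w : ℕ) (hw : 1 ≤ w) (S : Finset ℕ) (hS : ∀ n ∈ S, w < n) :
    θ * ∑ n ∈ S, (n : ℝ) ^ (-(1 + θ)) ≤ (w : ℝ) ^ (-θ) := by
  obtain ⟨M, hM⟩ : ∃ M : ℕ, ∀ n ∈ S, n ≤ M := ⟨S.sup id, fun n hn => le_sup (f := id) hn⟩
  have h1 : ∀ k : ℕ, θ * ∑ n ∈ Ioc w (w + k), (n : ℝ) ^ (-(1 + θ)) ≤ (w : ℝ) ^ (-θ) - ((w + k : ℕ) : ℝ) ^ (-θ) := by
    intro k
    induction k with
    | zero => simp
    | succ k ih =>
      have h2 : Ioc w (w + (k + 1)) = insert (w + k + 1) (Ioc w (w + k)) := by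
        ext n
        rw [mem_insert, mem_Ioc, mem_Ioc]
        omega
      rw [h2, sum_insert (by rw [mem_Ioc]; omega), mul_add]
      have h3 := tel θ hθ (w + k) (by omega)
      have h4 : w + (k + 1) = w + k + 1 := by ring
      rw [h4]
      linarith
  have h2 : ∑ n ∈ S, (n : ℝ) ^ (-(1 + θ)) ≤ ∑ n ∈ Ioc w (w + M), (n : ℝ) ^ (-(1 + θ)) := by
    apply sum_le_sum_of_subset_of_nonneg
    · intro n hn
      rw [mem_Ioc]
      have := hS n hn
      have := hM n hn
      omega
    · intro n _ _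
      positivity
  have h3 := h1 M
  have h4 : 0 ≤ ((w + M : ℕ) : ℝ) ^ (-θ) := by positivity
  nlinarith

theorem mom_fam (p : ℕ) (hp : 1 ≤ p) (K : ℝ) (hK : 1 ≤ K) (j w Q N : ℕ) (hj : 1 ≤ j) (hw : (40 * p * j) ^ (2 * p) ≤ w)
    (s : ℕ → ℤ) (hE : (energy p Q s : ℝ) * N ≤ K * (Q : ℝ) ^ (2 * p)) (c : ℤ) (hc : |c| ≤ N) :
    ∑ m ∈ T0 Q N s, HH w (s m + c).natAbs ^ j ≤ 3 * ((p + 2) * K) * Q := by
  classical
  set P : Finset ℕ := ((Icc 1 (2 * N)).filter Nat.Prime).filter (fun p => w < p) with hP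
  have hPp : ∀ p ∈ P, p.Prime := fun p hp => (mem_filter.mp (mem_filter.mp hp).1).2
  have hPw : ∀ p ∈ P, w < p := fun p hp => (mem_filter.mp hp).2
  have hp0 : (0 : ℝ) < p := by exact_mod_cast hp
  have hj0 : (1 : ℝ) ≤ j := by exact_mod_cast hj
  have hbase : 40 * p * j ≤ w := by
    refine le_trans ?_ hw
    exact Nat.le_self_pow (by omega) _
  have hpj : 1 ≤ p * j := Nat.mul_pos hp hj
  have hw20 : 20 * j ≤ w := by
    have : j ≤ p * j := Nat.le_mul_of_pos_left j hp
    have h2 : 40 * p * j = 40 * (p * j) := by ring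
    omega
  have hw1 : 1 ≤ w := by omega
  have hmem : ∀ m ∈ T0 Q N s, (1 ≤ m ∧ m ≤ Q) ∧ 1 ≤ s m ∧ s m ≤ N := by
    intro m hm
    rw [T0, mem_filter, mem_Icc] at hm
    exact hm
  have hn : ∀ m ∈ T0 Q N s, (s m + c).natAbs ≤ 2 * N := by
    intro m hm
    have h1 := (hmem m hm).2
    have h2 := abs_le.1 hc
    omega
  set θ : ℝ := 1 / (2 * p) with hθ
  have hθ0 : 0 < θ := by positivity
  set R : ℝ := ((p + 2) * K) with hR
  have hR1 : 1 ≤ R := by
    rw [hR]
    nlinarith
  have h1 : ∀ m ∈ T0 Q N s, HH w (s m + c).natAbs ^ j = ∑ T ∈ P.powerset,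
      if T ⊆ (s m + c).natAbs.primeFactors then ∏ p ∈ T, wt j p else 0 := by
    intro m hm
    have hh := hn m hm
    have e1 : HH w (s m + c).natAbs ^ j = ∏ p ∈ (s m + c).natAbs.primeFactors.filter (fun p => w < p), (1 + wt j p) := by
      unfold HH
      rw [← Finset.prod_pow]
      apply Finset.prod_congr rfl
      intro p _
      unfold wt
      ring
    rw [e1, Finset.prod_one_add, ← Finset.sum_filter]
    apply Finset.sum_congr _ (fun _ _ => rfl)
    ext T
    rw [mem_filter, mem_powerset, mem_powerset]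
    constructor
    · intro hT
      constructor
      · intro p hp
        have hpp := hT hp
        rw [mem_filter, Nat.mem_primeFactors] at hpp
        rw [hP, mem_filter, mem_filter, mem_Icc]
        exact ⟨⟨⟨hpp.1.1.one_lt.le, (Nat.le_of_dvd (Nat.pos_of_ne_zero hpp.1.2.2) hpp.1.2.1).trans hh⟩, hpp.1.1⟩, hpp.2⟩
      · exact hT.trans (filter_subset _ _)
    · intro hT p hp
      rw [mem_filter]
      exact ⟨hT.2 hp, hPw p (hT.1 hp)⟩
  -- the count for one set of primes
  have hcount : ∀ T ∈ P.powerset, (((T0 Q N s).filter (fun m => T ⊆ (s m + c).natAbs.primeFactors)).card : ℝ) ≤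
      R * Q * ∏ q ∈ T, (q : ℝ) ^ (-θ) := by
    intro T hT
    rw [mem_powerset] at hT
    have hTpos : ∀ q ∈ T, (0 : ℝ) < q := fun q hq => by exact_mod_cast (hPp q (hT hq)).pos
    have hQ0 : (0 : ℝ) ≤ Q := Nat.cast_nonneg _
    rcases T.eq_empty_or_nonempty with rfl | hne
    · simp only [prod_empty, mul_one]
      have h2 : ((T0 Q N s).filter (fun m => (∅ : Finset ℕ) ⊆ (s m + c).natAbs.primeFactors)).card ≤ Q := by
        refine (card_filter_le _ _).trans ?_
        unfold T0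
        refine (card_filter_le _ _).trans ?_
        rw [Nat.card_Icc]; omega
      have h3 : (((T0 Q N s).filter (fun m => (∅ : Finset ℕ) ⊆ (s m + c).natAbs.primeFactors)).card : ℝ) ≤ Q := by exact_mod_cast h2
      nlinarith
    · set D := ∏ q ∈ T, q with hD
      have hD1 : 1 ≤ D := Nat.one_le_iff_ne_zero.2 (prod_ne_zero_iff.2 (fun q hq => (hPp q (hT hq)).pos.ne'))
      have hDr : (0 : ℝ) < D := by exact_mod_cast hD1
      have hdvd : ∀ m ∈ (T0 Q N s).filter (fun m => T ⊆ (s m + c).natAbs.primeFactors), D ∣ (s m + c).natAbs ∧ (s m + c).natAbs ≠ 0 := by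
        intro m hm
        rw [mem_filter] at hm
        constructor
        · apply Finset.prod_primes_dvd
          · intro q hq
            exact (hPp q (hT hq)).prime
          · intro q hq
            exact Nat.dvd_of_mem_primeFactors (hm.2 hq)
        · obtain ⟨q, hq⟩ := hne
          exact (Nat.mem_primeFactors.1 (hm.2 hq)).2.2
      have hprod : ∏ q ∈ T, (q : ℝ) ^ (-θ) = (D : ℝ) ^ (-θ) := by
        rw [hD]
        push_cast
        rw [Real.finsetProd_rpow]
        intro q hq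
        exact (hTpos q hq).le
      rw [hprod]
      have hDθ : 0 < (D : ℝ) ^ (-θ) := Real.rpow_pos_of_pos hDr _
      by_cases hDN : D ≤ 2 * N
      · set t := ((T0 Q N s).filter (fun m => T ⊆ (s m + c).natAbs.primeFactors)).card with ht
        have ht1 : t ≤ ((T0 Q N s).filter (fun m => (D : ℤ) ∣ s m + c)).card := by
          rw [ht]
          apply card_le_card
          intro m hm
          have h2 := (hdvd m hm).1
          rw [mem_filter] at hm ⊢
          exact ⟨hm.1, Int.natCast_dvd.2 h2⟩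
        have ht2 : t ^ (2 * p) ≤ (p * N / D + 1) * energy p Q s :=
          (Nat.pow_le_pow_left ht1 _).trans (class_energy p Q N D s hD1 c)
        have ht3 : (t : ℝ) ^ (2 * p) ≤ R / D * (Q : ℝ) ^ (2 * p) := by
          have h2 : ((t ^ (2 * p) : ℕ) : ℝ) ≤ (((p * N / D + 1) * energy p Q s : ℕ) : ℝ) := by exact_mod_cast ht2
          push_cast at h2
          refine h2.trans ?_
          have h3 : ((p * N / D : ℕ) : ℝ) ≤ ((p * N : ℕ) : ℝ) / D := Nat.cast_div_le
          have h4 : (1 : ℝ) ≤ 2 * N / D := by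
            rw [one_le_div hDr]
            exact_mod_cast hDN
          have h5 : ((p * N / D : ℕ) : ℝ) + 1 ≤ (p + 2) * N / D := by
            refine (add_le_add h3 h4).trans (le_of_eq ?_)
            push_cast
            ring
          calc (((p * N / D : ℕ) : ℝ) + 1) * (energy p Q s : ℝ) ≤ ((p + 2) * N / D) * (energy p Q s : ℝ) :=
                mul_le_mul_of_nonneg_right h5 (by positivity)
            _ = (p + 2) / D * ((energy p Q s : ℝ) * N) := by ring
            _ ≤ (p + 2) / D * (K * (Q : ℝ) ^ (2 * p)) := mul_le_mul_of_nonneg_left hE (by positivity)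
            _ = R / D * (Q : ℝ) ^ (2 * p) := by rw [hR]; ring
        have ht4 : (t : ℝ) ≤ R * Q * (D : ℝ) ^ (-θ) := by
          have h2 : (R * Q * (D : ℝ) ^ (-θ)) ^ (2 * p) = R ^ (2 * p) * (Q : ℝ) ^ (2 * p) * (D : ℝ)⁻¹ := by
            rw [mul_pow, mul_pow]
            congr 1
            rw [← Real.rpow_natCast, ← Real.rpow_mul hDr.le, hθ]
            have : -(1 / (2 * (p : ℝ))) * ((2 * p : ℕ) : ℝ) = -1 := by
              push_cast
              field_simp
            rw [this, Real.rpow_neg_one]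
          have h3 : (t : ℝ) ^ (2 * p) ≤ (R * Q * (D : ℝ) ^ (-θ)) ^ (2 * p) := by
            rw [h2]
            refine ht3.trans ?_
            have h4 : R ≤ R ^ (2 * p) := le_self_pow₀ hR1 (by omega)
            calc R / D * (Q : ℝ) ^ (2 * p) = R * (Q : ℝ) ^ (2 * p) * (D : ℝ)⁻¹ := by ring
              _ ≤ _ := by
                  apply mul_le_mul_of_nonneg_right _ (by positivity)
                  exact mul_le_mul_of_nonneg_right h4 (by positivity)
          exact le_of_pow_le_pow_left₀ (by omega) (by positivity) h3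
        exact ht4
      · have h2 : (T0 Q N s).filter (fun m => T ⊆ (s m + c).natAbs.primeFactors) = ∅ := by
          rw [filter_eq_empty_iff]
          intro m hm hcon
          obtain ⟨h3, h4⟩ := hdvd m (mem_filter.2 ⟨hm, hcon⟩)
          have h5 := Nat.le_of_dvd (Nat.pos_of_ne_zero h4) h3
          have h6 := hn m hm
          omega
        rw [h2, card_empty, Nat.cast_zero]
        positivity
  have hmain : ∑ m ∈ T0 Q N s, HH w (s m + c).natAbs ^ j ≤ R * Q * ∏ q ∈ P, (1 + wt j q * (q : ℝ) ^ (-θ)) := by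
    rw [Finset.sum_congr rfl h1, Finset.sum_comm, Finset.prod_one_add, Finset.mul_sum]
    apply Finset.sum_le_sum
    intro T hT
    rw [← Finset.sum_filter, Finset.sum_const, nsmul_eq_mul, prod_mul_distrib]
    have h2 := hcount T hT
    have h3 : 0 ≤ ∏ q ∈ T, wt j q := prod_nonneg (fun q _ => wt_nonneg j q)
    calc _ ≤ (R * Q * ∏ q ∈ T, (q : ℝ) ^ (-θ)) * ∏ q ∈ T, wt j q := mul_le_mul_of_nonneg_right h2 h3
      _ = _ := by ring
  refine hmain.trans ?_
  have hexp : ∏ q ∈ P, (1 + wt j q * (q : ℝ) ^ (-θ)) ≤ 3 := by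
    have h3 : ∏ q ∈ P, (1 + wt j q * (q : ℝ) ^ (-θ)) ≤ ∏ q ∈ P, Real.exp (20 * j * (q : ℝ) ^ (-(1 + θ))) := by
      apply prod_le_prod
      · intro q _
        have := wt_nonneg j q
        positivity
      · intro q hq
        have hq0 : (0 : ℝ) < q := by exact_mod_cast (hPp q hq).pos
        have h4 := wt_le j w q hw20 (hPw q hq)
        have h5 : wt j q * (q : ℝ) ^ (-θ) ≤ 20 * j * (q : ℝ) ^ (-(1 + θ)) := by
          have h6 : (q : ℝ) ^ (-(1 + θ)) = (q : ℝ) ^ (-θ) * (1 / q) := by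
            rw [show -(1 + θ) = -θ + (-1) by ring, Real.rpow_add hq0, Real.rpow_neg_one, one_div]
          rw [h6]
          have h7 : 0 < (q : ℝ) ^ (-θ) := Real.rpow_pos_of_pos hq0 _
          calc wt j q * (q : ℝ) ^ (-θ) ≤ (20 * j / q) * (q : ℝ) ^ (-θ) := mul_le_mul_of_nonneg_right h4 h7.le
            _ = _ := by ring
        have := Real.add_one_le_exp (20 * j * (q : ℝ) ^ (-(1 + θ)))
        linarith
    refine h3.trans ?_
    rw [← Real.exp_sum, ← mul_sum]
    have h6 := sum_rp θ hθ0 w hw1 P hPw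
    have hw0 : (0 : ℝ) < w := by exact_mod_cast hw1
    have hwθ : 40 * p * j ≤ (w : ℝ) ^ θ := by
      have h7 : ((40 * p * j : ℝ)) ^ (2 * p) ≤ w := by exact_mod_cast hw
      have h8 : ((40 * p * j : ℝ) ^ (2 * p)) ^ θ ≤ (w : ℝ) ^ θ := Real.rpow_le_rpow (by positivity) h7 hθ0.le
      have h9 : ((40 * p * j : ℝ) ^ (2 * p)) ^ θ = 40 * p * j := by
        rw [← Real.rpow_natCast, ← Real.rpow_mul (by positivity), hθ]
        have : ((2 * p : ℕ) : ℝ) * (1 / (2 * (p : ℝ))) = 1 := by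
          push_cast
          field_simp
        rw [this, Real.rpow_one]
      rw [← h9]
      exact h8
    have h7 : 20 * (j : ℝ) * ∑ q ∈ P, (q : ℝ) ^ (-(1 + θ)) ≤ 1 := by
      have hwθ0 : 0 < (w : ℝ) ^ θ := Real.rpow_pos_of_pos hw0 _
      have h8 : ∑ q ∈ P, (q : ℝ) ^ (-(1 + θ)) ≤ 2 * p * ((w : ℝ) ^ θ)⁻¹ := by
        rw [Real.rpow_neg hw0.le] at h6
        have h9 : θ * (2 * p) = 1 := by rw [hθ]; field_simp
        calc ∑ q ∈ P, (q : ℝ) ^ (-(1 + θ)) = (2 * p) * (θ * ∑ q ∈ P, (q : ℝ) ^ (-(1 + θ))) := by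
              rw [← mul_assoc, mul_comm (2 * (p : ℝ)) θ, h9, one_mul]
          _ ≤ _ := mul_le_mul_of_nonneg_left h6 (by positivity)
      calc 20 * (j : ℝ) * ∑ q ∈ P, (q : ℝ) ^ (-(1 + θ)) ≤ 20 * j * (2 * p * ((w : ℝ) ^ θ)⁻¹) :=
            mul_le_mul_of_nonneg_left h8 (by positivity)
        _ = (40 * p * j) / (w : ℝ) ^ θ := by field_simp; ring
        _ ≤ 1 := by
            rw [div_le_one hwθ0]
            exact hwθ
    calc Real.exp (20 * (j : ℝ) * ∑ q ∈ P, (q : ℝ) ^ (-(1 + θ))) ≤ Real.exp 1 := Real.exp_le_exp.2 h7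
      _ ≤ 3 := by have := Real.exp_one_lt_d9; linarith
  calc R * Q * ∏ q ∈ P, (1 + wt j q * (q : ℝ) ^ (-θ)) ≤ R * Q * 3 := mul_le_mul_of_nonneg_left hexp (by positivity)
    _ = _ := by ring

end Pool.Agent.L0h44.AS
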