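import Pool.Agent.L0h44.AS.TF2
import Pool.Agent.L0h44.AS.Core2

set_option autoImplicit false

/-! The bilinear upper bound for families of small additive energy. -/

namespace Pool.Agent.L0h44.AS

open Finset Filter
open Pool.Agent.H373R2.T7 (pz Vz mem_pz Vz_pos energy)

/-- the values of the family in `[1, N]` -/
def AA (Q N : ℕ) (s : ℕ → ℤ) : Finset ℕ := (T0 Q N s).image (fun m => (s m).toNat)

lemma AA_sub (Q N : ℕ) (s : ℕ → ℤ) : AA Q N s ⊆ Icc 1 N := by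
  intro x hx
  rw [AA, mem_image] at hx
  obtain ⟨m, hm, rfl⟩ := hx
  rw [T0, mem_filter, mem_Icc] at hm
  rw [mem_Icc]
  omega

lemma sum_image_le' {ι κ : Type*} [DecidableEq κ] (S : Finset ι) (g : ι → κ) (f : κ → ℝ) (hf : ∀ y, 0 ≤ f y) :
    ∑ y ∈ S.image g, f y ≤ ∑ x ∈ S, f (g x) := by
  classical
  rw [← sum_fiberwise_of_maps_to (g := g) (t := S.image g) (fun x hx => mem_image_of_mem g hx)]
  apply sum_le_sum
  intro y hy
  obtain ⟨x, hx, rfl⟩ := mem_image.1 hy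
  refine le_trans ?_ (single_le_sum (f := fun x => f (g x)) (fun x _ => hf _) (mem_filter.2 ⟨hx, rfl⟩))
  exact le_rfl

theorem pair_fam (p : ℕ) (hp : 1 ≤ p) (K : ℝ) (hK : 1 ≤ K) (k w Q N : ℕ) (hk : 1 ≤ k) (hw : (160 * p * k) ^ (2 * p) ≤ w)
    (s : ℕ → ℤ) (hE : (energy p Q s : ℝ) * N ≤ K * (Q : ℝ) ^ (2 * p)) :
    ∑ x ∈ (AA Q N s ×ˢ AA Q N s).filter (fun x => x.1 ≠ x.2), GG w x.1 x.2 ^ k ≤ 12 * ((p + 2) * K) * (Q : ℝ) ^ 2 := by
  classical
  set T := T0 Q N s with hT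
  set R : ℝ := (p + 2) * K with hR
  have hTc : (T.card : ℝ) ≤ Q := by
    have h2 : T.card ≤ Q := by
      rw [hT]
      unfold T0
      refine (card_filter_le _ _).trans ?_
      rw [Nat.card_Icc]; omega
    exact_mod_cast h2
  have hR0 : 0 ≤ R := by rw [hR]; positivity
  have hmem : ∀ m ∈ T, (1 ≤ m ∧ m ≤ Q) ∧ 1 ≤ s m ∧ s m ≤ N := by
    intro m hm
    rw [hT, T0, mem_filter, mem_Icc] at hm
    exact hm
  have hmf : ∀ c : ℤ, |c| ≤ N → ∑ m ∈ T, HH w (s m + c).natAbs ^ (4 * k) ≤ 3 * R * Q := by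
    intro c hc
    refine mom_fam p hp K hK (4 * k) w Q N (by omega) ?_ s hE c hc
    have : 40 * p * (4 * k) = 160 * p * k := by ring
    rw [this]
    exact hw
  have hnn : ∀ m, 0 ≤ HH w m ^ (4 * k) := fun m => pow_nonneg (HH_nonneg _ _) _
  -- pass to the indices
  have h0 : (AA Q N s ×ˢ AA Q N s).filter (fun x => x.1 ≠ x.2) ⊆
      (T ×ˢ T).image (fun x => ((s x.1).toNat, (s x.2).toNat)) := by
    rintro ⟨a, b⟩ hab
    rw [mem_filter, mem_product, AA, mem_image, mem_image] at hab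
    obtain ⟨⟨⟨m, hm, h1⟩, ⟨m', hm', h2⟩⟩, _⟩ := hab
    rw [mem_image]
    refine ⟨(m, m'), mem_product.2 ⟨hm, hm'⟩, ?_⟩
    simp only at h1 h2 ⊢
    rw [h1, h2]
  have hGG0 : ∀ x : ℕ × ℕ, 0 ≤ GG w x.1 x.2 ^ k := fun x => pow_nonneg (GG_nonneg _ _ _) _
  have h1 : ∑ x ∈ (AA Q N s ×ˢ AA Q N s).filter (fun x => x.1 ≠ x.2), GG w x.1 x.2 ^ k ≤
      ∑ x ∈ T ×ˢ T, GG w (s x.1).toNat (s x.2).toNat ^ k :=
    (sum_le_sum_of_subset_of_nonneg h0 (fun x _ _ => hGG0 x)).trans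
      (sum_image_le' (T ×ˢ T) (fun x => ((s x.1).toNat, (s x.2).toNat)) (fun x => GG w x.1 x.2 ^ k) hGG0)
  refine h1.trans ?_
  have h2 : ∀ x ∈ T ×ˢ T, GG w (s x.1).toNat (s x.2).toNat ^ k ≤ HH w (s x.1 + 0).natAbs ^ (4 * k) +
      HH w (s x.2 + 0).natAbs ^ (4 * k) + HH w (s x.1 + (- s x.2)).natAbs ^ (4 * k) + HH w (s x.1 + s x.2).natAbs ^ (4 * k) := by
    intro x hx
    rw [mem_product] at hx
    have a1 := (hmem _ hx.1).2
    have a2 := (hmem _ hx.2).2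
    have e1 : (s x.1 + 0).natAbs = (s x.1).toNat := by omega
    have e2 : (s x.2 + 0).natAbs = (s x.2).toNat := by omega
    have e3 : (s x.1 + (- s x.2)).natAbs = Nat.dist (s x.1).toNat (s x.2).toNat := by
      rw [Nat.dist]; omega
    have e4 : (s x.1 + s x.2).natAbs = (s x.1).toNat + (s x.2).toNat := by omega
    rw [e1, e2, e3, e4]
    unfold GG
    rw [mul_pow, mul_pow, mul_pow]
    refine (four_le _ _ _ _ (pow_nonneg (HH_nonneg _ _) _) (pow_nonneg (HH_nonneg _ _) _) (pow_nonneg (HH_nonneg _ _) _)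
      (pow_nonneg (HH_nonneg _ _) _)).trans ?_
    rw [← pow_mul, ← pow_mul, ← pow_mul, ← pow_mul, mul_comm k 4]
  refine (sum_le_sum h2).trans ?_
  rw [sum_add_distrib, sum_add_distrib, sum_add_distrib]
  have hRQ : 0 ≤ 3 * R * Q := by positivity
  have b1 : ∑ x ∈ T ×ˢ T, HH w (s x.1 + 0).natAbs ^ (4 * k) ≤ 3 * R * (Q : ℝ) ^ 2 := by
    rw [sum_product_right]
    calc ∑ y ∈ T, ∑ x ∈ T, HH w (s x + 0).natAbs ^ (4 * k) ≤ ∑ _y ∈ T, 3 * R * Q :=
          sum_le_sum (fun y _ => hmf 0 (by simp))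
      _ = T.card * (3 * R * Q) := by rw [sum_const, nsmul_eq_mul]
      _ ≤ Q * (3 * R * Q) := mul_le_mul_of_nonneg_right hTc hRQ
      _ = _ := by ring
  have b2 : ∑ x ∈ T ×ˢ T, HH w (s x.2 + 0).natAbs ^ (4 * k) ≤ 3 * R * (Q : ℝ) ^ 2 := by
    rw [sum_product]
    calc ∑ x ∈ T, ∑ y ∈ T, HH w (s y + 0).natAbs ^ (4 * k) ≤ ∑ _y ∈ T, 3 * R * Q :=
          sum_le_sum (fun y _ => hmf 0 (by simp))
      _ = T.card * (3 * R * Q) := by rw [sum_const, nsmul_eq_mul]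
      _ ≤ Q * (3 * R * Q) := mul_le_mul_of_nonneg_right hTc hRQ
      _ = _ := by ring
  have b3 : ∑ x ∈ T ×ˢ T, HH w (s x.1 + (- s x.2)).natAbs ^ (4 * k) ≤ 3 * R * (Q : ℝ) ^ 2 := by
    rw [sum_product_right]
    calc ∑ y ∈ T, ∑ x ∈ T, HH w (s x + (- s y)).natAbs ^ (4 * k) ≤ ∑ _y ∈ T, 3 * R * Q :=
          sum_le_sum (fun y hy => hmf (- s y) (by
            have := (hmem y hy).2
            rw [abs_neg, abs_of_nonneg (by omega)]
            exact this.2))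
      _ = T.card * (3 * R * Q) := by rw [sum_const, nsmul_eq_mul]
      _ ≤ Q * (3 * R * Q) := mul_le_mul_of_nonneg_right hTc hRQ
      _ = _ := by ring
  have b4 : ∑ x ∈ T ×ˢ T, HH w (s x.1 + s x.2).natAbs ^ (4 * k) ≤ 3 * R * (Q : ℝ) ^ 2 := by
    rw [sum_product_right]
    calc ∑ y ∈ T, ∑ x ∈ T, HH w (s x + s y).natAbs ^ (4 * k) ≤ ∑ _y ∈ T, 3 * R * Q :=
          sum_le_sum (fun y hy => hmf (s y) (by
            have := (hmem y hy).2
            rw [abs_of_nonneg (by omega)]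
            exact this.2))
      _ = T.card * (3 * R * Q) := by rw [sum_const, nsmul_eq_mul]
      _ ≤ Q * (3 * R * Q) := mul_le_mul_of_nonneg_right hTc hRQ
      _ = _ := by ring
  linarith

/-- the sum of the weights over the pairs of a set -/
lemma sum_GG_gen (k w : ℕ) (hk : 1 ≤ k) (A : Finset ℕ) (Q R : ℝ) (hQ : 0 ≤ Q) (hR : 1 ≤ R)
    (hmomA : ∑ x ∈ (A ×ˢ A).filter (fun x => x.1 ≠ x.2), GG w x.1 x.2 ^ k ≤ R * Q ^ 2)
    (S : Finset ℕ) (hS : S ⊆ A) (m α : ℝ) (hα : 0 < α)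
    (hm : (S.card : ℝ) ≤ m) (hm2 : α ^ 2 * Q ≤ m) (hk2 : 1 / α ≤ Real.exp k) :
    ∑ x ∈ (S ×ˢ S).filter (fun x => x.1 ≠ x.2), GG w x.1 x.2 ≤ R * Real.exp 4 * m ^ 2 := by
  classical
  obtain ⟨n, rfl⟩ : ∃ n, k = n + 1 := ⟨k - 1, by omega⟩
  have hm0 : 0 ≤ m := (Nat.cast_nonneg _).trans hm
  set D := (S ×ˢ S).filter (fun x => x.1 ≠ x.2) with hD
  have hDcard : (D.card : ℝ) ≤ m ^ 2 := by
    have h1 : D.card ≤ S.card * S.card := by
      rw [← card_product]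
      exact card_filter_le _ _
    have h2 : (D.card : ℝ) ≤ (S.card : ℝ) * S.card := by exact_mod_cast h1
    nlinarith [Nat.cast_nonneg (α := ℝ) S.card]
  have hmom : ∑ x ∈ D, GG w x.1 x.2 ^ (n + 1) ≤ R * Q ^ 2 := by
    refine le_trans ?_ hmomA
    apply sum_le_sum_of_subset_of_nonneg
    · intro x hx
      rw [hD, mem_filter, mem_product] at hx
      rw [mem_filter, mem_product]
      exact ⟨⟨hS hx.1.1, hS hx.1.2⟩, hx.2⟩
    · intro x _ _
      exact pow_nonneg (GG_nonneg _ _ _) _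
  rcases Nat.eq_zero_or_pos D.card with hD0 | hD0
  · rw [card_eq_zero] at hD0
    rw [hD0]
    simp
    positivity
  have hpm := pow_sum_div_card_le_sum_pow (s := D) (f := fun x => GG w x.1 x.2) (fun x _ => GG_nonneg _ _ _) n
  have hDpos : (0 : ℝ) < D.card := by exact_mod_cast hD0
  rw [div_le_iff₀ (by positivity)] at hpm
  have hM2 : Q ^ 2 ≤ Real.exp 4 ^ (n + 1) * m ^ 2 := by
    have h1 : Q ≤ (1 / α) ^ 2 * m := by
      rw [div_pow, one_pow, one_div, ← div_eq_inv_mul, le_div_iff₀ (by positivity)]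
      linarith
    have h2 : (1 / α) ^ 2 ≤ Real.exp 2 ^ (n + 1) := by
      rw [← Real.exp_nat_mul]
      calc (1 / α) ^ 2 ≤ Real.exp ((n + 1 : ℕ)) ^ 2 := pow_le_pow_left₀ (by positivity) hk2 2
        _ = Real.exp (((n + 1 : ℕ) : ℝ) * 2) := by rw [← Real.exp_nat_mul]; congr 1; push_cast; ring
    have h3 : Q ≤ Real.exp 2 ^ (n + 1) * m := h1.trans (mul_le_mul_of_nonneg_right h2 hm0)
    calc Q ^ 2 ≤ (Real.exp 2 ^ (n + 1) * m) ^ 2 := pow_le_pow_left₀ hQ h3 2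
      _ = (Real.exp 2 ^ 2) ^ (n + 1) * m ^ 2 := by ring
      _ = Real.exp 4 ^ (n + 1) * m ^ 2 := by
          rw [← Real.exp_nat_mul 2 2]
          norm_num
  have hpow : (∑ x ∈ D, GG w x.1 x.2) ^ (n + 1) ≤ (R * Real.exp 4 * m ^ 2) ^ (n + 1) := by
    refine hpm.trans ?_
    calc (∑ x ∈ D, GG w x.1 x.2 ^ (n + 1)) * (D.card : ℝ) ^ n ≤
          (R * (Real.exp 4 ^ (n + 1) * m ^ 2)) * (m ^ 2) ^ n := by
          apply mul_le_mul (hmom.trans (mul_le_mul_of_nonneg_left hM2 (by linarith))) (pow_le_pow_left₀ hDpos.le hDcard n)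
            (by positivity) (by positivity)
      _ = R * (Real.exp 4 ^ (n + 1) * (m ^ 2) ^ (n + 1)) := by rw [pow_succ (m ^ 2)]; ring
      _ ≤ R ^ (n + 1) * (Real.exp 4 ^ (n + 1) * (m ^ 2) ^ (n + 1)) := by
          apply mul_le_mul_of_nonneg_right _ (by positivity)
          exact le_self_pow₀ hR (by omega)
      _ = (R * Real.exp 4 * m ^ 2) ^ (n + 1) := by rw [mul_pow, mul_pow]; ring
  exact le_of_pow_le_pow_left₀ (by omega) (by positivity) hpow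

end Pool.Agent.L0h44.AS
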