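import Pool.Agent.L0h44.AS.TF3

set_option autoImplicit false

/-! The bilinear upper bound for families, continued. -/

namespace Pool.Agent.L0h44.AS

open Finset Filter
open Pool.Agent.H373R2.T7 (pz Vz mem_pz Vz_pos)

/-- one class -/
theorem one_class_gen (R : ℝ) (hR : 1 ≤ R) : ∃ C : ℝ, 1 ≤ C ∧ ∃ M0 : ℕ, ∀ M : ℕ, M0 ≤ M → ∀ w k : ℕ, 1 ≤ k → 6 ≤ w → (w : ℝ) ≤ Real.log M →
    ∀ A : Finset ℕ, A ⊆ Icc 1 M → ∀ Q : ℝ, 0 ≤ Q →
    ∑ x ∈ (A ×ˢ A).filter (fun x => x.1 ≠ x.2), GG w x.1 x.2 ^ k ≤ R * Q ^ 2 →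
    ∀ U V : Finset ℕ, U ⊆ A → V ⊆ Icc 1 M → ∀ α : ℝ, 0 < α → 1 / α ≤ Real.exp k → ∀ b : ℕ,
    ∑ v ∈ Vb w V b, (RR w U b v : ℝ) ≤
      √((Vb w V b).card : ℝ) * (C * (√((M : ℝ) / PW w) * (Real.log w / Real.log M) ^ 2 * ((Ub w U b).card + α ^ 2 * Q)) +
        √((Ub w U b).card * ((M : ℝ) / PW w + 1)) + √(10 * √(M : ℝ)) * (Ub w U b).card) := by
  classical
  obtain ⟨C, hC1, M0, hC⟩ := sieve4
  refine ⟨√(C * (R * Real.exp 4)), ?_, M0, ?_⟩
  · rw [Real.one_le_sqrt]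
    have h1 : 1 ≤ Real.exp 4 := Real.one_le_exp (by norm_num)
    have h2 : 1 ≤ R * Real.exp 4 := by nlinarith
    nlinarith
  intro M hM w k hk hw hwM A hA Q hQ hmomA U V hU hV α hα hkα b
  set S := Ub w U b with hS
  have hSA : S ⊆ A := by
    rw [hS]
    unfold Ub
    exact (filter_subset _ _).trans hU
  have hSM : S ⊆ Icc 1 M := hSA.trans hA
  set m : ℝ := S.card + α ^ 2 * Q with hm
  have hm0 : 0 ≤ m := by positivity
  have hR0 : 0 ≤ R := by linarith
  have hGG := sum_GG_gen k w hk A Q R hQ hR hmomA S hSA m α hα (by rw [hm]; linarith [show 0 ≤ α ^ 2 * Q by positivity])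
    (by rw [hm]; linarith [show (0 : ℝ) ≤ S.card by positivity]) hkα
  have hcs : (∑ v ∈ Vb w V b, (RR w U b v : ℝ)) ^ 2 ≤ (Vb w V b).card * ∑ v ∈ Vb w V b, (RR w U b v : ℝ) ^ 2 :=
    sq_sum_le_card_mul_sum_sq
  have hsq := sum_sq w M b U V hV
  rw [← hS] at hsq
  have hX : ∑ x ∈ S ×ˢ S, (({v ∈ Icc 1 M | v % PW w = b ∧ pr x.1 v ∧ pr x.2 v} : Finset ℕ).card : ℝ) ≤
      C * (R * Real.exp 4) * ((M : ℝ) / PW w * (Real.log w / Real.log M) ^ 4 * m ^ 2) + S.card * ((M : ℝ) / PW w + 1) +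
      10 * √(M : ℝ) * (S.card : ℝ) ^ 2 := by
    rw [← sum_filter_add_sum_filter_not (S ×ˢ S) (fun x => x.1 ≠ x.2)]
    have h1 : ∑ x ∈ (S ×ˢ S).filter (fun x => x.1 ≠ x.2),
        (({v ∈ Icc 1 M | v % PW w = b ∧ pr x.1 v ∧ pr x.2 v} : Finset ℕ).card : ℝ) ≤
        ∑ x ∈ (S ×ˢ S).filter (fun x => x.1 ≠ x.2), (C * ((M : ℝ) / PW w) * (Real.log w / Real.log M) ^ 4 * GG w x.1 x.2 + 10 * √(M : ℝ)) := by
      apply sum_le_sum
      intro x hx
      rw [mem_filter, mem_product] at hx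
      have hx1 := mem_Icc.1 (hSM hx.1.1)
      have hx2 := mem_Icc.1 (hSM hx.1.2)
      exact hC M hM w hw hwM b x.1 x.2 (by omega) (by omega) hx.2
    rw [sum_add_distrib, ← mul_sum, sum_const, nsmul_eq_mul] at h1
    have hcard : (((S ×ˢ S).filter (fun x => x.1 ≠ x.2)).card : ℝ) ≤ (S.card : ℝ) ^ 2 := by
      have h2 : ((S ×ˢ S).filter (fun x => x.1 ≠ x.2)).card ≤ S.card * S.card := by
        rw [← card_product]
        exact card_filter_le _ _
      have h3 : (((S ×ˢ S).filter (fun x => x.1 ≠ x.2)).card : ℝ) ≤ (S.card : ℝ) * S.card := by exact_mod_cast h2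
      rw [sq]
      exact h3
    have h4 : ∑ x ∈ (S ×ˢ S).filter (fun x => ¬ x.1 ≠ x.2),
        (({v ∈ Icc 1 M | v % PW w = b ∧ pr x.1 v ∧ pr x.2 v} : Finset ℕ).card : ℝ) ≤ S.card * ((M : ℝ) / PW w + 1) := by
      have h5 : ((S ×ˢ S).filter (fun x => ¬ x.1 ≠ x.2)).card ≤ S.card := by
        apply card_le_card_of_injOn (fun x => x.1)
        · intro x hx
          rw [mem_coe, mem_filter, mem_product] at hx
          exact hx.1.1
        · rintro ⟨a, a'⟩ hx ⟨c, c'⟩ hy h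
          rw [mem_coe, mem_filter] at hx hy
          simp only [ne_eq, not_not] at hx hy h
          rw [← hx.2, ← hy.2, h]
      have h6 : ∀ x ∈ (S ×ˢ S).filter (fun x => ¬ x.1 ≠ x.2),
          (({v ∈ Icc 1 M | v % PW w = b ∧ pr x.1 v ∧ pr x.2 v} : Finset ℕ).card : ℝ) ≤ (M : ℝ) / PW w + 1 := by
        intro x _
        refine le_trans ?_ (class_size w M b)
        have : ({v ∈ Icc 1 M | v % PW w = b ∧ pr x.1 v ∧ pr x.2 v} : Finset ℕ) ⊆ {v ∈ Icc 1 M | v % PW w = b} := by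
          intro v hv
          rw [mem_filter] at hv ⊢
          exact ⟨hv.1, hv.2.1⟩
        exact_mod_cast card_le_card this
      refine (sum_le_sum h6).trans ?_
      rw [sum_const, nsmul_eq_mul]
      apply mul_le_mul_of_nonneg_right (by exact_mod_cast h5) (by positivity)
    have hc0 : 0 ≤ C * ((M : ℝ) / PW w) * (Real.log w / Real.log M) ^ 4 := by positivity
    have h7 := mul_le_mul_of_nonneg_left hGG hc0
    have h8 : (((S ×ˢ S).filter (fun x => x.1 ≠ x.2)).card : ℝ) * (10 * √(M : ℝ)) ≤ (S.card : ℝ) ^ 2 * (10 * √(M : ℝ)) :=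
      mul_le_mul_of_nonneg_right hcard (by positivity)
    calc _ ≤ (C * ((M : ℝ) / PW w) * (Real.log w / Real.log M) ^ 4 * (R * Real.exp 4 * m ^ 2) + (S.card : ℝ) ^ 2 * (10 * √(M : ℝ))) +
          S.card * ((M : ℝ) / PW w + 1) := add_le_add (h1.trans (add_le_add h7 h8)) h4
      _ = _ := by ring
  have hnn : 0 ≤ ∑ v ∈ Vb w V b, (RR w U b v : ℝ) := sum_nonneg (fun _ _ => by positivity)
  have hfin := hcs.trans (mul_le_mul_of_nonneg_left (hsq.trans hX) (by positivity))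
  have h1 : ∑ v ∈ Vb w V b, (RR w U b v : ℝ) ≤ √((Vb w V b).card *
      (C * (R * Real.exp 4) * ((M : ℝ) / PW w * (Real.log w / Real.log M) ^ 4 * m ^ 2) + S.card * ((M : ℝ) / PW w + 1) +
      10 * √(M : ℝ) * (S.card : ℝ) ^ 2)) := Real.le_sqrt_of_sq_le hfin
  refine h1.trans ?_
  rw [Real.sqrt_mul (by positivity)]
  apply mul_le_mul_of_nonneg_left _ (Real.sqrt_nonneg _)
  have hadd : ∀ a c : ℝ, 0 ≤ a → 0 ≤ c → √(a + c) ≤ √a + √c := by
    intro a c ha hc
    rw [Real.sqrt_le_iff]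
    refine ⟨by positivity, ?_⟩
    nlinarith [Real.sq_sqrt ha, Real.sq_sqrt hc, mul_nonneg (Real.sqrt_nonneg a) (Real.sqrt_nonneg c)]
  have hL : 0 ≤ (Real.log w / Real.log M) ^ 2 := by positivity
  refine (hadd _ _ (by positivity) (by positivity)).trans (add_le_add ((hadd _ _ (by positivity) (by positivity)).trans
    (add_le_add ?_ le_rfl)) ?_)
  · rw [Real.sqrt_mul (by positivity)]
    apply mul_le_mul_of_nonneg_left _ (Real.sqrt_nonneg _)
    have e1 : (M : ℝ) / PW w * (Real.log w / Real.log M) ^ 4 * m ^ 2 = (M : ℝ) / PW w * ((Real.log w / Real.log M) ^ 2 * m) ^ 2 := by ring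
    rw [e1, Real.sqrt_mul (by positivity), Real.sqrt_sq (by positivity), mul_assoc]
  · rw [Real.sqrt_mul (by positivity), Real.sqrt_sq (by positivity)]

/-- all the classes -/
theorem all_classes_gen (R : ℝ) (hR : 1 ≤ R) : ∃ C : ℝ, 1 ≤ C ∧ ∃ M0 : ℕ, ∀ M : ℕ, M0 ≤ M → ∀ w k : ℕ, 1 ≤ k → 6 ≤ w → (w : ℝ) ≤ Real.log M →
    ∀ A : Finset ℕ, A ⊆ Icc 1 M → ∀ Q : ℝ, 0 ≤ Q →
    ∑ x ∈ (A ×ˢ A).filter (fun x => x.1 ≠ x.2), GG w x.1 x.2 ^ k ≤ R * Q ^ 2 →
    ∀ U V : Finset ℕ, U ⊆ A → V ⊆ Icc 1 M → ∀ α : ℝ, 0 < α → 1 / α ≤ Real.exp k →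
    (ee U V : ℝ) ≤ 4 * w * U.card +
      C * (√(M : ℝ) * √(V.card : ℝ) * (Real.log w / Real.log M ^ 2) * ∑ u ∈ U, √(FF u)) +
      C * (√(M : ℝ) * √(V.card : ℝ) * (Real.log w ^ 2 / Real.log M ^ 2) * (α ^ 2 * Q)) +
      √(V.card : ℝ) * √(U.card * ((M : ℝ) + PW w)) +
      √(10 * √(M : ℝ)) * (U.card * (√(PW w : ℝ) * √(V.card : ℝ))) := by
  classical
  obtain ⟨C, hC1, M0, hC⟩ := one_class_gen R hR
  obtain ⟨C2, hC21, hC2⟩ := class_count
  refine ⟨C * √C2, ?_, max M0 2, ?_⟩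
  · have : 1 ≤ √C2 := Real.one_le_sqrt.2 hC21
    nlinarith
  intro M hM w k hk hw hwM A hA Q hQ hmomA U V hU hV α hα hkα
  have hM0 := le_trans (le_max_left _ _) hM
  have hM2 : 2 ≤ M := le_trans (le_max_right _ _) hM
  have hW0 : (0 : ℝ) < PW w := by exact_mod_cast PW_pos w
  have hLw : 0 < Real.log w := Real.log_pos (by exact_mod_cast (by omega : 1 < w))
  have hLM : 0 < Real.log M := Real.log_pos (by exact_mod_cast (by omega : 1 < M))
  have hs := sum_RR w M (by omega) U V hV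
  have h1 := sum_le_sum (s := range (PW w)) (fun b _ => hC M hM0 w k hk hw hwM A hA Q hQ hmomA U V hU hV α hα hkα b)
  -- the classes of `V`
  have hVsum : ∑ b ∈ range (PW w), ((Vb w V b).card : ℝ) = V.card := by
    have : V.card = ∑ b ∈ range (PW w), (Vb w V b).card := by
      apply card_eq_sum_card_fiberwise
      intro v _
      rw [mem_coe, mem_range]
      exact Nat.mod_lt _ (PW_pos w)
    rw [this]
    push_cast
    rfl
  have hsqrtV : ∑ b ∈ range (PW w), √((Vb w V b).card : ℝ) ≤ √(PW w : ℝ) * √(V.card : ℝ) := by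
    have := Real.sum_sqrt_mul_sqrt_le (range (PW w)) (f := fun _ => (1 : ℝ)) (g := fun b => ((Vb w V b).card : ℝ))
      (fun _ => by norm_num) (fun _ => by positivity)
    simp only [Real.sqrt_one, one_mul, sum_const, card_range, nsmul_eq_mul, mul_one] at this
    rwa [hVsum] at this
  -- the classes weighted by `U`
  have hUV : ∑ b ∈ range (PW w), √((Vb w V b).card : ℝ) * ((Ub w U b).card : ℝ) ≤
      √C2 * (√(PW w : ℝ) * √(V.card : ℝ) / Real.log w) * ∑ u ∈ U, √(FF u) := by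
    have e1 : ∑ b ∈ range (PW w), √((Vb w V b).card : ℝ) * ((Ub w U b).card : ℝ) =
        ∑ u ∈ U, ∑ b ∈ (range (PW w)).filter (fun b => Cop w u b), √((Vb w V b).card : ℝ) := by
      have e2 : ∀ b, √((Vb w V b).card : ℝ) * ((Ub w U b).card : ℝ) = ∑ u ∈ U, (if Cop w u b then √((Vb w V b).card : ℝ) else 0) := by
        intro b
        unfold Ub
        rw [← sum_filter, sum_const, nsmul_eq_mul, mul_comm]
      rw [sum_congr rfl (fun b _ => e2 b), sum_comm]
      apply sum_congr rfl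
      intro u _
      rw [sum_filter]
    rw [e1, mul_sum]
    apply sum_le_sum
    intro u hu
    have hu1 := mem_Icc.1 (hA (hU hu))
    set T := (range (PW w)).filter (fun b => Cop w u b) with hT
    have hTc := hC2 w u (by omega) (by omega) T (filter_subset _ _) (fun b hb => (mem_filter.1 hb).2)
    have h3 := Real.sum_sqrt_mul_sqrt_le T (f := fun _ => (1 : ℝ)) (g := fun b => ((Vb w V b).card : ℝ))
      (fun _ => by norm_num) (fun _ => by positivity)
    simp only [Real.sqrt_one, one_mul, sum_const, nsmul_eq_mul, mul_one] at h3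
    have h4 : ∑ b ∈ T, ((Vb w V b).card : ℝ) ≤ V.card := by
      rw [← hVsum]
      apply sum_le_sum_of_subset_of_nonneg (filter_subset _ _)
      intro b _ _
      positivity
    have h5 : √(T.card : ℝ) ≤ √C2 * √(PW w : ℝ) / Real.log w * √(FF u) := by
      have : √(C2 * PW w / Real.log w ^ 2 * FF u) = √C2 * √(PW w : ℝ) / Real.log w * √(FF u) := by
        rw [Real.sqrt_mul (by positivity), Real.sqrt_div (by positivity), Real.sqrt_mul (by positivity), Real.sqrt_sq hLw.le]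
      rw [← this]
      exact Real.sqrt_le_sqrt hTc
    calc ∑ b ∈ T, √((Vb w V b).card : ℝ) ≤ √(T.card : ℝ) * √(∑ b ∈ T, ((Vb w V b).card : ℝ)) := h3
      _ ≤ (√C2 * √(PW w : ℝ) / Real.log w * √(FF u)) * √(V.card : ℝ) := by
          apply mul_le_mul h5 (Real.sqrt_le_sqrt h4) (Real.sqrt_nonneg _) (by positivity)
      _ = _ := by ring
  -- the third sum
  have hUsum : ∑ b ∈ range (PW w), ((Ub w U b).card : ℝ) ≤ PW w * U.card := by
    have : ∀ b ∈ range (PW w), ((Ub w U b).card : ℝ) ≤ U.card := by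
      intro b _
      unfold Ub
      exact_mod_cast card_filter_le _ _
    refine (sum_le_sum this).trans ?_
    rw [sum_const, card_range, nsmul_eq_mul]
  have hthird : ∑ b ∈ range (PW w), √((Vb w V b).card : ℝ) * √((Ub w U b).card * ((M : ℝ) / PW w + 1)) ≤
      √(V.card : ℝ) * √(U.card * ((M : ℝ) + PW w)) := by
    have := Real.sum_sqrt_mul_sqrt_le (range (PW w)) (f := fun b => ((Vb w V b).card : ℝ))
      (g := fun b => (Ub w U b).card * ((M : ℝ) / PW w + 1)) (fun _ => by positivity) (fun _ => by positivity)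
    refine this.trans ?_
    rw [hVsum]
    apply mul_le_mul_of_nonneg_left _ (Real.sqrt_nonneg _)
    apply Real.sqrt_le_sqrt
    rw [← sum_mul]
    calc (∑ b ∈ range (PW w), ((Ub w U b).card : ℝ)) * ((M : ℝ) / PW w + 1) ≤ (PW w * U.card) * ((M : ℝ) / PW w + 1) :=
          mul_le_mul_of_nonneg_right hUsum (by positivity)
      _ = _ := by field_simp
  have hfourth : ∑ b ∈ range (PW w), √((Vb w V b).card : ℝ) * (√(10 * √(M : ℝ)) * (Ub w U b).card) ≤
      √(10 * √(M : ℝ)) * (U.card * (√(PW w : ℝ) * √(V.card : ℝ))) := by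
    have : ∀ b ∈ range (PW w), √((Vb w V b).card : ℝ) * (√(10 * √(M : ℝ)) * (Ub w U b).card) ≤
        √(10 * √(M : ℝ)) * (U.card * √((Vb w V b).card : ℝ)) := by
      intro b _
      have h6 : ((Ub w U b).card : ℝ) ≤ U.card := by
        unfold Ub
        exact_mod_cast card_filter_le _ _
      have h7 := Real.sqrt_nonneg ((Vb w V b).card : ℝ)
      have h8 := Real.sqrt_nonneg (10 * √(M : ℝ))
      calc √((Vb w V b).card : ℝ) * (√(10 * √(M : ℝ)) * (Ub w U b).card) ≤ √((Vb w V b).card : ℝ) * (√(10 * √(M : ℝ)) * U.card) := by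
            apply mul_le_mul_of_nonneg_left (mul_le_mul_of_nonneg_left h6 h8) h7
        _ = _ := by ring
    refine (sum_le_sum this).trans ?_
    rw [← mul_sum, ← mul_sum]
    apply mul_le_mul_of_nonneg_left (mul_le_mul_of_nonneg_left hsqrtV (by positivity)) (Real.sqrt_nonneg _)
  set A1 : ℝ := √((M : ℝ) / PW w) * (Real.log w / Real.log M) ^ 2 with hA1
  have hA1eq : A1 * √(PW w : ℝ) = √(M : ℝ) * (Real.log w / Real.log M) ^ 2 := by
    rw [hA1, Real.sqrt_div (by positivity)]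
    have : √(PW w : ℝ) ≠ 0 := (Real.sqrt_pos.2 hW0).ne'
    field_simp
  have hA10 : 0 ≤ A1 := by positivity
  have hexp : ∑ b ∈ range (PW w), (√((Vb w V b).card : ℝ) * (C * (A1 * ((Ub w U b).card + α ^ 2 * Q)) +
        √((Ub w U b).card * ((M : ℝ) / PW w + 1)) + √(10 * √(M : ℝ)) * (Ub w U b).card)) =
      C * (A1 * ∑ b ∈ range (PW w), √((Vb w V b).card : ℝ) * ((Ub w U b).card : ℝ)) +
      C * (A1 * ((α ^ 2 * Q) * ∑ b ∈ range (PW w), √((Vb w V b).card : ℝ))) +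
      ∑ b ∈ range (PW w), √((Vb w V b).card : ℝ) * √((Ub w U b).card * ((M : ℝ) / PW w + 1)) +
      ∑ b ∈ range (PW w), √((Vb w V b).card : ℝ) * (√(10 * √(M : ℝ)) * (Ub w U b).card) := by
    simp only [mul_sum, ← sum_add_distrib]
    apply sum_congr rfl
    intro b _
    ring
  rw [hexp] at h1
  have h2 : C * (A1 * ∑ b ∈ range (PW w), √((Vb w V b).card : ℝ) * ((Ub w U b).card : ℝ)) ≤
      C * √C2 * (√(M : ℝ) * √(V.card : ℝ) * (Real.log w / Real.log M ^ 2) * ∑ u ∈ U, √(FF u)) := by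
    calc C * (A1 * ∑ b ∈ range (PW w), √((Vb w V b).card : ℝ) * ((Ub w U b).card : ℝ)) ≤
          C * (A1 * (√C2 * (√(PW w : ℝ) * √(V.card : ℝ) / Real.log w) * ∑ u ∈ U, √(FF u))) := by
          apply mul_le_mul_of_nonneg_left (mul_le_mul_of_nonneg_left hUV hA10) (by linarith)
      _ = C * √C2 * ((A1 * √(PW w : ℝ)) * √(V.card : ℝ) / Real.log w * ∑ u ∈ U, √(FF u)) := by ring
      _ = _ := by
          rw [hA1eq]
          field_simp
  have h3 : C * (A1 * ((α ^ 2 * Q) * ∑ b ∈ range (PW w), √((Vb w V b).card : ℝ))) ≤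
      C * √C2 * (√(M : ℝ) * √(V.card : ℝ) * (Real.log w ^ 2 / Real.log M ^ 2) * (α ^ 2 * Q)) := by
    have hsC2 : 1 ≤ √C2 := Real.one_le_sqrt.2 hC21
    calc C * (A1 * ((α ^ 2 * Q) * ∑ b ∈ range (PW w), √((Vb w V b).card : ℝ))) ≤
          C * (A1 * ((α ^ 2 * Q) * (√(PW w : ℝ) * √(V.card : ℝ)))) := by
          apply mul_le_mul_of_nonneg_left (mul_le_mul_of_nonneg_left (mul_le_mul_of_nonneg_left hsqrtV (by positivity)) hA10)
            (by linarith)
      _ = C * 1 * ((A1 * √(PW w : ℝ)) * √(V.card : ℝ) * (α ^ 2 * Q)) := by ring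
      _ = C * 1 * (√(M : ℝ) * √(V.card : ℝ) * (Real.log w ^ 2 / Real.log M ^ 2) * (α ^ 2 * Q)) := by
          rw [hA1eq, div_pow]
          ring
      _ ≤ _ := by
          apply mul_le_mul_of_nonneg_right _ (by positivity)
          apply mul_le_mul_of_nonneg_left hsC2 (by linarith)
  calc (ee U V : ℝ) ≤ _ := hs
    _ ≤ 4 * w * U.card + _ := add_le_add le_rfl h1
    _ ≤ _ := by linarith

end Pool.Agent.L0h44.AS
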