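import Pool.Agent.L0h44.AS.Pairs
import Pool.Agent.L0h44.AS.TF1
import Pool.Agent.H560R3.GB.LamE

set_option autoImplicit false

/-! Prime pairs `n - x`, `n + x`, `N < n ≤ 2 N`, for almost all `x` of a family of small additive energy: a lower bound. -/

namespace Pool.Agent.L0h44.AS

open Finset
open Pool.Agent.H373R2.T7
open Pool.Agent.H352R3.FK
open ArithmeticFunction (vonMangoldt)

lemma ev_L2 (K : ℕ) : ∃ N0 : ℕ, ∀ N : ℕ, N0 ≤ N → 2 ≤ N ∧ (K : ℝ) ≤ Real.log N ∧ 96 ≤ Real.log N ∧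
    768 * Real.log N * NP (4 * N) ≤ N := by
  obtain ⟨n1, h1⟩ := ev_L' K
  obtain ⟨n2, h2⟩ := ev2 0
  refine ⟨max n1 n2, fun N hN => ?_⟩
  obtain ⟨a, b, _, d⟩ := h2 N (le_trans (le_max_right _ _) hN)
  exact ⟨a, h1 N (le_trans (le_max_left _ _) hN), b, d⟩

theorem pairs_key (E : ℕ) : ∃ N0 : ℕ, ∀ N : ℕ, N0 ≤ N → ∀ z : ℕ, 8 * Real.log N ≤ z → (z : ℝ) ≤ Real.log N ^ E →
    ∀ x ∈ Icc 1 N, |cor z (6 * (2 * N)) 1 (Ioc N (N + N / 2)) ((2 * x : ℕ) : ℤ)| ≤ 2 * N / Real.log N →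
      |cor z (6 * (2 * N)) 1 (Ioc (N / 2) N) ((2 * x : ℕ) : ℤ)| ≤ 2 * N / Real.log N →
      1 / 192 * (FF x * (N / Real.log N ^ 2)) ≤ (((Ioc N (2 * N)).filter (fun n => pr x n)).card : ℝ) := by
  classical
  obtain ⟨X2, hX2⟩ := mainT2 E 1
  obtain ⟨N1, hN1⟩ := ev_L2 0
  refine ⟨max X2 N1, fun N hN z hz4 hz3' x hx hc0 hc1 => ?_⟩
  have hNX2 : X2 ≤ N := le_trans (le_max_left _ _) hN
  obtain ⟨hN2, _, hL96, hNP⟩ := hN1 N (le_trans (le_max_right _ _) hN)
  have hNr : (2 : ℝ) ≤ N := by exact_mod_cast hN2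
  have hN0 : (0 : ℝ) < N := by linarith
  obtain ⟨X, hX⟩ : ∃ X : ℕ, X = 2 * N := ⟨_, rfl⟩
  have hXr : (X : ℝ) = 2 * N := by rw [hX]; push_cast; rfl
  rw [← hX] at hc0 hc1
  set L := Real.log N with hL
  have hl2 : Real.log 2 ≤ 1 := by have := Real.log_two_lt_d9; linarith
  have hLX : Real.log X = Real.log 2 + L := by rw [hXr, Real.log_mul (by norm_num) hN0.ne']
  have hl20 : 0 ≤ Real.log 2 := Real.log_nonneg (by norm_num)
  have hz3 : (z : ℝ) ≤ Real.log X ^ E := hz3'.trans (pow_le_pow_left₀ (by linarith) (by rw [hLX]; linarith) _)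
  have hz5 : 2 ≤ z := by
    have : (2 : ℝ) ≤ z := by linarith
    exact_mod_cast this
  rw [mem_Icc] at hx
  have hFF := one_le_FF x (by omega)
  -- a general window
  have key : ∀ A D : ℕ, A ≤ D → D ≤ X → X ≤ 8 * A → (N : ℝ) / 3 ≤ (D : ℝ) - A → |cor z (6 * X) 1 (Ioc A D) ((2 * x : ℕ) : ℤ)| ≤ 2 * N / L →
      (∀ n ∈ Ioc A D, n + x ∈ Ioc N (2 * N)) →
      1 / 192 * (FF x * (N / L ^ 2)) ≤ (((Ioc N (2 * N)).filter (fun n => pr x n)).card : ℝ) := by
    intro A D hAD hDX hXA hlen hcor' hwin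
    have hmain := hX2 X (by omega) z hz5 hz3 ((2 * x : ℕ) : ℤ) A D hAD hDX hXA
    have hmain' : SK z ((2 * x : ℕ) : ℤ) * ((D : ℝ) - A) - 2 * N / L ≤
        (Vz z)⁻¹ * ∑ n ∈ (Ioc A D).filter (fun n : ℕ => ∀ p ∈ pz z, ¬ (p : ℤ) ∣ 1 * n + ((2 * x : ℕ) : ℤ)), vonMangoldt n := by
      have h1 := (abs_le.1 hmain).1
      have h2 : (X : ℝ) / Real.log X ^ 1 ≤ 2 * N / L := by
        rw [pow_one, hXr]
        apply div_le_div_of_nonneg_left (by positivity) (by linarith)
        rw [← hXr, hLX]; linarith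
      linarith
    have hlow := SK_low z x hz5 (by omega) (by
      have : Real.log x ≤ L := Real.log_le_log (by exact_mod_cast (by omega : 0 < x)) (by exact_mod_cast hx.2)
      linarith)
    have hce := cor_eq z N x hx.2 A D (by omega)
    rw [← hX] at hce
    have hcv := conv N x (by omega) hx.2 (Ioc A D) (by
      intro n hn
      rw [mem_Ioc] at hn
      rw [mem_Icc]; omega)
    set S := ∑ n ∈ Ioc A D, vonMangoldt n * vonMangoldt (n + 2 * x) with hS
    set cnt := ((Ioc A D).filter (fun n => n.Prime ∧ (n + 2 * x).Prime)).card with hcnt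
    have h4N : Real.log ((4 * N : ℕ) : ℝ) ≤ 2 * L := by
      push_cast
      rw [Real.log_mul (by norm_num) hN0.ne', show (4 : ℝ) = 2 ^ 2 by norm_num, Real.log_pow]
      push_cast
      linarith
    have h4N0 : 0 ≤ Real.log ((4 * N : ℕ) : ℝ) := Real.log_natCast_nonneg _
    have hSlow : FF x * N / 24 ≤ S := by
      have h1 : FF x / 4 * (N / 3) ≤ SK z ((2 * x : ℕ) : ℤ) * ((D : ℝ) - A) :=
        mul_le_mul hlow hlen (by positivity) (le_trans (by positivity) hlow)
      have h2 := (abs_le.1 hcor').1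
      have h3 : 4 * (N : ℝ) / L ≤ FF x * N / 24 := by
        rw [div_le_div_iff₀ (by linarith) (by norm_num)]
        have h0 : 96 ≤ FF x * L := by nlinarith
        have h00 := mul_le_mul_of_nonneg_right h0 hN0.le
        linarith
      have h4 : 2 * (N : ℝ) / L + 2 * N / L = 4 * N / L := by ring
      have h5 : FF x / 4 * ((N : ℝ) / 3) = FF x * N / 24 + FF x * N / 24 := by ring
      rw [hce]
      linarith
    have hup : S ≤ (2 * L) ^ 2 * cnt + FF x * N / 48 := by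
      refine hcv.trans ?_
      have h1 : Real.log ((4 * N : ℕ) : ℝ) ^ 2 * cnt ≤ (2 * L) ^ 2 * cnt :=
        mul_le_mul_of_nonneg_right (pow_le_pow_left₀ h4N0 h4N 2) (by positivity)
      have h2 : 2 * Real.log ((4 * N : ℕ) : ℝ) * NP (4 * N) ≤ FF x * N / 48 := by
        have h3 := NP_nonneg (4 * N)
        calc 2 * Real.log ((4 * N : ℕ) : ℝ) * NP (4 * N) ≤ 2 * (2 * L) * NP (4 * N) := by
              apply mul_le_mul_of_nonneg_right _ h3
              linarith
          _ = (768 * L * NP (4 * N)) / 192 := by ring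
          _ ≤ N / 192 := by linarith
          _ ≤ FF x * N / 48 := by nlinarith
      linarith
    have hcc1 : FF x * N / 48 ≤ (2 * L) ^ 2 * cnt := by linarith
    have hc2 : 1 / 192 * (FF x * (N / L ^ 2)) ≤ (cnt : ℝ) := by
      have h1 : 1 / 192 * (FF x * (N / L ^ 2)) = (FF x * N / 48) / (2 * L) ^ 2 := by
        field_simp
        norm_num
      rw [h1, div_le_iff₀ (by positivity)]
      linarith
    refine hc2.trans ?_
    have hinj : cnt ≤ ((Ioc N (2 * N)).filter (fun n => pr x n)).card := by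
      rw [hcnt]
      apply card_le_card_of_injOn (fun n => n + x)
      · intro n hn
        rw [mem_coe, mem_filter] at hn
        rw [mem_coe, mem_filter]
        refine ⟨hwin n hn.1, ?_, ?_⟩
        · have : x + (n + x) = n + 2 * x := by ring
          rw [this]
          exact hn.2.2
        · have : Nat.dist x (n + x) = n := by rw [Nat.dist]; omega
          rw [this]
          exact hn.2.1
      · intro a _ b _ h
        simpa using h
    exact_mod_cast hinj
  by_cases hcase : x ≤ N / 2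
  · apply key N (N + N / 2) (by omega) (by omega) (by omega)
    · push_cast
      have h1 : (N : ℝ) ≤ 2 * ((N / 2 : ℕ) : ℝ) + 1 := by
        have : N ≤ 2 * (N / 2) + 1 := by omega
        exact_mod_cast this
      have h2 : (3 : ℝ) ≤ N := by
        by_contra hcon
        push Not at hcon
        have : L ≤ Real.log 3 := Real.log_le_log hN0 hcon.le
        have h3 : Real.log 3 ≤ 3 - 1 := Real.log_le_sub_one_of_pos (by norm_num)
        linarith
      linarith
    · exact hc0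
    · intro n hn
      rw [mem_Ioc] at hn ⊢
      omega
  · apply key (N / 2) N (by omega) (by omega) (by omega)
    · have h1 : 2 * ((N / 2 : ℕ) : ℝ) ≤ N := by
        have : 2 * (N / 2) ≤ N := by omega
        exact_mod_cast this
      linarith
    · exact hc1
    · intro n hn
      rw [mem_Ioc] at hn ⊢
      omega


lemma energy_two (p Q : ℕ) (s : ℕ → ℤ) : energy p Q (fun m => 2 * s m) = energy p Q s := by
  classical
  unfold energy
  congr 1
  apply filter_congr
  intro q _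
  rw [← mul_sum, ← mul_sum]
  constructor
  · intro h; linarith
  · intro h; rw [h]

/-- the correlation as the sum in `lam_e` -/
lemma cor_lam (z N : ℕ) (I : Finset ℕ) (hI : I ⊆ Icc 1 (2 * N)) (L2 : ℝ) (x : ℤ) (hx : 1 ≤ x ∧ x ≤ N) :
    ∑ a ∈ Icc 1 (2 * N), (if a ∈ I then ((vonMangoldt a / L2 : ℝ) : ℂ) else 0) * ((lamI (a + 2 * x) - lamzI z (a + 2 * x) : ℝ) : ℂ) =
      ((cor z (6 * (2 * N)) 1 I (2 * x) / L2 : ℝ) : ℂ) := by
  classical
  have h1 : ∑ a ∈ Icc 1 (2 * N), (if a ∈ I then ((vonMangoldt a / L2 : ℝ) : ℂ) else 0) * ((lamI (a + 2 * x) - lamzI z (a + 2 * x) : ℝ) : ℂ) =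
      ∑ a ∈ I, (((vonMangoldt a * (lamI (a + 2 * x) - lamzI z (a + 2 * x))) / L2 : ℝ) : ℂ) := by
    rw [← sum_subset hI]
    · apply sum_congr rfl
      intro a ha
      rw [if_pos ha]
      push_cast
      ring
    · intro a _ ha
      rw [if_neg ha, zero_mul]
  rw [h1, ← Complex.ofReal_sum]
  congr 1
  unfold cor
  rw [sum_div]
  apply sum_congr rfl
  intro a ha
  have h2 := mem_Icc.1 (hI ha)
  congr 2
  unfold hh lamI lamzI
  have h3 : 1 ≤ 1 * (a : ℤ) + 2 * x ∧ 1 * (a : ℤ) + 2 * x ≤ ((6 * (2 * N) : ℕ) : ℤ) := by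
    push_cast
    constructor <;> omega
  rw [if_pos h3, if_pos (by omega), if_pos (by omega), one_mul]

theorem pairs_fam (p B C U : ℕ) : ∃ N0 : ℕ, ∀ N : ℕ, N0 ≤ N → ∀ (Q : ℕ) (s : ℕ → ℤ), (∀ m ∈ Icc 1 Q, |s m| ≤ B * N) →
    (energy p Q s : ℝ) * N ≤ Real.log N ^ C * (Q : ℝ) ^ (2 * p) →
    (((T0 Q N s).filter (fun m => ¬ 1 / 192 * (FF (s m).toNat * (N / Real.log N ^ 2)) ≤
      (((Ioc N (2 * N)).filter (fun n => pr (s m).toNat n)).card : ℝ))).card : ℝ) ≤ Q / Real.log N ^ U := by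
  classical
  obtain ⟨B0, hB0⟩ := Pool.Agent.H560R3.GB.lam_e p (2 * B + 2) C (U + 3)
  obtain ⟨N1, h1⟩ := hB0 (B0 + 4)
  obtain ⟨N2, h2⟩ := pairs_key (B0 + 4)
  obtain ⟨N3, h3⟩ := ev_L2 8
  refine ⟨max (max N1 N2) N3, fun N hN Q s hs hE => ?_⟩
  have hNN1 : N1 ≤ N := le_trans (le_trans (le_max_left _ _) (le_max_left _ _)) hN
  have hNN2 : N2 ≤ N := le_trans (le_trans (le_max_right _ _) (le_max_left _ _)) hN
  obtain ⟨hN2, hL8', hL96, _⟩ := h3 N (le_trans (le_max_right _ _) hN)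
  have hL8 : (8 : ℝ) ≤ Real.log N := by exact_mod_cast hL8'
  have hNr : (2 : ℝ) ≤ N := by exact_mod_cast hN2
  have hN0 : (0 : ℝ) < N := by linarith
  set L := Real.log N with hL
  have hL0 : 0 < L := by linarith
  set z : ℕ := ⌈L ^ (B0 + 2)⌉₊ with hz
  have hzge : L ^ (B0 + 2) ≤ z := Nat.le_ceil _
  have hzle : (z : ℝ) ≤ L ^ (B0 + 2) + 1 := (Nat.ceil_lt_add_one (by positivity)).le
  have hLp : (1 : ℝ) ≤ L ^ (B0 + 2) := one_le_pow₀ (by linarith)
  have hz1 : L ^ B0 ≤ z := (pow_le_pow_right₀ (by linarith) (by omega)).trans hzge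
  have hz2 : (z : ℝ) ≤ L ^ (B0 + 4) := by
    have e1 : L ^ (B0 + 4) = L ^ (B0 + 2) * L ^ 2 := by rw [← pow_add]
    rw [e1]
    have e2 : (2 : ℝ) ≤ L ^ 2 := by nlinarith
    have e3 := mul_le_mul_of_nonneg_left e2 (show (0 : ℝ) ≤ L ^ (B0 + 2) by positivity)
    linarith
  have hz4 : 8 * L ≤ z := by
    refine le_trans ?_ hzge
    have e1 : L ^ (B0 + 2) = L ^ B0 * L ^ 2 := pow_add _ _ _
    have e2 : (1 : ℝ) ≤ L ^ B0 := one_le_pow₀ (by linarith)
    rw [e1]
    have e3 := mul_le_mul_of_nonneg_right e2 (show (0 : ℝ) ≤ L ^ 2 by positivity)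
    nlinarith
  set L2 : ℝ := Real.log (2 * N : ℕ) with hL2
  have hL2e : L2 = Real.log 2 + L := by
    rw [hL2]; push_cast; rw [Real.log_mul (by norm_num) hN0.ne']
  have hl2 : Real.log 2 ≤ 1 := by have := Real.log_two_lt_d9; linarith
  have hl20 : 0 ≤ Real.log 2 := Real.log_nonneg (by norm_num)
  have hL20 : 0 < L2 := by rw [hL2e]; linarith
  have hL2le : L2 ≤ 2 * L := by rw [hL2e]; linarith
  -- one window
  have hwin : ∀ I : Finset ℕ, I ⊆ Icc 1 (2 * N) →
      (((T0 Q N s).filter (fun m => 2 * N / L < |cor z (6 * (2 * N)) 1 I ((2 * (s m).toNat : ℕ) : ℤ)|)).card : ℝ) ≤ Q / L ^ (U + 1) := by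
    intro I hI
    have hm := h1 N hNN1 Q (fun m => 2 * s m) (by
      intro m hm
      have := hs m hm
      have h4 := abs_le.1 this
      push_cast
      rw [abs_le]
      constructor <;> nlinarith) (by rw [energy_two]; exact hE) (2 * N) (by
        have : 2 ≤ 2 * B + 2 := by omega
        exact Nat.mul_le_mul_right _ this) z hz1 hz2 (fun a => if a ∈ I then ((vonMangoldt a / L2 : ℝ) : ℂ) else 0) (by
        intro a
        split_ifs with ha
        · have h4 := mem_Icc.1 (hI ha)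
          rw [Complex.norm_real, Real.norm_of_nonneg (div_nonneg ArithmeticFunction.vonMangoldt_nonneg hL20.le), div_le_one hL20]
          refine ArithmeticFunction.vonMangoldt_le_log.trans ?_
          apply Real.log_le_log (by exact_mod_cast h4.1)
          exact_mod_cast h4.2
        · simp)
    set T := (T0 Q N s).filter (fun m => 2 * N / L < |cor z (6 * (2 * N)) 1 I ((2 * (s m).toNat : ℕ) : ℤ)|) with hT
    have hTm : ∀ m ∈ T, (1 ≤ m ∧ m ≤ Q) ∧ (1 ≤ s m ∧ s m ≤ N) ∧ 2 * N / L < |cor z (6 * (2 * N)) 1 I ((2 * (s m).toNat : ℕ) : ℤ)| := by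
      intro m hm
      rw [hT, mem_filter, T0, mem_filter, mem_Icc] at hm
      exact ⟨hm.1.1, hm.1.2, hm.2⟩
    have hlow : (T.card : ℝ) * (2 * N / L / L2) ≤ N * Q / L ^ (U + 3) := by
      refine le_trans ?_ hm
      have h4 : (T.card : ℝ) * (2 * N / L / L2) = ∑ m ∈ T, (2 * N / L / L2) := by rw [sum_const, nsmul_eq_mul]
      rw [h4]
      refine le_trans ?_ (sum_le_sum_of_subset_of_nonneg (s := T) ?_ (fun m _ _ => norm_nonneg _))
      · apply sum_le_sum
        intro m hm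
        obtain ⟨_, b1, b2⟩ := hTm m hm
        have h5 := cor_lam z N I hI L2 (s m) b1
        rw [h5, Complex.norm_real, Real.norm_eq_abs, abs_div, abs_of_pos hL20]
        apply div_le_div_of_nonneg_right _ hL20.le
        have h6 : ((2 * (s m).toNat : ℕ) : ℤ) = 2 * s m := by
          push_cast
          rw [Int.toNat_of_nonneg (by omega)]
        rw [h6] at b2
        exact b2.le
      · intro m hm
        exact mem_Icc.2 (hTm m hm).1
    have h7 : (T.card : ℝ) ≤ (N * Q / L ^ (U + 3)) / (2 * N / L / L2) := by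
      rw [le_div_iff₀ (by positivity)]
      exact hlow
    refine h7.trans ?_
    have h8 : (N * Q / L ^ (U + 3)) / (2 * N / L / L2) = Q / L ^ (U + 1) * (L2 / (2 * L)) := by
      have e1 : L ^ (U + 3) = L ^ (U + 1) * L ^ 2 := by rw [← pow_add]
      rw [e1]
      field_simp
    rw [h8]
    have h9 : L2 / (2 * L) ≤ 1 := by rw [div_le_one (by positivity)]; exact hL2le
    have h10 : 0 ≤ (Q : ℝ) / L ^ (U + 1) := by positivity
    nlinarith
  have hI0 : Ioc N (N + N / 2) ⊆ Icc 1 (2 * N) := by intro n hn; rw [mem_Ioc] at hn; rw [mem_Icc]; omega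
  have hI1 : Ioc (N / 2) N ⊆ Icc 1 (2 * N) := by intro n hn; rw [mem_Ioc] at hn; rw [mem_Icc]; omega
  have hw0 := hwin _ hI0
  have hw1 := hwin _ hI1
  have hsub : (T0 Q N s).filter (fun m => ¬ 1 / 192 * (FF (s m).toNat * (N / L ^ 2)) ≤
      (((Ioc N (2 * N)).filter (fun n => pr (s m).toNat n)).card : ℝ)) ⊆
      (T0 Q N s).filter (fun m => 2 * N / L < |cor z (6 * (2 * N)) 1 (Ioc N (N + N / 2)) ((2 * (s m).toNat : ℕ) : ℤ)|) ∪
      (T0 Q N s).filter (fun m => 2 * N / L < |cor z (6 * (2 * N)) 1 (Ioc (N / 2) N) ((2 * (s m).toNat : ℕ) : ℤ)|) := by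
    intro m hm
    rw [mem_filter] at hm
    rw [mem_union, mem_filter, mem_filter]
    by_contra hcon
    push Not at hcon
    apply hm.2
    have hm1 := hm.1
    rw [T0, mem_filter, mem_Icc] at hm1
    exact h2 N hNN2 z hz4 hz2 (s m).toNat (by rw [mem_Icc]; omega) (hcon.1 hm.1) (hcon.2 hm.1)
  have hcard := (card_le_card hsub).trans (card_union_le _ _)
  have hcard' : (((T0 Q N s).filter (fun m => ¬ 1 / 192 * (FF (s m).toNat * (N / L ^ 2)) ≤
      (((Ioc N (2 * N)).filter (fun n => pr (s m).toNat n)).card : ℝ))).card : ℝ) ≤ Q / L ^ (U + 1) + Q / L ^ (U + 1) := by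
    refine le_trans (by exact_mod_cast hcard) (add_le_add hw0 hw1)
  refine hcard'.trans ?_
  have e1 : L ^ (U + 1) = L ^ U * L := pow_succ _ _
  rw [e1]
  have h11 : (Q : ℝ) / (L ^ U * L) + Q / (L ^ U * L) = Q / L ^ U * (2 / L) := by field_simp; ring
  rw [h11]
  have h12 : 2 / L ≤ 1 := by rw [div_le_one hL0]; linarith
  have h13 : 0 ≤ (Q : ℝ) / L ^ U := by positivity
  nlinarith

end Pool.Agent.L0h44.AS
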