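import Pool.Agent.L0h44.AS.TF5
import Pool.Agent.L0h44.AS.TF6
import Pool.Agent.L0h44.AS.ArbX

set_option autoImplicit false

/-! The solutions `x` in an arbitrary dense part of a thin family: the lower bound. -/

namespace Pool.Agent.L0h44.AS

open Finset Filter
open Pool.Agent.H373R2.T7 (energy)

lemma energy_ge (p Q : ℕ) (s : ℕ → ℤ) : Q ^ p ≤ energy p Q s := by
  classical
  unfold energy
  have h1 : (Fintype.piFinset (fun _ : Fin p => Icc 1 Q)).card = Q ^ p := by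
    rw [Fintype.card_piFinset, prod_const, card_univ, Fintype.card_fin, Nat.card_Icc]
    simp
  rw [← h1]
  apply card_le_card_of_injOn (fun v => (v, v))
  · intro v hv
    rw [mem_coe] at hv
    rw [mem_coe, mem_filter, mem_product]
    exact ⟨⟨hv, hv⟩, rfl⟩
  · intro v _ v' _ h
    exact (Prod.mk.inj h).1

lemma FF_HH (w x : ℕ) (hx : 0 < x) : FF x ≤ 2 ^ w * HH w x := by
  classical
  rw [FF_eq x hx, ← prod_filter_mul_prod_filter_not x.primeFactors (fun p => w < p), mul_comm]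
  have hinv : ∀ p : ℕ, p.Prime → 0 ≤ (1 - 1 / (p : ℝ))⁻¹ ∧ (1 - 1 / (p : ℝ))⁻¹ ≤ 2 ∧ (1 - 1 / (p : ℝ))⁻¹ ≤ 1 + 10 / (p : ℝ) := by
    intro p hp
    have hp2 : (2 : ℝ) ≤ p := by exact_mod_cast hp.two_le
    have hp0 : (0 : ℝ) < p := by linarith
    have hx1 : 1 / (p : ℝ) ≤ 1 / 2 := by rw [div_le_div_iff₀ hp0 (by norm_num)]; linarith
    have hx2 : 0 < 1 / (p : ℝ) := by positivity
    have h10 : 10 / (p : ℝ) = 10 * (1 / p) := by ring
    refine ⟨inv_nonneg.2 (by linarith), ?_, ?_⟩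
    · rw [inv_le_comm₀ (by linarith) (by norm_num)]
      linarith
    · rw [inv_le_iff_one_le_mul₀ (by linarith), h10]
      nlinarith
  apply mul_le_mul
  · calc ∏ p ∈ x.primeFactors.filter (fun p => ¬ w < p), (1 - 1 / (p : ℝ))⁻¹ ≤ ∏ _p ∈ x.primeFactors.filter (fun p => ¬ w < p), (2 : ℝ) := by
          apply Finset.prod_le_prod
          · intro p hp
            exact (hinv p (Nat.prime_of_mem_primeFactors (mem_filter.1 hp).1)).1
          · intro p hp
            exact (hinv p (Nat.prime_of_mem_primeFactors (mem_filter.1 hp).1)).2.1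
      _ = 2 ^ (x.primeFactors.filter (fun p => ¬ w < p)).card := by rw [prod_const]
      _ ≤ 2 ^ w := by
          apply pow_le_pow_right₀ (by norm_num)
          have h1 : x.primeFactors.filter (fun p => ¬ w < p) ⊆ Icc 1 w := by
            intro p hp
            rw [mem_filter] at hp
            rw [mem_Icc]
            exact ⟨(Nat.prime_of_mem_primeFactors hp.1).one_lt.le, by omega⟩
          have h2 := card_le_card h1
          rw [Nat.card_Icc] at h2
          omega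
  · unfold HH
    apply Finset.prod_le_prod
    · intro p hp
      exact (hinv p (Nat.prime_of_mem_primeFactors (mem_filter.1 hp).1)).1
    · intro p hp
      exact (hinv p (Nat.prime_of_mem_primeFactors (mem_filter.1 hp).1)).2.2
  · apply prod_nonneg
    intro p hp
    exact (hinv p (Nat.prime_of_mem_primeFactors (mem_filter.1 hp).1)).1
  · positivity

theorem FF_fam (p : ℕ) (hp : 1 ≤ p) (K : ℝ) (hK : 1 ≤ K) : ∃ CF : ℝ, 1 ≤ CF ∧ ∀ (Q N : ℕ) (s : ℕ → ℤ),
    (energy p Q s : ℝ) * N ≤ K * (Q : ℝ) ^ (2 * p) → ∑ x ∈ AA Q N s, FF x ^ 2 ≤ CF * Q := by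
  classical
  set w := (80 * p) ^ (2 * p) with hw
  have hR : 1 ≤ 3 * ((p + 2) * K) := by
    have : (0 : ℝ) ≤ p := Nat.cast_nonneg _
    nlinarith
  refine ⟨4 ^ w * (3 * ((p + 2) * K)), ?_, ?_⟩
  · have : (1 : ℝ) ≤ 4 ^ w := one_le_pow₀ (by norm_num)
    nlinarith
  intro Q N s hE
  have h1 := mom_fam p hp K hK 2 w Q N (by norm_num) (by
    rw [hw]
    apply Nat.pow_le_pow_left
    have : 40 * p * 2 = 80 * p := by ring
    omega) s hE 0 (by simp)
  have h2 : ∑ x ∈ AA Q N s, FF x ^ 2 ≤ ∑ m ∈ T0 Q N s, FF (s m).toNat ^ 2 := by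
    unfold AA
    exact sum_image_le' (T0 Q N s) (fun m => (s m).toNat) (fun x => FF x ^ 2) (fun _ => by positivity)
  refine h2.trans ?_
  have h3 : ∀ m ∈ T0 Q N s, FF (s m).toNat ^ 2 ≤ 4 ^ w * HH w (s m + 0).natAbs ^ 2 := by
    intro m hm
    rw [T0, mem_filter] at hm
    have e1 : (s m + 0).natAbs = (s m).toNat := by omega
    rw [e1]
    have h4 := FF_HH w (s m).toNat (by omega)
    have h5 := FF_nonneg (s m).toNat
    calc FF (s m).toNat ^ 2 ≤ (2 ^ w * HH w (s m).toNat) ^ 2 := pow_le_pow_left₀ h5 h4 2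
      _ = (2 ^ w) ^ 2 * HH w (s m).toNat ^ 2 := by ring
      _ = _ := by rw [← pow_mul, mul_comm w 2, pow_mul]; norm_num
  refine (sum_le_sum h3).trans ?_
  rw [← mul_sum, mul_assoc]
  apply mul_le_mul_of_nonneg_left h1 (by positivity)

lemma ev_fam (p B : ℕ) (_hp : 1 ≤ p) (c K K2 : ℝ) (hc : 0 < c) (hK : 0 < K) (hK2 : 0 < K2) :
    ∃ N0 : ℕ, ∀ N : ℕ, N0 ≤ N → 3 ≤ N ∧ K ≤ Real.log N ∧
    K * ((2 * N : ℕ) : ℝ) ^ (4 / 5 : ℝ) ≤ c * (N / Real.log N ^ 2) ∧
    K2 * (Real.log N ^ B) ^ p * (K * Real.log N ^ 2) ^ (2 * p) ≤ N := by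
  obtain ⟨N1, h1⟩ := ev3 c K hc hK
  have h2 : ∀ᶠ x : ℝ in atTop, K2 * (Real.log x ^ B) ^ p * (K * Real.log x ^ 2) ^ (2 * p) ≤ x := by
    have h3 := (Real.isLittleO_pow_log_id_atTop (n := B * p + 2 * (2 * p))).bound (c := 1 / (K2 * K ^ (2 * p))) (by positivity)
    filter_upwards [h3, eventually_ge_atTop (1 : ℝ)] with x hx hx1
    have hl : 0 ≤ Real.log x := Real.log_nonneg hx1
    rw [Real.norm_of_nonneg (by positivity), id, Real.norm_of_nonneg (by linarith), one_div, ← div_eq_inv_mul, le_div_iff₀ (by positivity)] at hx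
    refine le_trans (le_of_eq ?_) hx
    rw [mul_pow, ← pow_mul, ← pow_mul, pow_add]
    ring
  obtain ⟨N2, h3⟩ := eventually_atTop.1 (tendsto_natCast_atTop_atTop (R := ℝ) |>.eventually h2)
  refine ⟨max N1 N2, fun N hN => ?_⟩
  obtain ⟨a, b, d⟩ := h1 N (le_trans (le_max_left _ _) hN)
  exact ⟨a, b, d, h3 N (le_trans (le_max_right _ _) hN)⟩

theorem fam_lower (p : ℕ) (hp : 1 ≤ p) (K : ℝ) (hK : 1 ≤ K) (Bf : ℕ) : ∃ c : ℝ, 0 < c ∧ ∀ B : ℕ, ∃ N0 : ℕ, ∀ N : ℕ, N0 ≤ N →
    ∀ (Q : ℕ) (s : ℕ → ℤ), (∀ m ∈ Icc 1 Q, |s m| ≤ Bf * N) → (energy p Q s : ℝ) * N ≤ K * (Q : ℝ) ^ (2 * p) →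
    ∀ U : Finset ℕ, U ⊆ AA Q N s → 1 ≤ Q → (Q : ℝ) / Real.log N ^ B ≤ U.card →
    c * (N / Real.log (Real.log (16 * Q / U.card)) ^ 2) ≤
      ((Ioc N (2 * N)).filter (fun n => c * ((∑ x ∈ U, FF x) / Real.log N ^ 2) ≤ (U.filter (fun x => pr x n)).card)).card := by
  classical
  set c1 : ℝ := 1 / 192 with hc1d
  have hc1 : 0 < c1 := by norm_num [hc1d]
  obtain ⟨C, hC1, hcore⟩ := core_gen p hp (2 * K) (by linarith)
  obtain ⟨CF, hCF1, hCF⟩ := FF_fam p hp K hK
  obtain ⟨KN, hKN⟩ := exists_nat_ge K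
  refine ⟨min (c1 / 8) (2 * (c1 / (8 * C)) ^ 2), by positivity, fun B => ?_⟩
  obtain ⟨N1, hN1⟩ := pairs_fam p Bf 1 (2 * B + 2)
  obtain ⟨M1, hM1⟩ := hcore B
  obtain ⟨N2, hN2⟩ := ev_fam p B hp (c1 / 16) (32 * C / c1 + C + 2 * CF + 2 + KN) K (by positivity) (by positivity) (by linarith)
  refine ⟨max (max N1 M1) N2, fun N hN Q s hs hE U hU hQ1 hUc => ?_⟩
  obtain ⟨hN3, hLK, herr, hbig⟩ := hN2 N (le_trans (le_max_right _ _) hN)
  have hNM1 : M1 ≤ 2 * N := le_trans (le_trans (le_trans (le_max_right _ _) (le_max_left _ _)) hN) (by omega)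
  have hNr : (3 : ℝ) ≤ N := by exact_mod_cast hN3
  have hN0 : (0 : ℝ) < N := by linarith
  set L := Real.log N with hL
  have hKN0 : (0 : ℝ) ≤ KN := Nat.cast_nonneg _
  have hC32 : 0 < 32 * C / c1 := by positivity
  have hL1 : 2 ≤ L := by linarith
  have hQ0 : (0 : ℝ) < Q := by exact_mod_cast hQ1
  have hpairs := hN1 N (le_trans (le_trans (le_max_left _ _) (le_max_left _ _)) hN) Q s hs (by
    refine hE.trans ?_
    rw [pow_one]
    apply mul_le_mul_of_nonneg_right _ (by positivity)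
    linarith)
  have hUpos : (0 : ℝ) < U.card := lt_of_lt_of_le (by positivity) hUc
  have hU1 : 1 ≤ U.card := by exact_mod_cast hUpos
  have hUN := hU.trans (AA_sub Q N s)
  have hUQ : (U.card : ℝ) ≤ Q := by exact_mod_cast (card_le_card hU).trans (AA_card Q N s)
  set F : ℝ := ∑ x ∈ U, FF x with hF
  have hFU : (U.card : ℝ) ≤ F := by
    calc (U.card : ℝ) = ∑ u ∈ U, (1 : ℝ) := by simp
      _ ≤ _ := sum_le_sum (fun u hu => one_le_FF u (by have := mem_Icc.1 (hUN hu); omega))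
  have hF0 : 0 < F := lt_of_lt_of_le hUpos hFU
  set I := Ioc N (2 * N) with hI
  set Bad : Finset ℕ := U.filter (fun x => ¬ c1 * (FF x * (N / L ^ 2)) ≤ ((I.filter (fun n => pr x n)).card : ℝ)) with hBad
  have hBadc : (Bad.card : ℝ) ≤ Q / L ^ (2 * B + 2) := by
    refine le_trans ?_ hpairs
    have h1 : Bad.card ≤ ((T0 Q N s).filter (fun m => ¬ 1 / 192 * (FF (s m).toNat * (N / L ^ 2)) ≤
      (((Ioc N (2 * N)).filter (fun n => pr (s m).toNat n)).card : ℝ))).card := by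
      refine le_trans (card_le_card (t := ((T0 Q N s).filter (fun m => ¬ 1 / 192 * (FF (s m).toNat * (N / L ^ 2)) ≤
      (((Ioc N (2 * N)).filter (fun n => pr (s m).toNat n)).card : ℝ))).image (fun m => (s m).toNat)) ?_) card_image_le
      intro x hx
      rw [hBad, mem_filter] at hx
      have h2 := hU hx.1
      rw [AA, mem_image] at h2
      obtain ⟨m, hm, rfl⟩ := h2
      rw [mem_image]
      exact ⟨m, mem_filter.2 ⟨hm, hx.2⟩, rfl⟩
    exact_mod_cast h1
  -- the lower bound for all the edges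
  have hlow : c1 * (F / 2 * (N / L ^ 2)) ≤ (ee U I : ℝ) := by
    have hexc : ∑ x ∈ Bad, FF x ≤ F / 2 := by
      have h1 : (∑ n ∈ Bad, FF n) ^ 2 ≤ Bad.card * ∑ n ∈ Bad, FF n ^ 2 := sq_sum_le_card_mul_sum_sq
      have h2 : ∑ n ∈ Bad, FF n ^ 2 ≤ CF * Q :=
        (sum_le_sum_of_subset_of_nonneg ((filter_subset _ _).trans hU) (fun n _ _ => by positivity)).trans (hCF Q N s hE)
      have h3 : (∑ n ∈ Bad, FF n) ^ 2 ≤ (CF * (Q / L ^ (B + 1))) ^ 2 := by
        calc (∑ n ∈ Bad, FF n) ^ 2 ≤ (Q / L ^ (2 * B + 2)) * (CF * Q) :=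
              h1.trans (mul_le_mul hBadc h2 (sum_nonneg (fun _ _ => by positivity)) (by positivity))
          _ = CF * (Q / L ^ (B + 1)) ^ 2 := by
              rw [div_pow, ← pow_mul, show (B + 1) * 2 = 2 * B + 2 by ring]
              ring
          _ ≤ CF ^ 2 * (Q / L ^ (B + 1)) ^ 2 := by
              apply mul_le_mul_of_nonneg_right _ (by positivity)
              nlinarith
          _ = _ := by ring
      have h4 := (abs_le_of_sq_le_sq' h3 (by positivity)).2
      calc ∑ n ∈ Bad, FF n ≤ CF * (Q / L ^ (B + 1)) := h4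
        _ = (CF / L) * (Q / L ^ B) := by rw [pow_succ]; field_simp
        _ ≤ (1 / 2) * (Q / L ^ B) := by
            apply mul_le_mul_of_nonneg_right _ (by positivity)
            rw [div_le_div_iff₀ (by linarith) (by norm_num)]
            linarith
        _ ≤ (1 / 2) * F := by
            apply mul_le_mul_of_nonneg_left (hUc.trans hFU) (by norm_num)
        _ = F / 2 := by ring
    have hsplit : ∑ x ∈ U.filter (fun x => c1 * (FF x * (N / L ^ 2)) ≤ ((I.filter (fun n => pr x n)).card : ℝ)), FF x +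
        ∑ x ∈ Bad, FF x = F := sum_filter_add_sum_filter_not _ _ _
    have hge : F / 2 ≤ ∑ x ∈ U.filter (fun x => c1 * (FF x * (N / L ^ 2)) ≤ ((I.filter (fun n => pr x n)).card : ℝ)), FF x := by linarith
    rw [ee_sum_left]
    push_cast
    calc c1 * (F / 2 * (N / L ^ 2)) ≤
          c1 * ((∑ x ∈ U.filter (fun x => c1 * (FF x * (N / L ^ 2)) ≤ ((I.filter (fun n => pr x n)).card : ℝ)), FF x) * (N / L ^ 2)) := by
          apply mul_le_mul_of_nonneg_left _ hc1.le
          exact mul_le_mul_of_nonneg_right hge (by positivity)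
      _ = ∑ x ∈ U.filter (fun x => c1 * (FF x * (N / L ^ 2)) ≤ ((I.filter (fun n => pr x n)).card : ℝ)), c1 * (FF x * (N / L ^ 2)) := by
          rw [sum_mul, mul_sum]
      _ ≤ ∑ x ∈ U.filter (fun x => c1 * (FF x * (N / L ^ 2)) ≤ ((I.filter (fun n => pr x n)).card : ℝ)), ((I.filter (fun v => pr x v)).card : ℝ) := by
          apply sum_le_sum
          intro x hx
          exact (mem_filter.1 hx).2
      _ ≤ _ := by
          apply sum_le_sum_of_subset_of_nonneg (filter_subset _ _)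
          intro x _ _
          positivity
  -- the two parts
  set c := min (c1 / 8) (2 * (c1 / (8 * C)) ^ 2) with hc
  have hcc1 : c ≤ c1 / 8 := min_le_left _ _
  have hc0 : 0 < c := by positivity
  set V := I.filter (fun n => c * (F / L ^ 2) ≤ (U.filter (fun x => pr x n)).card) with hV
  have hfew : ∑ v ∈ I.filter (fun n => ¬ c * (F / L ^ 2) ≤ ((U.filter (fun x => pr x n)).card : ℝ)), ((U.filter (fun u => pr u v)).card : ℝ) ≤
      c1 / 8 * (F * (N / L ^ 2)) := by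
    have h1 : ∀ v ∈ I.filter (fun n => ¬ c * (F / L ^ 2) ≤ ((U.filter (fun x => pr x n)).card : ℝ)),
        ((U.filter (fun u => pr u v)).card : ℝ) ≤ c1 / 8 * (F / L ^ 2) := by
      intro v hv
      rw [mem_filter] at hv
      have := hv.2
      push Not at this
      refine this.le.trans ?_
      exact mul_le_mul_of_nonneg_right hcc1 (by positivity)
    refine (sum_le_sum h1).trans ?_
    rw [sum_const, nsmul_eq_mul]
    have h2 : ((I.filter (fun n => ¬ c * (F / L ^ 2) ≤ ((U.filter (fun x => pr x n)).card : ℝ))).card : ℝ) ≤ N := by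
      have h3 : (I.filter (fun n => ¬ c * (F / L ^ 2) ≤ ((U.filter (fun x => pr x n)).card : ℝ))).card ≤ I.card := card_filter_le _ _
      have hIc : I.card = N := by rw [hI, Nat.card_Ioc]; omega
      rw [hIc] at h3
      exact_mod_cast h3
    calc _ ≤ (N : ℝ) * (c1 / 8 * (F / L ^ 2)) := mul_le_mul_of_nonneg_right h2 (by positivity)
      _ = _ := by ring
  have hsum : (ee U I : ℝ) = ee U V + ∑ v ∈ I.filter (fun n => ¬ c * (F / L ^ 2) ≤ ((U.filter (fun x => pr x n)).card : ℝ)), ((U.filter (fun u => pr u v)).card : ℝ) := by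
    rw [ee_sum_right, ee_sum_right, ← sum_filter_add_sum_filter_not I (fun n => c * (F / L ^ 2) ≤ ((U.filter (fun x => pr x n)).card : ℝ))]
    push_cast
    rfl
  -- the upper bound for the edges at `V`
  have hU2 : U ⊆ AA Q (2 * N) s := by
    refine hU.trans ?_
    intro x hx
    rw [AA, mem_image] at hx ⊢
    obtain ⟨m, hm, rfl⟩ := hx
    refine ⟨m, ?_, rfl⟩
    rw [T0, mem_filter] at hm ⊢
    refine ⟨hm.1, hm.2.1, ?_⟩
    push_cast
    omega
  have hV2 : V ⊆ Icc 1 (2 * N) := by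
    intro x hx
    have := mem_Ioc.1 (mem_filter.1 hx).1
    rw [mem_Icc]; omega
  have hl2 : Real.log 2 ≤ 0.7 := by have := Real.log_two_lt_d9; linarith
  have hl20 : 0 ≤ Real.log 2 := Real.log_nonneg (by norm_num)
  have hLM : Real.log ((2 * N : ℕ) : ℝ) = Real.log 2 + L := by
    push_cast
    rw [Real.log_mul (by norm_num) hN0.ne']
  have hE2 : (energy p Q s : ℝ) * ((2 * N : ℕ) : ℝ) ≤ 2 * K * (Q : ℝ) ^ (2 * p) := by
    push_cast
    nlinarith
  have hUc2 : (Q : ℝ) / Real.log ((2 * N : ℕ) : ℝ) ^ B ≤ U.card := by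
    refine le_trans ?_ hUc
    rw [hLM]
    apply div_le_div_of_nonneg_left hQ0.le (by positivity)
    exact pow_le_pow_left₀ (by linarith) (by linarith) _
  have hup := hM1 (2 * N) hNM1 Q s hE2 U V hU2 hV2 hU1 hUc2
  -- `loglog`
  set ℓ := Real.log (Real.log (16 * Q / U.card)) with hℓ
  have hratio : 16 ≤ 16 * Q / (U.card : ℝ) := by
    rw [le_div_iff₀ hUpos]
    linarith
  have hlog16 : (2.77 : ℝ) ≤ Real.log 16 := by
    rw [show (16 : ℝ) = 2 ^ 4 by norm_num, Real.log_pow]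
    have := Real.log_two_gt_d9
    push_cast
    linarith
  have ht1 : 2.77 ≤ Real.log (16 * Q / U.card) := hlog16.trans (Real.log_le_log (by norm_num) hratio)
  have hℓ1 : 1 ≤ ℓ := by
    rw [hℓ, Real.le_log_iff_exp_le (by linarith)]
    have := Real.exp_one_lt_d9
    linarith
  have hsqF : ∑ u ∈ U, √(FF u) ≤ F := by
    apply sum_le_sum
    intro u hu
    have h1 := one_le_FF u (by have := mem_Icc.1 (hUN hu); omega)
    rw [Real.sqrt_le_iff]
    exact ⟨by linarith, by nlinarith⟩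
  set σ := √((V.card : ℝ) / ((2 * N : ℕ) : ℝ)) with hσ
  have hσ0 : 0 ≤ σ := Real.sqrt_nonneg _
  -- the size of `U`
  have hUbig : 32 * C / c1 * L ^ 2 ≤ √(U.card : ℝ) := by
    have h1 : (N : ℝ) ≤ K * (Q : ℝ) ^ p := by
      have h2 : ((Q : ℝ) ^ p) ≤ (energy p Q s : ℝ) := by exact_mod_cast energy_ge p Q s
      have h3 : (Q : ℝ) ^ p * N ≤ K * (Q : ℝ) ^ (2 * p) := (mul_le_mul_of_nonneg_right h2 hN0.le).trans hE
      have h4 : (Q : ℝ) ^ (2 * p) = (Q : ℝ) ^ p * (Q : ℝ) ^ p := by rw [← pow_add]; congr 1; ring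
      rw [h4] at h3
      have h5 : (Q : ℝ) ^ p * N ≤ (Q : ℝ) ^ p * (K * (Q : ℝ) ^ p) := by linarith
      exact le_of_mul_le_mul_left h5 (by positivity)
    set Z : ℝ := 32 * C / c1 + C + 2 * CF + 2 + KN with hZ
    have hZ0 : 0 < Z := by positivity
    have h2 : ((Z * L ^ 2) ^ 2) ^ p ≤ (U.card : ℝ) ^ p := by
      have h3 : (Q : ℝ) ^ p ≤ (L ^ B) ^ p * (U.card : ℝ) ^ p := by
        rw [← mul_pow]
        apply pow_le_pow_left₀ hQ0.le
        rw [div_le_iff₀ (by positivity)] at hUc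
        linarith
      have h4 : K * (L ^ B) ^ p * (Z * L ^ 2) ^ (2 * p) ≤ K * (L ^ B) ^ p * (U.card : ℝ) ^ p := by
        calc K * (L ^ B) ^ p * (Z * L ^ 2) ^ (2 * p) ≤ N := hbig
          _ ≤ K * (Q : ℝ) ^ p := h1
          _ ≤ K * ((L ^ B) ^ p * (U.card : ℝ) ^ p) := mul_le_mul_of_nonneg_left h3 (by linarith)
          _ = _ := by ring
      have h5 := le_of_mul_le_mul_left h4 (by positivity)
      rwa [← pow_mul]
    have h3 : (Z * L ^ 2) ^ 2 ≤ (U.card : ℝ) := le_of_pow_le_pow_left₀ (by omega) (by positivity) h2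
    apply Real.le_sqrt_of_sq_le
    refine le_trans ?_ h3
    apply pow_le_pow_left₀ (by positivity)
    apply mul_le_mul_of_nonneg_right _ (by positivity)
    linarith
  have hup2 : (ee U V : ℝ) ≤ 2 * C * (σ * ℓ) * (F * (N / L ^ 2)) + c1 / 8 * (F * (N / L ^ 2)) := by
    refine hup.trans (add_le_add ?_ ?_)
    · have hMM : ((2 * N : ℕ) : ℝ) / Real.log ((2 * N : ℕ) : ℝ) ^ 2 ≤ 2 * (N / L ^ 2) := by
        rw [hLM]
        push_cast
        rw [mul_div_assoc]
        apply mul_le_mul_of_nonneg_left _ (by norm_num)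
        apply div_le_div_of_nonneg_left (by positivity) (by positivity)
        exact pow_le_pow_left₀ (by linarith) (by linarith) _
      calc C * (σ * ℓ * (((2 * N : ℕ) : ℝ) / Real.log ((2 * N : ℕ) : ℝ) ^ 2) *
            ∑ u ∈ U, √(FF u)) ≤ C * (σ * ℓ * (2 * (N / L ^ 2)) * F) := by
            apply mul_le_mul_of_nonneg_left _ (by linarith)
            apply mul_le_mul _ hsqF (sum_nonneg (fun _ _ => Real.sqrt_nonneg _)) (by positivity)
            exact mul_le_mul_of_nonneg_left hMM (by positivity)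
        _ = _ := by ring
    · have h1 : C * ((2 * N : ℕ) : ℝ) ^ (4 / 5 : ℝ) ≤ c1 / 16 * (N / L ^ 2) := by
        refine le_trans ?_ herr
        exact mul_le_mul_of_nonneg_right (by linarith) (by positivity)
      have h2 : C * (((2 * N : ℕ) : ℝ) * √(U.card : ℝ)) ≤ U.card * (c1 / 16 * (N / L ^ 2)) := by
        have h3 : (√(U.card : ℝ)) * (√(U.card : ℝ)) = U.card := Real.mul_self_sqrt hUpos.le
        have h4 : C * 2 * L ^ 2 ≤ √(U.card : ℝ) * (c1 / 16) := by
          have h5 := mul_le_mul_of_nonneg_right hUbig (show 0 ≤ c1 / 16 by positivity)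
          have h6 : 32 * C / c1 * L ^ 2 * (c1 / 16) = C * 2 * L ^ 2 := by field_simp; ring
          linarith
        push_cast
        calc C * (2 * N * √(U.card : ℝ)) = (C * 2 * L ^ 2) * √(U.card : ℝ) * (N / L ^ 2) := by field_simp
          _ ≤ (√(U.card : ℝ) * (c1 / 16)) * √(U.card : ℝ) * (N / L ^ 2) := by
              apply mul_le_mul_of_nonneg_right _ (by positivity)
              exact mul_le_mul_of_nonneg_right h4 (Real.sqrt_nonneg _)
          _ = (√(U.card : ℝ) * √(U.card : ℝ)) * (c1 / 16 * (N / L ^ 2)) := by ring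
          _ = _ := by rw [h3]
      calc C * (U.card * ((2 * N : ℕ) : ℝ) ^ (4 / 5 : ℝ) + ((2 * N : ℕ) : ℝ) * √(U.card : ℝ)) =
            U.card * (C * ((2 * N : ℕ) : ℝ) ^ (4 / 5 : ℝ)) + C * (((2 * N : ℕ) : ℝ) * √(U.card : ℝ)) := by ring
        _ ≤ U.card * (c1 / 16 * (N / L ^ 2)) + U.card * (c1 / 16 * (N / L ^ 2)) :=
            add_le_add (mul_le_mul_of_nonneg_left h1 hUpos.le) h2
        _ = U.card * (c1 / 8 * (N / L ^ 2)) := by ring
        _ ≤ F * (c1 / 8 * (N / L ^ 2)) := mul_le_mul_of_nonneg_right hFU (by positivity)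
        _ = _ := by ring
  have hY : 0 < F * (N / L ^ 2) := by positivity
  have hkey : c1 / 4 ≤ 2 * C * (σ * ℓ) := by
    have h1 : c1 / 2 * (F * (N / L ^ 2)) ≤ (2 * C * (σ * ℓ) + c1 / 8 + c1 / 8) * (F * (N / L ^ 2)) := by
      calc c1 / 2 * (F * (N / L ^ 2)) = c1 * (F / 2 * (N / L ^ 2)) := by ring
        _ ≤ (ee U I : ℝ) := hlow
        _ ≤ _ := by rw [hsum]; linarith
    have h2 := le_of_mul_le_mul_right h1 hY
    linarith
  have hσ2 : c1 / (8 * C * ℓ) ≤ σ := by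
    rw [div_le_iff₀ (by positivity)]
    calc c1 = 4 * (c1 / 4) := by ring
      _ ≤ 4 * (2 * C * (σ * ℓ)) := mul_le_mul_of_nonneg_left hkey (by norm_num)
      _ = σ * (8 * C * ℓ) := by ring
  have hV3 : (c1 / (8 * C * ℓ)) ^ 2 ≤ (V.card : ℝ) / ((2 * N : ℕ) : ℝ) := by
    have h1 : σ ^ 2 = (V.card : ℝ) / ((2 * N : ℕ) : ℝ) := Real.sq_sqrt (by positivity)
    rw [← h1]
    exact pow_le_pow_left₀ (by positivity) hσ2 2
  calc c * (N / ℓ ^ 2) ≤ (2 * (c1 / (8 * C)) ^ 2) * (N / ℓ ^ 2) := mul_le_mul_of_nonneg_right (min_le_right _ _) (by positivity)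
    _ = (c1 / (8 * C * ℓ)) ^ 2 * ((2 * N : ℕ) : ℝ) := by
        push_cast
        field_simp
    _ ≤ (V.card : ℝ) := by
        rwa [le_div_iff₀ (by positivity)] at hV3

end Pool.Agent.L0h44.AS
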