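import Pool.Agent.L0h44.AS.TF7
import Pool.Agent.H373R2.T7.BilE

set_option autoImplicit false

/-! The values of a polynomial. -/

namespace Pool.Agent.L0h44.AS

open Finset Polynomial
open Pool.Agent.H373R2.T7 (energy energy_poly)

/-- the sum of the absolute values of the coefficients -/
def cA (f : ℤ[X]) : ℕ := ∑ i ∈ range (f.natDegree + 1), (f.coeff i).natAbs

lemma eval_up (f : ℤ[X]) (y : ℕ) (hy : 1 ≤ y) : |f.eval (y : ℤ)| ≤ cA f * (y : ℤ) ^ f.natDegree := by
  rw [eval_eq_sum_range]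
  refine (abs_sum_le_sum_abs _ _).trans ?_
  unfold cA
  push_cast
  rw [sum_mul]
  apply sum_le_sum
  intro i hi
  rw [mem_range] at hi
  rw [abs_mul, abs_pow, abs_of_nonneg (by positivity : (0 : ℤ) ≤ (y : ℤ))]
  apply mul_le_mul_of_nonneg_left _ (abs_nonneg _)
  apply pow_le_pow_right₀ (by exact_mod_cast hy) (by omega)

lemma eval_low (f : ℤ[X]) (hd : 1 ≤ f.natDegree) (hl : 0 < f.leadingCoeff) (y : ℕ) (hy : 2 * cA f ≤ y) :
    (y : ℤ) ^ f.natDegree ≤ 2 * f.eval (y : ℤ) := by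
  obtain ⟨d, hd'⟩ : ∃ d, f.natDegree = d + 1 := ⟨f.natDegree - 1, by omega⟩
  have hA1 : 1 ≤ cA f := by
    have h1 : (f.coeff f.natDegree).natAbs ≤ cA f := by
      unfold cA
      exact single_le_sum (f := fun i => (f.coeff i).natAbs) (fun _ _ => Nat.zero_le _) (mem_range.2 (Nat.lt_succ_self _))
    have h2 : f.coeff f.natDegree = f.leadingCoeff := rfl
    rw [h2] at h1
    omega
  have hy1 : (1 : ℤ) ≤ y := by omega
  rw [eval_eq_sum_range, sum_range_succ, hd']
  have h2 : f.coeff (d + 1) = f.leadingCoeff := by rw [← hd']; rfl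
  rw [h2]
  have h3 : |∑ i ∈ range (d + 1), f.coeff i * (y : ℤ) ^ i| ≤ cA f * (y : ℤ) ^ d := by
    refine (abs_sum_le_sum_abs _ _).trans ?_
    have h4 : ∑ i ∈ range (d + 1), |f.coeff i * (y : ℤ) ^ i| ≤ ∑ i ∈ range (d + 1), |f.coeff i| * (y : ℤ) ^ d := by
      apply sum_le_sum
      intro i hi
      rw [mem_range] at hi
      rw [abs_mul, abs_pow, abs_of_nonneg (by positivity : (0 : ℤ) ≤ (y : ℤ))]
      apply mul_le_mul_of_nonneg_left _ (abs_nonneg _)
      exact pow_le_pow_right₀ hy1 (by omega)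
    refine h4.trans ?_
    rw [← sum_mul]
    apply mul_le_mul_of_nonneg_right _ (by positivity)
    unfold cA
    push_cast
    rw [hd']
    apply sum_le_sum_of_subset_of_nonneg
    · intro i hi
      rw [mem_range] at hi ⊢
      omega
    · intro i _ _
      exact abs_nonneg _
  have h5 := (abs_le.1 h3).1
  have h6 : (0 : ℤ) ≤ (y : ℤ) ^ d := by positivity
  have h7 : 2 * (cA f : ℤ) * (y : ℤ) ^ d ≤ y * (y : ℤ) ^ d := mul_le_mul_of_nonneg_right (by exact_mod_cast hy) h6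
  have h8 : (y : ℤ) * (y : ℤ) ^ d = (y : ℤ) ^ (d + 1) := by ring
  have h9 : (1 : ℤ) * (y : ℤ) ^ (d + 1) ≤ f.leadingCoeff * (y : ℤ) ^ (d + 1) :=
    mul_le_mul_of_nonneg_right (by omega) (by positivity)
  linarith

/-- the size of the range of the indices -/
noncomputable def QQ (d N : ℕ) : ℕ := ⌈3 * (N : ℝ) ^ (1 / (d : ℝ))⌉₊

lemma ev_QQ (d : ℕ) (hd : 1 ≤ d) (a B : ℕ) : ∃ N0 : ℕ, ∀ N : ℕ, N0 ≤ N → 1 ≤ N ∧ (a : ℝ) ≤ (N : ℝ) ^ (1 / (d : ℝ)) ∧
    (B : ℝ) ≤ Real.log N := by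
  have hd0 : (0 : ℝ) < d := by exact_mod_cast hd
  have h1 := (tendsto_rpow_atTop (show 0 < 1 / (d : ℝ) by positivity)).eventually_ge_atTop (a : ℝ)
  have h2 := Real.tendsto_log_atTop.eventually_ge_atTop (B : ℝ)
  have h3 := tendsto_natCast_atTop_atTop (R := ℝ) |>.eventually (h1.and h2)
  obtain ⟨N0, h4⟩ := Filter.eventually_atTop.1 h3
  exact ⟨max N0 1, fun N hN => ⟨le_trans (le_max_right _ _) hN, (h4 N (le_trans (le_max_left _ _) hN)).1,
    (h4 N (le_trans (le_max_left _ _) hN)).2⟩⟩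

lemma rpow_d (d N : ℕ) (hd : 1 ≤ d) : ((N : ℝ) ^ (1 / (d : ℝ))) ^ d = N := by
  have hd0 : (d : ℝ) ≠ 0 := by exact_mod_cast (by omega : d ≠ 0)
  rw [← Real.rpow_natCast, ← Real.rpow_mul (Nat.cast_nonneg _), one_div, inv_mul_cancel₀ hd0, Real.rpow_one]

theorem poly_lower (f : ℤ[X]) (hd : 1 ≤ f.natDegree) (hl : 0 < f.leadingCoeff) :
    ∃ c : ℝ, 0 < c ∧ ∀ B : ℕ, ∃ N0 : ℕ, ∀ N : ℕ, N0 ≤ N →
    ∀ U : Finset ℕ, U ⊆ Icc 1 N → (∀ x ∈ U, ∃ y : ℕ, f.eval (y : ℤ) = x) →
    (N : ℝ) ^ (1 / (f.natDegree : ℝ)) / Real.log N ^ B ≤ U.card →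
    c * (N / Real.log (Real.log (64 * (N : ℝ) ^ (1 / (f.natDegree : ℝ)) / U.card)) ^ 2) ≤
      ((Ioc N (2 * N)).filter (fun n => c * ((∑ x ∈ U, FF x) / Real.log N ^ 2) ≤ (U.filter (fun x => pr x n)).card)).card := by
  classical
  obtain ⟨d, hdd⟩ : ∃ d, d = f.natDegree := ⟨_, rfl⟩
  -- the shifted polynomial
  set g : ℤ[X] := f.comp (X - C 1) with hg
  have hgd : g.natDegree = d := by
    rw [hg, natDegree_comp, natDegree_X_sub_C, mul_one, hdd]
  have hgl : g.leadingCoeff = f.leadingCoeff := by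
    rw [hg, leadingCoeff_comp (by rw [natDegree_X_sub_C]; norm_num), leadingCoeff_X_sub_C, one_pow, mul_one]
  have hgev : ∀ m : ℕ, 1 ≤ m → g.eval (m : ℤ) = f.eval ((m - 1 : ℕ) : ℤ) := by
    intro m hm
    rw [hg, eval_comp]
    congr 1
    simp
    omega
  rw [← hdd] at hd ⊢
  obtain ⟨p0, C0, hC0, hE0⟩ := energy_poly g (by omega) (by rw [hgl]; exact hl)
  have hp : 1 ≤ p0 := by
    by_contra hcon
    have hp0 : p0 = 0 := by omega
    subst hp0
    obtain ⟨x, hx⟩ := exists_nat_gt (max C0 1)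
    have hx1 : (1 : ℝ) < x := (le_max_right _ _).trans_lt hx
    have h1 := hE0 x (by exact_mod_cast hx1.le)
    have h2 : (1 : ℝ) ≤ (energy 0 x (fun m => g.eval (m : ℤ)) : ℝ) := by
      have := energy_ge 0 x (fun m => g.eval (m : ℤ))
      rw [pow_zero] at this
      exact_mod_cast this
    rw [hgd, mul_zero, pow_zero, mul_one] at h1
    have h3 : (x : ℝ) ≤ (x : ℝ) ^ d := le_self_pow₀ hx1.le (by omega)
    have h4 : C0 < x := (le_max_left _ _).trans_lt hx
    nlinarith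
  set K : ℝ := max 1 C0 with hK
  obtain ⟨c, hc, hlow⟩ := fam_lower p0 hp K (le_max_left _ _) (cA g * 4 ^ d)
  refine ⟨c, hc, fun B => ?_⟩
  obtain ⟨N1, h1⟩ := hlow (B + 1)
  obtain ⟨N2, h2⟩ := ev_QQ d hd (2 * cA f + 2) 4
  refine ⟨max N1 N2, fun N hN U hU hUf hUc => ?_⟩
  obtain ⟨hN1, hNa, hL4⟩ := h2 N (le_trans (le_max_right _ _) hN)
  have hN0 : (0 : ℝ) < N := by exact_mod_cast hN1
  set ρ : ℝ := (N : ℝ) ^ (1 / (d : ℝ)) with hρ
  have hρd : ρ ^ d = N := rpow_d d N hd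
  push_cast at hNa
  have hcA0 : (0 : ℝ) ≤ cA f := Nat.cast_nonneg _
  have hρ1 : 1 ≤ ρ := by linarith
  obtain ⟨Q, hQ⟩ : ∃ Q : ℕ, Q = QQ d N := ⟨_, rfl⟩
  have hQ1 : 3 * ρ ≤ Q := by rw [hQ]; exact Nat.le_ceil _
  have hQ2 : (Q : ℝ) ≤ 4 * ρ := by
    rw [hQ]
    have := (Nat.ceil_lt_add_one (show 0 ≤ 3 * ρ by positivity)).le
    unfold QQ
    linarith
  have hQ0 : (0 : ℝ) < Q := by linarith
  have hQ1' : 1 ≤ Q := by exact_mod_cast hQ0
  have hs : ∀ m ∈ Icc 1 Q, |g.eval (m : ℤ)| ≤ ((cA g * 4 ^ d : ℕ) : ℤ) * N := by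
    intro m hm
    rw [mem_Icc] at hm
    have h3 := eval_up g m hm.1
    rw [hgd] at h3
    refine h3.trans ?_
    have h4 : (m : ℝ) ^ d ≤ 4 ^ d * N := by
      calc (m : ℝ) ^ d ≤ (4 * ρ) ^ d := by
            apply pow_le_pow_left₀ (by positivity)
            exact le_trans (by exact_mod_cast hm.2) hQ2
        _ = 4 ^ d * N := by rw [mul_pow, hρd]
    have h5 : (m : ℤ) ^ d ≤ 4 ^ d * N := by exact_mod_cast h4
    push_cast
    calc (cA g : ℤ) * (m : ℤ) ^ d ≤ cA g * (4 ^ d * N) := mul_le_mul_of_nonneg_left h5 (by positivity)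
      _ = _ := by ring
  have hE : (energy p0 Q (fun m => g.eval (m : ℤ)) : ℝ) * N ≤ K * (Q : ℝ) ^ (2 * p0) := by
    have h3 := hE0 Q hQ1'
    rw [hgd] at h3
    have h4 : (N : ℝ) ≤ (Q : ℝ) ^ d := by
      rw [← hρd]
      exact pow_le_pow_left₀ (by linarith) (by linarith) _
    calc (energy p0 Q (fun m => g.eval (m : ℤ)) : ℝ) * N ≤ (energy p0 Q (fun m => g.eval (m : ℤ)) : ℝ) * (Q : ℝ) ^ d :=
          mul_le_mul_of_nonneg_left h4 (Nat.cast_nonneg _)
      _ ≤ C0 * (Q : ℝ) ^ (2 * p0) := h3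
      _ ≤ _ := mul_le_mul_of_nonneg_right (le_max_right _ _) (by positivity)
  have hUA : U ⊆ AA Q N (fun m => g.eval (m : ℤ)) := by
    intro x hx
    obtain ⟨y, hy⟩ := hUf x hx
    have hx1 := mem_Icc.1 (hU hx)
    rw [AA, mem_image]
    refine ⟨y + 1, ?_, ?_⟩
    · rw [T0, mem_filter, mem_Icc]
      have h3 : g.eval ((y + 1 : ℕ) : ℤ) = x := by
        rw [hgev (y + 1) (by omega), ← hy]
        rfl
      refine ⟨⟨by omega, ?_⟩, ?_⟩
      · -- the size of `y`
        have h4 : (y : ℝ) + 1 ≤ 3 * ρ := by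
          by_cases hys : 2 * cA f ≤ y
          · have h5 := eval_low f (by omega) hl y hys
            rw [hy, ← hdd] at h5
            have h6 : (y : ℝ) ^ d ≤ 2 * N := by
              have : (y : ℤ) ^ d ≤ 2 * N := by
                refine h5.trans ?_
                have : (x : ℤ) ≤ N := by exact_mod_cast hx1.2
                linarith
              exact_mod_cast this
            have h7 : (y : ℝ) ≤ 2 * ρ := by
              have h8 : (y : ℝ) ^ d ≤ (2 * ρ) ^ d := by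
                rw [mul_pow, hρd]
                refine h6.trans ?_
                apply mul_le_mul_of_nonneg_right _ hN0.le
                exact le_self_pow₀ (by norm_num) (by omega)
              exact le_of_pow_le_pow_left₀ (by omega) (by positivity) h8
            linarith
          · have h5 : (y : ℝ) ≤ 2 * cA f := by exact_mod_cast (by omega : y ≤ 2 * cA f)
            linarith
        have h5 : ((y + 1 : ℕ) : ℝ) ≤ Q := by push_cast; linarith
        exact_mod_cast h5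
      · rw [h3]
        constructor
        · exact_mod_cast hx1.1
        · exact_mod_cast hx1.2
    · rw [hgev (y + 1) (by omega)]
      have : ((y + 1 - 1 : ℕ) : ℤ) = y := by simp
      rw [this, hy]
      simp
  have hL0 : 0 < Real.log N := by push_cast at hL4; linarith
  have hUc2 : (Q : ℝ) / Real.log N ^ (B + 1) ≤ U.card := by
    refine le_trans ?_ hUc
    rw [pow_succ, div_le_div_iff₀ (by positivity) (by positivity)]
    push_cast at hL4
    calc (Q : ℝ) * Real.log N ^ B ≤ (4 * ρ) * Real.log N ^ B := mul_le_mul_of_nonneg_right hQ2 (by positivity)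
      _ = ρ * (Real.log N ^ B * 4) := by ring
      _ ≤ ρ * (Real.log N ^ B * Real.log N) := by
          apply mul_le_mul_of_nonneg_left _ (by linarith)
          exact mul_le_mul_of_nonneg_left hL4 (by positivity)
  have hfin := h1 N (le_trans (le_max_left _ _) hN) Q (fun m => g.eval (m : ℤ)) hs hE U hUA hQ1' hUc2
  refine le_trans ?_ hfin
  have hUpos : (0 : ℝ) < U.card := lt_of_lt_of_le (by positivity) hUc2
  have hUQ : (U.card : ℝ) ≤ Q := by exact_mod_cast (card_le_card hUA).trans (AA_card Q N _)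
  apply mul_le_mul_of_nonneg_left _ hc.le
  have hratio : 16 ≤ 16 * Q / (U.card : ℝ) := by
    rw [le_div_iff₀ hUpos]
    linarith
  have hlog16 : (2.77 : ℝ) ≤ Real.log 16 := by
    rw [show (16 : ℝ) = 2 ^ 4 by norm_num, Real.log_pow]
    have := Real.log_two_gt_d9
    push_cast
    linarith
  have ht1 : 2.77 ≤ Real.log (16 * Q / U.card) := hlog16.trans (Real.log_le_log (by norm_num) hratio)
  have ht2 : Real.log (16 * Q / U.card) ≤ Real.log (64 * ρ / U.card) := by
    apply Real.log_le_log (by positivity)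
    apply div_le_div_of_nonneg_right _ hUpos.le
    linarith
  have ht3 : Real.log (Real.log (16 * Q / U.card)) ≤ Real.log (Real.log (64 * ρ / U.card)) :=
    Real.log_le_log (by linarith) ht2
  have ht4 : 0 < Real.log (Real.log (16 * Q / U.card)) := Real.log_pos (by linarith)
  apply div_le_div_of_nonneg_left hN0.le (by positivity)
  exact pow_le_pow_left₀ ht4.le ht3 2

end Pool.Agent.L0h44.AS
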