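import Pool.Agent.L0h44.AS.TF8
import Pool.Agent.L0h44.AS.ArbS
import Pool.Agent.H373R2.T7.Crt

set_option autoImplicit false

/-! The values of a polynomial: the lower bound is sharp. -/

namespace Pool.Agent.L0h44.AS

open Finset Polynomial
open Pool.Agent.H373R2.T7 (pz Vz mem_pz Vz_pos crt_card)

/-- a good class for the arguments -/
lemma good_class (f : ℤ[X]) (P0 w : ℕ) (h1 : f.natDegree < P0) (h2 : f.leadingCoeff.natAbs < P0) (hl : 0 < f.leadingCoeff) :
    ∃ b : ℕ, b < PW w ∧ ∀ p ∈ pz w, P0 ≤ p → ¬ (p : ℤ) ∣ f.eval (b : ℤ) := by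
  classical
  set A : ℕ → ℕ → Prop := fun p a => P0 ≤ p → ¬ (p : ℤ) ∣ f.eval (a : ℤ) with hA
  have hc := crt_card A (pz w) (fun p hp => (mem_pz.1 hp).2)
  have hpos : 0 < ∏ p ∈ pz w, ((range p).filter (fun a => A p a)).card := by
    apply prod_pos
    intro p hp
    have hpp := (mem_pz.1 hp).2
    have : Fact p.Prime := ⟨hpp⟩
    rw [card_pos]
    by_cases hP : P0 ≤ p
    · -- a residue which is not a root
      by_contra hcon
      rw [not_nonempty_iff_eq_empty, filter_eq_empty_iff] at hcon
      set F : (ZMod p)[X] := f.map (Int.castRingHom (ZMod p)) with hF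
      have hlc : ((f.leadingCoeff : ℤ) : ZMod p) ≠ 0 := by
        rw [Ne, ZMod.intCast_zmod_eq_zero_iff_dvd]
        intro h
        have h3 := Int.le_of_dvd hl h
        omega
      have hFd : F.natDegree = f.natDegree := by
        rw [hF]
        apply natDegree_map_of_leadingCoeff_ne_zero
        simpa using hlc
      have hF0 : F ≠ 0 := by
        intro h
        have h3 : F.coeff f.natDegree = 0 := by rw [h]; simp
        rw [hF, coeff_map] at h3
        exact hlc (by simpa using h3)
      have hroots : (univ : Finset (ZMod p)) ⊆ F.roots.toFinset := by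
        intro t _
        rw [Multiset.mem_toFinset, mem_roots hF0, IsRoot.def, hF]
        have h3 := hcon (x := t.val) (mem_range.2 (ZMod.val_lt t))
        simp only [hA, not_forall, not_not] at h3
        obtain ⟨_, h4⟩ := h3
        rw [← ZMod.intCast_zmod_eq_zero_iff_dvd] at h4
        rw [eval_map, eval₂_eq_eval_map]
        have h5 : ((f.eval ((t.val : ℕ) : ℤ) : ℤ) : ZMod p) = (f.map (Int.castRingHom (ZMod p))).eval t := by
          have h6 := eval_map_apply (Int.castRingHom (ZMod p)) ((t.val : ℕ) : ℤ) (p := f)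
          simp only [eq_intCast, Int.cast_natCast, ZMod.natCast_zmod_val] at h6
          exact h6.symm
        rw [← h5]
        exact h4
      have h3 := card_le_card hroots
      rw [card_univ, ZMod.card] at h3
      have h4 : F.roots.toFinset.card ≤ f.natDegree := by
        rw [← hFd]
        exact (Multiset.toFinset_card_le _).trans (card_roots' F)
      omega
    · exact ⟨0, mem_filter.2 ⟨mem_range.2 hpp.pos, fun h => absurd h hP⟩⟩
  rw [← hc, card_pos] at hpos
  obtain ⟨b, hb⟩ := hpos
  rw [mem_filter, mem_range] at hb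
  refine ⟨b, hb.1, ?_⟩
  intro p hp hP hd
  apply hb.2 p hp hP
  have h3 : (p : ℤ) ∣ (b : ℤ) - ((b % p : ℕ) : ℤ) := by
    have h4 := Nat.mod_add_div b p
    refine ⟨((b / p : ℕ) : ℤ), ?_⟩
    have h5 : ((b % p + p * (b / p) : ℕ) : ℤ) = b := by rw [h4]
    push_cast at h5 ⊢
    linarith
  have h6 : (p : ℤ) ∣ f.eval (b : ℤ) - f.eval ((b % p : ℕ) : ℤ) := h3.trans (sub_dvd_eval_sub _ _ _)
  have h7 := dvd_sub hd h6
  simpa using h7

end Pool.Agent.L0h44.AS
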